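import Mathlib

/-!
# Closed covers of the plane without distance one

The definitions of the final statement on the closed chromatic number of the plane.
-/

namespace Pool.Agent.H923_Poly

/-- The sets of the family cover the plane. -/
def Covers {k : ℕ} (A : Fin k → Set ℂ) : Prop := ∀ z : ℂ, ∃ a, z ∈ A a

/-- No two points of `A` are at distance exactly one. -/
def UnitDistanceFree (A : Set ℂ) : Prop := ∀ x ∈ A, ∀ y ∈ A, dist x y ≠ 1

/-- `u₂`: the least `k` such that the plane is a union of `k` closed unit-distance-free sets. -/
noncomputable def closedChromaticNumber : ℕ :=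
  sInf {k : ℕ | ∃ A : Fin k → Set ℂ, Covers A ∧ ∀ a, IsClosed (A a) ∧ UnitDistanceFree (A a)}

/-- `v₂`: the least `k` such that the plane is a union of `k` closed unit-distance-free sets which are pairwise congruent (each
is the image of each other one under an isometry of the plane onto itself). -/
noncomputable def congruentClosedChromaticNumber : ℕ :=
  sInf {k : ℕ | ∃ A : Fin k → Set ℂ, Covers A ∧ (∀ a, IsClosed (A a) ∧ UnitDistanceFree (A a)) ∧
    ∀ a b, ∃ g : ℂ ≃ᵢ ℂ, g '' A a = A b}

end Pool.Agent.H923_Poly
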