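import Pool.Agent.H923_Poly.K10a

/-!
# Part K10 of the project: parity of the winding of the phase
-/

open Complex Filter Topology Set Metric

namespace Pool.Agent.H923_Poly

namespace K10

section sys

variable {S : TileSystem} {v : ℂ} {F : Finset (Fin 6)} {κ : Fin 3 → Fin 6} {f : ℝ → ℝ}

theorem rel_gp (hκ : Function.Injective κ) {m ε : ℤ} (hε : ε = 1 ∨ ε = 2)
    (H : ∀ (a : ℝ) (i : ℕ → S.ι), (∀ j : ℕ, j ≤ 6 → v + e (a + j * (Real.pi / 3)) ∈ S.T (i j)) →
      ∃ N : ℤ, ∀ j : ℕ, j ≤ 6 → S.c (i j) = κ (kk (N + j * (3 * m + ε))))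
    (t : ℝ) (i i' : S.ι) (k : Fin 3) (hi : S.gp v (v + e t) i)
    (hi' : S.gp v (v + e (t + Real.pi / 3)) i') (hk : S.c i = κ k) :
    S.c i' = κ (k + kk ε) := by
  choose g hg using fun j : ℕ => TileSystem.exists_gp (S := S) (dist_e v (t + j * (Real.pi / 3)))
  have h0 : g 0 = i := by
    refine TileSystem.gp_unique ?_ hi
    simpa using hg 0
  have h1 : g 1 = i' := by
    refine TileSystem.gp_unique ?_ hi'
    simpa using hg 1
  obtain ⟨h, hh⟩ := (ev_gp (S := S) (v := v) (t := t) (g := g) (fun j _ => hg j)).exists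
  obtain ⟨N, hN⟩ := H _ _ hh
  have e0 := hN 0 (by norm_num)
  have e1 := hN 1 (by norm_num)
  rw [h0, hk] at e0
  rw [h1] at e1
  have e2 : k = kk N := by
    have := hκ e0
    simpa using this
  rw [e1, e2]
  congr 1
  rcases hε with rfl | rfl
  · have h3 := kk_add_one N m
    have h4 : (kk 1 : Fin 3) = 1 := by decide
    rw [h4, ← h3]
    congr 1
    push_cast
    ring
  · have h3 := kk_add_two N m
    have h4 : (kk 2 : Fin 3) = 2 := by decide
    rw [h4, ← h3]
    congr 1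
    push_cast
    ring

theorem rel_gm (hκ : Function.Injective κ) {m ε : ℤ} (hε : ε = 1 ∨ ε = 2)
    (H : ∀ (a : ℝ) (i : ℕ → S.ι), (∀ j : ℕ, j ≤ 6 → v + e (a + j * (Real.pi / 3)) ∈ S.T (i j)) →
      ∃ N : ℤ, ∀ j : ℕ, j ≤ 6 → S.c (i j) = κ (kk (N + j * (3 * m + ε))))
    (t : ℝ) (i i' : S.ι) (k : Fin 3) (hi : S.gm v (v + e t) i)
    (hi' : S.gm v (v + e (t + Real.pi / 3)) i') (hk : S.c i = κ k) :
    S.c i' = κ (k + kk ε) := by
  choose g hg using fun j : ℕ => TileSystem.exists_gm (S := S) (dist_e v (t + j * (Real.pi / 3)))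
  have h0 : g 0 = i := by
    refine TileSystem.gm_unique ?_ hi
    simpa using hg 0
  have h1 : g 1 = i' := by
    refine TileSystem.gm_unique ?_ hi'
    simpa using hg 1
  obtain ⟨h, hh⟩ := (ev_gm (S := S) (v := v) (t := t) (g := g) (fun j _ => hg j)).exists
  obtain ⟨N, hN⟩ := H _ _ hh
  have e0 := hN 0 (by norm_num)
  have e1 := hN 1 (by norm_num)
  rw [h0, hk] at e0
  rw [h1] at e1
  have e2 : k = kk N := by
    have := hκ e0
    simpa using this
  rw [e1, e2]
  congr 1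
  rcases hε with rfl | rfl
  · have h3 := kk_add_one N m
    have h4 : (kk 1 : Fin 3) = 1 := by decide
    rw [h4, ← h3]
    congr 1
    push_cast
    ring
  · have h3 := kk_add_two N m
    have h4 : (kk 2 : Fin 3) = 2 := by decide
    rw [h4, ← h3]
    congr 1
    push_cast
    ring

/-- a point where the phase is a half integer -/
theorem exists_half (hf : Continuous f) {a b : ℝ} {N N' : ℤ} (hne : N ≠ N') (ha : |f a - N| < 1 / 2)
    (hb : |f b - N'| < 1 / 2) : ∃ (t : ℝ) (M : ℤ), f t = M + 1 / 2 := by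
  rw [abs_lt] at ha hb
  rcases lt_or_gt_of_ne hne with h | h
  · have h1 : (N : ℝ) + 1 ≤ N' := by exact_mod_cast h
    obtain ⟨t, ht⟩ := mem_range_of_exists_le_of_exists_ge hf (c := (N : ℝ) + 1 / 2)
      ⟨a, by linarith [ha.2]⟩ ⟨b, by linarith [hb.1]⟩
    exact ⟨t, N, ht⟩
  · have h1 : (N' : ℝ) + 1 ≤ N := by exact_mod_cast h
    obtain ⟨t, ht⟩ := mem_range_of_exists_le_of_exists_ge hf (c := (N' : ℝ) + 1 / 2)
      ⟨b, by linarith [hb.2]⟩ ⟨a, by linarith [ha.1]⟩
    exact ⟨t, N', ht⟩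

/-- a point of the circle with two germ colors -/
theorem exists_two (hκ : Function.Injective κ) (hf : S.IsPhase v κ f) {t : ℝ} {M : ℤ}
    (ht : f t = M + 1 / 2) : ∃ i i', S.gp v (v + e t) i ∧ S.gm v (v + e t) i' ∧ S.c i ≠ S.c i' := by
  have key : ∀ M' : ℤ, |f t - M'| ≤ 1 / 2 → κ (kk M') ∈ S.germColors v (v + e t) := by
    intro M' hM
    apply (hf.2 t (kk M')).2
    refine ⟨M' / 3, ?_⟩
    have e1 : (3 * ((M' / 3 : ℤ) : ℝ) + ((kk M' : Fin 3) : ℕ)) = M' := by
      have : (3 * (M' / 3) + ((kk M' : ℕ) : ℤ)) = M' := by rw [kk_val]; omega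
      exact_mod_cast this
    rw [e1]; exact hM
  have h1 := key M (by rw [ht, abs_le]; constructor <;> linarith)
  have h2 := key (M + 1) (by rw [ht, abs_le]; push_cast; constructor <;> linarith)
  have hne : κ (kk M) ≠ κ (kk (M + 1)) := by
    intro h
    have := kk_eq (hκ h)
    omega
  obtain ⟨i, hi⟩ := TileSystem.exists_gp (S := S) (dist_e v t)
  obtain ⟨i', hi'⟩ := TileSystem.exists_gm (S := S) (dist_e v t)
  refine ⟨i, i', hi, hi', fun heq => hne ?_⟩
  have h3 : ∀ a ∈ S.germColors v (v + e t), a = S.c i := by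
    rintro a ⟨j, hj, rfl⟩
    rcases hj with hj | hj
    · rw [TileSystem.gp_unique hj hi]
    · rw [TileSystem.gm_unique hj hi', heq]
  rw [h3 _ h1, h3 _ h2]

theorem pol_gp {y x : ℂ} {β : ℝ} {i : S.ι} (hx : x = y + e β) (h : S.gp y x i) :
    ∀ᶠ h in 𝓝[>] (0 : ℝ), x + (2 * Real.sin (h / 2) : ℝ) * e (β + Real.pi / 2 + h / 2) ∈ S.T i := by
  filter_upwards [h] with h hh
  rw [hx, add_sub_cancel_left, chord_pos] at hh
  rw [hx]; exact hh

theorem pol_gm {y x : ℂ} {β : ℝ} {i : S.ι} (hx : x = y + e β) (h : S.gm y x i) :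
    ∀ᶠ h in 𝓝[>] (0 : ℝ), x + (2 * Real.sin (h / 2) : ℝ) * e (β - Real.pi / 2 - h / 2) ∈ S.T i := by
  filter_upwards [h] with h hh
  rw [hx, add_sub_cancel_left, chord_neg] at hh
  rw [hx]; exact hh

theorem norm_sum (a b : ℝ) : ‖e a + e b‖ ^ 2 = 2 + 2 * Real.cos (a - b) := by
  rw [← Complex.normSq_eq_norm_sq, Complex.normSq_apply, Complex.add_re, Complex.add_im, e_re, e_re,
    e_im, e_im, Real.cos_sub]
  have h1 := Real.sin_sq_add_cos_sq a
  have h2 := Real.sin_sq_add_cos_sq b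
  linear_combination h1 + h2

/-- the local picture at a point of the circle -/
theorem alt {t : ℝ} {a30 a90 a150 a210 a270 a330 : S.ι}
    (h90 : S.gp v (v + e t) a90) (h270 : S.gm v (v + e t) a270)
    (h30 : S.gp (v + e (t + Real.pi / 3)) (v + e t) a30)
    (h210 : S.gm (v + e (t + Real.pi / 3)) (v + e t) a210)
    (h150 : S.gp (v + e (t - Real.pi / 3)) (v + e t) a150)
    (h330 : S.gm (v + e (t - Real.pi / 3)) (v + e t) a330) :
    (∀ X : Set S.ι, a270 ∈ X → a330 ∉ X → a30 ∈ X → a150 ∉ X → False) ∧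
    (∀ X : Set S.ι, a210 ∈ X → a330 ∉ X → a90 ∈ X → a150 ∉ X → False) ∧
    (∃ z ∈ S.T a30, dist z (v + e (t + Real.pi / 3)) = 1 ∧ 1 < dist z v) ∧
    (∃ z ∈ S.T a210, dist z (v + e (t + Real.pi / 3)) = 1 ∧ dist z v < 1) := by
  obtain ⟨r, hr, H⟩ := TileSystem.alternation (S := S) (v + e t)
  have hpi := Real.pi_pos
  have hx1 : v + e t = (v + e (t + Real.pi / 3)) + e (t - Real.pi / 3) := by
    rw [← sixty]; ring
  have hx2 : v + e t = (v + e (t - Real.pi / 3)) + e (t + Real.pi / 3) := by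
    rw [← sixty]; ring
  have p90 := pol_gp rfl h90
  have p270 := pol_gm rfl h270
  have p30 := pol_gp hx1 h30
  have p210 := pol_gm hx1 h210
  have p150 := pol_gp hx2 h150
  have p330 := pol_gm hx2 h330
  have hs : ∀ᶠ h in 𝓝[>] (0 : ℝ), 2 * Real.sin (h / 2) ∈ Ioo 0 r :=
    TileSystem.tendsto_chord.eventually (Ioo_mem_nhdsGT hr)
  have hh : ∀ᶠ h in 𝓝[>] (0 : ℝ), h ∈ Ioo 0 (Real.pi / 3) := Ioo_mem_nhdsGT (by positivity)
  obtain ⟨h, ⟨⟨⟨⟨⟨⟨⟨q90, q270⟩, q30⟩, q210⟩, q150⟩, q330⟩, hs⟩, hh⟩, hh30, hh210⟩ :=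
    ((((((((p90.and p270).and p30).and p210).and p150).and p330).and hs).and hh).and
      (h30.and h210)).exists
  have H1 := H _ hs
  refine ⟨fun X x1 x2 x3 x4 => ?_, fun X x1 x2 x3 x4 => ?_, ?_, ?_⟩
  · exact H1 _ _ _ _ (by linarith [hh.1]) (by linarith [hh.1]) (by linarith [hh.1])
      (by linarith [hh.2]) X _ _ _ _ q270 q330 q30 q150 x1 x2 x3 x4
  · exact H1 _ _ _ _ (by linarith [hh.1]) (by linarith [hh.1]) (by linarith [hh.1])
      (by linarith [hh.2]) X _ _ _ _ q210 q330 q90 q150 x1 x2 x3 x4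
  · have e1 : v + e (t + Real.pi / 3) + (v + e t - (v + e (t + Real.pi / 3))) * e h =
        v + e (t + Real.pi / 3) + e (t - Real.pi / 3 + h) := by
      rw [e_add (t - Real.pi / 3), ← sixty]; ring
    rw [e1] at hh30
    refine ⟨_, hh30, dist_e _ _, ?_⟩
    have e2 : (1 : ℝ) ^ 2 < dist (v + e (t + Real.pi / 3) + e (t - Real.pi / 3 + h)) v ^ 2 := by
      rw [dist_eq_norm, show v + e (t + Real.pi / 3) + e (t - Real.pi / 3 + h) - v =
        e (t + Real.pi / 3) + e (t - Real.pi / 3 + h) by ring, norm_sum]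
      have h1 : Real.cos (2 * Real.pi / 3) < Real.cos (t + Real.pi / 3 - (t - Real.pi / 3 + h)) :=
        Real.cos_lt_cos_of_nonneg_of_le_pi (by linarith [hh.2]) (by linarith) (by linarith [hh.1])
      have h2 : Real.cos (2 * Real.pi / 3) = -(1 / 2) := by
        rw [show 2 * Real.pi / 3 = Real.pi - Real.pi / 3 by ring, Real.cos_pi_sub,
          Real.cos_pi_div_three]
      rw [h2] at h1
      linarith
    exact lt_of_pow_lt_pow_left₀ 2 dist_nonneg e2
  · have e1 : v + e (t + Real.pi / 3) + (v + e t - (v + e (t + Real.pi / 3))) * e (-h) =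
        v + e (t + Real.pi / 3) + e (t - Real.pi / 3 + -h) := by
      rw [e_add (t - Real.pi / 3), ← sixty]; ring
    rw [e1] at hh210
    refine ⟨_, hh210, dist_e _ _, ?_⟩
    have e2 : dist (v + e (t + Real.pi / 3) + e (t - Real.pi / 3 + -h)) v ^ 2 < (1 : ℝ) ^ 2 := by
      rw [dist_eq_norm, show v + e (t + Real.pi / 3) + e (t - Real.pi / 3 + -h) - v =
        e (t + Real.pi / 3) + e (t - Real.pi / 3 + -h) by ring, norm_sum]
      have h1 : Real.cos (t + Real.pi / 3 - (t - Real.pi / 3 + -h)) < Real.cos (2 * Real.pi / 3) :=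
        Real.cos_lt_cos_of_nonneg_of_le_pi (by linarith [hh.2]) (by linarith [hh.2])
          (by linarith [hh.1])
      have h2 : Real.cos (2 * Real.pi / 3) = -(1 / 2) := by
        rw [show 2 * Real.pi / 3 = Real.pi - Real.pi / 3 by ring, Real.cos_pi_sub,
          Real.cos_pi_div_three]
      rw [h2] at h1
      linarith
    exact lt_of_pow_lt_pow_left₀ 2 zero_le_one e2

/-- the local picture at a point of the circle with two germ colors -/
theorem loc (hv : S.TripleOf v F) (hκ : Function.Injective κ) (hF : ∀ k, κ k ∉ F) {δ : Fin 3}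
    (hδ : δ ≠ 0)
    (Rp : ∀ (t : ℝ) (i i' : S.ι) (k : Fin 3), S.gp v (v + e t) i →
      S.gp v (v + e (t + Real.pi / 3)) i' → S.c i = κ k → S.c i' = κ (k + δ))
    (Rm : ∀ (t : ℝ) (i i' : S.ι) (k : Fin 3), S.gm v (v + e t) i →
      S.gm v (v + e (t + Real.pi / 3)) i' → S.c i = κ k → S.c i' = κ (k + δ))
    {t : ℝ} {a90 a270 : S.ι} (h90 : S.gp v (v + e t) a90) (h270 : S.gm v (v + e t) a270)
    {p q : Fin 3} (hp : S.c a90 = κ p) (hq : S.c a270 = κ q) (hpq : p ≠ q) :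
    ∃ b, S.At (v + e t) b ∧ S.c b ∈ F ∧ ∃ z ∈ S.T b, dist z (v + e (t + Real.pi / 3)) = 1 ∧
      ((p + δ ≠ q ∧ 1 < dist z v) ∨ (p + δ = q ∧ dist z v < 1)) := by
  obtain ⟨b, hb⟩ := TileSystem.exists_gp (S := S) (dist_e v (t + Real.pi / 3))
  obtain ⟨b', hb'⟩ := TileSystem.exists_gm (S := S) (dist_e v (t + Real.pi / 3))
  obtain ⟨c, hc⟩ := TileSystem.exists_gp (S := S) (dist_e v (t - Real.pi / 3))
  obtain ⟨c', hc'⟩ := TileSystem.exists_gm (S := S) (dist_e v (t - Real.pi / 3))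
  have cb : S.c b = κ (p + δ) := Rp t a90 b p h90 hb hp
  have cb' : S.c b' = κ (q + δ) := Rm t a270 b' q h270 hb' hq
  have cc : S.c c = κ (p - δ) := by
    obtain ⟨k, hk⟩ := kap_surj hv.1 hκ hF (hv.gp_not_mem (dist_e v _) hc)
    have := Rp (t - Real.pi / 3) c a90 k hc (by rwa [sub_add_cancel]) hk.symm
    rw [hp] at this
    have h1 := hκ this
    rw [← hk, h1, add_sub_cancel_right]
  have cc' : S.c c' = κ (q - δ) := by
    obtain ⟨k, hk⟩ := kap_surj hv.1 hκ hF (hv.gm_not_mem (dist_e v _) hc')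
    have := Rm (t - Real.pi / 3) c' a270 k hc' (by rwa [sub_add_cancel]) hk.symm
    rw [hq] at this
    have h1 := hκ this
    rw [← hk, h1, add_sub_cancel_right]
  have dx1 : dist (v + e t) (v + e (t + Real.pi / 3)) = 1 := dist_sixty v t
  have dx2 : dist (v + e t) (v + e (t - Real.pi / 3)) = 1 := by
    have := dist_sixty v (t - Real.pi / 3)
    rw [sub_add_cancel, dist_comm] at this
    exact this
  obtain ⟨a30, h30⟩ := TileSystem.exists_gp (S := S) dx1
  obtain ⟨a210, h210⟩ := TileSystem.exists_gm (S := S) dx1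
  obtain ⟨a150, h150⟩ := TileSystem.exists_gp (S := S) dx2
  obtain ⟨a330, h330⟩ := TileSystem.exists_gm (S := S) dx2
  have n30 : S.c a30 ≠ κ (p + δ) := by
    rw [← cb]; exact TileSystem.gp_color_ne dx1 h30 (TileSystem.gp_at hb)
  have n30' : S.c a30 ≠ κ (q + δ) := by
    rw [← cb']; exact TileSystem.gp_color_ne dx1 h30 (TileSystem.gm_at hb')
  have n210 : S.c a210 ≠ κ (p + δ) := by
    rw [← cb]; exact TileSystem.gm_color_ne dx1 h210 (TileSystem.gp_at hb)
  have n210' : S.c a210 ≠ κ (q + δ) := by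
    rw [← cb']; exact TileSystem.gm_color_ne dx1 h210 (TileSystem.gm_at hb')
  have n150 : S.c a150 ≠ κ (p - δ) := by
    rw [← cc]; exact TileSystem.gp_color_ne dx2 h150 (TileSystem.gp_at hc)
  have n150' : S.c a150 ≠ κ (q - δ) := by
    rw [← cc']; exact TileSystem.gp_color_ne dx2 h150 (TileSystem.gm_at hc')
  have n330 : S.c a330 ≠ κ (p - δ) := by
    rw [← cc]; exact TileSystem.gm_color_ne dx2 h330 (TileSystem.gp_at hc)
  have n330' : S.c a330 ≠ κ (q - δ) := by
    rw [← cc']; exact TileSystem.gm_color_ne dx2 h330 (TileSystem.gm_at hc')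
  obtain ⟨A1, A2, ⟨z, hz, hz1, hz2⟩, ⟨y, hy, hy1, hy2⟩⟩ := alt h90 h270 h30 h210 h150 h330
  by_cases hcase : p + δ = q
  · -- inner case
    refine ⟨a210, TileSystem.gm_at h210, ?_, y, hy, hy1, Or.inr ⟨hcase, hy2⟩⟩
    have n210p : S.c a210 ≠ κ p := by
      intro h
      have e1 : q - δ = p := by rw [← hcase, add_sub_cancel_right]
      rw [e1] at n330' n150'
      exact A2 {i | S.c i = κ p} h n330' hp n150'
    by_contra hnot
    obtain ⟨k, hk⟩ := kap_surj hv.1 hκ hF hnot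
    have h3 : ∀ p q δ k : Fin 3, p ≠ q → δ ≠ 0 → p + δ = q → k = p ∨ k = p + δ ∨ k = q + δ := by
      decide
    rcases h3 p q δ k hpq hδ hcase with rfl | rfl | rfl
    · exact n210p hk.symm
    · exact n210 hk.symm
    · exact n210' hk.symm
  · -- outer case
    refine ⟨a30, TileSystem.gp_at h30, ?_, z, hz, hz1, Or.inl ⟨hcase, hz2⟩⟩
    have n30q : S.c a30 ≠ κ q := by
      intro h
      have h4 : ∀ p q δ : Fin 3, p ≠ q → δ ≠ 0 → p + δ ≠ q → p - δ = q := by decide
      have e1 : p - δ = q := h4 p q δ hpq hδ hcase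
      rw [e1] at n330 n150
      exact A1 {i | S.c i = κ q} hq n330 h n150
    by_contra hnot
    obtain ⟨k, hk⟩ := kap_surj hv.1 hκ hF hnot
    have h3 : ∀ p q δ k : Fin 3, p ≠ q → δ ≠ 0 → p + δ ≠ q → k = q ∨ k = p + δ ∨ k = q + δ := by
      decide
    rcases h3 p q δ k hpq hδ hcase with rfl | rfl | rfl
    · exact n30q hk.symm
    · exact n30 hk.symm
    · exact n30' hk.symm

theorem no_zero {α β τ : ℝ} (h : α < β) (hz : ∀ u ∈ Ioo α β, Real.cos (u - τ) = 0) : False := by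
  have hd : 0 < min ((β - α) / 4) 1 := lt_min (by linarith) one_pos
  have hd1 : min ((β - α) / 4) 1 ≤ (β - α) / 4 := min_le_left _ _
  have hd2 : min ((β - α) / 4) 1 ≤ 1 := min_le_right _ _
  generalize min ((β - α) / 4) 1 = d at hd hd1 hd2
  have h1 := hz ((α + β) / 2) ⟨by linarith, by linarith⟩
  have h2 := hz ((α + β) / 2 + d) ⟨by linarith, by linarith⟩
  have h3 : Real.sin d = 0 := by
    rw [show d = ((α + β) / 2 + d - τ) - ((α + β) / 2 - τ) by ring, Real.sin_sub, h1, h2]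
    ring
  have h4 := Real.sin_pos_of_pos_of_lt_pi hd (by linarith [Real.pi_gt_three])
  linarith

theorem dist_sq (v : ℂ) (s u t : ℝ) :
    dist (v + (s : ℂ) * e u) (v + e t) ^ 2 = s ^ 2 + 1 - 2 * s * Real.cos (u - t) := by
  rw [dist_eq_norm, show v + (s : ℂ) * e u - (v + e t) = (s : ℂ) * e u - e t by ring,
    ← Complex.normSq_eq_norm_sq, Complex.normSq_apply, Complex.sub_re, Complex.sub_im,
    Complex.re_ofReal_mul, Complex.im_ofReal_mul, e_re, e_re, e_im, e_im, Real.cos_sub]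
  have h1 := Real.sin_sq_add_cos_sq u
  have h2 := Real.sin_sq_add_cos_sq t
  linear_combination s ^ 2 * h1 + h2

theorem cos_tri (x : ℝ) :
    Real.cos x + Real.cos (x - 2 * (Real.pi / 3)) + Real.cos (x - 4 * (Real.pi / 3)) = 0 := by
  have h1 : Real.cos (2 * (Real.pi / 3)) = -(1 / 2) := by
    rw [show 2 * (Real.pi / 3) = Real.pi - Real.pi / 3 by ring, Real.cos_pi_sub,
      Real.cos_pi_div_three]
  have h2 : Real.cos (4 * (Real.pi / 3)) = -(1 / 2) := by
    rw [show 4 * (Real.pi / 3) = Real.pi / 3 + Real.pi by ring, Real.cos_add_pi,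
      Real.cos_pi_div_three]
  have h3 : Real.sin (4 * (Real.pi / 3)) = - Real.sin (2 * (Real.pi / 3)) := by
    rw [show 4 * (Real.pi / 3) = Real.pi / 3 + Real.pi by ring, Real.sin_add_pi,
      show 2 * (Real.pi / 3) = Real.pi - Real.pi / 3 by ring, Real.sin_pi_sub]
  rw [Real.cos_sub, Real.cos_sub, h1, h2, h3]
  ring

/-- no six colors with the found properties -/
theorem six_colors {F : Finset (Fin 6)} (hc : F.card = 3) (j : ℕ → Fin 6) (hj : ∀ i, j i ∈ F)
    (adj : ∀ i, j i ≠ j (i + 1)) (wrap : j 5 ≠ j 0) (opp : ∀ i, j i ≠ j (i + 3))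
    (tri : ∀ i, j i = j (i + 2) → j i = j (i + 4) → False) : False := by
  classical
  have hdis : Disjoint ({j 0, j 2, j 4} : Finset (Fin 6)) {j 1, j 3, j 5} := by
    rw [Finset.disjoint_left]
    intro a ha hb
    simp only [Finset.mem_insert, Finset.mem_singleton] at ha hb
    have a0 := adj 0
    have a1 := adj 1
    have a2 := adj 2
    have a3 := adj 3
    have a4 := adj 4
    have o0 := opp 0
    have o1 := opp 1
    have o2 := opp 2
    norm_num at a0 a1 a2 a3 a4 o0 o1 o2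
    rcases ha with rfl | rfl | rfl <;> rcases hb with hb | hb | hb
    · exact a0 hb
    · exact o0 hb
    · exact wrap hb.symm
    · exact a1 hb.symm
    · exact a2 hb
    · exact o2 hb
    · exact o1 hb.symm
    · exact a3 hb.symm
    · exact a4 hb
  have hA : 1 < ({j 0, j 2, j 4} : Finset (Fin 6)).card := by
    by_contra h
    rw [not_lt, Finset.card_le_one] at h
    exact tri 0 (h _ (by simp) _ (by simp)) (h _ (by simp) _ (by simp))
  have hB : 1 < ({j 1, j 3, j 5} : Finset (Fin 6)).card := by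
    by_contra h
    rw [not_lt, Finset.card_le_one] at h
    exact tri 1 (h _ (by simp) _ (by simp)) (h _ (by simp) _ (by simp))
  have hsub : ({j 0, j 2, j 4} : Finset (Fin 6)) ∪ {j 1, j 3, j 5} ⊆ F := by
    intro a ha
    simp only [Finset.mem_union, Finset.mem_insert, Finset.mem_singleton] at ha
    rcases ha with (rfl | rfl | rfl) | (rfl | rfl | rfl) <;> exact hj _
  have h1 := Finset.card_le_card hsub
  rw [Finset.card_union_of_disjoint hdis, hc] at h1
  omega

theorem final (hv : S.TripleOf v F) (hκ : Function.Injective κ) (hF : ∀ k, κ k ∉ F) {δ : Fin 3}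
    (hδ : δ ≠ 0)
    (Rp : ∀ (t : ℝ) (i i' : S.ι) (k : Fin 3), S.gp v (v + e t) i →
      S.gp v (v + e (t + Real.pi / 3)) i' → S.c i = κ k → S.c i' = κ (k + δ))
    (Rm : ∀ (t : ℝ) (i i' : S.ι) (k : Fin 3), S.gm v (v + e t) i →
      S.gm v (v + e (t + Real.pi / 3)) i' → S.c i = κ k → S.c i' = κ (k + δ))
    {t₀ : ℝ} {a a' : S.ι} (ha : S.gp v (v + e t₀) a) (ha' : S.gm v (v + e t₀) a')
    (hne : S.c a ≠ S.c a') : False := by
  choose g hg using fun j : ℕ => TileSystem.exists_gp (S := S) (dist_e v (t₀ + j * (Real.pi / 3)))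
  choose g' hg' using fun j : ℕ =>
    TileSystem.exists_gm (S := S) (dist_e v (t₀ + j * (Real.pi / 3)))
  have g0 : g 0 = a := by
    refine TileSystem.gp_unique ?_ ha
    simpa using hg 0
  have g0' : g' 0 = a' := by
    refine TileSystem.gm_unique ?_ ha'
    simpa using hg' 0
  obtain ⟨p, hp⟩ := kap_surj hv.1 hκ hF (hv.gp_not_mem (dist_e v _) ha)
  obtain ⟨q, hq⟩ := kap_surj hv.1 hκ hF (hv.gm_not_mem (dist_e v _) ha')
  have hpq : p ≠ q := by
    rintro rfl
    exact hne (hp.symm.trans hq)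
  have ht : ∀ j : ℕ, t₀ + ((j + 1 : ℕ) : ℝ) * (Real.pi / 3) =
      t₀ + (j : ℝ) * (Real.pi / 3) + Real.pi / 3 := by
    intro j; push_cast; ring
  have cg : ∀ j : ℕ, S.c (g j) = κ (p + j • δ) := by
    intro j
    induction j with
    | zero => rw [g0, zero_nsmul, add_zero, hp]
    | succ j ih =>
      have h1 := hg (j + 1)
      rw [ht] at h1
      rw [Rp _ _ _ _ (hg j) h1 ih, succ_nsmul, add_assoc]
  have cg' : ∀ j : ℕ, S.c (g' j) = κ (q + j • δ) := by
    intro j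
    induction j with
    | zero => rw [g0', zero_nsmul, add_zero, hq]
    | succ j ih =>
      have h1 := hg' (j + 1)
      rw [ht] at h1
      rw [Rm _ _ _ _ (hg' j) h1 ih, succ_nsmul, add_assoc]
  have hloc : ∀ j : ℕ, ∃ b, S.At (v + e (t₀ + j * (Real.pi / 3))) b ∧ S.c b ∈ F ∧
      ∃ z ∈ S.T b, dist z (v + e (t₀ + (j : ℝ) * (Real.pi / 3) + Real.pi / 3)) = 1 ∧
      ((p + δ ≠ q ∧ 1 < dist z v) ∨ (p + δ = q ∧ dist z v < 1)) := by
    intro j
    obtain ⟨b, hb1, hb2, z, hz1, hz2, hz3⟩ := loc hv hκ hF hδ Rp Rm (hg j) (hg' j) (cg j) (cg' j)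
      (by simpa using hpq)
    refine ⟨b, hb1, hb2, z, hz1, hz2, ?_⟩
    have h1 : p + j • δ + δ = q + j • δ ↔ p + δ = q := by
      rw [add_right_comm, add_left_inj]
    rw [Ne, h1] at hz3
    exact hz3
  choose b hb1 hb2 z hz1 hz2 hz3 using hloc
  -- the sign
  have hsign : ∃ σ : ℝ, (σ = 1 ∨ σ = -1) ∧ ∀ (j : ℕ) (R : S.ι), S.At v R → S.c R = S.c (b j) →
      ∀ (u s : ℝ), 0 < s → v + (s : ℂ) * e u ∈ S.T R →
      0 < σ * Real.cos (u - (t₀ + j * (Real.pi / 3))) + s / 2 := by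
    by_cases hcase : p + δ = q
    · refine ⟨1, Or.inl rfl, ?_⟩
      intro j R hR hRc u s hs hw
      have hz : dist (z j) v < 1 := by
        rcases hz3 j with h | h
        · exact absurd hcase h.1
        · exact h.2
      have hclose : S.Close (b j) R := by
        rcases TileSystem.close_or_far hRc.symm with h | h
        · exact h
        · exact absurd (h.lt hRc.symm (hz1 j) hR) (not_lt.2 hz.le)
      have h1 := hclose.symm.lt hRc hw (hb1 j)
      have h2 : dist (v + (s : ℂ) * e u) (v + e (t₀ + j * (Real.pi / 3))) ^ 2 < 1 :=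
        pow_lt_one₀ dist_nonneg h1 two_ne_zero
      rw [dist_sq] at h2
      have h3 : s * (s - 2 * Real.cos (u - (t₀ + j * (Real.pi / 3)))) < 0 := by
        linear_combination h2
      have h4 := neg_of_mul_neg_right h3 hs.le
      linarith
    · refine ⟨-1, Or.inr rfl, ?_⟩
      intro j R hR hRc u s hs hw
      have hz : 1 < dist (z j) v := by
        rcases hz3 j with h | h
        · exact h.2
        · exact absurd h.1 hcase
      have hfar : S.Far (b j) R := by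
        rcases TileSystem.close_or_far hRc.symm with h | h
        · exact absurd (h.lt hRc.symm (hz1 j) hR) (not_lt.2 hz.le)
        · exact h
      have h1 := hfar.symm.lt hRc hw (hb1 j)
      have h2 : 1 < dist (v + (s : ℂ) * e u) (v + e (t₀ + j * (Real.pi / 3))) ^ 2 :=
        one_lt_pow₀ h1 two_ne_zero
      rw [dist_sq] at h2
      have h3 : 0 < s * (s - 2 * Real.cos (u - (t₀ + j * (Real.pi / 3)))) := by
        linear_combination h2
      have h4 := pos_of_mul_pos_right h3 hs.le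
      linarith
  obtain ⟨σ, hσ, hsg⟩ := hsign
  have hsec : ∀ c ∈ F, ∃ α β : ℝ, α < β ∧ ∀ u ∈ Ioo α β, ∀ j : ℕ, S.c (b j) = c →
      0 ≤ σ * Real.cos (u - (t₀ + j * (Real.pi / 3))) := by
    intro c hc
    obtain ⟨R, hR, hRc⟩ := hv.2 c hc
    obtain ⟨α, β, r, hαβ, hr, hs⟩ := TileSystem.sector hR
    refine ⟨α, β, hαβ, fun u hu j hj => ?_⟩
    by_contra hneg
    rw [not_le] at hneg
    have hs0 : 0 < min (r / 2) (-(σ * Real.cos (u - (t₀ + j * (Real.pi / 3))))) :=
      lt_min (by linarith) (by linarith)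
    have hs1 : min (r / 2) (-(σ * Real.cos (u - (t₀ + j * (Real.pi / 3))))) ≤ r / 2 :=
      min_le_left _ _
    have hs2 : min (r / 2) (-(σ * Real.cos (u - (t₀ + j * (Real.pi / 3))))) ≤
      -(σ * Real.cos (u - (t₀ + j * (Real.pi / 3)))) := min_le_right _ _
    have h1 := hsg j R hR (hRc.trans hj.symm) u _ hs0 (hs u hu _ ⟨hs0, by linarith⟩)
    linarith
  have hzero : ∀ x : ℝ, 0 ≤ σ * x → 0 ≤ σ * -x → x = 0 := by
    intro x h1 h2
    rcases hσ with rfl | rfl <;> linarith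
  refine six_colors hv.1 (fun j => S.c (b j)) hb2 ?_ ?_ ?_ ?_
  · intro j
    have h1 := hb1 (j + 1)
    rw [ht] at h1
    exact TileSystem.unit_closure (hz1 j) h1 (hz2 j)
  · have h1 := hb1 0
    refine TileSystem.unit_closure (hz1 5) h1 ?_
    have h2 := hz2 5
    have h3 : t₀ + ((5 : ℕ) : ℝ) * (Real.pi / 3) + Real.pi / 3 =
        t₀ + ((0 : ℕ) : ℝ) * (Real.pi / 3) + 2 * Real.pi := by push_cast; ring
    rw [h3, e_add_two_pi] at h2
    exact h2
  · intro j heq
    obtain ⟨α, β, hαβ, h⟩ := hsec _ (hb2 j)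
    refine no_zero hαβ (τ := t₀ + j * (Real.pi / 3)) fun u hu => ?_
    have h1 := h u hu j rfl
    have h2 := h u hu (j + 3) heq.symm
    rw [show u - (t₀ + ((j + 3 : ℕ) : ℝ) * (Real.pi / 3)) =
      u - (t₀ + (j : ℝ) * (Real.pi / 3)) - Real.pi by push_cast; ring, Real.cos_sub_pi] at h2
    exact hzero _ h1 h2
  · intro j heq heq'
    obtain ⟨α, β, hαβ, h⟩ := hsec _ (hb2 j)
    refine no_zero hαβ (τ := t₀ + j * (Real.pi / 3)) fun u hu => ?_
    have h1 := h u hu j rfl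
    have h2 := h u hu (j + 2) heq.symm
    have h3 := h u hu (j + 4) heq'.symm
    rw [show u - (t₀ + ((j + 2 : ℕ) : ℝ) * (Real.pi / 3)) =
      u - (t₀ + (j : ℝ) * (Real.pi / 3)) - 2 * (Real.pi / 3) by push_cast; ring] at h2
    rw [show u - (t₀ + ((j + 4 : ℕ) : ℝ) * (Real.pi / 3)) =
      u - (t₀ + (j : ℝ) * (Real.pi / 3)) - 4 * (Real.pi / 3) by push_cast; ring] at h3
    have h4 := cos_tri (u - (t₀ + (j : ℝ) * (Real.pi / 3)))
    refine hzero _ h1 ?_
    have h5 : -Real.cos (u - (t₀ + (j : ℝ) * (Real.pi / 3))) =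
      Real.cos (u - (t₀ + (j : ℝ) * (Real.pi / 3)) - 2 * (Real.pi / 3)) +
      Real.cos (u - (t₀ + (j : ℝ) * (Real.pi / 3)) - 4 * (Real.pi / 3)) := by linarith
    rw [h5, mul_add]
    exact add_nonneg h2 h3

end sys

end K10

namespace TileSystem

variable {S : TileSystem}

/-- K10. Parity. -/
theorem parity {v : ℂ} {F : Finset (Fin 6)} (hv : S.TripleOf v F) {κ : Fin 3 → Fin 6} (hκ : Function.Injective κ)
    (hF : ∀ k, κ k ∉ F) {f : ℝ → ℝ} (hf : S.IsPhase v κ f) {m : ℤ}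
    (hm : ∀ t, 3 * (m : ℝ) < f (t + Real.pi / 3) - f t ∧ f (t + Real.pi / 3) - f t < 3 * m + 3) :
    ∃ a : ℝ, (∃ i, v + e a ∈ S.T i) ∧ win (f (a + 2 * Real.pi)) - win (f a) = 6 * m + 3 := by
  by_contra hcon
  have H : ∀ a : ℝ, (∃ i, v + e a ∈ S.T i) → win (f (a + 2 * Real.pi)) - win (f a) ≠ 6 * m + 3 :=
    fun a ha h => hcon ⟨a, ha, h⟩
  obtain ⟨ε, hε, Hε⟩ := K10.const_eps hv hκ hF hf hm H
  have hδ : K10.kk ε ≠ 0 := by
    rcases hε with rfl | rfl <;> decide
  -- a generic point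
  choose g hg using fun j : ℕ =>
    TileSystem.exists_gp (S := S) (K10.dist_e v (0 + j * (Real.pi / 3)))
  obtain ⟨h, hh⟩ := (K10.ev_gp (S := S) (v := v) (t := 0) (g := g) (fun j _ => hg j)).exists
  have h0 := hh 0 (by norm_num)
  have h1 := hh 1 (by norm_num)
  obtain ⟨N, hN1, hN2⟩ := K10.near hv hκ hF hf h0
  obtain ⟨N', hN1', hN2'⟩ := K10.near hv hκ hF hf h1
  have hs : (0 + h + ((1 : ℕ) : ℝ) * (Real.pi / 3)) =
      (0 + h + ((0 : ℕ) : ℝ) * (Real.pi / 3)) + Real.pi / 3 := by push_cast; ring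
  have hNN := K10.step1 (v := v) (κ := κ) hm hs h0 h1 hN1 hN2 hN1' hN2'
  obtain ⟨t, M, ht⟩ := K10.exists_half hf.1 (N := N) (N' := N') (by omega) hN2 hN2'
  obtain ⟨i, i', hi, hi', hne⟩ := K10.exists_two hκ hf ht
  exact K10.final hv hκ hF hδ (K10.rel_gp hκ hε Hε) (K10.rel_gm hκ hε Hε) hi hi' hne

end TileSystem

end Pool.Agent.H923_Poly
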