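import Pool.Agent.H923_Poly.Local

/-! K2. The jump lemma. -/

open Complex Filter Topology Set Metric

namespace Pool.Agent.H923_Poly

namespace K2

variable {S : TileSystem}

theorem mem_bad {v : ℂ} {t : ℝ} : v + e t ∈ S.bad v ↔ ∀ i, v + e t ∉ S.T i := by
  unfold TileSystem.bad
  rw [Set.Finite.mem_toFinset]
  constructor
  · intro h; exact h.2
  · intro h
    refine ⟨?_, h⟩
    rw [dist_eq_norm, add_sub_cancel_left, norm_e]

theorem mem_bad_dist {v x : ℂ} (h : x ∈ S.bad v) : dist x v = 1 := by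
  unfold TileSystem.bad at h
  rw [Set.Finite.mem_toFinset] at h
  exact h.1

theorem dist_e (v : ℂ) (t : ℝ) : dist (v + e t) v = 1 := by
  rw [dist_eq_norm, add_sub_cancel_left, norm_e]

/-- Values at half-integers `3 n + 1/2` occur at bad points only. -/
theorem regular {v : ℂ} {lab : S.ι → ℤ} (hlab : ∀ i, lab i = 0 ∨ lab i = 1 ∨ lab i = 2) {l : ℝ → ℝ}
    (h : ∀ t i, v + e t ∈ S.T i → ∃ n : ℤ, |l t - (3 * n + lab i)| < 1 / 2) {t : ℝ} {i : S.ι} (hi : v + e t ∈ S.T i)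
    (m : ℤ) : l t ≠ 3 * m + 1 / 2 := by
  intro hm
  obtain ⟨n, hn⟩ := h t i hi
  rw [hm, abs_lt] at hn
  obtain ⟨h1, h2⟩ := hn
  rcases hlab i with h3 | h3 | h3
  · rw [h3] at h1 h2
    have h4 : (n : ℝ) < m + 1 := by push_cast at *; linarith
    have h5 : (m : ℝ) < n := by push_cast at *; linarith
    have h4' : n < m + 1 := by exact_mod_cast h4
    have h5' : m < n := by exact_mod_cast h5
    omega
  · rw [h3] at h1 h2
    have h4 : (n : ℝ) < m := by push_cast at *; linarith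
    have h5 : (m : ℝ) < n + 1 := by push_cast at *; linarith
    have h4' : n < m := by exact_mod_cast h4
    have h5' : m < n + 1 := by exact_mod_cast h5
    omega
  · rw [h3] at h1 h2
    have h4 : (n : ℝ) < m := by push_cast at *; linarith
    have h5 : (m : ℝ) < n + 1 := by push_cast at *; linarith
    have h4' : n < m := by exact_mod_cast h4
    have h5' : m < n + 1 := by exact_mod_cast h5
    omega

/-- No passage without half-integers. -/
theorem const {l : ℝ → ℝ} (hl : Continuous l) {a b : ℝ} (hab : a ≤ b)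
    (hr : ∀ t ∈ Icc a b, ∀ n : ℤ, l t ≠ 3 * n + 1 / 2) : win (l b) = win (l a) := by
  by_contra hne
  rcases lt_or_gt_of_ne hne with h | h
  · unfold win at h
    set m := ⌊(l a - 1 / 2) / 3⌋ with hm
    have h1 : (m : ℝ) ≤ (l a - 1 / 2) / 3 := Int.floor_le _
    have h2 : (l b - 1 / 2) / 3 < m := Int.floor_lt.1 h
    have h3 : (3 * (m : ℝ) + 1 / 2) ∈ Icc (l b) (l a) := ⟨by linarith, by linarith⟩
    obtain ⟨t, ht, ht'⟩ := intermediate_value_Icc' hab hl.continuousOn h3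
    exact hr t ht m ht'
  · unfold win at h
    set m := ⌊(l b - 1 / 2) / 3⌋ with hm
    have h1 : (m : ℝ) ≤ (l b - 1 / 2) / 3 := Int.floor_le _
    have h2 : (l a - 1 / 2) / 3 < m := Int.floor_lt.1 h
    have h3 : (3 * (m : ℝ) + 1 / 2) ∈ Icc (l a) (l b) := ⟨by linarith, by linarith⟩
    obtain ⟨t, ht, ht'⟩ := intermediate_value_Icc hab hl.continuousOn h3
    exact hr t ht m ht'

theorem win_eq {x : ℝ} {n A : ℤ} (hA : A = 0 ∨ A = 1 ∨ A = 2) (h : |x - (3 * n + A)| < 1 / 2) :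
    win x = if A = 0 then n - 1 else n := by
  rw [abs_lt] at h
  obtain ⟨h1, h2⟩ := h
  unfold win
  rcases hA with rfl | rfl | rfl
  · rw [if_pos rfl, Int.floor_eq_iff]
    push_cast at *
    constructor <;> linarith
  · rw [if_neg (by norm_num), Int.floor_eq_iff]
    push_cast at *
    constructor <;> linarith
  · rw [if_neg (by norm_num), Int.floor_eq_iff]
    push_cast at *
    constructor <;> linarith

/-- The passage at one bad point. -/
theorem one {v : ℂ} {lab : S.ι → ℤ} (hlab : ∀ i, lab i = 0 ∨ lab i = 1 ∨ lab i = 2) {l : ℝ → ℝ}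
    (h : ∀ t i, v + e t ∈ S.T i → ∃ n : ℤ, |l t - (3 * n + lab i)| < 1 / 2) {t₁ s s' : ℝ} {i j : S.ι}
    (hi : S.gm v (v + e t₁) i) (hj : S.gp v (v + e t₁) j) (hs : v + e s ∈ S.T i) (hs' : v + e s' ∈ S.T j)
    (hc : |l s' - l s| < 1) : win (l s') - win (l s) = S.jump lab v (v + e t₁) := by
  obtain ⟨n, hn⟩ := h s i hs
  obtain ⟨n', hn'⟩ := h s' j hs'
  rw [win_eq (hlab i) hn, win_eq (hlab j) hn']
  have h1 : ∀ k : ℤ, (∃ i', S.gm v (v + e t₁) i' ∧ lab i' = k) ↔ lab i = k := by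
    intro k
    constructor
    · rintro ⟨i', h1, h2⟩
      rw [TileSystem.gm_unique hi h1]; exact h2
    · intro h; exact ⟨i, hi, h⟩
  have h2 : ∀ k : ℤ, (∃ j', S.gp v (v + e t₁) j' ∧ lab j' = k) ↔ lab j = k := by
    intro k
    constructor
    · rintro ⟨i', h1, h2⟩
      rw [TileSystem.gp_unique hj h1]; exact h2
    · intro h; exact ⟨j, hj, h⟩
  unfold TileSystem.jump
  simp only [h1, h2]
  have h3 : |(3 * (n - n') + (lab i - lab j) : ℤ)| < 2 := by
    have : |(3 * ((n : ℝ) - n') + (lab i - lab j))| < 2 := by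
      rw [abs_lt] at hn hn' hc ⊢
      constructor <;> linarith
    have h4 : ((|3 * (n - n') + (lab i - lab j)| : ℤ) : ℝ) < ((2 : ℤ) : ℝ) := by
      push_cast; exact this
    exact_mod_cast h4
  rw [abs_lt] at h3
  obtain ⟨h3, h4⟩ := h3
  rcases hlab i with h5 | h5 | h5 <;> rcases hlab j with h6 | h6 | h6 <;> rw [h5, h6] at h3 h4 ⊢ <;> simp <;> omega

theorem ev_gm {v : ℂ} {t₁ : ℝ} {i : S.ι} (hi : S.gm v (v + e t₁) i) : ∀ᶠ h in 𝓝[>] (0 : ℝ), v + e (t₁ - h) ∈ S.T i := by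
  refine hi.mono fun h hh => ?_
  rw [add_sub_cancel_left, ← e_add, ← sub_eq_add_neg] at hh
  exact hh

theorem ev_gp {v : ℂ} {t₁ : ℝ} {i : S.ι} (hi : S.gp v (v + e t₁) i) : ∀ᶠ h in 𝓝[>] (0 : ℝ), v + e (t₁ + h) ∈ S.T i := by
  refine hi.mono fun h hh => ?_
  rw [add_sub_cancel_left, ← e_add] at hh
  exact hh

/-- The jump lemma in terms of parameters. -/
theorem main {v : ℂ} {lab : S.ι → ℤ} (hlab : ∀ i, lab i = 0 ∨ lab i = 1 ∨ lab i = 2) {l : ℝ → ℝ} (hl : Continuous l)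
    (h : ∀ t i, v + e t ∈ S.T i → ∃ n : ℤ, |l t - (3 * n + lab i)| < 1 / 2) (N : ℕ) :
    ∀ (a b : ℝ) (P : Finset ℝ), P.card = N → a ≤ b → (∀ t, t ∈ P ↔ t ∈ Ioo a b ∧ v + e t ∈ S.bad v) →
    (∀ n : ℤ, l a ≠ 3 * n + 1 / 2) → (∀ n : ℤ, l b ≠ 3 * n + 1 / 2) →
    win (l b) - win (l a) = ∑ t ∈ P, S.jump lab v (v + e t) := by
  induction N using Nat.strong_induction_on with
  | _ N ih =>
  intro a b P hN hab hP ha hb
  rcases P.eq_empty_or_nonempty with hP0 | ⟨t₁, ht₁⟩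
  · rw [hP0, Finset.sum_empty, sub_eq_zero]
    refine const hl hab fun t ht n => ?_
    rcases eq_or_lt_of_le ht.1 with h1 | h1
    · rw [← h1]; exact ha n
    rcases eq_or_lt_of_le ht.2 with h2 | h2
    · rw [h2]; exact hb n
    have h3 : ¬ (v + e t ∈ S.bad v) := by
      intro h3
      have := (hP t).2 ⟨⟨h1, h2⟩, h3⟩
      rw [hP0] at this
      exact absurd this (Finset.notMem_empty t)
    rw [mem_bad] at h3
    push Not at h3
    obtain ⟨i, hi⟩ := h3
    exact regular hlab h hi n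
  · obtain ⟨⟨h1, h2⟩, h3⟩ := (hP t₁).1 ht₁
    obtain ⟨i, hi⟩ := TileSystem.exists_gm (S := S) (dist_e v t₁)
    obtain ⟨j, hj⟩ := TileSystem.exists_gp (S := S) (dist_e v t₁)
    have e1 : ∀ᶠ x in 𝓝[>] (0 : ℝ), a < t₁ - x := by
      refine mem_nhdsWithin_of_mem_nhds ?_
      have : ∀ᶠ x in 𝓝 (0 : ℝ), x < t₁ - a := gt_mem_nhds (by linarith)
      exact this.mono fun x hx => by linarith
    have e2 : ∀ᶠ x in 𝓝[>] (0 : ℝ), t₁ + x < b := by
      refine mem_nhdsWithin_of_mem_nhds ?_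
      have : ∀ᶠ x in 𝓝 (0 : ℝ), x < b - t₁ := gt_mem_nhds (by linarith)
      exact this.mono fun x hx => by linarith
    have e3 : ∀ᶠ x in 𝓝[>] (0 : ℝ), ∀ t ∈ P.erase t₁, x < |t - t₁| := by
      refine mem_nhdsWithin_of_mem_nhds ?_
      change ∀ᶠ x in 𝓝 (0 : ℝ), ∀ t ∈ P.erase t₁, x < |t - t₁|
      rw [Filter.eventually_all_finset]
      intro t ht
      exact gt_mem_nhds (abs_pos.2 (sub_ne_zero.2 (Finset.ne_of_mem_erase ht)))
    have e4 : ∀ᶠ x in 𝓝[>] (0 : ℝ), |l (t₁ + x) - l (t₁ - x)| < 1 := by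
      refine mem_nhdsWithin_of_mem_nhds ?_
      have hcont : Continuous fun x : ℝ => |l (t₁ + x) - l (t₁ - x)| := by fun_prop
      have := hcont.tendsto 0
      simp only [add_zero, sub_zero, sub_self, abs_zero] at this
      exact this (gt_mem_nhds (by norm_num))
    have e5 : ∀ᶠ x in 𝓝[>] (0 : ℝ), 0 < x := self_mem_nhdsWithin
    obtain ⟨x, ⟨⟨⟨⟨⟨⟨x1, x2⟩, x3⟩, x4⟩, x5⟩, x6⟩, x7⟩⟩ :=
      ((((((e1.and e2).and e3).and e4).and e5).and (ev_gm hi)).and (ev_gp hj)).exists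
    have hone := one hlab h hi hj x6 x7 x4
    have hsplit : P = insert t₁ (P.filter (fun t => t < t₁) ∪ P.filter (fun t => t₁ < t)) := by
      ext t
      simp only [Finset.mem_insert, Finset.mem_union, Finset.mem_filter]
      constructor
      · intro ht
        rcases lt_trichotomy t t₁ with h4 | h4 | h4
        · exact Or.inr (Or.inl ⟨ht, h4⟩)
        · exact Or.inl h4
        · exact Or.inr (Or.inr ⟨ht, h4⟩)
      · rintro (h4 | h4 | h4)
        · rw [h4]; exact ht₁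
        · exact h4.1
        · exact h4.1
    have hn1 : t₁ ∉ P.filter (fun t => t < t₁) ∪ P.filter (fun t => t₁ < t) := by
      simp
    have hdisj : Disjoint (P.filter (fun t => t < t₁)) (P.filter (fun t => t₁ < t)) := by
      rw [Finset.disjoint_filter]
      intro t _ h4 h5; exact lt_asymm h4 h5
    have c1 : (P.filter (fun t => t < t₁)).card < N := by
      rw [← hN]
      exact Finset.card_lt_card (Finset.filter_ssubset.2 ⟨t₁, ht₁, lt_irrefl _⟩)
    have c2 : (P.filter (fun t => t₁ < t)).card < N := by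
      rw [← hN]
      exact Finset.card_lt_card (Finset.filter_ssubset.2 ⟨t₁, ht₁, lt_irrefl _⟩)
    have s1 := ih _ c1 a (t₁ - x) (P.filter (fun t => t < t₁)) rfl x1.le (fun t => by
      rw [Finset.mem_filter, hP]
      constructor
      · rintro ⟨⟨⟨h4, h5⟩, h6⟩, h7⟩
        refine ⟨⟨h4, ?_⟩, h6⟩
        have h8 := x3 t (Finset.mem_erase.2 ⟨h7.ne, (hP t).2 ⟨⟨h4, h5⟩, h6⟩⟩)
        rw [abs_of_neg (by linarith)] at h8
        linarith
      · rintro ⟨⟨h4, h5⟩, h6⟩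
        exact ⟨⟨⟨h4, by linarith⟩, h6⟩, by linarith⟩) ha (regular hlab h x6)
    have s2 := ih _ c2 (t₁ + x) b (P.filter (fun t => t₁ < t)) rfl x2.le (fun t => by
      rw [Finset.mem_filter, hP]
      constructor
      · rintro ⟨⟨⟨h4, h5⟩, h6⟩, h7⟩
        refine ⟨⟨?_, h5⟩, h6⟩
        have h8 := x3 t (Finset.mem_erase.2 ⟨h7.ne', (hP t).2 ⟨⟨h4, h5⟩, h6⟩⟩)
        rw [abs_of_pos (by linarith)] at h8
        linarith
      · rintro ⟨⟨h4, h5⟩, h6⟩
        exact ⟨⟨⟨by linarith, h5⟩, h6⟩, by linarith⟩) (regular hlab h x7) hb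
    rw [hsplit, Finset.sum_insert hn1, Finset.sum_union hdisj, ← s1, ← s2, ← hone]
    ring

theorem injOn {a b : ℝ} (hb : b ≤ a + 2 * Real.pi) (v : ℂ) : Set.InjOn (fun t : ℝ => v + e t) (Ioo a b) := by
  intro s hs t ht hst
  have h1 : e s = e t := add_left_cancel hst
  rw [e_eq_iff] at h1
  obtain ⟨n, hn⟩ := h1
  have hπ := Real.pi_pos
  obtain ⟨s1, s2⟩ := hs
  obtain ⟨t1, t2⟩ := ht
  have h2 : (n : ℝ) * (2 * Real.pi) < 1 * (2 * Real.pi) := by linarith
  have h3 : (-1 : ℝ) * (2 * Real.pi) < n * (2 * Real.pi) := by linarith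
  have h4 : (n : ℝ) < 1 := lt_of_mul_lt_mul_right h2 (by positivity)
  have h5 : (-1 : ℝ) < n := lt_of_mul_lt_mul_right h3 (by positivity)
  have h4' : n < 1 := by exact_mod_cast h4
  have h5' : -1 < n := by exact_mod_cast h5
  have h6 : n = 0 := by omega
  rw [h6] at hn
  simpa using hn

end K2

/-- K2. Jump lemma. -/
theorem TileSystem.jump_lemma {S : TileSystem} (v : ℂ) (lab : S.ι → ℤ) (hlab : ∀ i, lab i = 0 ∨ lab i = 1 ∨ lab i = 2)
    (l : ℝ → ℝ) (hl : Continuous l)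
    (h : ∀ t i, v + e t ∈ S.T i → ∃ n : ℤ, |l t - (3 * n + lab i)| < 1 / 2) (a b : ℝ) (hab : a ≤ b)
    (hb : b ≤ a + 2 * Real.pi) (ha' : ∀ n : ℤ, l a ≠ 3 * n + 1 / 2) (hb' : ∀ n : ℤ, l b ≠ 3 * n + 1 / 2)
    [DecidablePred fun x : ℂ => ∃ t ∈ Ioo a b, x = v + e t] :
    win (l b) - win (l a) = ∑ x ∈ (S.bad v).filter (fun x => ∃ t ∈ Ioo a b, x = v + e t), S.jump lab v x := by
  classical
  have hinj := K2.injOn hb v
  have hfin : {t | t ∈ Ioo a b ∧ v + e t ∈ S.bad v}.Finite := by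
    refine Set.Finite.of_finite_image (f := fun t : ℝ => v + e t) ?_ (hinj.mono fun t ht => ht.1)
    refine (S.bad v).finite_toSet.subset ?_
    rintro x ⟨t, ht, rfl⟩
    exact ht.2
  have hP : ∀ t, t ∈ hfin.toFinset ↔ t ∈ Ioo a b ∧ v + e t ∈ S.bad v := fun t => by
    rw [Set.Finite.mem_toFinset]; rfl
  rw [K2.main hlab hl h _ a b hfin.toFinset rfl hab hP ha' hb']
  refine Finset.sum_bij (fun t _ => v + e t) ?_ ?_ ?_ ?_
  · intro t ht
    have := (hP t).1 ht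
    rw [Finset.mem_filter]
    exact ⟨this.2, t, this.1, rfl⟩
  · intro s hs t ht hst
    exact hinj ((hP s).1 hs).1 ((hP t).1 ht).1 hst
  · intro x hx
    rw [Finset.mem_filter] at hx
    obtain ⟨h1, t, ht, rfl⟩ := hx
    exact ⟨t, (hP t).2 ⟨ht, h1⟩, rfl⟩
  · intro t _; rfl

end Pool.Agent.H923_Poly
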