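import Pool.Agent.H923_Poly.K1
import Pool.Agent.H923_Poly.K2

/-! K11, the topological lemma. -/

open Complex Filter Topology Set Metric

namespace Pool.Agent.H923_Poly

namespace K11

/-- The retraction of the plane to the closed unit disc about `v`. -/
noncomputable def ret (v z : ℂ) : ℂ := v + ((max 1 ‖z - v‖)⁻¹ : ℝ) * (z - v)

theorem max_pos (v z : ℂ) : 0 < max 1 ‖z - v‖ := lt_of_lt_of_le one_pos (le_max_left _ _)

theorem continuous_ret (v : ℂ) : Continuous (ret v) := by
  unfold ret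
  refine continuous_const.add (Continuous.mul (Complex.continuous_ofReal.comp ?_) (by fun_prop))
  exact Continuous.inv₀ (by fun_prop) (fun z => (max_pos v z).ne')

theorem ret_mem (v z : ℂ) : ret v z ∈ closedBall v 1 := by
  rw [mem_closedBall, dist_eq_norm]
  unfold ret
  rw [add_sub_cancel_left, norm_mul, Complex.norm_real, norm_inv, Real.norm_eq_abs, abs_of_pos (max_pos v z),
    inv_mul_le_iff₀ (max_pos v z), mul_one]
  exact le_max_right _ _

theorem ret_circle (v : ℂ) (t : ℝ) : ret v (v + e t) = v + e t := by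
  unfold ret
  rw [add_sub_cancel_left, norm_e]
  simp

theorem finite_at {S : TileSystem} (y : ℂ) : {i | S.At y i}.Finite := by
  by_contra h
  have h' : {i | S.At y i}.Infinite := h
  let f := h'.natEmbedding
  have key := TileSystem.at_three (f 0).2 (f 1).2 (f 2).2 (f 3).2
  have inj : ∀ a b : ℕ, ((f a : S.ι) = (f b : S.ι)) → a = b := by
    intro a b hab
    exact f.injective (Subtype.ext hab)
  rcases key with h | h | h | h | h | h <;> exact absurd (inj _ _ h) (by norm_num)

/-- local finiteness -/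
theorem mem_closure_of_union {S : TileSystem} (J : Set S.ι) (D : Set ℂ) {y : ℂ}
    (h : y ∈ closure (⋃ i ∈ J, S.T i ∩ D)) : ∃ i ∈ J, y ∈ closure (S.T i ∩ D) := by
  obtain ⟨r, hr, hrr⟩ := TileSystem.at_near (S := S) y
  have h1 : y ∈ closure (ball y r ∩ ⋃ i ∈ J, S.T i ∩ D) := by
    apply isOpen_ball.inter_closure
    exact ⟨mem_ball_self hr, h⟩
  have h2 : ball y r ∩ (⋃ i ∈ J, S.T i ∩ D) ⊆ ⋃ i ∈ {i | S.At y i} ∩ J, S.T i ∩ D := by
    rintro z ⟨hz, hz'⟩
    simp only [mem_iUnion] at hz' ⊢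
    obtain ⟨i, hi, hzi⟩ := hz'
    exact ⟨i, ⟨hrr z hz i (TileSystem.at_of_mem hzi.1), hi⟩, hzi⟩
  have h3 := closure_mono h2 h1
  rw [((finite_at y).inter_of_left J).closure_biUnion] at h3
  simp only [mem_iUnion] at h3
  obtain ⟨i, hi, hy⟩ := h3
  exact ⟨i, hi.2, hy⟩

end K11

namespace TileSystem

variable {S : TileSystem}

open K11 in
/-- K11. Topological lemma. -/
theorem touch_of_net_ne_zero {v : ℂ} {κ : Fin 3 → Fin 6} (hκ : Function.Injective κ) {A : S.ι} (hA : S.c A = κ 0)
    (hn : S.net κ v A ≠ 0) : ∃ (B C : S.ι) (y : ℂ), S.c B = κ 1 ∧ S.c C ≠ κ 1 ∧ C ≠ A ∧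
      y ∈ closure (S.T A ∩ ball v 1) ∧ y ∈ closure (S.T B ∩ ball v 1) ∧ y ∈ closure (S.T C ∩ ball v 1) := by
  classical
  by_contra hno
  apply hn
  have h01 : κ 0 ≠ κ 1 := fun h => absurd (hκ h) (by decide)
  -- the three index sets
  set J : Fin 3 → Set S.ι := fun k => {i | S.labA κ A i = ((k : ℕ) : ℤ)} with hJ
  have hJ0 : ∀ i, i ∈ J 0 → i = A := by
    intro i hi
    simp only [hJ, mem_ofPred_eq, labA] at hi
    by_contra hne
    rw [if_neg hne] at hi
    split_ifs at hi <;> simp at hi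
  have hJ1 : ∀ i, i ∈ J 1 → S.c i = κ 1 := by
    intro i hi
    simp only [hJ, mem_ofPred_eq, labA] at hi
    by_contra hne
    rw [if_neg hne] at hi
    split_ifs at hi <;> simp at hi
  have hJ2 : ∀ i, i ∈ J 2 → S.c i ≠ κ 1 ∧ i ≠ A := by
    intro i hi
    simp only [hJ, mem_ofPred_eq, labA] at hi
    constructor
    · intro hne
      rw [if_pos hne] at hi
      split_ifs at hi <;> simp at hi
    · intro hne
      rw [if_pos hne] at hi
      simp at hi
  have hlab : ∀ i, ∃ k : Fin 3, S.labA κ A i = ((k : ℕ) : ℤ) := by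
    intro i
    unfold labA
    split_ifs
    · exact ⟨0, rfl⟩
    · exact ⟨1, rfl⟩
    · exact ⟨2, rfl⟩
  set Z : Fin 3 → Set ℂ := fun k => closure (⋃ i ∈ J k, S.T i ∩ ball v 1) with hZ
  have hdense : ∀ y ∈ closedBall v 1, ∃ k, y ∈ Z k := by
    intro y hy
    have hD : Dense (⋃ i, S.T i) := by
      intro p
      obtain ⟨i, hi⟩ := exists_at (S := S) p
      exact closure_mono (subset_iUnion S.T i) hi
    have h1 : y ∈ closure (ball v 1) := by rwa [closure_ball v one_ne_zero]
    have h2 : y ∈ closure (ball v 1 ∩ ⋃ i, S.T i) :=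
      closure_minimal (hD.open_subset_closure_inter isOpen_ball) isClosed_closure h1
    have h3 : (ball v 1 ∩ ⋃ i, S.T i) ⊆ ⋃ k, ⋃ i ∈ J k, S.T i ∩ ball v 1 := by
      rintro z ⟨hz, hz'⟩
      rw [mem_iUnion] at hz'
      obtain ⟨i, hi⟩ := hz'
      obtain ⟨k, hk⟩ := hlab i
      simp only [mem_iUnion]
      exact ⟨k, i, hk, hi, hz⟩
    have h4 := closure_mono h3 h2
    rw [closure_iUnion_of_finite, mem_iUnion] at h4
    exact h4
  obtain ⟨φ, hφ, hφ'⟩ := exists_phase_plane (fun k => ret v ⁻¹' (Z k))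
    (fun k => isClosed_closure.preimage (continuous_ret v))
    (fun z => by
      obtain ⟨k, hk⟩ := hdense _ (ret_mem v z)
      exact ⟨k, hk⟩)
    (fun z hz => by
      obtain ⟨h0, h1, h2⟩ := hz
      obtain ⟨A', hA', hyA⟩ := mem_closure_of_union (J 0) (ball v 1) h0
      obtain ⟨B, hB, hyB⟩ := mem_closure_of_union (J 1) (ball v 1) h1
      obtain ⟨C, hC, hyC⟩ := mem_closure_of_union (J 2) (ball v 1) h2
      rw [hJ0 A' hA'] at hyA
      exact hno ⟨B, C, ret v z, hJ1 B hB, (hJ2 C hC).1, (hJ2 C hC).2, hyA, hyB, hyC⟩)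
  -- the phase on the circle
  have hin : ∀ (t : ℝ) (i : S.ι) (k : Fin 3), v + e t ∈ S.T i → (v + e t ∈ Z k ↔ S.labA κ A i = ((k : ℕ) : ℤ)) := by
    intro t i k hi
    constructor
    · intro h
      obtain ⟨j, hj, hyj⟩ := mem_closure_of_union (J k) (ball v 1) h
      have : i = j := eq_of_mem_of_at hi (closure_mono inter_subset_left hyj)
      rw [this]
      exact hj
    · intro h
      have h1 : v + e t ∈ closure (ball v 1) := by
        rw [closure_ball v one_ne_zero, mem_closedBall, dist_eq_norm, add_sub_cancel_left, norm_e]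
      have h2 : v + e t ∈ closure (S.T i ∩ ball v 1) := (S.isOpen i).inter_closure ⟨hi, h1⟩
      exact closure_mono (subset_biUnion_of_mem (u := fun i => S.T i ∩ ball v 1) (show i ∈ J k from h)) h2
  have hX : ∀ (t : ℝ) (k : Fin 3), v + e t ∈ Z k ↔ ∃ n : ℤ, |φ (v + e t) - (3 * n + ((k : Fin 3) : ℕ))| ≤ 1 / 2 := by
    intro t k
    rw [← hφ' (v + e t) k, mem_preimage, ret_circle]
  have hphase : ∀ t i, v + e t ∈ S.T i → ∃ n : ℤ, |φ (v + e t) - (3 * n + S.labA κ A i)| < 1 / 2 := by
    intro t i hi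
    obtain ⟨k, hk⟩ := hlab i
    obtain ⟨n, hn⟩ := (hX t k).1 ((hin t i k hi).2 hk)
    refine ⟨n, ?_⟩
    rw [hk]
    push_cast
    refine lt_of_le_of_ne hn ?_
    intro heq
    -- a neighbouring label is also present
    have huniq : ∀ k' : Fin 3, ∀ n' : ℤ, |φ (v + e t) - (3 * n' + ((k' : Fin 3) : ℕ))| ≤ 1 / 2 → k' = k := by
      intro k' n' h'
      have h1 := (hin t i k' hi).1 ((hX t k').2 ⟨n', h'⟩)
      rw [hk] at h1
      exact Fin.ext (by exact_mod_cast h1.symm)
    rcases (abs_eq (by norm_num : (0 : ℝ) ≤ 1 / 2)).1 heq with h1 | h1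
    · -- `φ = 3 n + k + 1/2`
      fin_cases k
      · have := huniq 1 n (by
          simp at h1 ⊢
          rw [abs_le]
          constructor <;> linarith)
        simp at this
      · have := huniq 2 n (by
          simp at h1 ⊢
          rw [abs_le]
          constructor <;> linarith)
        simp at this
      · have := huniq 0 (n + 1) (by
          simp at h1 ⊢
          rw [abs_le]
          constructor <;> linarith)
        simp at this
    · fin_cases k
      · have := huniq 2 (n - 1) (by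
          simp at h1 ⊢
          rw [abs_le]
          constructor <;> linarith)
        simp at this
      · have := huniq 0 n (by
          simp at h1 ⊢
          rw [abs_le]
          constructor <;> linarith)
        simp at this
      · have := huniq 1 n (by
          simp at h1 ⊢
          rw [abs_le]
          constructor <;> linarith)
        simp at this
  -- a point of the circle in a tile
  obtain ⟨a, i₀, ha⟩ : ∃ (a : ℝ) (i : S.ι), v + e a ∈ S.T i := by
    obtain ⟨i, hi⟩ := exists_gp (S := S) (v := v) (x := v + 1) (by simp)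
    obtain ⟨h, hh⟩ := hi.exists
    refine ⟨h, i, ?_⟩
    simpa using hh
  have hcont : Continuous fun t : ℝ => φ (v + e t) := hφ.comp (continuous_const.add continuous_e)
  have hnot : ∀ n : ℤ, φ (v + e a) ≠ 3 * n + 1 / 2 := by
    intro n hn'
    obtain ⟨k, hk⟩ := hlab i₀
    obtain ⟨n', hn''⟩ := hphase a i₀ ha
    rw [hn', hk, abs_lt] at hn''
    have h1 : ((3 * n - 3 * n' - (k : ℕ) : ℤ) : ℝ) < 0 := by push_cast at hn'' ⊢; linarith [hn''.2]
    have h2 : (-1 : ℝ) < ((3 * n - 3 * n' - (k : ℕ) : ℤ) : ℝ) := by push_cast at hn'' ⊢; linarith [hn''.1]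
    have h3 : 3 * n - 3 * n' - (k : ℕ) < (0 : ℤ) := by exact_mod_cast h1
    have h4 : (-1 : ℤ) < 3 * n - 3 * n' - (k : ℕ) := by exact_mod_cast h2
    omega
  have hj := jump_lemma (S := S) v (S.labA κ A) (by
      intro i
      unfold labA
      split_ifs <;> simp) (fun t => φ (v + e t)) hcont hphase a (a + 2 * Real.pi)
      (by linarith [Real.pi_pos]) le_rfl hnot (by rw [e_add_two_pi]; exact hnot)
  simp only [e_add_two_pi, sub_self] at hj
  unfold net
  rw [hj]
  apply Finset.sum_congr _ (fun _ _ => rfl)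
  symm
  rw [Finset.filter_eq_self]
  intro x hx
  have hx' : dist x v = 1 ∧ ∀ i, x ∉ S.T i := by simpa [bad] using hx
  obtain ⟨t, ht⟩ := exists_e (z := x - v) (by rw [← dist_eq_norm]; exact hx'.1)
  obtain ⟨m, hm, -⟩ := existsUnique_add_zsmul_mem_Ico (by linarith [Real.pi_pos] : 0 < 2 * Real.pi) t a
  have het : e (t + m • (2 * Real.pi)) = e t := by
    rw [e_eq_iff]
    exact ⟨m, by simp⟩
  refine ⟨t + m • (2 * Real.pi), ⟨lt_of_le_of_ne hm.1 ?_, hm.2⟩, ?_⟩
  · intro hat
    apply hx'.2 i₀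
    have : x = v + e a := by
      rw [hat, het, ← ht]
      ring
    rw [this]
    exact ha
  · rw [het, ← ht]
    ring

end TileSystem

end Pool.Agent.H923_Poly
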