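import Pool.Agent.H923_Poly.Local

/-! K12: double counting. -/

namespace Pool.Agent.H923_Poly

theorem double_count {α : Type} [DecidableEq α] (A : Finset α) (n : α → ℤ) (cl : α → α → Prop) [DecidableRel cl]
    (hsymm : ∀ a b, cl a b → cl b a) (fam : α → Bool)
    (hfam : ∀ a ∈ A, ∀ b ∈ A, n a ≠ 0 → n b ≠ 0 → fam a = fam b → cl a b) (s W : ℤ)
    (hs : ∀ a ∈ A, n a ≠ 0 → ∑ b ∈ A.filter (fun b => cl a b), n b = s) (hW : ∑ a ∈ A, n a = W)
    (hodd : Odd W) (hne : W ≠ s) : False := by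
  classical
  set A1 := A.filter (fun a => fam a = true) with hA1
  set A2 := A.filter (fun a => ¬ fam a = true) with hA2
  have hsplit : ∀ g : α → ℤ, ∑ a ∈ A, g a = ∑ a ∈ A1, g a + ∑ a ∈ A2, g a := fun g =>
    (Finset.sum_filter_add_sum_filter_not A (fun a => fam a = true) g).symm
  set f : α → α → ℤ := fun a b => if cl a b then n a * n b else 0 with hf
  have hrow : ∀ a ∈ A, ∑ b ∈ A, f a b = s * n a := by
    intro a ha
    by_cases h0 : n a = 0
    · simp [hf, h0]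
    · have h1 : ∑ b ∈ A, f a b = n a * ∑ b ∈ A.filter (fun b => cl a b), n b := by
        rw [Finset.mul_sum, Finset.sum_filter]
      rw [h1, hs a ha h0, mul_comm]
  have hin : ∀ B : Finset α, B ⊆ A → (∀ a ∈ B, ∀ b ∈ B, fam a = fam b) →
      ∑ a ∈ B, ∑ b ∈ B, f a b = (∑ a ∈ B, n a) * ∑ b ∈ B, n b := by
    intro B hB hBf
    rw [Finset.sum_mul_sum]
    refine Finset.sum_congr rfl fun a ha => Finset.sum_congr rfl fun b hb => ?_
    by_cases ha0 : n a = 0
    · simp [hf, ha0]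
    by_cases hb0 : n b = 0
    · simp [hf, hb0]
    have := hfam a (hB ha) b (hB hb) ha0 hb0 (hBf a ha b hb)
    simp [hf, this]
  have hK : ∑ a ∈ A1, ∑ b ∈ A2, f a b = ∑ a ∈ A2, ∑ b ∈ A1, f a b := by
    rw [Finset.sum_comm]
    refine Finset.sum_congr rfl fun a _ => Finset.sum_congr rfl fun b _ => ?_
    by_cases h : cl b a
    · have h' := hsymm _ _ h
      simp [hf, h, h', mul_comm]
    · have h' : ¬ cl a b := fun h' => h (hsymm _ _ h')
      simp [hf, h, h']
  have e1 : (∑ a ∈ A1, n a) * (∑ a ∈ A1, n a) + ∑ a ∈ A1, ∑ b ∈ A2, f a b = s * ∑ a ∈ A1, n a := by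
    rw [← hin A1 (Finset.filter_subset _ _) (fun a ha b hb => by
      rw [(Finset.mem_filter.1 ha).2, (Finset.mem_filter.1 hb).2]), ← Finset.sum_add_distrib, Finset.mul_sum]
    refine Finset.sum_congr rfl fun a ha => ?_
    rw [← hsplit, hrow a (Finset.filter_subset _ _ ha)]
  have e2 : (∑ a ∈ A2, n a) * (∑ a ∈ A2, n a) + ∑ a ∈ A2, ∑ b ∈ A1, f a b = s * ∑ a ∈ A2, n a := by
    rw [← hin A2 (Finset.filter_subset _ _) (fun a ha b hb => by
      have h1 := (Finset.mem_filter.1 ha).2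
      have h2 := (Finset.mem_filter.1 hb).2
      rw [Bool.not_eq_true] at h1 h2
      rw [h1, h2]), ← Finset.sum_add_distrib, Finset.mul_sum]
    refine Finset.sum_congr rfl fun a ha => ?_
    rw [add_comm, ← hsplit, hrow a (Finset.filter_subset _ _ ha)]
  rw [← hK] at e2
  have e3 : ∑ a ∈ A1, n a + ∑ a ∈ A2, n a = W := by rw [← hsplit, hW]
  set N1 := ∑ a ∈ A1, n a
  set N2 := ∑ a ∈ A2, n a
  set K := ∑ a ∈ A1, ∑ b ∈ A2, f a b
  have e4 : (N1 - N2) * (W - s) = 0 := by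
    rw [← e3]
    linear_combination e1 - e2
  rcases mul_eq_zero.1 e4 with h | h
  · have : W = 2 * N1 := by linarith
    rw [this] at hodd
    exact (Int.not_odd_iff_even.2 ⟨N1, by ring⟩) hodd
  · exact hne (by linarith)

end Pool.Agent.H923_Poly
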