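import Pool.Agent.H923_Poly.Defs

/-! K1. A continuous phase for a closed cover of the plane by three sets without common point. -/

open Complex Filter Topology Set Metric

namespace Pool.Agent.H923_Poly

namespace K1

theorem key {x a b ρ : ℝ} (hx : 0 ≤ x) (ha : 0 ≤ a) (hb : 0 ≤ b) (h0 : x = 0 ∨ a = 0 ∨ b = 0) (hρ : 0 < ρ)
    (h : ρ ^ 2 = x ^ 2 + a ^ 2 + b ^ 2 - x * a - x * b - a * b) : x = 0 ↔ ρ / 2 ≤ -x + (a + b) / 2 := by
  constructor
  · rintro rfl
    have h1 : ρ ≤ a + b := by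
      refine abs_le_of_sq_le_sq' ?_ (by positivity) |>.2
      nlinarith [mul_nonneg ha hb]
    linarith
  · intro h1
    by_contra hne
    have hx' : 0 < x := lt_of_le_of_ne hx (Ne.symm hne)
    have h2 : ρ ^ 2 ≤ (a + b - 2 * x) ^ 2 := by
      have : ρ ≤ a + b - 2 * x := by linarith
      gcongr
    rcases h0 with h3 | h3 | h3
    · exact hne h3
    · subst h3
      nlinarith
    · subst h3
      nlinarith

theorem cos_ge (x : ℝ) : 1 / 2 ≤ Real.cos x ↔ ∃ n : ℤ, |x - n * (2 * Real.pi)| ≤ Real.pi / 3 := by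
  have hπ := Real.pi_pos
  constructor
  · intro h
    refine ⟨round (x / (2 * Real.pi)), ?_⟩
    set n := round (x / (2 * Real.pi)) with hn
    have h1 : |x / (2 * Real.pi) - n| ≤ 1 / 2 := abs_sub_round _
    have h2 : |x - n * (2 * Real.pi)| ≤ Real.pi := by
      have : x - n * (2 * Real.pi) = (x / (2 * Real.pi) - n) * (2 * Real.pi) := by field_simp
      rw [this, abs_mul, abs_of_pos (by positivity : (0 : ℝ) < 2 * Real.pi)]
      nlinarith
    have h3 : Real.cos x = Real.cos |x - n * (2 * Real.pi)| := by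
      rw [Real.cos_abs, Real.cos_sub_int_mul_two_pi]
    by_contra hlt
    rw [not_le] at hlt
    have h4 := Real.cos_lt_cos_of_nonneg_of_le_pi (by positivity) h2 hlt
    rw [Real.cos_pi_div_three] at h4
    linarith
  · rintro ⟨n, hn⟩
    have h3 : Real.cos x = Real.cos |x - n * (2 * Real.pi)| := by
      rw [Real.cos_abs, Real.cos_sub_int_mul_two_pi]
    have h4 := Real.cos_le_cos_of_nonneg_of_le_pi (abs_nonneg _) (by linarith) hn
    rw [Real.cos_pi_div_three] at h4
    rw [h3]; linarith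

theorem cos1 : Real.cos (2 * Real.pi / 3) = -1 / 2 := by
  have : 2 * Real.pi / 3 = Real.pi - Real.pi / 3 := by ring
  rw [this, Real.cos_pi_sub, Real.cos_pi_div_three]; norm_num

theorem sin1 : Real.sin (2 * Real.pi / 3) = √3 / 2 := by
  have : 2 * Real.pi / 3 = Real.pi - Real.pi / 3 := by ring
  rw [this, Real.sin_pi_sub, Real.sin_pi_div_three]

theorem cos2 : Real.cos (4 * Real.pi / 3) = -1 / 2 := by
  have : 4 * Real.pi / 3 = Real.pi / 3 + Real.pi := by ring
  rw [this, Real.cos_add_pi, Real.cos_pi_div_three]; norm_num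

theorem sin2 : Real.sin (4 * Real.pi / 3) = -(√3 / 2) := by
  have : 4 * Real.pi / 3 = Real.pi / 3 + Real.pi := by ring
  rw [this, Real.sin_add_pi, Real.sin_pi_div_three]

/-- A continuous function which is zero exactly on a closed set. -/
theorem exists_dist {X : Set ℂ} (hX : IsClosed X) : ∃ d : ℂ → ℝ, Continuous d ∧ (∀ z, 0 ≤ d z) ∧ ∀ z, z ∈ X ↔ d z = 0 := by
  rcases X.eq_empty_or_nonempty with h | h
  · refine ⟨fun _ => 1, continuous_const, fun _ => zero_le_one, fun z => ?_⟩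
    rw [h]; simp
  · exact ⟨fun z => infDist z X, continuous_infDist_pt X, fun z => infDist_nonneg, fun z => hX.mem_iff_infDist_zero h⟩

end K1

open K1 in
/-- K1 (pure topology). A continuous phase for a closed cover of the plane by three sets without common point. -/
theorem exists_phase_plane (X : Fin 3 → Set ℂ) (hX : ∀ k, IsClosed (X k)) (hcov : ∀ z, ∃ k, z ∈ X k)
    (htr : ∀ z, ¬ (z ∈ X 0 ∧ z ∈ X 1 ∧ z ∈ X 2)) :
    ∃ φ : ℂ → ℝ, Continuous φ ∧ ∀ z k, z ∈ X k ↔ ∃ n : ℤ, |φ z - (3 * n + ((k : Fin 3) : ℕ))| ≤ 1 / 2 := by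
  obtain ⟨a, ac, an, ax⟩ := exists_dist (hX 0)
  obtain ⟨b, bc, bn, bx⟩ := exists_dist (hX 1)
  obtain ⟨c, cc, cn, cx⟩ := exists_dist (hX 2)
  have h0 : ∀ z, a z = 0 ∨ b z = 0 ∨ c z = 0 := by
    intro z
    obtain ⟨k, hk⟩ := hcov z
    fin_cases k
    · exact Or.inl ((ax z).1 hk)
    · exact Or.inr (Or.inl ((bx z).1 hk))
    · exact Or.inr (Or.inr ((cx z).1 hk))
  have h1 : ∀ z, ¬ (a z = 0 ∧ b z = 0 ∧ c z = 0) := fun z hz =>
    htr z ⟨(ax z).2 hz.1, (bx z).2 hz.2.1, (cx z).2 hz.2.2⟩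
  have h3 : √3 ^ 2 = (3 : ℝ) := Real.sq_sqrt (by norm_num)
  have h3p : (0 : ℝ) < √3 := Real.sqrt_pos.2 (by norm_num)
  set G : ℂ → ℂ := fun z => -(((a z - (b z + c z) / 2 : ℝ) : ℂ) + ((√3 / 2 * (b z - c z) : ℝ) : ℂ) * Complex.I) with hG
  have hGc : Continuous G := by
    rw [hG]; fun_prop
  have hre : ∀ z, (G z).re = -(a z - (b z + c z) / 2) := by intro z; simp [hG]
  have him : ∀ z, (G z).im = -(√3 / 2 * (b z - c z)) := by intro z; simp [hG]
  have hG0 : ∀ z, G z ≠ 0 := by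
    intro z hz
    have e1 := hre z
    have e2 := him z
    rw [hz, Complex.zero_re] at e1
    rw [hz, Complex.zero_im] at e2
    have e3 : b z = c z := by
      have : √3 / 2 * (b z - c z) = 0 := by linarith
      rcases mul_eq_zero.1 this with h | h
      · exact absurd h (by positivity)
      · linarith
    have e4 : a z = b z := by linarith
    rcases h0 z with h | h | h
    · exact h1 z ⟨h, by linarith, by linarith⟩
    · exact h1 z ⟨by linarith, h, by linarith⟩
    · exact h1 z ⟨by linarith, by linarith, h⟩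
  have hsc : IsSimplyConnected (univ : Set ℂ) := by
    have : ContractibleSpace (univ : Set ℂ) := convex_univ.contractibleSpace univ_nonempty
    exact (inferInstance : SimplyConnectedSpace (univ : Set ℂ))
  obtain ⟨g, hg, hge⟩ := exists_continuousOn_eqOn_exp_comp hsc isOpen_univ (g := G) hGc.continuousOn
    (by rintro ⟨z, -, hz⟩; exact hG0 z hz)
  have hgc : Continuous g := continuousOn_univ.1 hg
  have hgG : ∀ z, Complex.exp (g z) = G z := fun z => hge (mem_univ z)
  refine ⟨fun z => 3 / (2 * Real.pi) * (g z).im, by fun_prop, fun z k => ?_⟩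
  have hπ := Real.pi_pos
  set ρ := Real.exp (g z).re with hρ
  have hρp : 0 < ρ := Real.exp_pos _
  have c1 : ρ * Real.cos (g z).im = -(a z - (b z + c z) / 2) := by
    rw [← hre, ← hgG, Complex.exp_re]
  have c2 : ρ * Real.sin (g z).im = -(√3 / 2 * (b z - c z)) := by
    rw [← him, ← hgG, Complex.exp_im]
  have c3 : ρ ^ 2 = a z ^ 2 + b z ^ 2 + c z ^ 2 - a z * b z - a z * c z - b z * c z := by
    have e1 : ρ ^ 2 = (ρ * Real.cos (g z).im) ^ 2 + (ρ * Real.sin (g z).im) ^ 2 := by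
      have := Real.cos_sq_add_sin_sq (g z).im
      calc ρ ^ 2 = ρ ^ 2 * (Real.cos (g z).im ^ 2 + Real.sin (g z).im ^ 2) := by rw [this, mul_one]
        _ = _ := by ring
    rw [e1, c1, c2]
    have : (-(√3 / 2 * (b z - c z))) ^ 2 = 3 / 4 * (b z - c z) ^ 2 := by
      calc (-(√3 / 2 * (b z - c z))) ^ 2 = √3 ^ 2 / 4 * (b z - c z) ^ 2 := by ring
        _ = _ := by rw [h3]
    rw [this]; ring
  -- the general step
  have step : ∀ (k : ℕ) (θ x : ℝ), θ = 2 * Real.pi * k / 3 → ρ * Real.cos ((g z).im - θ) = x →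
      (ρ / 2 ≤ x ↔ ∃ n : ℤ, |3 / (2 * Real.pi) * (g z).im - (3 * n + k)| ≤ 1 / 2) := by
    intro k θ x hθ hx
    rw [← hx]
    have e1 : ρ / 2 ≤ ρ * Real.cos ((g z).im - θ) ↔ 1 / 2 ≤ Real.cos ((g z).im - θ) := by
      constructor
      · intro h
        have : ρ * (1 / 2) ≤ ρ * Real.cos ((g z).im - θ) := by linarith
        exact le_of_mul_le_mul_left this hρp
      · intro h
        have := mul_le_mul_of_nonneg_left h hρp.le
        linarith
    rw [e1, cos_ge]
    refine exists_congr fun n => ?_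
    have e2 : (g z).im - θ - n * (2 * Real.pi) = (3 / (2 * Real.pi) * (g z).im - (3 * n + k)) * (2 * Real.pi / 3) := by
      rw [hθ]; field_simp; ring
    rw [e2, abs_mul, abs_of_pos (by positivity : (0 : ℝ) < 2 * Real.pi / 3)]
    constructor
    · intro h
      have : |3 / (2 * Real.pi) * (g z).im - (3 * n + k)| * (2 * Real.pi / 3) ≤ 1 / 2 * (2 * Real.pi / 3) := by linarith
      exact le_of_mul_le_mul_right this (by positivity)
    · intro h
      have := mul_le_mul_of_nonneg_right h (by positivity : (0 : ℝ) ≤ 2 * Real.pi / 3)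
      linarith
  fin_cases k
  · change z ∈ X 0 ↔ ∃ n : ℤ, |3 / (2 * Real.pi) * (g z).im - (3 * n + (0 : ℕ))| ≤ 1 / 2
    rw [ax z, key (an z) (bn z) (cn z) (h0 z) hρp (by rw [c3]), step 0 0 _ (by simp) ?_]
    rw [sub_zero, c1]; ring
  · change z ∈ X 1 ↔ ∃ n : ℤ, |3 / (2 * Real.pi) * (g z).im - (3 * n + (1 : ℕ))| ≤ 1 / 2
    rw [bx z, key (bn z) (an z) (cn z) (by rcases h0 z with h | h | h <;> simp [h]) hρp (by rw [c3]; ring),
      step 1 (2 * Real.pi / 3) _ (by simp) ?_]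
    rw [Real.cos_sub, cos1, sin1]
    calc ρ * (Real.cos (g z).im * (-1 / 2) + Real.sin (g z).im * (√3 / 2))
        = -(1 / 2) * (ρ * Real.cos (g z).im) + √3 / 2 * (ρ * Real.sin (g z).im) := by ring
      _ = 1 / 2 * (a z - (b z + c z) / 2) - √3 ^ 2 / 4 * (b z - c z) := by rw [c1, c2]; ring
      _ = -b z + (a z + c z) / 2 := by rw [h3]; ring
  · change z ∈ X 2 ↔ ∃ n : ℤ, |3 / (2 * Real.pi) * (g z).im - (3 * n + (2 : ℕ))| ≤ 1 / 2
    rw [cx z, key (cn z) (an z) (bn z) (by rcases h0 z with h | h | h <;> simp [h]) hρp (by rw [c3]; ring),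
      step 2 (4 * Real.pi / 3) _ (by push_cast; ring) ?_]
    rw [Real.cos_sub, cos2, sin2]
    calc ρ * (Real.cos (g z).im * (-1 / 2) + Real.sin (g z).im * (-(√3 / 2)))
        = -(1 / 2) * (ρ * Real.cos (g z).im) - √3 / 2 * (ρ * Real.sin (g z).im) := by ring
      _ = 1 / 2 * (a z - (b z + c z) / 2) + √3 ^ 2 / 4 * (b z - c z) := by rw [c1, c2]; ring
      _ = -c z + (a z + b z) / 2 := by rw [h3]; ring

end Pool.Agent.H923_Poly
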