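import Pool.Agent.H923_Poly.Local
import Pool.Agent.H923_Poly.K1

/-! E1. Every tile system has a triple point. -/

open Complex Filter Topology Set Metric

namespace Pool.Agent.H923_Poly

namespace E1

/-- The linear functional `⟨z, e (2πk/3)⟩`. -/
noncomputable def L (k : Fin 3) (z : ℂ) : ℝ := (z * e (-(2 * Real.pi * ((k : ℕ) : ℝ) / 3))).re

theorem L_sub (k : Fin 3) (z w : ℂ) : L k z - L k w ≤ dist z w := by
  unfold L
  rw [← Complex.sub_re, ← sub_mul]
  refine (Complex.re_le_norm _).trans ?_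
  rw [norm_mul, norm_e, mul_one, dist_eq_norm]

theorem L_circle (k : Fin 3) (t : ℝ) : L k (100 * e t) = 100 * Real.cos (t - 2 * Real.pi * ((k : ℕ) : ℝ) / 3) := by
  unfold L
  rw [mul_assoc, ← e_add, ← sub_eq_add_neg]
  have : (100 : ℂ) = ((100 : ℝ) : ℂ) := by norm_num
  rw [this, Complex.re_ofReal_mul, e_re]

theorem cos_half_le {x : ℝ} (h : |x| ≤ Real.pi / 3) : 1 / 2 ≤ Real.cos x :=
  (K1.cos_ge x).2 ⟨0, by simpa using h⟩

theorem cos_le_neg_half {x : ℝ} (h : |x - Real.pi| ≤ Real.pi / 3) : Real.cos x ≤ -(1 / 2) := by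
  have := cos_half_le h
  rw [Real.cos_sub_pi] at this
  linarith

/-- The labels of tiles through `100 e t` for `t` in `[2πk/3, 2π(k+1)/3]`. -/
theorem not_lab {x : ℂ} {t : ℝ} {k m l : Fin 3} (hd : dist (100 * e t) x ≤ 1)
    (hmax : ∀ j, L j x ≤ L m x) (h1 : Real.cos (t - 2 * Real.pi * ((m : ℕ) : ℝ) / 3) ≤ -(1 / 2))
    (h2 : 1 / 2 ≤ Real.cos (t - 2 * Real.pi * ((k : ℕ) : ℝ) / 3) ∨ 1 / 2 ≤ Real.cos (t - 2 * Real.pi * ((l : ℕ) : ℝ) / 3)) :
    False := by
  have e1 := L_sub m x (100 * e t)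
  rw [dist_comm, L_circle] at e1
  rcases h2 with h2 | h2
  · have e2 := L_sub k (100 * e t) x
    rw [L_circle] at e2
    have := hmax k
    linarith
  · have e2 := L_sub l (100 * e t) x
    rw [L_circle] at e2
    have := hmax l
    linarith

/-- A continuous function that avoids the windows stays in a gap. -/
theorem gap {f : ℝ → ℝ} (hf : Continuous f) {a b : ℝ} (hab : a ≤ b) {m : ℤ}
    (h : ∀ t ∈ Icc a b, ¬ |f t - m| ≤ 1 / 2) (h' : ∀ t ∈ Icc a b, ¬ |f t - (m + 3)| ≤ 1 / 2)
    (h0 : m < f a) (h1 : f a < m + 3) : m + 1 / 2 < f b ∧ f b < m + 5 / 2 := by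
  have hc : ContinuousOn f (Icc a b) := hf.continuousOn
  constructor
  · by_contra hlt
    rw [not_lt] at hlt
    have ha : m + 1 / 2 < f a := by
      by_contra hh
      rw [not_lt] at hh
      exact h a (left_mem_Icc.2 hab) (abs_le.2 ⟨by linarith, by linarith⟩)
    obtain ⟨t, ht, hft⟩ := intermediate_value_Icc' hab hc ⟨hlt, ha.le⟩
    exact h t ht (abs_le.2 ⟨by linarith, by linarith⟩)
  · by_contra hlt
    rw [not_lt] at hlt
    have ha : f a < m + 5 / 2 := by
      by_contra hh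
      rw [not_lt] at hh
      exact h' a (left_mem_Icc.2 hab) (abs_le.2 ⟨by linarith, by linarith⟩)
    obtain ⟨t, ht, hft⟩ := intermediate_value_Icc hab hc ⟨ha.le, hlt⟩
    exact h' t ht (abs_le.2 ⟨by linarith, by linarith⟩)

end E1

open E1 in
/-- E1. Every tile system has a triple point. -/
theorem TileSystem.exists_triple (S : TileSystem) : ∃ (v : ℂ) (F : Finset (Fin 6)), S.TripleOf v F := by
  by_contra hno
  push Not at hno
  choose x hx using S.nonempty
  have hmax : ∀ i, ∃ m : Fin 3, ∀ j, L j (x i) ≤ L m (x i) := fun i => Finite.exists_max (fun j => L j (x i))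
  choose lab hlab using hmax
  set X : Fin 3 → Set ℂ := fun k => {z | ∃ i, S.At z i ∧ lab i = k} with hX
  have hclosed : ∀ k, IsClosed (X k) := by
    intro k
    refine isClosed_of_closure_subset fun z hz => ?_
    obtain ⟨r, hr, hnear⟩ := at_near (S := S) z
    obtain ⟨q, ⟨i, hi, hik⟩, hd⟩ := Metric.mem_closure_iff.1 hz r hr
    exact ⟨i, hnear q (by rwa [dist_comm]) i hi, hik⟩
  have hcov : ∀ z, ∃ k, z ∈ X k := by
    intro z
    obtain ⟨i, hi⟩ := exists_at (S := S) z
    exact ⟨lab i, i, hi, rfl⟩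
  have htr : ∀ z, ¬ (z ∈ X 0 ∧ z ∈ X 1 ∧ z ∈ X 2) := by
    rintro z ⟨⟨i, hi, hi'⟩, ⟨j, hj, hj'⟩, ⟨k, hk, hk'⟩⟩
    have hij : i ≠ j := by rintro rfl; rw [hi'] at hj'; exact absurd hj' (by decide)
    have hik : i ≠ k := by rintro rfl; rw [hi'] at hk'; exact absurd hk' (by decide)
    have hjk : j ≠ k := by rintro rfl; rw [hj'] at hk'; exact absurd hk' (by decide)
    have cij := S.adj i j z hi hj hij
    have cik := S.adj i k z hi hk hik
    have cjk := S.adj j k z hj hk hjk
    refine hno z {S.c i, S.c j, S.c k} ⟨Finset.card_eq_three.2 ⟨_, _, _, cij, cik, cjk, rfl⟩, ?_⟩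
    intro a ha
    simp only [Finset.mem_insert, Finset.mem_singleton] at ha
    rcases ha with rfl | rfl | rfl
    exacts [⟨i, hi, rfl⟩, ⟨j, hj, rfl⟩, ⟨k, hk, rfl⟩]
  obtain ⟨φ, hφ, hw⟩ := exists_phase_plane X hclosed hcov htr
  have hπ := Real.pi_pos
  set f : ℝ → ℝ := fun t => φ (100 * e t) with hf
  have hfc : Continuous f := by
    have := continuous_e
    fun_prop
  have hwin : ∀ t (k : Fin 3), (100 * e t) ∉ X k → ∀ n : ℤ, ¬ |f t - (3 * n + ((k : ℕ) : ℝ))| ≤ 1 / 2 :=
    fun t k h n hn => h ((hw _ k).2 ⟨n, hn⟩)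
  -- the three arcs
  have A : ∀ t ∈ Icc (0 : ℝ) (2 * Real.pi / 3), (100 * e t) ∉ X 2 := by
    rintro t ht ⟨i, hi, hi'⟩
    have hd : dist (100 * e t) (x i) ≤ 1 := at_dist_le hi (at_of_mem (hx i))
    refine not_lab (m := 2) (k := 0) (l := 1) hd (by rw [← hi']; exact hlab i) ?_ ?_
    · have : Real.cos (t - 2 * Real.pi * (((2 : Fin 3) : ℕ) : ℝ) / 3) = Real.cos (t - 2 * Real.pi * (((2 : Fin 3) : ℕ) : ℝ) / 3 + 2 * Real.pi) := by
        rw [Real.cos_add_two_pi]
      rw [this]
      apply cos_le_neg_half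
      have h2 : (((2 : Fin 3) : ℕ) : ℝ) = 2 := by norm_num
      rw [h2, abs_le]
      constructor <;> linarith [ht.1, ht.2]
    · rcases le_total t (Real.pi / 3) with h | h
      · left
        apply cos_half_le
        have h2 : (((0 : Fin 3) : ℕ) : ℝ) = 0 := by norm_num
        rw [h2, abs_le]
        constructor <;> linarith [ht.1, ht.2]
      · right
        apply cos_half_le
        have h2 : (((1 : Fin 3) : ℕ) : ℝ) = 1 := by norm_num
        rw [h2, abs_le]
        constructor <;> linarith [ht.1, ht.2]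
  have B : ∀ t ∈ Icc (2 * Real.pi / 3) (4 * Real.pi / 3), (100 * e t) ∉ X 0 := by
    rintro t ht ⟨i, hi, hi'⟩
    have hd : dist (100 * e t) (x i) ≤ 1 := at_dist_le hi (at_of_mem (hx i))
    refine not_lab (m := 0) (k := 1) (l := 2) hd (by rw [← hi']; exact hlab i) ?_ ?_
    · apply cos_le_neg_half
      have h2 : (((0 : Fin 3) : ℕ) : ℝ) = 0 := by norm_num
      rw [h2, abs_le]
      constructor <;> linarith [ht.1, ht.2]
    · rcases le_total t Real.pi with h | h
      · left
        apply cos_half_le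
        have h2 : (((1 : Fin 3) : ℕ) : ℝ) = 1 := by norm_num
        rw [h2, abs_le]
        constructor <;> linarith [ht.1, ht.2]
      · right
        apply cos_half_le
        have h2 : (((2 : Fin 3) : ℕ) : ℝ) = 2 := by norm_num
        rw [h2, abs_le]
        constructor <;> linarith [ht.1, ht.2]
  have C : ∀ t ∈ Icc (4 * Real.pi / 3) (2 * Real.pi), (100 * e t) ∉ X 1 := by
    rintro t ht ⟨i, hi, hi'⟩
    have hd : dist (100 * e t) (x i) ≤ 1 := at_dist_le hi (at_of_mem (hx i))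
    refine not_lab (m := 1) (k := 2) (l := 0) hd (by rw [← hi']; exact hlab i) ?_ ?_
    · apply cos_le_neg_half
      have h2 : (((1 : Fin 3) : ℕ) : ℝ) = 1 := by norm_num
      rw [h2, abs_le]
      constructor <;> linarith [ht.1, ht.2]
    · rcases le_total t (5 * Real.pi / 3) with h | h
      · left
        apply cos_half_le
        have h2 : (((2 : Fin 3) : ℕ) : ℝ) = 2 := by norm_num
        rw [h2, abs_le]
        constructor <;> linarith [ht.1, ht.2]
      · right
        have : Real.cos (t - 2 * Real.pi * (((0 : Fin 3) : ℕ) : ℝ) / 3) = Real.cos (t - 2 * Real.pi * (((0 : Fin 3) : ℕ) : ℝ) / 3 - 2 * Real.pi) := by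
          rw [Real.cos_sub_two_pi]
        rw [this]
        apply cos_half_le
        have h2 : (((0 : Fin 3) : ℕ) : ℝ) = 0 := by norm_num
        rw [h2, abs_le]
        constructor <;> linarith [ht.1, ht.2]
  have h2π : f (2 * Real.pi) = f 0 := by
    have := e_add_two_pi 0
    rw [zero_add] at this
    simp only [hf, this]
  have hz : (100 * e (2 * Real.pi)) = 100 * e 0 := by
    have := e_add_two_pi 0
    rw [zero_add] at this
    rw [this]
  have m0 : (100 * e 0) ∈ X 0 := by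
    obtain ⟨k, hk⟩ := hcov (100 * e 0)
    fin_cases k
    · exact hk
    · exact absurd hk (by rw [← hz]; exact C _ ⟨by linarith, le_refl _⟩)
    · exact absurd hk (A _ ⟨le_refl _, by linarith⟩)
  obtain ⟨n, hn⟩ := (hw _ 0).1 m0
  have hn' : |f 0 - 3 * n| ≤ 1 / 2 := by simpa using hn
  rw [abs_le] at hn'
  have hwA : ∀ t ∈ Icc (0 : ℝ) (2 * Real.pi / 3), ∀ n : ℤ, ¬ |f t - (3 * n + 2)| ≤ 1 / 2 := fun t ht n => by
    simpa using hwin t 2 (A t ht) n
  have hwB : ∀ t ∈ Icc (2 * Real.pi / 3) (4 * Real.pi / 3), ∀ n : ℤ, ¬ |f t - (3 * n)| ≤ 1 / 2 := fun t ht n => by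
    simpa using hwin t 0 (B t ht) n
  have hwC : ∀ t ∈ Icc (4 * Real.pi / 3) (2 * Real.pi), ∀ n : ℤ, ¬ |f t - (3 * n + 1)| ≤ 1 / 2 := fun t ht n => by
    simpa using hwin t 1 (C t ht) n
  -- first arc
  have s1 := gap hfc (a := 0) (b := 2 * Real.pi / 3) (by linarith) (m := 3 * (n - 1) + 2)
    (fun t ht => by have := hwA t ht (n - 1); push_cast at this ⊢; exact this)
    (fun t ht => by
      have := hwA t ht n
      have h3 : (((3 * (n - 1) + 2 : ℤ) : ℝ) + 3) = 3 * n + 2 := by push_cast; ring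
      rw [h3]; exact this)
    (by push_cast; linarith) (by push_cast; linarith)
  push_cast at s1
  have s1' : (3 * n : ℝ) + 1 / 2 < f (2 * Real.pi / 3) := by
    by_contra hh
    rw [not_lt] at hh
    exact hwB _ ⟨le_refl _, by linarith⟩ n (abs_le.2 ⟨by linarith, by linarith⟩)
  have s2 := gap hfc (a := 2 * Real.pi / 3) (b := 4 * Real.pi / 3) (by linarith) (m := 3 * n)
    (fun t ht => by have := hwB t ht n; push_cast at this ⊢; exact this)
    (fun t ht => by
      have := hwB t ht (n + 1)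
      have h3 : (((3 * n : ℤ) : ℝ) + 3) = 3 * ((n + 1 : ℤ) : ℝ) := by push_cast; ring
      rw [h3]; exact this)
    (by push_cast; linarith) (by push_cast; linarith)
  push_cast at s2
  have s2' : (3 * n : ℝ) + 3 / 2 < f (4 * Real.pi / 3) := by
    by_contra hh
    rw [not_lt] at hh
    exact hwC _ ⟨le_refl _, by linarith⟩ n (abs_le.2 ⟨by linarith, by linarith⟩)
  have s3 := gap hfc (a := 4 * Real.pi / 3) (b := 2 * Real.pi) (by linarith) (m := 3 * n + 1)
    (fun t ht => by have := hwC t ht n; push_cast at this ⊢; exact this)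
    (fun t ht => by
      have := hwC t ht (n + 1)
      have h3 : (((3 * n + 1 : ℤ) : ℝ) + 3) = 3 * ((n + 1 : ℤ) : ℝ) + 1 := by push_cast; ring
      rw [h3]; exact this)
    (by push_cast; linarith) (by push_cast; linarith)
  push_cast at s3
  rw [h2π] at s3
  linarith [s3.1, hn'.2]

end Pool.Agent.H923_Poly
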