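import Pool.Agent.H923_Poly.K11

/-! K11 for arbitrary labels. -/

open Complex Filter Topology Set Metric

namespace Pool.Agent.H923_Poly

namespace TileSystem

variable {S : TileSystem}

open K11 in
/-- Topological lemma for arbitrary labels. -/
theorem touch_general {v : ℂ} (lab : S.ι → ℤ) (hlab' : ∀ i, lab i = 0 ∨ lab i = 1 ∨ lab i = 2)
    (hn : ∑ x ∈ S.bad v, S.jump lab v x ≠ 0) : ∃ (A B C : S.ι) (y : ℂ), lab A = 0 ∧ lab B = 1 ∧ lab C = 2 ∧
      y ∈ closure (S.T A ∩ ball v 1) ∧ y ∈ closure (S.T B ∩ ball v 1) ∧ y ∈ closure (S.T C ∩ ball v 1) := by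
  classical
  by_contra hno
  apply hn
  -- the three index sets
  set J : Fin 3 → Set S.ι := fun k => {i | lab i = ((k : ℕ) : ℤ)} with hJ
  have hlab : ∀ i, ∃ k : Fin 3, lab i = ((k : ℕ) : ℤ) := by
    intro i
    rcases hlab' i with h | h | h
    · exact ⟨0, by rw [h]; rfl⟩
    · exact ⟨1, by rw [h]; rfl⟩
    · exact ⟨2, by rw [h]; rfl⟩
  set Z : Fin 3 → Set ℂ := fun k => closure (⋃ i ∈ J k, S.T i ∩ ball v 1) with hZ
  have hdense : ∀ y ∈ closedBall v 1, ∃ k, y ∈ Z k := by
    intro y hy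
    have hD : Dense (⋃ i, S.T i) := by
      intro p
      obtain ⟨i, hi⟩ := exists_at (S := S) p
      exact closure_mono (subset_iUnion S.T i) hi
    have h1 : y ∈ closure (ball v 1) := by rwa [closure_ball v one_ne_zero]
    have h2 : y ∈ closure (ball v 1 ∩ ⋃ i, S.T i) :=
      closure_minimal (hD.open_subset_closure_inter isOpen_ball) isClosed_closure h1
    have h3 : (ball v 1 ∩ ⋃ i, S.T i) ⊆ ⋃ k, ⋃ i ∈ J k, S.T i ∩ ball v 1 := by
      rintro z ⟨hz, hz'⟩
      rw [mem_iUnion] at hz'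
      obtain ⟨i, hi⟩ := hz'
      obtain ⟨k, hk⟩ := hlab i
      simp only [mem_iUnion]
      exact ⟨k, i, hk, hi, hz⟩
    have h4 := closure_mono h3 h2
    rw [closure_iUnion_of_finite, mem_iUnion] at h4
    exact h4
  obtain ⟨φ, hφ, hφ'⟩ := exists_phase_plane (fun k => ret v ⁻¹' (Z k))
    (fun k => isClosed_closure.preimage (continuous_ret v))
    (fun z => by
      obtain ⟨k, hk⟩ := hdense _ (ret_mem v z)
      exact ⟨k, hk⟩)
    (fun z hz => by
      obtain ⟨h0, h1, h2⟩ := hz
      obtain ⟨A', hA', hyA⟩ := mem_closure_of_union (J 0) (ball v 1) h0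
      obtain ⟨B, hB, hyB⟩ := mem_closure_of_union (J 1) (ball v 1) h1
      obtain ⟨C, hC, hyC⟩ := mem_closure_of_union (J 2) (ball v 1) h2
      exact hno ⟨A', B, C, ret v z, hA', hB, hC, hyA, hyB, hyC⟩)
  -- the phase on the circle
  have hin : ∀ (t : ℝ) (i : S.ι) (k : Fin 3), v + e t ∈ S.T i → (v + e t ∈ Z k ↔ lab i = ((k : ℕ) : ℤ)) := by
    intro t i k hi
    constructor
    · intro h
      obtain ⟨j, hj, hyj⟩ := mem_closure_of_union (J k) (ball v 1) h
      have : i = j := eq_of_mem_of_at hi (closure_mono inter_subset_left hyj)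
      rw [this]
      exact hj
    · intro h
      have h1 : v + e t ∈ closure (ball v 1) := by
        rw [closure_ball v one_ne_zero, mem_closedBall, dist_eq_norm, add_sub_cancel_left, norm_e]
      have h2 : v + e t ∈ closure (S.T i ∩ ball v 1) := (S.isOpen i).inter_closure ⟨hi, h1⟩
      exact closure_mono (subset_biUnion_of_mem (u := fun i => S.T i ∩ ball v 1) (show i ∈ J k from h)) h2
  have hX : ∀ (t : ℝ) (k : Fin 3), v + e t ∈ Z k ↔ ∃ n : ℤ, |φ (v + e t) - (3 * n + ((k : Fin 3) : ℕ))| ≤ 1 / 2 := by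
    intro t k
    rw [← hφ' (v + e t) k, mem_preimage, ret_circle]
  have hphase : ∀ t i, v + e t ∈ S.T i → ∃ n : ℤ, |φ (v + e t) - (3 * n + lab i)| < 1 / 2 := by
    intro t i hi
    obtain ⟨k, hk⟩ := hlab i
    obtain ⟨n, hn⟩ := (hX t k).1 ((hin t i k hi).2 hk)
    refine ⟨n, ?_⟩
    rw [hk]
    push_cast
    refine lt_of_le_of_ne hn ?_
    intro heq
    -- a neighbouring label is also present
    have huniq : ∀ k' : Fin 3, ∀ n' : ℤ, |φ (v + e t) - (3 * n' + ((k' : Fin 3) : ℕ))| ≤ 1 / 2 → k' = k := by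
      intro k' n' h'
      have h1 := (hin t i k' hi).1 ((hX t k').2 ⟨n', h'⟩)
      rw [hk] at h1
      exact Fin.ext (by exact_mod_cast h1.symm)
    rcases (abs_eq (by norm_num : (0 : ℝ) ≤ 1 / 2)).1 heq with h1 | h1
    · -- `φ = 3 n + k + 1/2`
      fin_cases k
      · have := huniq 1 n (by
          simp at h1 ⊢
          rw [abs_le]
          constructor <;> linarith)
        simp at this
      · have := huniq 2 n (by
          simp at h1 ⊢
          rw [abs_le]
          constructor <;> linarith)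
        simp at this
      · have := huniq 0 (n + 1) (by
          simp at h1 ⊢
          rw [abs_le]
          constructor <;> linarith)
        simp at this
    · fin_cases k
      · have := huniq 2 (n - 1) (by
          simp at h1 ⊢
          rw [abs_le]
          constructor <;> linarith)
        simp at this
      · have := huniq 0 n (by
          simp at h1 ⊢
          rw [abs_le]
          constructor <;> linarith)
        simp at this
      · have := huniq 1 n (by
          simp at h1 ⊢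
          rw [abs_le]
          constructor <;> linarith)
        simp at this
  -- a point of the circle in a tile
  obtain ⟨a, i₀, ha⟩ : ∃ (a : ℝ) (i : S.ι), v + e a ∈ S.T i := by
    obtain ⟨i, hi⟩ := exists_gp (S := S) (v := v) (x := v + 1) (by simp)
    obtain ⟨h, hh⟩ := hi.exists
    refine ⟨h, i, ?_⟩
    simpa using hh
  have hcont : Continuous fun t : ℝ => φ (v + e t) := hφ.comp (continuous_const.add continuous_e)
  have hnot : ∀ n : ℤ, φ (v + e a) ≠ 3 * n + 1 / 2 := by
    intro n hn'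
    obtain ⟨k, hk⟩ := hlab i₀
    obtain ⟨n', hn''⟩ := hphase a i₀ ha
    rw [hn', hk, abs_lt] at hn''
    have h1 : ((3 * n - 3 * n' - (k : ℕ) : ℤ) : ℝ) < 0 := by push_cast at hn'' ⊢; linarith [hn''.2]
    have h2 : (-1 : ℝ) < ((3 * n - 3 * n' - (k : ℕ) : ℤ) : ℝ) := by push_cast at hn'' ⊢; linarith [hn''.1]
    have h3 : 3 * n - 3 * n' - (k : ℕ) < (0 : ℤ) := by exact_mod_cast h1
    have h4 : (-1 : ℤ) < 3 * n - 3 * n' - (k : ℕ) := by exact_mod_cast h2
    omega
  have hj := jump_lemma (S := S) v (lab) hlab' (fun t => φ (v + e t)) hcont hphase a (a + 2 * Real.pi)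
      (by linarith [Real.pi_pos]) le_rfl hnot (by rw [e_add_two_pi]; exact hnot)
  simp only [e_add_two_pi, sub_self] at hj
  rw [hj]
  apply Finset.sum_congr _ (fun _ _ => rfl)
  symm
  rw [Finset.filter_eq_self]
  intro x hx
  have hx' : dist x v = 1 ∧ ∀ i, x ∉ S.T i := by simpa [bad] using hx
  obtain ⟨t, ht⟩ := exists_e (z := x - v) (by rw [← dist_eq_norm]; exact hx'.1)
  obtain ⟨m, hm, -⟩ := existsUnique_add_zsmul_mem_Ico (by linarith [Real.pi_pos] : 0 < 2 * Real.pi) t a
  have het : e (t + m • (2 * Real.pi)) = e t := by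
    rw [e_eq_iff]
    exact ⟨m, by simp⟩
  refine ⟨t + m • (2 * Real.pi), ⟨lt_of_le_of_ne hm.1 ?_, hm.2⟩, ?_⟩
  · intro hat
    apply hx'.2 i₀
    have : x = v + e a := by
      rw [hat, het, ← ht]
      ring
    rw [this]
    exact ha
  · rw [het, ← ht]
    ring

end TileSystem

end Pool.Agent.H923_Poly
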