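import Pool.Agent.H923_Poly.Local

/-! Steps K3 (step B), K4 (static lemma), K6 (unit distance and phases), K7 (step C), K8 (windows). -/

open Complex Filter Topology Set Metric

namespace Pool.Agent.H923_Poly

namespace TileSystem

variable {S : TileSystem}

/-- Two unit circles with different centres at distance less than two meet. -/
theorem exists_inter {v y : ℂ} (hne : v ≠ y) (hd : dist v y < 2) :
    ∃ p : ℂ, dist p v = 1 ∧ dist p y = 1 := by
  have hd0 : 0 < ‖y - v‖ := norm_pos_iff.2 (sub_ne_zero.2 hne.symm)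
  have hd2 : ‖y - v‖ < 2 := by rwa [dist_comm, dist_eq_norm] at hd
  set d := ‖y - v‖ with hdef
  have h4 : 0 ≤ 1 / d ^ 2 - 1 / 4 := by
    rw [sub_nonneg]
    apply one_div_le_one_div_of_le (by positivity)
    nlinarith
  set t := √(1 / d ^ 2 - 1 / 4) with ht
  have ht2 : t ^ 2 = 1 / d ^ 2 - 1 / 4 := Real.sq_sqrt h4
  have key : ∀ s : ℝ, s ^ 2 = 1 / 4 → ‖(y - v) * ((s : ℂ) + t * I)‖ = 1 := by
    intro s hs
    rw [norm_mul, ← hdef, Complex.norm_add_mul_I, hs, ht2]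
    have : (1 / 4 + (1 / d ^ 2 - 1 / 4) : ℝ) = (1 / d) ^ 2 := by ring
    rw [this, Real.sqrt_sq (by positivity)]
    field_simp
  refine ⟨(v + y) / 2 + (y - v) * (t * I), ?_, ?_⟩
  · rw [dist_eq_norm, ← key (1 / 2) (by norm_num)]
    congr 1
    push_cast
    ring
  · rw [dist_eq_norm, ← key (-(1 / 2)) (by norm_num)]
    congr 1
    push_cast
    ring

/-- K3. Step B. -/
theorem stepB {v y : ℂ} {F : Finset (Fin 6)} (hv : S.TripleOf v F) (hy : S.TripleOf y Fᶜ) : 2 ≤ dist v y := by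
  by_contra hlt
  push Not at hlt
  have hF : F.Nonempty := by
    rw [← Finset.card_pos, hv.1]; norm_num
  have hne : v ≠ y := by
    rintro rfl
    obtain ⟨a, ha⟩ := hF
    obtain ⟨i, hi, hc⟩ := hv.2 a ha
    have h1 := hy.mem hi
    rw [hc, Finset.mem_compl] at h1
    exact h1 ha
  obtain ⟨p, hpv, hpy⟩ := exists_inter hne hlt
  obtain ⟨i₁, h₁⟩ := exists_gp (S := S) hpv
  obtain ⟨i₂, h₂⟩ := exists_gm (S := S) hpv
  obtain ⟨j₁, h₃⟩ := exists_gp (S := S) hpy
  obtain ⟨j₂, h₄⟩ := exists_gm (S := S) hpy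
  refine crossing hpv hpy hne hlt {i | S.c i ∉ F} h₁ h₂ h₃ h₄ (hv.gp_not_mem hpv h₁)
    (hv.gm_not_mem hpv h₂) ?_ ?_
  · intro h
    exact hy.gp_not_mem hpy h₃ (Finset.mem_compl.2 h)
  · intro h
    exact hy.gm_not_mem hpy h₄ (Finset.mem_compl.2 h)

/-- three points with two unit distances and an extremal third distance are equally spaced -/
theorem eq_of_dist_two {y a b : ℂ} (h1 : dist a y = 1) (h2 : dist a b = 1) (h3 : 2 ≤ dist y b) :
    y - a = a - b := by
  have h1' : ‖y - a‖ = 1 := by rw [← dist_eq_norm, dist_comm]; exact h1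
  have h2' : ‖a - b‖ = 1 := by rw [← dist_eq_norm]; exact h2
  have h3' : 2 ≤ ‖(y - a) + (a - b)‖ := by
    rw [sub_add_sub_cancel, ← dist_eq_norm]; exact h3
  have h4 := parallelogram_law_with_norm ℝ (y - a) (a - b)
  rw [h1', h2'] at h4
  have h5 : ‖y - a - (a - b)‖ = 0 := by
    have h6 := norm_nonneg (y - a - (a - b))
    nlinarith
  rw [norm_eq_zero, sub_eq_zero] at h5
  exact h5

/-- half of the static lemma -/
theorem static_aux {v y : ℂ} {F : Finset (Fin 6)} (hv : S.TripleOf v F) (hy : S.TripleOf y F) {a b : ℂ}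
    (ha : dist a y = 1) (hb : dist b v = 1) (hab : dist a b = 1)
    (heq : S.germColors y a = S.germColors v b) : 2 ≤ dist y b := by
  by_contra hlt
  push Not at hlt
  have hne : y ≠ b := by
    rintro rfl
    obtain ⟨i, hi⟩ := exists_gp (S := S) hb
    exact hv.gp_not_mem hb hi (hy.mem (gp_at hi))
  obtain ⟨i₁, h₁⟩ := exists_gp (S := S) ha
  obtain ⟨i₂, h₂⟩ := exists_gm (S := S) ha
  obtain ⟨j₁, h₃⟩ := exists_gp (S := S) hab
  obtain ⟨j₂, h₄⟩ := exists_gm (S := S) hab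
  have hat : ∀ x ∈ S.germColors v b, ∃ j, S.At b j ∧ S.c j = x := by
    rintro x ⟨j, hj | hj, hc⟩
    · exact ⟨j, gp_at hj, hc⟩
    · exact ⟨j, gm_at hj, hc⟩
  refine crossing ha hab hne hlt {i | S.c i ∈ S.germColors y a} h₁ h₂ h₃ h₄
    ⟨i₁, Or.inl h₁, rfl⟩ ⟨i₂, Or.inr h₂, rfl⟩ ?_ ?_
  · intro h
    rw [mem_ofPred_eq, heq] at h
    obtain ⟨j, hj, hc⟩ := hat _ h
    exact gp_color_ne hab h₃ hj hc.symm
  · intro h
    rw [mem_ofPred_eq, heq] at h
    obtain ⟨j, hj, hc⟩ := hat _ h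
    exact gm_color_ne hab h₄ hj hc.symm

/-- K4. Static lemma. -/
theorem static {v y : ℂ} {F : Finset (Fin 6)} (hv : S.TripleOf v F) (hy : S.TripleOf y F) (hd : dist v y < 3) {a b : ℂ}
    (ha : dist a y = 1) (hb : dist b v = 1) (hab : dist a b = 1) : S.germColors y a ≠ S.germColors v b := by
  intro heq
  have h1 := static_aux hv hy ha hb hab heq
  have h2 := static_aux hy hv hb ha (by rw [dist_comm]; exact hab) heq.symm
  have e1 := eq_of_dist_two ha hab h1
  have e2 := eq_of_dist_two hb (by rw [dist_comm]; exact hab) h2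
  have e3 : v - y = 3 * (b - a) := by linear_combination e2 - e1
  have e4 : dist v y = 3 := by
    rw [dist_eq_norm, e3, norm_mul, ← dist_eq_norm, dist_comm, hab]
    simp
  linarith

theorem dist_add_e (v : ℂ) (t : ℝ) : dist (v + e t) v = 1 := by
  rw [dist_eq_norm, add_sub_cancel_left, norm_e]

/-- The three colors off `F` are `κ 0, κ 1, κ 2`. -/
theorem exists_kappa {F : Finset (Fin 6)} (hF3 : F.card = 3) {κ : Fin 3 → Fin 6} (hκ : Function.Injective κ)
    (hF : ∀ k, κ k ∉ F) {a : Fin 6} (ha : a ∉ F) : ∃ k, κ k = a := by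
  have h1 : (Finset.univ.image κ) ⊆ Fᶜ := by
    intro x hx
    obtain ⟨k, -, rfl⟩ := Finset.mem_image.1 hx
    exact Finset.mem_compl.2 (hF k)
  have h2 : (Fᶜ).card ≤ (Finset.univ.image κ).card := by
    rw [Finset.card_image_of_injective _ hκ, Finset.card_compl, hF3]
    simp
  have h3 := Finset.eq_of_subset_of_card_le h1 h2
  have h4 : a ∈ Finset.univ.image κ := by rw [h3]; exact Finset.mem_compl.2 ha
  obtain ⟨k, -, hk⟩ := Finset.mem_image.1 h4
  exact ⟨k, hk⟩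

theorem germ_not_mem {v : ℂ} {F : Finset (Fin 6)} (hv : S.TripleOf v F) {x : ℂ} (hx : dist x v = 1) {a : Fin 6}
    (ha : a ∈ S.germColors v x) : a ∉ F := by
  obtain ⟨i, hi | hi, rfl⟩ := ha
  · exact hv.gp_not_mem hx hi
  · exact hv.gm_not_mem hx hi

/-- K6. Unit distance and phases. -/
theorem phase_sub_ne {v y : ℂ} {F : Finset (Fin 6)} (hv : S.TripleOf v F) (hy : S.TripleOf y F) (hd : dist v y < 3)
    {κ : Fin 3 → Fin 6} (hκ : Function.Injective κ) (hF : ∀ k, κ k ∉ F) {f g : ℝ → ℝ} (hf : S.IsPhase v κ f)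
    (hg : S.IsPhase y κ g) {s t : ℝ} (hst : dist (y + e s) (v + e t) = 1) : ∀ n : ℤ, f t - g s ≠ 3 * n := by
  intro n hn
  refine static hv hy hd (dist_add_e y s) (dist_add_e v t) hst ?_
  have key : ∀ k : Fin 3, κ k ∈ S.germColors y (y + e s) ↔ κ k ∈ S.germColors v (v + e t) := by
    intro k
    rw [hf.2, hg.2]
    constructor
    · rintro ⟨n', hn'⟩
      refine ⟨n' + n, ?_⟩
      have : f t - (3 * ((n' + n : ℤ) : ℝ) + (k : ℕ)) = g s - (3 * n' + (k : ℕ)) := by
        push_cast; linarith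
      rw [this]; exact hn'
    · rintro ⟨n', hn'⟩
      refine ⟨n' - n, ?_⟩
      have : g s - (3 * ((n' - n : ℤ) : ℝ) + (k : ℕ)) = f t - (3 * n' + (k : ℕ)) := by
        push_cast; linarith
      rw [this]; exact hn'
  ext a
  constructor
  · intro ha
    obtain ⟨k, rfl⟩ := exists_kappa hy.1 hκ hF (germ_not_mem hy (dist_add_e y s) ha)
    exact (key k).1 ha
  · intro ha
    obtain ⟨k, rfl⟩ := exists_kappa hv.1 hκ hF (germ_not_mem hv (dist_add_e v t) ha)
    exact (key k).2 ha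

theorem norm_one_sub_e : ‖(1 : ℂ) - e (Real.pi / 3)‖ = 1 := by
  have h : (1 : ℂ) - e (Real.pi / 3) = ((1 / 2 : ℝ) : ℂ) + ((-(√3 / 2) : ℝ) : ℂ) * I := by
    apply Complex.ext
    · simp [e_re, Real.cos_pi_div_three]; norm_num
    · simp [e_im, Real.sin_pi_div_three]
  rw [h, Complex.norm_add_mul_I]
  have h3 : (√3 : ℝ) ^ 2 = 3 := Real.sq_sqrt (by norm_num)
  have : (1 / 2 : ℝ) ^ 2 + (-(√3 / 2)) ^ 2 = 1 := by nlinarith
  rw [this, Real.sqrt_one]

theorem dist_e_add_third (v : ℂ) (t : ℝ) : dist (v + e t) (v + e (t + Real.pi / 3)) = 1 := by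
  rw [dist_eq_norm, add_sub_add_left_eq_sub, e_add]
  have : e t - e t * e (Real.pi / 3) = e t * (1 - e (Real.pi / 3)) := by ring
  rw [this, norm_mul, norm_e, norm_one_sub_e, one_mul]

/-- K7. Step C. -/
theorem stepC {v : ℂ} {F : Finset (Fin 6)} (hv : S.TripleOf v F) {κ : Fin 3 → Fin 6} (hκ : Function.Injective κ)
    (hF : ∀ k, κ k ∉ F) {f : ℝ → ℝ} (hf : S.IsPhase v κ f) :
    ∃ m : ℤ, ∀ t, 3 * (m : ℝ) < f (t + Real.pi / 3) - f t ∧ f (t + Real.pi / 3) - f t < 3 * m + 3 := by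
  have hne : ∀ t (n : ℤ), f (t + Real.pi / 3) - f t ≠ 3 * n := fun t =>
    phase_sub_ne hv hv (by simp) hκ hF hf hf (dist_e_add_third v t)
  have hfc := hf.1
  have hcont : Continuous fun t => f (t + Real.pi / 3) - f t :=
    (hfc.comp (continuous_id.add continuous_const)).sub hfc
  set D : ℝ → ℝ := fun t => f (t + Real.pi / 3) - f t with hD
  refine ⟨⌊D 0 / 3⌋, fun t => ?_⟩
  have h1 := Int.floor_le (D 0 / 3)
  have h2 := Int.lt_floor_add_one (D 0 / 3)
  have hno : ∀ n : ℤ, (3 * n : ℝ) ∉ range D := by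
    rintro n ⟨x, hx⟩
    exact hne x n hx
  constructor
  · by_contra h
    push Not at h
    exact hno _ (mem_range_of_exists_le_of_exists_ge hcont ⟨t, h⟩ ⟨0, by linarith⟩)
  · by_contra h
    push Not at h
    refine hno (⌊D 0 / 3⌋ + 1) (mem_range_of_exists_le_of_exists_ge hcont ⟨0, ?_⟩ ⟨t, ?_⟩)
    · push_cast; linarith
    · push_cast; linarith

theorem win_eq {x : ℝ} {n : ℤ} (h1 : 3 * (n : ℝ) + 1 / 2 < x) (h2 : x < 3 * n + 5 / 2) : win x = n := by
  unfold win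
  rw [Int.floor_eq_iff]
  constructor <;> linarith

theorem ne_of_window {x : ℝ} {n : ℤ} (h1 : 3 * (n : ℝ) + 1 / 2 < x) (h2 : x < 3 * n + 5 / 2) (k : ℤ) :
    x ≠ 3 * k + 1 / 2 := by
  rintro rfl
  have h3 : (n : ℝ) < k := by linarith
  have h4 : (k : ℝ) < n + 1 := by linarith
  have h5 : n < k := by exact_mod_cast h3
  have h6 : k < n + 1 := by exact_mod_cast h4
  omega

/-- at distance one from a point of a tile of color `κ 0` the phase avoids the windows of `κ 0` -/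
theorem phase_avoid {v : ℂ} {κ : Fin 3 → Fin 6} {f : ℝ → ℝ} (hf : S.IsPhase v κ f) {t t' : ℝ} {i : S.ι}
    (hi : v + e t ∈ S.T i) (hc : S.c i = κ 0) (hd : dist (v + e t) (v + e t') = 1) (n : ℤ) :
    1 / 2 < |f t' - 3 * n| := by
  by_contra h
  push Not at h
  have h1 : κ 0 ∈ S.germColors v (v + e t') := (hf.2 t' 0).2 ⟨n, by simpa using h⟩
  obtain ⟨j, hj, hcj⟩ := h1
  have hat : S.At (v + e t') j := hj.elim gp_at gm_at
  exact unit_closure hi hat hd (hc.trans hcj.symm)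

theorem phase_in {v : ℂ} {κ : Fin 3 → Fin 6} (hκ : Function.Injective κ) {f : ℝ → ℝ} (hf : S.IsPhase v κ f) {t : ℝ}
    {i : S.ι} (hi : v + e t ∈ S.T i) (hc : S.c i = κ 0) : ∃ n : ℤ, |f t - 3 * n| < 1 / 2 := by
  have hg : ∀ a ∈ S.germColors v (v + e t), a = κ 0 := by
    rintro a ⟨j, hj | hj, rfl⟩
    · rw [gp_unique hj (gp_of_mem hi), hc]
    · rw [gm_unique hj (gm_of_mem hi), hc]
  obtain ⟨n, hn⟩ := (hf.2 t 0).1 ⟨i, Or.inl (gp_of_mem hi), hc⟩
  refine ⟨n, lt_of_le_of_ne (by simpa using hn) fun heq => ?_⟩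
  rcases eq_or_eq_neg_of_abs_eq heq with h | h
  · have h1 : κ 1 ∈ S.germColors v (v + e t) := by
      rw [hf.2 t 1]
      refine ⟨n, ?_⟩
      have : f t - (3 * (n : ℝ) + ((1 : Fin 3) : ℕ)) = -(1 / 2) := by
        simp only [Fin.val_one, Nat.cast_one]; linarith
      rw [this]; norm_num
    exact absurd (hκ (hg _ h1)) (by decide)
  · have h1 : κ 2 ∈ S.germColors v (v + e t) := by
      rw [hf.2 t 2]
      refine ⟨n - 1, ?_⟩
      have : f t - (3 * ((n - 1 : ℤ) : ℝ) + ((2 : Fin 3) : ℕ)) = 1 / 2 := by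
        simp only [Fin.val_two, Nat.cast_ofNat]; push_cast; linarith
      rw [this]; norm_num
    exact absurd (hκ (hg _ h1)) (by decide)

/-- K8. Windows at distance one from a tile of color `κ 0`. -/
theorem win_sub {v : ℂ} {F : Finset (Fin 6)} (hv : S.TripleOf v F) {κ : Fin 3 → Fin 6} (hκ : Function.Injective κ)
    (hF : ∀ k, κ k ∉ F) {f : ℝ → ℝ} (hf : S.IsPhase v κ f) {m : ℤ}
    (hm : ∀ t, 3 * (m : ℝ) < f (t + Real.pi / 3) - f t ∧ f (t + Real.pi / 3) - f t < 3 * m + 3) {t : ℝ} {i : S.ι}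
    (hi : v + e t ∈ S.T i) (hc : S.c i = κ 0) :
    (∀ n : ℤ, f (t + Real.pi / 3) ≠ 3 * n + 1 / 2) ∧ (∀ n : ℤ, f (t - Real.pi / 3) ≠ 3 * n + 1 / 2) ∧
      win (f (t + Real.pi / 3)) - win (f (t - Real.pi / 3)) = 2 * m + 1 := by
  obtain ⟨k, hk⟩ := phase_in hκ hf hi hc
  rw [abs_lt] at hk
  have hd1 : dist (v + e t) (v + e (t + Real.pi / 3)) = 1 := dist_e_add_third v t
  have hd2 : dist (v + e t) (v + e (t - Real.pi / 3)) = 1 := by
    have := dist_e_add_third v (t - Real.pi / 3)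
    rw [sub_add_cancel] at this
    rw [dist_comm]; exact this
  have hm1 := hm t
  have hm2 := hm (t - Real.pi / 3)
  rw [sub_add_cancel] at hm2
  -- the point after
  have a1 : 3 * ((k + m : ℤ) : ℝ) + 1 / 2 < f (t + Real.pi / 3) := by
    by_contra h
    push Not at h
    have h1 := phase_avoid hf hi hc hd1 (k + m)
    rw [lt_abs] at h1
    push_cast at h h1
    rcases h1 with h1 | h1 <;> linarith [hm1.1, hk.1]
  have a2 : f (t + Real.pi / 3) < 3 * ((k + m : ℤ) : ℝ) + 5 / 2 := by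
    by_contra h
    push Not at h
    have h1 := phase_avoid hf hi hc hd1 (k + m + 1)
    rw [lt_abs] at h1
    push_cast at h h1
    rcases h1 with h1 | h1 <;> linarith [hm1.2, hk.2]
  have b1 : 3 * ((k - m - 1 : ℤ) : ℝ) + 1 / 2 < f (t - Real.pi / 3) := by
    by_contra h
    push Not at h
    have h1 := phase_avoid hf hi hc hd2 (k - m - 1)
    rw [lt_abs] at h1
    push_cast at h h1
    rcases h1 with h1 | h1 <;> linarith [hm2.2, hk.1]
  have b2 : f (t - Real.pi / 3) < 3 * ((k - m - 1 : ℤ) : ℝ) + 5 / 2 := by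
    by_contra h
    push Not at h
    have h1 := phase_avoid hf hi hc hd2 (k - m)
    rw [lt_abs] at h1
    push_cast at h h1
    rcases h1 with h1 | h1 <;> linarith [hm2.1, hk.2]
  refine ⟨ne_of_window a1 a2, ne_of_window b1 b2, ?_⟩
  rw [win_eq a1 a2, win_eq b1 b2]
  ring

end TileSystem

end Pool.Agent.H923_Poly
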