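import Pool.Agent.H923_Poly.K2
import Pool.Agent.H923_Poly.K3

/-! K14a: sums of jumps. -/

open Complex Filter Topology Set Metric

namespace Pool.Agent.H923_Poly

namespace TileSystem

variable {S : TileSystem}

/-- In a tile the phase is strictly inside its window. -/
theorem phase_strict {v : ℂ} {κ : Fin 3 → Fin 6} (hκ : Function.Injective κ) {f : ℝ → ℝ} (hf : S.IsPhase v κ f)
    {t : ℝ} {i : S.ι} (hi : v + e t ∈ S.T i) {k : Fin 3} (hk : S.c i = κ k) :
    ∃ n : ℤ, |f t - (3 * n + (k : ℕ))| < 1 / 2 := by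
  have hgc : ∀ k' : Fin 3, κ k' ∈ S.germColors v (v + e t) → k' = k := by
    rintro k' ⟨j, hj, hj'⟩
    have hji : j = i := by
      rcases hj with hj | hj
      · exact gp_unique hj (gp_of_mem hi)
      · exact gm_unique hj (gm_of_mem hi)
    rw [hji, hk] at hj'
    exact (hκ hj').symm
  have hmem : κ k ∈ S.germColors v (v + e t) := ⟨i, Or.inl (gp_of_mem hi), hk⟩
  obtain ⟨n, hn⟩ := (hf.2 t k).1 hmem
  refine ⟨n, lt_of_le_of_ne hn fun heq => ?_⟩
  rcases (abs_eq (by norm_num : (0 : ℝ) ≤ 1 / 2)).1 heq with h | h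
  · -- f t = 3n+k+1/2
    obtain ⟨k', hkk', n', hn'⟩ : ∃ k' : Fin 3, k' ≠ k ∧ ∃ n' : ℤ, (3 * n + (k : ℕ) + 1 : ℝ) = 3 * n' + (k' : ℕ) := by
      fin_cases k
      · exact ⟨1, by decide, n, by simp⟩
      · exact ⟨2, by decide, n, by simp; ring⟩
      · exact ⟨0, by decide, n + 1, by simp; ring⟩
    apply hkk'
    apply hgc
    apply (hf.2 t k').2
    refine ⟨n', ?_⟩
    rw [← hn', abs_le]
    constructor <;> linarith
  · obtain ⟨k', hkk', n', hn'⟩ : ∃ k' : Fin 3, k' ≠ k ∧ ∃ n' : ℤ, (3 * n + (k : ℕ) - 1 : ℝ) = 3 * n' + (k' : ℕ) := by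
      fin_cases k
      · exact ⟨2, by decide, n - 1, by simp; ring⟩
      · exact ⟨0, by decide, n, by simp⟩
      · exact ⟨1, by decide, n, by simp; ring⟩
    apply hkk'
    apply hgc
    apply (hf.2 t k').2
    refine ⟨n', ?_⟩
    rw [← hn', abs_le]
    constructor <;> linarith

theorem exists_color {v : ℂ} {F : Finset (Fin 6)} (hv : S.TripleOf v F) {κ : Fin 3 → Fin 6} (hκ : Function.Injective κ)
    (hF : ∀ k, κ k ∉ F) {a : Fin 6} (ha : a ∉ F) : ∃ k, a = κ k := by
  have h1 : Finset.univ.image κ ⊆ Fᶜ := by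
    intro x hx
    simp only [Finset.mem_image, Finset.mem_univ, true_and] at hx
    obtain ⟨k, rfl⟩ := hx
    simpa using hF k
  have h2 : Finset.univ.image κ = Fᶜ := by
    apply Finset.eq_of_subset_of_card_le h1
    rw [Finset.card_compl, hv.1, Finset.card_image_of_injective _ hκ]
    simp
  have h3 : a ∈ Finset.univ.image κ := by rw [h2]; simpa using ha
  simp only [Finset.mem_image, Finset.mem_univ, true_and] at h3
  obtain ⟨k, hk⟩ := h3
  exact ⟨k, hk.symm⟩

/-- the hypothesis of the jump lemma for the phase and `labC` -/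
theorem labC_phase {v : ℂ} {F : Finset (Fin 6)} (hv : S.TripleOf v F) {κ : Fin 3 → Fin 6} (hκ : Function.Injective κ)
    (hF : ∀ k, κ k ∉ F) {f : ℝ → ℝ} (hf : S.IsPhase v κ f) (t : ℝ) (i : S.ι) (hi : v + e t ∈ S.T i) :
    ∃ n : ℤ, |f t - (3 * n + S.labC κ i)| < 1 / 2 := by
  have hd : dist (v + e t) v = 1 := by rw [dist_eq_norm, add_sub_cancel_left, norm_e]
  obtain ⟨k, hk⟩ := exists_color hv hκ hF (hv.gp_not_mem hd (gp_of_mem hi))
  obtain ⟨n, hn⟩ := phase_strict hκ hf hi hk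
  refine ⟨n, ?_⟩
  have : ((S.labC κ i : ℤ) : ℝ) = ((k : ℕ) : ℝ) := by
    unfold labC
    rw [hk]
    fin_cases k
    · simp
    · have : κ 1 ≠ κ 0 := hκ.ne (by decide)
      simp [this]
    · have h1 : κ 2 ≠ κ 0 := hκ.ne (by decide)
      have h2 : κ 2 ≠ κ 1 := hκ.ne (by decide)
      simp [h1, h2]
  rw [this]
  exact hn

theorem labC_cases (κ : Fin 3 → Fin 6) (i : S.ι) : S.labC κ i = 0 ∨ S.labC κ i = 1 ∨ S.labC κ i = 2 := by
  unfold labC
  split_ifs <;> simp

theorem labC_eq_zero {κ : Fin 3 → Fin 6} {i : S.ι} : S.labC κ i = 0 ↔ S.c i = κ 0 := by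
  unfold labC
  split_ifs <;> simp_all

theorem labC_eq_one {κ : Fin 3 → Fin 6} (hκ : Function.Injective κ) {i : S.ι} : S.labC κ i = 1 ↔ S.c i = κ 1 := by
  have h : κ 0 ≠ κ 1 := hκ.ne (by decide)
  unfold labC
  split_ifs with h1 h2 <;> simp_all

theorem labA_eq_zero {κ : Fin 3 → Fin 6} {A i : S.ι} : S.labA κ A i = 0 ↔ i = A := by
  unfold labA
  split_ifs <;> simp_all

theorem labA_eq_one {κ : Fin 3 → Fin 6} (hκ : Function.Injective κ) {A i : S.ι} (hA : S.c A = κ 0) :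
    S.labA κ A i = 1 ↔ S.c i = κ 1 := by
  have h : κ 0 ≠ κ 1 := hκ.ne (by decide)
  unfold labA
  split_ifs with h1 h2
  · subst h1; simp [hA, h]
  · simp [h2]
  · simp [h2]

/-- the jump in terms of the two germ tiles -/
theorem jump_eq {lab : S.ι → ℤ} {v x : ℂ} {i j : S.ι} (hi : S.gm v x i) (hj : S.gp v x j) [Decidable (lab i = 0 ∧ lab j = 1)]
    [Decidable (lab i = 1 ∧ lab j = 0)] :
    S.jump lab v x = (if lab i = 0 ∧ lab j = 1 then 1 else 0) - (if lab i = 1 ∧ lab j = 0 then 1 else 0) := by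
  unfold jump
  have h1 : ∀ m n : ℤ, ((∃ i, S.gm v x i ∧ lab i = m) ∧ (∃ j, S.gp v x j ∧ lab j = n)) ↔ (lab i = m ∧ lab j = n) := by
    intro m n
    constructor
    · rintro ⟨⟨i', hi', h1⟩, ⟨j', hj', h2⟩⟩
      rw [gm_unique hi' hi] at h1
      rw [gp_unique hj' hj] at h2
      exact ⟨h1, h2⟩
    · rintro ⟨h1, h2⟩
      exact ⟨⟨i, hi, h1⟩, ⟨j, hj, h2⟩⟩
  simp only [h1]

/-- the tiles at the bad points, finitely many -/
theorem germ_tiles_finite (S : TileSystem) (v : ℂ) : {i | ∃ x ∈ S.bad v, S.gm v x i ∨ S.gp v x i}.Finite := by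
  have h1 : {i | ∃ x ∈ S.bad v, S.gm v x i ∨ S.gp v x i} = ⋃ x ∈ S.bad v, ({i | S.gm v x i} ∪ {i | S.gp v x i}) := by
    ext i
    simp
  rw [h1]
  refine Set.Finite.biUnion (S.bad v).finite_toSet fun x _ => ?_
  refine Set.Finite.union ?_ ?_
  · exact Set.Subsingleton.finite fun i hi j hj => gm_unique hi hj
  · exact Set.Subsingleton.finite fun i hi j hj => gp_unique hi hj

open Classical in
/-- summing the jumps of the tiles with a property over all tiles of color `κ 0` -/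
theorem sum_jump {κ : Fin 3 → Fin 6} (hκ : Function.Injective κ) {v x : ℂ} (A : Finset S.ι)
    (hA : ∀ i ∈ A, S.c i = κ 0) (Q : S.ι → Prop) (q : Prop)
    (hAx : ∀ i, (S.gm v x i ∨ S.gp v x i) → S.c i = κ 0 → i ∈ A)
    (hQ : ∀ i, (S.gm v x i ∨ S.gp v x i) → S.c i = κ 0 → (Q i ↔ q)) (hx : dist x v = 1) :
    ∑ a ∈ A.filter Q, S.jump (S.labA κ a) v x = if q then S.jump (S.labC κ) v x else 0 := by
  obtain ⟨i, hi⟩ := exists_gm (S := S) hx
  obtain ⟨j, hj⟩ := exists_gp (S := S) hx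
  have h01 : κ 0 ≠ κ 1 := hκ.ne (by decide)
  have h1 : ∀ a ∈ A.filter Q, S.jump (S.labA κ a) v x =
      (if i = a ∧ S.c j = κ 1 then 1 else 0) - (if S.c i = κ 1 ∧ j = a then 1 else 0) := by
    intro a ha
    have hca := hA a (Finset.mem_filter.1 ha).1
    rw [jump_eq hi hj]
    simp only [labA_eq_zero, labA_eq_one hκ hca]
  rw [Finset.sum_congr rfl h1, Finset.sum_sub_distrib, jump_eq hi hj]
  simp only [labC_eq_zero, labC_eq_one hκ]
  have s1 : ∑ a ∈ A.filter Q, (if i = a ∧ S.c j = κ 1 then (1 : ℤ) else 0) = if q then (if S.c i = κ 0 ∧ S.c j = κ 1 then 1 else 0) else 0 := by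
    by_cases hc : S.c j = κ 1
    · simp only [hc, and_true]
      rw [Finset.sum_ite_eq]
      simp only [Finset.mem_filter]
      by_cases hci : S.c i = κ 0
      · have := hAx i (Or.inl hi) hci
        have hq := hQ i (Or.inl hi) hci
        simp [this, hq, hci]
      · have : i ∉ A := fun h => hci (hA i h)
        simp [this, hci]
    · simp [hc]
  have s2 : ∑ a ∈ A.filter Q, (if S.c i = κ 1 ∧ j = a then (1 : ℤ) else 0) = if q then (if S.c i = κ 1 ∧ S.c j = κ 0 then 1 else 0) else 0 := by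
    by_cases hc : S.c i = κ 1
    · simp only [hc, true_and]
      rw [Finset.sum_ite_eq]
      simp only [Finset.mem_filter]
      by_cases hci : S.c j = κ 0
      · have := hAx j (Or.inr hj) hci
        have hq := hQ j (Or.inr hj) hci
        simp [this, hq, hci]
      · have : j ∉ A := fun h => hci (hA j h)
        simp [this, hci]
    · simp [hc]
  rw [s1, s2]
  split_ifs <;> simp

/-- the chord length between two points of a unit circle is less than one iff the angle is less than `π/3` -/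
theorem dist_lt_one_iff (v : ℂ) (t₀ : ℝ) {x : ℂ} (hx : dist x v = 1) :
    dist (v + e t₀) x < 1 ↔ ∃ t ∈ Ioo (t₀ - Real.pi / 3) (t₀ + Real.pi / 3), x = v + e t := by
  have hpi := Real.pi_pos
  have hnorm : ∀ t, dist (v + e t₀) (v + e t) = |2 * Real.sin ((t - t₀) / 2)| := by
    intro t
    rw [dist_eq_norm, add_sub_add_left_eq_sub, ← norm_neg, neg_sub]
    have h1 : e t - e t₀ = e t₀ * (e (t - t₀) - 1) := by
      rw [mul_sub, ← e_add]; simp
    rw [h1, norm_mul, norm_e, one_mul, e_sub_one, norm_mul, norm_e, mul_one, Complex.norm_real, Real.norm_eq_abs]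
  have hs : Real.sin (Real.pi / 6) = 1 / 2 := Real.sin_pi_div_six
  constructor
  · intro h
    obtain ⟨t', ht'⟩ := exists_e (z := x - v) (by rw [← dist_eq_norm]; exact hx)
    -- choose the representative in [t₀ - π, t₀ + π)
    set t := toIcoMod Real.two_pi_pos (t₀ - Real.pi) t' with hdef
    have hmem := toIcoMod_mem_Ico Real.two_pi_pos (t₀ - Real.pi) t'
    rw [← hdef] at hmem
    have hd0 := toIcoMod_add_toIcoDiv_zsmul Real.two_pi_pos (t₀ - Real.pi) t'
    rw [← hdef, zsmul_eq_mul] at hd0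
    have het : e t' = e t := by
      rw [e_eq_iff]
      exact ⟨toIcoDiv Real.two_pi_pos (t₀ - Real.pi) t', by linarith⟩
    have hx' : x = v + e t := by rw [← het, ← ht']; ring
    refine ⟨t, ?_, hx'⟩
    rw [hx', hnorm, abs_lt] at h
    constructor
    · by_contra hcon
      push Not at hcon
      have h1 : Real.sin ((t - t₀) / 2) ≤ Real.sin (-(Real.pi / 6)) := by
        apply Real.sin_le_sin_of_le_of_le_pi_div_two <;> linarith [hmem.1, hmem.2]
      rw [Real.sin_neg, hs] at h1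
      linarith [h.1]
    · by_contra hcon
      push Not at hcon
      have h1 : Real.sin (Real.pi / 6) ≤ Real.sin ((t - t₀) / 2) := by
        apply Real.sin_le_sin_of_le_of_le_pi_div_two <;> linarith [hmem.1, hmem.2]
      rw [hs] at h1
      linarith [h.2]
  · rintro ⟨t, ht, rfl⟩
    rw [hnorm, abs_lt]
    constructor
    · have h1 : Real.sin (-(Real.pi / 6)) < Real.sin ((t - t₀) / 2) := by
        apply Real.sin_lt_sin_of_lt_of_le_pi_div_two <;> linarith [ht.1, ht.2]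
      rw [Real.sin_neg, hs] at h1
      linarith
    · have h1 : Real.sin ((t - t₀) / 2) < Real.sin (Real.pi / 6) := by
        apply Real.sin_lt_sin_of_lt_of_le_pi_div_two <;> linarith [ht.1, ht.2]
      rw [hs] at h1
      linarith

theorem mem_bad {v x : ℂ} : x ∈ S.bad v ↔ dist x v = 1 ∧ ∀ i, x ∉ S.T i := by
  unfold bad
  simp


theorem phase_ne_half {v : ℂ} {F : Finset (Fin 6)} (hv : S.TripleOf v F) {κ : Fin 3 → Fin 6} (hκ : Function.Injective κ)
    (hF : ∀ k, κ k ∉ F) {f : ℝ → ℝ} (hf : S.IsPhase v κ f) {t : ℝ} {i : S.ι} (hi : v + e t ∈ S.T i) :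
    ∀ n : ℤ, f t ≠ 3 * n + 1 / 2 := by
  intro n hn
  obtain ⟨n', hn'⟩ := labC_phase hv hκ hF hf t i hi
  rw [hn, abs_lt] at hn'
  have h1 : ((-1 : ℤ) : ℝ) < ((3 * n - 3 * n' - S.labC κ i : ℤ) : ℝ) := by push_cast; linarith [hn'.1]
  have h2 : ((3 * n - 3 * n' - S.labC κ i : ℤ) : ℝ) < ((0 : ℤ) : ℝ) := by push_cast; linarith [hn'.2]
  have h3 := Int.cast_lt.1 h1
  have h4 := Int.cast_lt.1 h2
  omega

open Classical in
/-- the tiles of color `κ 0` at the bad points of the unit circle about `v` -/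
noncomputable def tiles0 (S : TileSystem) (κ : Fin 3 → Fin 6) (v : ℂ) : Finset S.ι :=
  (S.germ_tiles_finite v).toFinset.filter fun i => S.c i = κ 0

theorem mem_tiles0 {κ : Fin 3 → Fin 6} {v : ℂ} {i : S.ι} :
    i ∈ S.tiles0 κ v ↔ (∃ x ∈ S.bad v, S.gm v x i ∨ S.gp v x i) ∧ S.c i = κ 0 := by
  unfold tiles0
  simp only [Finset.mem_filter, Set.Finite.mem_toFinset, Set.mem_ofPred_eq]

open Classical in
theorem close_sum {v : ℂ} {F : Finset (Fin 6)} (hv : S.TripleOf v F) {κ : Fin 3 → Fin 6} (hκ : Function.Injective κ)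
    (hF : ∀ k, κ k ∉ F) {f : ℝ → ℝ} (hf : S.IsPhase v κ f) {m : ℤ}
    (hm : ∀ t, 3 * (m : ℝ) < f (t + Real.pi / 3) - f t ∧ f (t + Real.pi / 3) - f t < 3 * m + 3) {t₀ : ℝ} {A₀ : S.ι}
    (hA₀ : v + e t₀ ∈ S.T A₀) (hc : S.c A₀ = κ 0) :
    ∑ b ∈ (S.tiles0 κ v).filter (fun b => S.Close A₀ b), S.net κ v b = 2 * m + 1 := by
  have hpi := Real.pi_pos
  obtain ⟨w1, w2, w3⟩ := win_sub hv hκ hF hf hm hA₀ hc
  have hj := jump_lemma v (S.labC κ) (labC_cases κ) f hf.1 (labC_phase hv hκ hF hf) (t₀ - Real.pi / 3) (t₀ + Real.pi / 3)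
    (by linarith) (by linarith) w2 w1
  rw [w3] at hj
  unfold net
  rw [Finset.sum_comm]
  have h1 : ∀ x ∈ S.bad v, ∑ b ∈ (S.tiles0 κ v).filter (fun b => S.Close A₀ b), S.jump (S.labA κ b) v x =
      if (∃ t ∈ Ioo (t₀ - Real.pi / 3) (t₀ + Real.pi / 3), x = v + e t) then S.jump (S.labC κ) v x else 0 := by
    intro x hx
    have hx1 := (mem_bad.1 hx).1
    apply sum_jump hκ
    · intro i hi
      exact (mem_tiles0.1 hi).2
    · intro i hi hci
      exact mem_tiles0.2 ⟨⟨x, hx, hi⟩, hci⟩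
    · intro i hi hci
      have hxi : S.At x i := by
        rcases hi with hi | hi
        · exact gm_at hi
        · exact gp_at hi
      rw [← dist_lt_one_iff v t₀ hx1]
      constructor
      · intro hcl
        exact hcl.lt (hc.trans hci.symm) hA₀ hxi
      · intro hlt
        rcases close_or_far (hc.trans hci.symm) with h | h
        · exact h
        · have := h.lt (hc.trans hci.symm) hA₀ hxi
          linarith
    · exact hx1
  rw [Finset.sum_congr rfl h1, ← Finset.sum_filter]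
  exact hj.symm

theorem total_sum {v : ℂ} {F : Finset (Fin 6)} (hv : S.TripleOf v F) {κ : Fin 3 → Fin 6} (hκ : Function.Injective κ)
    (hF : ∀ k, κ k ∉ F) {f : ℝ → ℝ} (hf : S.IsPhase v κ f) {a : ℝ} {i : S.ι} (hi : v + e a ∈ S.T i) :
    ∑ b ∈ S.tiles0 κ v, S.net κ v b = win (f (a + 2 * Real.pi)) - win (f a) := by
  classical
  have hpi := Real.pi_pos
  have hj := jump_lemma v (S.labC κ) (labC_cases κ) f hf.1 (labC_phase hv hκ hF hf) a (a + 2 * Real.pi)
    (by linarith) (by linarith) (phase_ne_half hv hκ hF hf hi) (phase_ne_half hv hκ hF hf (i := i) (by rw [e_add_two_pi]; exact hi))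
  rw [hj]
  unfold net
  rw [Finset.sum_comm]
  have h1 : ∀ x ∈ S.bad v, ∑ b ∈ S.tiles0 κ v, S.jump (S.labA κ b) v x = S.jump (S.labC κ) v x := by
    intro x hx
    have hx1 := (mem_bad.1 hx).1
    have := sum_jump hκ (S := S) (v := v) (x := x) (S.tiles0 κ v) (fun i hi => (mem_tiles0.1 hi).2) (fun _ => True) True
      (fun i hi hci => mem_tiles0.2 ⟨⟨x, hx, hi⟩, hci⟩) (fun _ _ _ => Iff.rfl) hx1
    simpa using this
  rw [Finset.sum_congr rfl h1]
  symm
  apply Finset.sum_congr _ fun _ _ => rfl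
  apply Finset.filter_true_of_mem
  intro x hx
  obtain ⟨hx1, hx2⟩ := mem_bad.1 hx
  obtain ⟨t', ht'⟩ := exists_e (z := x - v) (by rw [← dist_eq_norm]; exact hx1)
  set t := toIcoMod Real.two_pi_pos a t' with hdef
  have hmem := toIcoMod_mem_Ico Real.two_pi_pos a t'
  rw [← hdef] at hmem
  have hd0 := toIcoMod_add_toIcoDiv_zsmul Real.two_pi_pos a t'
  rw [← hdef, zsmul_eq_mul] at hd0
  have het : e t' = e t := by
    rw [e_eq_iff]
    exact ⟨toIcoDiv Real.two_pi_pos a t', by linarith⟩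
  have hx' : x = v + e t := by rw [← het, ← ht']; ring
  refine ⟨t, ⟨lt_of_le_of_ne hmem.1 fun h => ?_, hmem.2⟩, hx'⟩
  rw [← h] at hx'
  rw [hx'] at hx2
  exact hx2 i hi

end TileSystem

end Pool.Agent.H923_Poly
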