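import Pool.Agent.H923_Poly.K5
import Pool.Agent.H923_Poly.K10
import Pool.Agent.H923_Poly.K11g
import Pool.Agent.H923_Poly.K14a
import Pool.Agent.H923_Poly.E1

/-! K13: two triple points whose types share exactly two colors (relabelling argument). -/

open Complex Filter Topology Set Metric

namespace Pool.Agent.H923_Poly

namespace TileSystem

variable {S : TileSystem}

theorem sum_jump_labC {v : ℂ} {F : Finset (Fin 6)} (hv : S.TripleOf v F) {κ : Fin 3 → Fin 6} (hκ : Function.Injective κ)
    (hF : ∀ k, κ k ∉ F) {f : ℝ → ℝ} (hf : S.IsPhase v κ f) {a : ℝ} {i : S.ι} (hi : v + e a ∈ S.T i) :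
    ∑ x ∈ S.bad v, S.jump (S.labC κ) v x = win (f (a + 2 * Real.pi)) - win (f a) := by
  classical
  have hpi := Real.pi_pos
  have hj := jump_lemma v (S.labC κ) (labC_cases κ) f hf.1 (labC_phase hv hκ hF hf) a (a + 2 * Real.pi)
    (by linarith) (by linarith) (phase_ne_half hv hκ hF hf hi) (phase_ne_half hv hκ hF hf (i := i) (by rw [e_add_two_pi]; exact hi))
  rw [hj]
  symm
  apply Finset.sum_congr _ fun _ _ => rfl
  apply Finset.filter_true_of_mem
  intro x hx
  obtain ⟨hx1, hx2⟩ := mem_bad.1 hx
  obtain ⟨t', ht'⟩ := exists_e (z := x - v) (by rw [← dist_eq_norm]; exact hx1)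
  set t := toIcoMod Real.two_pi_pos a t' with hdef
  have hmem := toIcoMod_mem_Ico Real.two_pi_pos a t'
  rw [← hdef] at hmem
  have hd0 := toIcoMod_add_toIcoDiv_zsmul Real.two_pi_pos a t'
  rw [← hdef, zsmul_eq_mul] at hd0
  have het : e t' = e t := by
    rw [e_eq_iff]
    exact ⟨toIcoDiv Real.two_pi_pos a t', by linarith⟩
  have hx' : x = v + e t := by rw [← het, ← ht']; ring
  refine ⟨t, ⟨lt_of_le_of_ne hmem.1 fun h => ?_, hmem.2⟩, hx'⟩
  rw [← h] at hx'
  rw [hx'] at hx2
  exact hx2 i hi

/-- K13. Existence of two triple points whose types share exactly two colors. -/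
theorem exists_pair (S : TileSystem) : ∃ (v v' : ℂ) (F F' : Finset (Fin 6)), S.TripleOf v F ∧ S.TripleOf v' F' ∧
    (F ∩ F').card = 2 ∧ dist v v' ≤ 1 := by
  classical
  by_contra hN
  push Not at hN
  obtain ⟨v, F, hv⟩ := S.exists_triple
  have hFc : (Fᶜ).card = 3 := by rw [Finset.card_compl, hv.1]; simp
  obtain ⟨k0, k1, k2, h01, h02, h12, hFc'⟩ := Finset.card_eq_three.1 hFc
  set κ : Fin 3 → Fin 6 := ![k0, k1, k2] with hκdef
  have hκ : Function.Injective κ := by
    intro x y hxy
    fin_cases x <;> fin_cases y <;> simp [κ] at hxy ⊢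
    · exact absurd hxy h01
    · exact absurd hxy h02
    · exact absurd hxy.symm h01
    · exact absurd hxy h12
    · exact absurd hxy.symm h02
    · exact absurd hxy.symm h12
  have hF : ∀ k, κ k ∉ F := by
    intro k
    rw [← Finset.mem_compl, hFc']
    fin_cases k <;> simp [κ]
  have n01 : κ 0 ≠ κ 1 := hκ.ne (by decide)
  obtain ⟨f, hf⟩ := exists_phase hv κ hκ hF
  obtain ⟨m, hm⟩ := stepC hv hκ hF hf
  obtain ⟨α, ⟨i₀, hi₀⟩, hW⟩ := parity hv hκ hF hf hm
  have hsum := sum_jump_labC hv hκ hF hf hi₀
  rw [hW] at hsum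
  let Rl : S.ι → Prop := fun i => S.c i ∈ F ∧ ∃ y, S.At y i ∧ S.TripleOf y {κ 0, κ 1, S.c i}
  let lab : S.ι → ℤ := fun i => if S.c i = κ 0 ∨ Rl i then 0 else if S.c i = κ 1 then 1 else 2
  have hlab : ∀ i, lab i = 0 ∨ lab i = 1 ∨ lab i = 2 := by
    intro i
    simp only [lab]
    split_ifs <;> simp
  have hlabC : ∀ i, S.c i ∉ F → lab i = S.labC κ i := by
    intro i hi
    have : ¬ Rl i := fun h => hi h.1
    simp only [lab, this, or_false]
    unfold labC
    split_ifs <;> rfl
  have hjump : ∀ x ∈ S.bad v, S.jump lab v x = S.jump (S.labC κ) v x := by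
    intro x hx
    have hx1 := (mem_bad.1 hx).1
    obtain ⟨i, hi⟩ := exists_gm (S := S) hx1
    obtain ⟨j, hj⟩ := exists_gp (S := S) hx1
    rw [jump_eq hi hj, jump_eq hi hj]
    rw [hlabC i (hv.gm_not_mem hx1 hi), hlabC j (hv.gp_not_mem hx1 hj)]
  rw [← Finset.sum_congr rfl hjump] at hsum
  obtain ⟨A, B, C, z, hA, hB, hC, zA, zB, zC⟩ := touch_general (S := S) lab hlab (v := v) (by rw [hsum]; omega)
  have hzA : S.At z A := closure_mono inter_subset_left zA
  have hzB : S.At z B := closure_mono inter_subset_left zB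
  have hzC : S.At z C := closure_mono inter_subset_left zC
  have hdz : dist z v ≤ 1 := by
    have h1 : z ∈ closure (ball v 1) := closure_mono inter_subset_right zC
    exact closure_ball_subset_closedBall h1
  have hA' : S.c A = κ 0 ∨ Rl A := by
    by_contra hcon
    simp only [lab, if_neg hcon] at hA
    split_ifs at hA <;> simp at hA
  have hC' : ¬ (S.c C = κ 0 ∨ Rl C) := by
    intro hcon
    simp only [lab, if_pos hcon] at hC
    simp at hC
  have hC1 : S.c C ≠ κ 1 := by
    intro hcon
    simp only [lab, if_neg hC', if_pos hcon] at hC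
    simp at hC
  have hB' : S.c B = κ 1 := by
    by_contra hcon
    simp only [lab, if_neg hcon] at hB
    split_ifs at hB <;> simp at hB
  rw [not_or] at hC'
  obtain ⟨hC0, hCR⟩ := hC'
  rcases hA' with hA0 | ⟨hAF, y, hyA, hyt⟩
  · have hzt : S.TripleOf z {κ 0, κ 1, S.c C} := by
      constructor
      · rw [Finset.card_eq_three]
        exact ⟨_, _, _, n01, Ne.symm hC0, Ne.symm hC1, rfl⟩
      · intro a ha
        simp only [Finset.mem_insert, Finset.mem_singleton] at ha
        rcases ha with rfl | rfl | rfl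
        · exact ⟨A, hzA, hA0⟩
        · exact ⟨B, hzB, hB'⟩
        · exact ⟨C, hzC, rfl⟩
    by_cases hCF : S.c C ∈ F
    · exact hCR ⟨hCF, z, hzC, hzt⟩
    · have hFc2 : ({κ 0, κ 1, S.c C} : Finset (Fin 6)) = Fᶜ := by
        apply Finset.eq_of_subset_of_card_le
        · intro x hx
          simp only [Finset.mem_insert, Finset.mem_singleton] at hx
          rw [Finset.mem_compl]
          rcases hx with rfl | rfl | rfl
          · exact hF 0
          · exact hF 1
          · exact hCF
        · rw [Finset.card_compl, hv.1, hzt.1]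
          simp
      rw [hFc2] at hzt
      have := stepB hv hzt
      rw [dist_comm] at hdz
      linarith
  · have hAC : S.c A ≠ S.c C := by
      apply S.adj A C z hzA hzC
      rintro rfl
      exact hCR ⟨hAF, y, hyA, hyt⟩
    have hA1 : S.c A ≠ κ 1 := by
      intro h
      exact hF 1 (h ▸ hAF)
    have hA0 : S.c A ≠ κ 0 := by
      intro h
      exact hF 0 (h ▸ hAF)
    have hzt : S.TripleOf z {S.c A, κ 1, S.c C} := by
      constructor
      · rw [Finset.card_eq_three]
        exact ⟨_, _, _, hA1, hAC, Ne.symm hC1, rfl⟩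
      · intro a ha
        simp only [Finset.mem_insert, Finset.mem_singleton] at ha
        rcases ha with rfl | rfl | rfl
        · exact ⟨A, hzA, rfl⟩
        · exact ⟨B, hzB, hB'⟩
        · exact ⟨C, hzC, rfl⟩
    have hint : (({κ 0, κ 1, S.c A} : Finset (Fin 6)) ∩ {S.c A, κ 1, S.c C}).card = 2 := by
      have : (({κ 0, κ 1, S.c A} : Finset (Fin 6)) ∩ {S.c A, κ 1, S.c C}) = {S.c A, κ 1} := by
        ext x
        simp only [Finset.mem_inter, Finset.mem_insert, Finset.mem_singleton]
        constructor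
        · rintro ⟨h1, h2⟩
          rcases h2 with h2 | h2 | h2
          · exact Or.inl h2
          · exact Or.inr h2
          · subst h2
            rcases h1 with h1 | h1 | h1
            · exact absurd h1 hC0
            · exact absurd h1 hC1
            · exact absurd h1.symm hAC
        · rintro (h | h)
          · exact ⟨Or.inr (Or.inr h), Or.inl h⟩
          · exact ⟨Or.inr (Or.inl h), Or.inr (Or.inl h)⟩
      rw [this, Finset.card_pair hA1]
    have h1 := hN y z _ _ hyt hzt hint
    have h2 := at_dist_le hyA hzA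
    linarith

end TileSystem

end Pool.Agent.H923_Poly
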