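import Pool.Agent.H923_Poly.K9
import Pool.Agent.H923_Poly.K10
import Pool.Agent.H923_Poly.K11
import Pool.Agent.H923_Poly.K12
import Pool.Agent.H923_Poly.K13
import Pool.Agent.H923_Poly.K14a

/-! K14: assembly. -/

open Complex Filter Topology Set Metric

namespace Pool.Agent.H923_Poly

namespace TileSystem

variable {S : TileSystem}

/-- the property of the families: `y` is a triple point at `A` with colors `κ 0, κ 1, c`, within distance one of the tile of
color `c` at `v` -/
def Fam (S : TileSystem) (κ : Fin 3 → Fin 6) (v : ℂ) (A : S.ι) (c : Fin 6) : Prop :=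
  ∃ y R, S.TripleOf y {κ 0, κ 1, c} ∧ S.At y A ∧ S.At v R ∧ S.c R = c ∧ ∀ w ∈ S.T R, dist w y < 1

theorem eq_of_at_of_color {p : ℂ} {i j : S.ι} (hi : S.At p i) (hj : S.At p j) (h : S.c i = S.c j) : i = j := by
  by_contra hne
  exact S.adj i j p hi hj hne h

theorem Fam.close {κ : Fin 3 → Fin 6} {v : ℂ} {A A' : S.ι} {c : Fin 6} (h : S.Fam κ v A c) (h' : S.Fam κ v A' c)
    (hc : S.c A = S.c A') : S.Close A A' := by
  obtain ⟨y, R, hy, hyA, hR, hRc, hd⟩ := h
  obtain ⟨y', R', hy', hyA', hR', hRc', hd'⟩ := h'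
  have hRR : R = R' := eq_of_at_of_color hR hR' (hRc.trans hRc'.symm)
  subst hRR
  obtain ⟨w, hw⟩ := S.nonempty R
  have h1 : dist y y' < 2 := by
    have := dist_triangle y w y'
    rw [dist_comm y w] at this
    linarith [hd w hw, hd' w hw]
  have h2 := stepD hy hy' h1
  rcases close_or_far hc with h | h
  · exact h
  · have := h.le hyA hyA'
    linarith

theorem exists_fam {v : ℂ} {F : Finset (Fin 6)} (hv : S.TripleOf v F) {κ : Fin 3 → Fin 6} (hκ : Function.Injective κ)
    (hF : ∀ k, κ k ∉ F) {A : S.ι} (hA : S.c A = κ 0) (hn : S.net κ v A ≠ 0) : ∃ c ∈ F, S.Fam κ v A c := by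
  obtain ⟨B, C, y, hB, hC, hCA, yA, yB, yC⟩ := touch_of_net_ne_zero hκ hA hn
  have hyA : S.At y A := closure_mono inter_subset_left yA
  have hyB : S.At y B := closure_mono inter_subset_left yB
  have hyC : S.At y C := closure_mono inter_subset_left yC
  have hC0 : S.c C ≠ κ 0 := by
    rw [← hA]
    exact S.adj C A y hyC hyA hCA
  have h01 : κ 0 ≠ κ 1 := hκ.ne (by decide)
  have hyt : S.TripleOf y {κ 0, κ 1, S.c C} := by
    constructor
    · rw [Finset.card_eq_three]
      exact ⟨_, _, _, h01, hC0.symm, hC.symm, rfl⟩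
    · intro a ha
      simp only [Finset.mem_insert, Finset.mem_singleton] at ha
      rcases ha with rfl | rfl | rfl
      · exact ⟨A, hyA, hA⟩
      · exact ⟨B, hyB, hB⟩
      · exact ⟨C, hyC, rfl⟩
  have hdy : dist y v ≤ 1 := by
    have h1 : y ∈ closure (ball v 1) := closure_mono inter_subset_right yC
    exact closure_ball_subset_closedBall h1
  have hcF : S.c C ∈ F := by
    by_contra hcon
    obtain ⟨k, hk⟩ := exists_color hv hκ hF hcon
    have hk2 : k = 2 := by
      fin_cases k
      · exact absurd hk hC0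
      · exact absurd hk hC
      · rfl
    rw [hk2] at hk
    have hFc : ({κ 0, κ 1, S.c C} : Finset (Fin 6)) = Fᶜ := by
      apply Finset.eq_of_subset_of_card_le
      · intro x hx
        simp only [Finset.mem_insert, Finset.mem_singleton] at hx
        rw [Finset.mem_compl]
        rcases hx with rfl | rfl | rfl
        · exact hF 0
        · exact hF 1
        · exact hcon
      · rw [Finset.card_compl, hv.1, hyt.1]
        simp
    rw [hFc] at hyt
    have := stepB hv hyt
    rw [dist_comm] at hdy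
    linarith
  refine ⟨S.c C, hcF, ?_⟩
  obtain ⟨R, hR, hRc⟩ := hv.2 _ hcF
  refine ⟨y, R, hyt, hyA, hR, hRc, ?_⟩
  obtain ⟨z, hz⟩ : (S.T C ∩ ball v 1).Nonempty := closure_nonempty_iff.1 ⟨y, yC⟩
  have hcl : S.Close C R := by
    rcases close_or_far hRc.symm with h | h
    · exact h
    · have h1 := h.lt hRc.symm hz.1 hR
      have h2 := hz.2
      rw [mem_ball] at h2
      linarith
  intro w hw
  exact hcl.symm.lt hRc hw hyC

/-- the third color is excluded by the triple point `v'` -/
theorem fam_ne {v v' : ℂ} {F F' : Finset (Fin 6)} (hv : S.TripleOf v F) (hv' : S.TripleOf v' F') (hd : dist v v' ≤ 1)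
    {κ : Fin 3 → Fin 6} {c : Fin 6} (hc : ∀ a ∈ F, a ∉ F' → a = c) (hcF : c ∈ F)
    (hcomp : F' = ({κ 0, κ 1, c} : Finset (Fin 6))ᶜ) {A : S.ι} (h : S.Fam κ v A c) : False := by
  obtain ⟨y, R, hy, hyA, hR, hRc, hdR⟩ := h
  obtain ⟨w, hw, hwd⟩ : ∃ w ∈ S.T R, dist w v' ≤ 1 := by
    rcases lt_or_eq_of_le hd with h | h
    · obtain ⟨w, hw, hwd⟩ := Metric.mem_closure_iff.1 hR (1 - dist v v') (by linarith)
      refine ⟨w, hw, ?_⟩
      have := dist_triangle w v v'
      rw [dist_comm w v] at this
      linarith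
    · obtain ⟨i, hi⟩ := exists_gp (S := S) (v := v') (x := v) h
      have h1 := hv.mem (gp_at hi)
      have h2 := hv'.gp_not_mem h hi
      have h3 := hc _ h1 h2
      have h4 : i = R := eq_of_at_of_color (gp_at hi) hR (h3.trans hRc.symm)
      subst h4
      obtain ⟨t, ht⟩ := hi.exists
      refine ⟨_, ht, ?_⟩
      rw [dist_eq_norm, add_sub_cancel_left, norm_mul, norm_e, mul_one, ← dist_eq_norm, h]
  have h1 : dist y v' < 2 := by
    have := dist_triangle y w v'
    rw [dist_comm y w] at this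
    linarith [hdR w hw]
  rw [hcomp] at hv'
  have := stepB hy hv'
  linarith

/-- K14. Assembly. -/
theorem contradiction (S : TileSystem) : False := by
  classical
  obtain ⟨v, v', F, F', hv, hv', hFF, hd⟩ := exists_pair S
  have c1 : (F \ F').card = 1 := by
    have := Finset.card_sdiff_add_card_inter F F'
    rw [hFF, hv.1] at this
    omega
  have c2 : (F' \ F).card = 1 := by
    have := Finset.card_sdiff_add_card_inter F' F
    rw [Finset.inter_comm, hFF, hv'.1] at this
    omega
  have c3 : ((F ∪ F')ᶜ).card = 2 := by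
    have := Finset.card_union_add_card_inter F F'
    rw [hFF, hv.1, hv'.1] at this
    rw [Finset.card_compl, show (F ∪ F').card = 4 by omega]
    simp
  obtain ⟨c, hc⟩ := Finset.card_eq_one.1 c1
  obtain ⟨k2, hk2⟩ := Finset.card_eq_one.1 c2
  obtain ⟨k0, k1, hk01, hk⟩ := Finset.card_eq_two.1 c3
  obtain ⟨a, b, hab, hab'⟩ := Finset.card_eq_two.1 hFF
  have m0 : k0 ∉ F ∧ k0 ∉ F' := by
    have : k0 ∈ (F ∪ F')ᶜ := by rw [hk]; simp
    simpa [Finset.mem_compl, Finset.mem_union] using this
  have m1 : k1 ∉ F ∧ k1 ∉ F' := by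
    have : k1 ∈ (F ∪ F')ᶜ := by rw [hk]; simp
    simpa [Finset.mem_compl, Finset.mem_union] using this
  have m2 : k2 ∈ F' ∧ k2 ∉ F := by
    have : k2 ∈ F' \ F := by rw [hk2]; simp
    simpa [Finset.mem_sdiff] using this
  have mc : c ∈ F ∧ c ∉ F' := by
    have : c ∈ F \ F' := by rw [hc]; simp
    simpa [Finset.mem_sdiff] using this
  set κ : Fin 3 → Fin 6 := ![k0, k1, k2] with hκdef
  have e0 : κ 0 = k0 := rfl
  have e1 : κ 1 = k1 := rfl
  have e2 : κ 2 = k2 := rfl
  have n02 : k0 ≠ k2 := by rintro rfl; exact m0.2 m2.1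
  have n12 : k1 ≠ k2 := by rintro rfl; exact m1.2 m2.1
  have hκ : Function.Injective κ := by
    intro x y hxy
    fin_cases x <;> fin_cases y <;> simp [κ] at hxy ⊢
    · exact absurd hxy hk01
    · exact absurd hxy n02
    · exact absurd hxy.symm hk01
    · exact absurd hxy n12
    · exact absurd hxy.symm n02
    · exact absurd hxy.symm n12
  have hF : ∀ k, κ k ∉ F := by
    intro k
    fin_cases k
    · exact m0.1
    · exact m1.1
    · exact m2.2
  obtain ⟨f, hf⟩ := exists_phase hv κ hκ hF
  obtain ⟨m, hm⟩ := stepC hv hκ hF hf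
  obtain ⟨α, ⟨i₀, hi₀⟩, hW⟩ := parity hv hκ hF hf hm
  -- the third color is excluded
  have hex : ∀ A, ¬ S.Fam κ v A c := by
    intro A hA
    refine fam_ne hv hv' hd (c := c) ?_ mc.1 ?_ hA
    · intro x hx hx'
      have : x ∈ F \ F' := by rw [Finset.mem_sdiff]; exact ⟨hx, hx'⟩
      rw [hc] at this
      simpa using this
    · apply Finset.eq_of_subset_of_card_le
      · intro x hx
        rw [Finset.mem_compl]
        simp only [Finset.mem_insert, Finset.mem_singleton, not_or]
        refine ⟨?_, ?_, ?_⟩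
        · rintro rfl; exact m0.2 hx
        · rintro rfl; exact m1.2 hx
        · rintro rfl; exact mc.2 hx
      · have h3 : ({κ 0, κ 1, c} : Finset (Fin 6)).card = 3 := by
          rw [Finset.card_eq_three]
          refine ⟨_, _, _, hk01, ?_, ?_, rfl⟩
          · intro h; exact m0.1 (by rw [show k0 = c from h]; exact mc.1)
          · intro h; exact m1.1 (by rw [show k1 = c from h]; exact mc.1)
        rw [Finset.card_compl, h3, hv'.1]
        simp
  have hfamab : ∀ A, S.c A = κ 0 → S.net κ v A ≠ 0 → S.Fam κ v A a ∨ S.Fam κ v A b := by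
    intro A hA hn
    obtain ⟨x, hxF, hx⟩ := exists_fam hv hκ hF hA hn
    have hxc : x ≠ c := by rintro rfl; exact hex A hx
    have hxF' : x ∈ F' := by
      by_contra hcon
      have : x ∈ F \ F' := by rw [Finset.mem_sdiff]; exact ⟨hxF, hcon⟩
      rw [hc] at this
      exact hxc (by simpa using this)
    have : x ∈ F ∩ F' := Finset.mem_inter.2 ⟨hxF, hxF'⟩
    rw [hab'] at this
    simp only [Finset.mem_insert, Finset.mem_singleton] at this
    rcases this with rfl | rfl
    · exact Or.inl hx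
    · exact Or.inr hx
  refine double_count (S.tiles0 κ v) (fun A => S.net κ v A) (fun A B => S.Close A B) (fun A B h => h.symm)
    (fun A => decide (S.Fam κ v A a)) ?_ (2 * m + 1) (6 * m + 3) ?_ ?_ ?_ ?_
  · intro A hA B hB nA nB hAB
    have hcA := (mem_tiles0.1 hA).2
    have hcB := (mem_tiles0.1 hB).2
    by_cases h : S.Fam κ v A a
    · have h' : S.Fam κ v B a := by simpa [h] using hAB
      exact h.close h' (hcA.trans hcB.symm)
    · have h' : ¬ S.Fam κ v B a := by simpa [h] using hAB
      have hA' := (hfamab A hcA nA).resolve_left h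
      have hB' := (hfamab B hcB nB).resolve_left h'
      exact hA'.close hB' (hcA.trans hcB.symm)
  · intro A hA nA
    obtain ⟨⟨x, hx, hxA⟩, hcA⟩ := mem_tiles0.1 hA
    obtain ⟨t, ht⟩ : ∃ t, v + e t ∈ S.T A := by
      have hx1 := (mem_bad.1 hx).1
      obtain ⟨t', ht'⟩ := exists_e (z := x - v) (by rw [← dist_eq_norm]; exact hx1)
      rcases hxA with h | h
      · obtain ⟨s, hs⟩ := h.exists
        rw [ht', ← e_add] at hs
        exact ⟨_, hs⟩
      · obtain ⟨s, hs⟩ := h.exists
        rw [ht', ← e_add] at hs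
        exact ⟨_, hs⟩
    convert close_sum hv hκ hF hf hm ht hcA
  · rw [← hW]
    exact total_sum hv hκ hF hf hi₀
  · exact ⟨3 * m + 1, by ring⟩
  · omega

end TileSystem

end Pool.Agent.H923_Poly
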