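import Pool.Agent.H923_Poly.S2Defs

/-! Stage 2, part 3: nearest sites. -/

open Complex Filter Topology Set Metric

namespace Pool.Agent.H923_Poly

theorem finite_inter_ball (X : Set ℂ) (hfin : ∀ r, (X ∩ closedBall 0 r).Finite) (p : ℂ) (r : ℝ) :
    (X ∩ closedBall p r).Finite := by
  refine (hfin (r + ‖p‖)).subset ?_
  rintro x ⟨hx, hxp⟩
  refine ⟨hx, ?_⟩
  rw [mem_closedBall] at hxp ⊢
  have h1 := dist_triangle x p 0
  rw [dist_zero_right p] at h1
  linarith

/-- V2b. There is a nearest site. -/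
theorem exists_nearest (X : Set ℂ) (hfin : ∀ r, (X ∩ closedBall 0 r).Finite) (hne : X.Nonempty) (p : ℂ) :
    ∃ x, Nearest X p x := by
  obtain ⟨x0, hx0⟩ := hne
  have hf := finite_inter_ball X hfin p (dist x0 p)
  have hne' : (X ∩ closedBall p (dist x0 p)).Nonempty := ⟨x0, hx0, by simp⟩
  obtain ⟨x, hx, hmin⟩ := Set.exists_min_image _ (fun x => dist p x) hf hne'
  refine ⟨x, hx.1, fun x' hx' => ?_⟩
  by_cases h : dist x' p ≤ dist x0 p
  · exact hmin x' ⟨hx', h⟩
  · push Not at h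
    have h1 := hx.2
    rw [mem_closedBall] at h1
    rw [dist_comm p x, dist_comm p x']
    linarith

/-- V2a. Near `p` the nearest sites of `z` are nearest sites of `p`. -/
theorem nearest_near (X : Set ℂ) (hfin : ∀ r, (X ∩ closedBall 0 r).Finite) (hne : X.Nonempty) (p : ℂ) :
    ∃ r > 0, ∀ z, dist z p < r → ∀ x, Nearest X z x → Nearest X p x := by
  obtain ⟨x0, hx0, hmin0⟩ := exists_nearest X hfin hne p
  set ρ := dist p x0 with hρ
  have hf := finite_inter_ball X hfin p (ρ + 2)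
  have hf' : {x | x ∈ X ∩ closedBall p (ρ + 2) ∧ ρ < dist p x}.Finite := hf.subset fun x hx => hx.1
  have key : ∃ r : ℝ, 0 < r ∧ r ≤ 1 ∧ ∀ x ∈ X ∩ closedBall p (ρ + 2), ρ < dist p x → 2 * r + ρ ≤ dist p x := by
    by_cases hn : {x | x ∈ X ∩ closedBall p (ρ + 2) ∧ ρ < dist p x}.Nonempty
    · obtain ⟨x1, hx1, hm⟩ := Set.exists_min_image _ (fun x => dist p x) hf' hn
      refine ⟨min 1 ((dist p x1 - ρ) / 2), lt_min one_pos (by linarith [hx1.2]), min_le_left _ _, ?_⟩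
      intro x hx hlt
      have h1 := hm x ⟨hx, hlt⟩
      have h2 := min_le_right (1 : ℝ) ((dist p x1 - ρ) / 2)
      linarith
    · refine ⟨1, one_pos, le_rfl, fun x hx hlt => ?_⟩
      exact absurd ⟨x, hx, hlt⟩ hn
  obtain ⟨r, hr0, hr1, hr⟩ := key
  refine ⟨r, hr0, fun z hz x hx => ⟨hx.1, fun x' hx' => ?_⟩⟩
  refine le_trans ?_ (hmin0 x' hx')
  by_contra hc
  push Not at hc
  have h1 : dist z x ≤ dist z x0 := hx.2 x0 hx0
  have h2 : dist z x0 ≤ dist z p + dist p x0 := dist_triangle _ _ _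
  have h3 : dist p x ≤ dist p z + dist z x := dist_triangle _ _ _
  rw [dist_comm p z] at h3
  have h4 : x ∈ X ∩ closedBall p (ρ + 2) := ⟨hx.1, by rw [mem_closedBall, dist_comm]; linarith⟩
  have h5 := hr x h4 hc
  linarith

/-- a circle meets a bisector in a finite set -/
theorem finite_circ_bisector (v x x' : ℂ) (hne : x ≠ x') : {z : ℂ | dist z v = 1 ∧ dist z x = dist z x'}.Finite := by
  rcases Set.eq_empty_or_nonempty {z : ℂ | dist z v = 1 ∧ dist z x = dist z x'} with he | ⟨z0, h01, h02⟩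
  · rw [he]; exact Set.finite_empty
  have hsq : ∀ a b : ℂ, dist a b ^ 2 = (a.re - b.re) ^ 2 + (a.im - b.im) ^ 2 := by
    intro a b
    rw [Complex.dist_eq, Complex.sq_norm, Complex.normSq_apply]
    simp only [sub_re, sub_im]
    ring
  set w1 : ℝ := -(x.im - x'.im) with hw1
  set w2 : ℝ := x.re - x'.re with hw2
  set e1 : ℝ := z0.re - v.re with he1
  set e2 : ℝ := z0.im - v.im with he2
  set N : ℝ := w1 ^ 2 + w2 ^ 2 with hN
  have hNpos : 0 < N := by
    have h1 : 0 < dist x x' ^ 2 := by have := dist_pos.2 hne; positivity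
    rw [hsq] at h1
    rw [hN, hw1, hw2]; nlinarith
  refine (Set.toFinite ({z0, ⟨z0.re + -2 * (w1 * e1 + w2 * e2) * w1 / N,
    z0.im + -2 * (w1 * e1 + w2 * e2) * w2 / N⟩} : Set ℂ)).subset ?_
  rintro z ⟨hz1, hz2⟩
  have a1 : (z.re - v.re) ^ 2 + (z.im - v.im) ^ 2 = 1 := by rw [← hsq, hz1]; norm_num
  have a2 : (z0.re - v.re) ^ 2 + (z0.im - v.im) ^ 2 = 1 := by rw [← hsq, h01]; norm_num
  have a3 : (z.re - x.re) ^ 2 + (z.im - x.im) ^ 2 = (z.re - x'.re) ^ 2 + (z.im - x'.im) ^ 2 := by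
    rw [← hsq, ← hsq, hz2]
  have a4 : (z0.re - x.re) ^ 2 + (z0.im - x.im) ^ 2 = (z0.re - x'.re) ^ 2 + (z0.im - x'.im) ^ 2 := by
    rw [← hsq, ← hsq, h02]
  set d1 : ℝ := z.re - z0.re with hd1
  set d2 : ℝ := z.im - z0.im with hd2
  have b1 : d1 * w2 - d2 * w1 = 0 := by rw [hd1, hd2, hw1, hw2]; linarith
  have b2 : d1 ^ 2 + d2 ^ 2 + 2 * (d1 * e1 + d2 * e2) = 0 := by rw [hd1, hd2, he1, he2]; linarith
  set k : ℝ := d1 * w1 + d2 * w2 with hk
  have b3 : N * d1 = k * w1 := by rw [hN, hk]; linear_combination w2 * b1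
  have b4 : N * d2 = k * w2 := by rw [hN, hk]; linear_combination -w1 * b1
  have b5 : k * (k + 2 * (w1 * e1 + w2 * e2)) = 0 := by
    have h1 : N * (k * (k + 2 * (w1 * e1 + w2 * e2))) = 0 := by
      have h2 : (N * d1) ^ 2 + (N * d2) ^ 2 + 2 * N * ((N * d1) * e1 + (N * d2) * e2) = 0 := by
        have : (N * d1) ^ 2 + (N * d2) ^ 2 + 2 * N * ((N * d1) * e1 + (N * d2) * e2)
          = N ^ 2 * (d1 ^ 2 + d2 ^ 2 + 2 * (d1 * e1 + d2 * e2)) := by ring
        rw [this, b2, mul_zero]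
      rw [b3, b4] at h2
      rw [← h2, hN]; ring
    rcases mul_eq_zero.1 h1 with h | h
    · exact absurd h hNpos.ne'
    · exact h
  rcases mul_eq_zero.1 b5 with h | h
  · left
    rw [h, zero_mul] at b3 b4
    have c1 : d1 = 0 := (mul_eq_zero.1 b3).resolve_left hNpos.ne'
    have c2 : d2 = 0 := (mul_eq_zero.1 b4).resolve_left hNpos.ne'
    exact Complex.ext (by linarith) (by linarith)
  · right
    have c0 : k = -2 * (w1 * e1 + w2 * e2) := by linarith
    rw [mem_singleton_iff]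
    refine Complex.ext ?_ ?_
    · show z.re = z0.re + -2 * (w1 * e1 + w2 * e2) * w1 / N
      rw [← c0, ← b3, mul_div_cancel_left₀ _ hNpos.ne']; linarith
    · show z.im = z0.im + -2 * (w1 * e1 + w2 * e2) * w2 / N
      rw [← c0, ← b4, mul_div_cancel_left₀ _ hNpos.ne']; linarith

/-- V2d. Finitely many points of a unit circle have two nearest sites. -/
theorem voronoi_circ (X : Set ℂ) (hfin : ∀ r, (X ∩ closedBall 0 r).Finite) (hne : X.Nonempty) (v : ℂ) :
    {z | dist z v = 1 ∧ ∃ x x', Nearest X z x ∧ Nearest X z x' ∧ x ≠ x'}.Finite := by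
  obtain ⟨x0, hx0⟩ := hne
  have hf := finite_inter_ball X hfin v (2 + dist v x0)
  have hin : ∀ z x, dist z v = 1 → Nearest X z x → x ∈ X ∩ closedBall v (2 + dist v x0) := by
    intro z x hz hx
    refine ⟨hx.1, ?_⟩
    rw [mem_closedBall]
    have h1 := hx.2 x0 hx0
    have h2 := dist_triangle z v x0
    have h3 := dist_triangle x z v
    rw [dist_comm x z] at h3
    linarith
  refine ((hf.prod hf).biUnion (t := fun q : ℂ × ℂ => {z : ℂ | q.1 ≠ q.2 ∧ dist z v = 1 ∧ dist z q.1 = dist z q.2})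
    ?_).subset ?_
  · rintro ⟨x, x'⟩ _
    by_cases h : x = x'
    · subst h
      simp
    · refine (finite_circ_bisector v x x' h).subset ?_
      rintro z ⟨_, h1, h2⟩
      exact ⟨h1, h2⟩
  · rintro z ⟨hz, x, x', hx, hx', hxx⟩
    refine Set.mem_biUnion (x := (x, x')) ⟨hin z x hz hx, hin z x' hz hx'⟩ ?_
    exact ⟨hxx, hz, le_antisymm (hx.2 x' hx'.1) (hx'.2 x hx.1)⟩

end Pool.Agent.H923_Poly
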