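import Pool.Agent.H923_Poly.S2Defs

/-! V2c: star property of the Voronoi cells. -/

open Complex Filter Topology Set Metric

namespace Pool.Agent.H923_Poly

theorem V2c.fin_ball (X : Set ℂ) (hfin : ∀ r, (X ∩ closedBall 0 r).Finite) (p : ℂ) (R : ℝ) :
    (X ∩ closedBall p R).Finite := by
  refine (hfin (‖p‖ + R)).subset ?_
  rintro x ⟨hx, hxR⟩
  refine ⟨hx, ?_⟩
  rw [mem_closedBall, dist_zero_right]
  rw [mem_closedBall] at hxR
  have := norm_sub_norm_le x p
  rw [← dist_eq_norm] at this
  linarith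

theorem V2c.ex (X : Set ℂ) (hfin : ∀ r, (X ∩ closedBall 0 r).Finite) (hne : X.Nonempty) (p : ℂ) :
    ∃ x, Nearest X p x := by
  obtain ⟨x1, hx1⟩ := hne
  have hm1 : x1 ∈ X ∩ closedBall p (dist x1 p) := ⟨hx1, by simp⟩
  obtain ⟨x, hx, hmin⟩ := Set.exists_min_image (X ∩ closedBall p (dist x1 p)) (fun x => dist p x)
    (V2c.fin_ball X hfin p _) ⟨x1, hm1⟩
  refine ⟨x, hx.1, fun x' hx' => ?_⟩
  by_cases h : x' ∈ closedBall p (dist x1 p)
  · exact hmin x' ⟨hx', h⟩
  · rw [mem_closedBall, not_le] at h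
    have h2 := hmin x1 hm1
    rw [dist_comm x1 p] at h
    rw [dist_comm x' p] at h
    linarith

theorem V2c.near (X : Set ℂ) (hfin : ∀ r, (X ∩ closedBall 0 r).Finite) (hne : X.Nonempty) (p : ℂ) :
    ∃ r > 0, ∀ z, dist z p < r → ∀ x, Nearest X z x → Nearest X p x := by
  obtain ⟨x0, hx0⟩ := V2c.ex X hfin hne p
  have hF : {x | x ∈ X ∩ closedBall p (dist p x0 + 1) ∧ dist p x0 < dist p x}.Finite :=
    (V2c.fin_ball X hfin p (dist p x0 + 1)).subset fun x hx => hx.1
  have h1 : ∀ᶠ z in 𝓝 p, ∀ x ∈ {x | x ∈ X ∩ closedBall p (dist p x0 + 1) ∧ dist p x0 < dist p x},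
      dist z x0 < dist z x := by
    rw [Filter.eventually_all_finite hF]
    intro x hx
    have c1 : ContinuousAt (fun z : ℂ => dist z x0) p := (continuous_id.dist continuous_const).continuousAt
    have c2 : ContinuousAt (fun z : ℂ => dist z x) p := (continuous_id.dist continuous_const).continuousAt
    exact c1.eventually_lt c2 hx.2
  obtain ⟨r, hr, hr2⟩ := Metric.eventually_nhds_iff.1 h1
  refine ⟨min r (1 / 2), by positivity, ?_⟩
  intro z hz x hx
  have hz1 : dist z p < r := lt_of_lt_of_le hz (min_le_left _ _)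
  have hz2 : dist z p < 1 / 2 := lt_of_lt_of_le hz (min_le_right _ _)
  have h3 : dist z x ≤ dist z x0 := hx.2 x0 hx0.1
  have h4 : dist z x0 ≤ dist z p + dist p x0 := dist_triangle _ _ _
  have h5 : dist p x ≤ dist p z + dist z x := dist_triangle _ _ _
  rw [dist_comm p z] at h5
  have hball : x ∈ closedBall p (dist p x0 + 1) := by
    rw [mem_closedBall, dist_comm]
    linarith
  by_cases h6 : dist p x0 < dist p x
  · have := hr2 hz1 x ⟨⟨hx.1, hball⟩, h6⟩
    linarith
  · push Not at h6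
    exact ⟨hx.1, fun x' hx' => h6.trans (hx0.2 x' hx')⟩

theorem V2c.sq (z a : ℂ) : dist z a ^ 2 = (z.re - a.re) ^ 2 + (z.im - a.im) ^ 2 := by
  rw [Complex.dist_eq, ← Complex.normSq_eq_norm_sq, Complex.normSq_apply, Complex.sub_re, Complex.sub_im]
  ring

/-- the normal direction of the segment from `b` to `a` -/
noncomputable def V2c.w (a b : ℂ) : ℂ := Complex.I * (a - b) / (‖a - b‖ : ℝ)

theorem V2c.w_norm {a b : ℂ} (h : a ≠ b) : ‖V2c.w a b‖ = 1 := by
  have h0 : ‖a - b‖ ≠ 0 := by rwa [norm_ne_zero_iff, sub_ne_zero]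
  unfold V2c.w
  rw [norm_div, norm_mul, Complex.norm_I, one_mul, Complex.norm_real, norm_norm, div_self h0]

theorem V2c.w_re (a b : ℂ) : (V2c.w a b).re = -(a.im - b.im) / ‖a - b‖ := by
  unfold V2c.w
  rw [Complex.div_ofReal_re]
  congr 1
  simp

theorem V2c.w_im (a b : ℂ) : (V2c.w a b).im = (a.re - b.re) / ‖a - b‖ := by
  unfold V2c.w
  rw [Complex.div_ofReal_im]
  congr 1
  simp

theorem V2c.dir {a b p z : ℂ} (hab : a ≠ b) (hp : dist p a = dist p b) (hz : dist z a = dist z b) :
    z = p + (dist z p : ℝ) * V2c.w a b ∨ z = p + (dist z p : ℝ) * (-V2c.w a b) := by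
  have h0 : ‖a - b‖ ≠ 0 := by rwa [norm_ne_zero_iff, sub_ne_zero]
  have hn : ‖a - b‖ ^ 2 = (a.re - b.re) ^ 2 + (a.im - b.im) ^ 2 := by
    rw [← dist_eq_norm]; exact V2c.sq a b
  have e1 : (z.re - a.re) ^ 2 + (z.im - a.im) ^ 2 = (z.re - b.re) ^ 2 + (z.im - b.im) ^ 2 := by
    rw [← V2c.sq, ← V2c.sq, hz]
  have e2 : (p.re - a.re) ^ 2 + (p.im - a.im) ^ 2 = (p.re - b.re) ^ 2 + (p.im - b.im) ^ 2 := by
    rw [← V2c.sq, ← V2c.sq, hp]
  have e3 : (z.re - p.re) * (a.re - b.re) + (z.im - p.im) * (a.im - b.im) = 0 := by linarith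
  set n := ‖a - b‖ with hndef
  set t : ℝ := ((z.im - p.im) * (a.re - b.re) - (z.re - p.re) * (a.im - b.im)) / n with ht
  have key : z - p = (t : ℂ) * V2c.w a b := by
    apply Complex.ext
    · rw [Complex.re_ofReal_mul, V2c.w_re, Complex.sub_re, ht, ← hndef]
      field_simp
      rw [hn]
      linear_combination (a.re - b.re) * e3
    · rw [Complex.im_ofReal_mul, V2c.w_im, Complex.sub_im, ht, ← hndef]
      field_simp
      rw [hn]
      linear_combination (a.im - b.im) * e3
  have hd : dist z p = |t| := by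
    rw [dist_eq_norm, key, norm_mul, V2c.w_norm hab, mul_one, Complex.norm_real, Real.norm_eq_abs]
  rcases le_total 0 t with h | h
  · left
    rw [hd, abs_of_nonneg h]
    linear_combination key
  · right
    rw [hd, abs_of_nonpos h]
    push_cast
    linear_combination key

theorem V2c.three {a b c p : ℂ} (hab : a ≠ b) (hac : a ≠ c) (hbc : b ≠ c) (hpb : dist p a = dist p b)
    (hpc : dist p a = dist p c) {s s' : ℝ} (hs : 0 < s) (hs' : 0 < s')
    (h1 : dist (p + s * V2c.w a b) a ≤ dist (p + s * V2c.w a b) c)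
    (h2 : dist (p + s' * (-V2c.w a b)) a ≤ dist (p + s' * (-V2c.w a b)) c) : False := by
  have h0 : ‖a - b‖ ≠ 0 := by rwa [norm_ne_zero_iff, sub_ne_zero]
  have hn : ‖a - b‖ ^ 2 = (a.re - b.re) ^ 2 + (a.im - b.im) ^ 2 := by
    rw [← dist_eq_norm]; exact V2c.sq a b
  have e1 := pow_le_pow_left₀ dist_nonneg h1 2
  have e2 := pow_le_pow_left₀ dist_nonneg h2 2
  have e3 : (p.re - a.re) ^ 2 + (p.im - a.im) ^ 2 = (p.re - b.re) ^ 2 + (p.im - b.im) ^ 2 := by
    rw [← V2c.sq, ← V2c.sq, hpb]
  have e4 : (p.re - a.re) ^ 2 + (p.im - a.im) ^ 2 = (p.re - c.re) ^ 2 + (p.im - c.im) ^ 2 := by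
    rw [← V2c.sq, ← V2c.sq, hpc]
  rw [V2c.sq, V2c.sq] at e1 e2
  simp only [Complex.add_re, Complex.add_im, Complex.re_ofReal_mul, Complex.im_ofReal_mul, Complex.neg_re,
    Complex.neg_im] at e1 e2
  have hwr := V2c.w_re a b
  have hwi := V2c.w_im a b
  set wr := (V2c.w a b).re with hwr'
  set wi := (V2c.w a b).im with hwi'
  have g1 : s * (wr * (c.re - a.re) + wi * (c.im - a.im)) ≤ 0 := by nlinarith
  have g2 : 0 ≤ s' * (wr * (c.re - a.re) + wi * (c.im - a.im)) := by nlinarith
  have g3 : wr * (c.re - a.re) + wi * (c.im - a.im) = 0 := by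
    apply le_antisymm
    · by_contra hcon
      push Not at hcon
      have := mul_pos hs hcon
      linarith
    · by_contra hcon
      push Not at hcon
      have := mul_neg_of_pos_of_neg hs' hcon
      linarith
  have g4 : -(a.im - b.im) * (c.re - a.re) + (a.re - b.re) * (c.im - a.im) = 0 := by
    rw [hwr, hwi] at g3
    field_simp at g3
    linarith
  -- `c - a = l * (a - b)`
  set n2 : ℝ := (a.re - b.re) ^ 2 + (a.im - b.im) ^ 2 with hn2
  have hn2' : n2 ≠ 0 := by rw [← hn]; positivity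
  set l : ℝ := ((c.re - a.re) * (a.re - b.re) + (c.im - a.im) * (a.im - b.im)) / n2 with hl
  have k1 : c.re - a.re = l * (a.re - b.re) := by
    rw [hl]; field_simp; rw [hn2]; linear_combination -(a.im - b.im) * g4
  have k2 : c.im - a.im = l * (a.im - b.im) := by
    rw [hl]; field_simp; rw [hn2]; linear_combination (a.re - b.re) * g4
  have hl0 : l ≠ 0 := by
    intro h
    rw [h, zero_mul] at k1 k2
    apply hac
    apply Complex.ext <;> linarith
  have k3 : (a.re + c.re - 2 * p.re) * (c.re - a.re) + (a.im + c.im - 2 * p.im) * (c.im - a.im) = 0 := by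
    linarith
  have k4 : (a.re + b.re - 2 * p.re) * (a.re - b.re) + (a.im + b.im - 2 * p.im) * (a.im - b.im) = 0 := by
    linarith
  have k5 : (a.re + c.re - 2 * p.re) * (a.re - b.re) + (a.im + c.im - 2 * p.im) * (a.im - b.im) = 0 := by
    rw [k1, k2] at k3
    have : l * ((a.re + c.re - 2 * p.re) * (a.re - b.re) + (a.im + c.im - 2 * p.im) * (a.im - b.im)) = 0 := by
      linarith
    exact (mul_eq_zero.1 this).resolve_left hl0
  have k6 : (c.re - b.re) * (a.re - b.re) + (c.im - b.im) * (a.im - b.im) = 0 := by linarith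
  have k7 : (l + 1) * n2 = 0 := by
    rw [hn2]
    have : c.re - b.re = (l + 1) * (a.re - b.re) := by linarith
    have h2 : c.im - b.im = (l + 1) * (a.im - b.im) := by linarith
    rw [this, h2] at k6
    linarith
  have k8 : l = -1 := by
    have := (mul_eq_zero.1 k7).resolve_right hn2'
    linarith
  rw [k8] at k1 k2
  apply hbc
  apply Complex.ext <;> linarith

theorem V2c.pair {a b c p : ℂ} (hab : a ≠ b) (hac : a ≠ c) (hbc : b ≠ c) (hpb : dist p a = dist p b)
    (hpc : dist p a = dist p c) :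
    ∃ u : ℂ, ‖u‖ = 1 ∧ ∀ z, z ≠ p → dist z a = dist z b → dist z a ≤ dist z c → z = p + (dist z p : ℝ) * u := by
  by_cases h : ∃ s : ℝ, 0 < s ∧ dist (p + s * V2c.w a b) a ≤ dist (p + s * V2c.w a b) c
  · obtain ⟨s, hs, hs1⟩ := h
    refine ⟨V2c.w a b, V2c.w_norm hab, fun z hzp hz hzc => ?_⟩
    rcases V2c.dir hab hpb hz with h1 | h1
    · exact h1
    · exfalso
      have hz0 : 0 < dist z p := dist_pos.2 hzp
      refine V2c.three hab hac hbc hpb hpc hs hz0 hs1 ?_
      rw [← h1]
      exact hzc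
  · refine ⟨-V2c.w a b, by rw [norm_neg]; exact V2c.w_norm hab, fun z hzp hz hzc => ?_⟩
    rcases V2c.dir hab hpb hz with h1 | h1
    · exfalso
      have hz0 : 0 < dist z p := dist_pos.2 hzp
      refine h ⟨dist z p, hz0, ?_⟩
      rw [← h1]
      exact hzc
    · exact h1

/-- V2c. Star property of the Voronoi cells. -/
theorem voronoi_star (X : Set ℂ) (hfin : ∀ r, (X ∩ closedBall 0 r).Finite) (hne : X.Nonempty)
    (h4 : ∀ p r, (X ∩ sphere p r).encard ≤ 3) (p : ℂ) :
    ∃ r > 0, ∃ U : Finset ℂ, U.card ≤ 3 ∧ (∀ u ∈ U, ‖u‖ = 1) ∧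
      ∀ z, z ≠ p → dist z p < r → (∀ u ∈ U, z ≠ p + (dist z p : ℝ) * u) →
        ∀ x x', Nearest X z x → Nearest X z x' → x = x' := by
  classical
  obtain ⟨r, hr, hnear⟩ := V2c.near X hfin hne p
  obtain ⟨x0, hx0⟩ := V2c.ex X hfin hne p
  have hdist : ∀ x, Nearest X p x → dist p x = dist p x0 := fun x hx =>
    le_antisymm (hx.2 x0 hx0.1) (hx0.2 x hx.1)
  have hcard : {x | Nearest X p x}.encard ≤ 3 := by
    refine (Set.encard_le_encard ?_).trans (h4 p (dist p x0))
    intro x hx
    refine ⟨hx.1, ?_⟩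
    rw [mem_sphere, dist_comm]
    exact hdist x hx
  refine ⟨r, hr, ?_⟩
  have hcases : {x | Nearest X p x}.encard ≤ 1 ∨ {x | Nearest X p x}.encard = 2 ∨
      {x | Nearest X p x}.encard = 3 := by
    have hfinN : {x | Nearest X p x}.Finite := Set.finite_of_encard_le_coe (k := 3) (by exact_mod_cast hcard)
    rw [hfinN.encard_eq_coe_toFinset_card] at hcard ⊢
    have h3 : hfinN.toFinset.card ≤ 3 := by exact_mod_cast hcard
    have : hfinN.toFinset.card ≤ 1 ∨ hfinN.toFinset.card = 2 ∨ hfinN.toFinset.card = 3 := by omega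
    rcases this with h | h | h
    · left; exact_mod_cast h
    · right; left; rw [h]; rfl
    · right; right; rw [h]; rfl
  rcases hcases with h1 | h2 | h3
  · refine ⟨∅, by simp, by simp, ?_⟩
    intro z hz hzr _ x x' hx hx'
    exact Set.encard_le_one_iff.1 h1 x x' (hnear z hzr x hx) (hnear z hzr x' hx')
  · obtain ⟨a, b, hab, hN⟩ := Set.encard_eq_two.1 h2
    have ha : Nearest X p a := by
      have : a ∈ {x | Nearest X p x} := by rw [hN]; simp
      exact this
    have hb : Nearest X p b := by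
      have : b ∈ {x | Nearest X p x} := by rw [hN]; simp
      exact this
    have hpb : dist p a = dist p b := by rw [hdist a ha, hdist b hb]
    refine ⟨{V2c.w a b, -V2c.w a b}, (Finset.card_le_two).trans (by norm_num), ?_, ?_⟩
    · intro u hu
      rw [Finset.mem_insert, Finset.mem_singleton] at hu
      rcases hu with rfl | rfl
      · exact V2c.w_norm hab
      · rw [norm_neg]; exact V2c.w_norm hab
    · intro z hz hzr hU x x' hx hx'
      have hxN : x ∈ ({a, b} : Set ℂ) := by rw [← hN]; exact hnear z hzr x hx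
      have hxN' : x' ∈ ({a, b} : Set ℂ) := by rw [← hN]; exact hnear z hzr x' hx'
      have heq : dist z x = dist z x' := le_antisymm (hx.2 x' hx'.1) (hx'.2 x hx.1)
      have hbad : dist z a = dist z b → False := by
        intro h
        rcases V2c.dir hab hpb h with h | h
        · exact hU _ (by simp) h
        · exact hU _ (by simp) h
      rw [Set.mem_insert_iff, Set.mem_singleton_iff] at hxN hxN'
      rcases hxN with rfl | rfl <;> rcases hxN' with rfl | rfl
      · rfl
      · exact (hbad heq).elim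
      · exact (hbad heq.symm).elim
      · rfl
  · obtain ⟨a, b, c, hab, hac, hbc, hN⟩ := Set.encard_eq_three.1 h3
    have ha : Nearest X p a := by
      have : a ∈ {x | Nearest X p x} := by rw [hN]; simp
      exact this
    have hb : Nearest X p b := by
      have : b ∈ {x | Nearest X p x} := by rw [hN]; simp
      exact this
    have hc : Nearest X p c := by
      have : c ∈ {x | Nearest X p x} := by rw [hN]; simp
      exact this
    have hpb : dist p a = dist p b := by rw [hdist a ha, hdist b hb]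
    have hpc : dist p a = dist p c := by rw [hdist a ha, hdist c hc]
    have hpbc : dist p b = dist p c := by rw [← hpb, hpc]
    obtain ⟨u1, hu1, hu1'⟩ := V2c.pair hab hac hbc hpb hpc
    obtain ⟨u2, hu2, hu2'⟩ := V2c.pair hac hab hbc.symm hpc hpb
    obtain ⟨u3, hu3, hu3'⟩ := V2c.pair hbc hab.symm hac.symm hpbc hpb.symm
    refine ⟨{u1, u2, u3}, Finset.card_le_three, ?_, ?_⟩
    · intro u hu
      rw [Finset.mem_insert, Finset.mem_insert, Finset.mem_singleton] at hu
      rcases hu with rfl | rfl | rfl <;> assumption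
    · intro z hz hzr hU x x' hx hx'
      have hxN : x ∈ ({a, b, c} : Set ℂ) := by rw [← hN]; exact hnear z hzr x hx
      have hxN' : x' ∈ ({a, b, c} : Set ℂ) := by rw [← hN]; exact hnear z hzr x' hx'
      have heq : dist z x = dist z x' := le_antisymm (hx.2 x' hx'.1) (hx'.2 x hx.1)
      rw [Set.mem_insert_iff, Set.mem_insert_iff, Set.mem_singleton_iff] at hxN hxN'
      have b1 : dist z a = dist z b → dist z a ≤ dist z c → False := fun h h' =>
        hU u1 (by simp) (hu1' z hz h h')
      have b2 : dist z a = dist z c → dist z a ≤ dist z b → False := fun h h' =>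
        hU u2 (by simp) (hu2' z hz h h')
      have b3 : dist z b = dist z c → dist z b ≤ dist z a → False := fun h h' =>
        hU u3 (by simp) (hu3' z hz h h')
      rcases hxN with rfl | rfl | rfl <;> rcases hxN' with rfl | rfl | rfl
      · rfl
      · exact (b1 heq (hx.2 _ hc.1)).elim
      · exact (b2 heq (hx.2 _ hb.1)).elim
      · exact (b1 heq.symm (hx'.2 _ hc.1)).elim
      · rfl
      · exact (b3 heq (hx.2 _ ha.1)).elim
      · exact (b2 heq.symm (hx'.2 _ hb.1)).elim
      · exact (b3 heq.symm (hx'.2 _ ha.1)).elim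
      · rfl

end Pool.Agent.H923_Poly
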