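import Pool.Agent.H923_Poly.S2Defs

/-! # V2e: near a point the points of `Gset a` lie in one component (stage 2, task S2-5) -/

open Complex Filter Topology Set Metric

namespace Pool.Agent.H923_Poly

theorem adj_exists_nearest (X : Set ℂ) (hfin : ∀ r, (X ∩ closedBall 0 r).Finite) (hne : X.Nonempty)
    (p : ℂ) : ∃ x, Nearest X p x := by
  obtain ⟨x0, hx0⟩ := hne
  have hn0 : ‖x0‖ ≤ ‖p‖ + dist p x0 := by
    have := norm_add_le p (x0 - p)
    rw [add_sub_cancel, ← dist_eq_norm, dist_comm] at this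
    exact this
  obtain ⟨x, hx, hmin⟩ := Set.exists_min_image (X ∩ closedBall 0 (‖p‖ + dist p x0)) (fun x => dist p x)
    (hfin _) ⟨x0, hx0, by simpa using hn0⟩
  refine ⟨x, hx.1, fun x' hx' => ?_⟩
  by_cases h : x' ∈ closedBall (0 : ℂ) (‖p‖ + dist p x0)
  · exact hmin x' ⟨hx', h⟩
  · have h1 : ‖p‖ + dist p x0 < ‖x'‖ := by simpa using h
    have h2 : dist p x ≤ dist p x0 := hmin x0 ⟨hx0, by simpa using hn0⟩
    have h3 : ‖x'‖ ≤ ‖p‖ + dist p x' := by
      have := norm_add_le p (x' - p)
      rw [add_sub_cancel, ← dist_eq_norm, dist_comm] at this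
      exact this
    linarith

theorem adj_nearest_near (X : Set ℂ) (hfin : ∀ r, (X ∩ closedBall 0 r).Finite) (hne : X.Nonempty)
    (p : ℂ) : ∃ r > 0, ∀ z, dist z p < r → ∀ x, Nearest X z x → Nearest X p x := by
  obtain ⟨x1, hx1, hx1min⟩ := adj_exists_nearest X hfin hne p
  set ρ := dist p x1 with hρ
  set F : Set ℂ := {x | x ∈ X ∩ closedBall 0 (‖p‖ + ρ + 1) ∧ ρ < dist p x} with hF
  have hFfin : F.Finite := (hfin (‖p‖ + ρ + 1)).subset fun x hx => hx.1
  have hε : ∃ ε > 0, ∀ x ∈ F, ρ + ε ≤ dist p x := by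
    by_cases hFne : F.Nonempty
    · obtain ⟨y, hy, hmin⟩ := Set.exists_min_image F (fun x => dist p x) hFfin hFne
      refine ⟨dist p y - ρ, sub_pos.2 hy.2, fun x hx => ?_⟩
      have := hmin x hx
      linarith
    · exact ⟨1, one_pos, fun x hx => absurd ⟨x, hx⟩ hFne⟩
  obtain ⟨ε, hε0, hε⟩ := hε
  refine ⟨min ε 1 / 2, by positivity, fun z hz x hx => ⟨hx.1, fun x' hx' => ?_⟩⟩
  have h1 : dist p x < ρ + min ε 1 := by
    have e1 : dist p x ≤ dist p z + dist z x := dist_triangle _ _ _
    have e2 : dist z x ≤ dist z x1 := hx.2 x1 hx1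
    have e3 : dist z x1 ≤ dist z p + dist p x1 := dist_triangle _ _ _
    rw [dist_comm p z] at e1
    linarith
  have h2 : dist p x ≤ ρ := by
    by_contra hcon
    have hcon' : ρ < dist p x := not_le.1 hcon
    by_cases hb : x ∈ closedBall (0 : ℂ) (‖p‖ + ρ + 1)
    · have := hε x ⟨⟨hx.1, hb⟩, hcon'⟩
      have := min_le_left ε 1
      linarith
    · have e1 : ‖p‖ + ρ + 1 < ‖x‖ := by simpa using hb
      have e2 : ‖x‖ ≤ ‖p‖ + dist p x := by
        have := norm_add_le p (x - p)
        rw [add_sub_cancel, ← dist_eq_norm, dist_comm] at this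
        exact this
      have := min_le_right ε 1
      linarith
  exact h2.trans (hx1min x' hx')

theorem adj_dist_lt (z x y : ℂ) : dist z x < dist z y ↔
    (z.re - x.re) ^ 2 + (z.im - x.im) ^ 2 < (z.re - y.re) ^ 2 + (z.im - y.im) ^ 2 := by
  rw [Complex.dist_eq_re_im, Complex.dist_eq_re_im, Real.sqrt_lt_sqrt_iff (by positivity)]

theorem adj_convex (x y : ℂ) : Convex ℝ {z : ℂ | dist z x < dist z y} := by
  have : {z : ℂ | dist z x < dist z y} =
      {z : ℂ | 2 * (y.re - x.re) * z.re + 2 * (y.im - x.im) * z.im <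
        y.re ^ 2 + y.im ^ 2 - x.re ^ 2 - x.im ^ 2} := by
    ext z
    simp only [Set.mem_ofPred_eq, adj_dist_lt]
    constructor <;> intro h <;> nlinarith
  rw [this]
  refine convex_halfSpace_lt ⟨fun u w => ?_, fun t u => ?_⟩ _
  · simp only [Complex.add_re, Complex.add_im]; ring
  · simp only [Complex.real_smul, Complex.re_ofReal_mul, Complex.im_ofReal_mul, smul_eq_mul]; ring

theorem adj_common (p x y : ℂ) (hxy : x ≠ y) (h : dist p x = dist p y) (t : ℝ) (ht : 0 < t) :
    dist (p - t * (y - p)) x < dist (p - t * (y - p)) y := by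
  rw [adj_dist_lt]
  have h' : (p.re - x.re) ^ 2 + (p.im - x.im) ^ 2 = (p.re - y.re) ^ 2 + (p.im - y.im) ^ 2 := by
    rw [Complex.dist_eq_re_im, Complex.dist_eq_re_im] at h
    exact (Real.sqrt_inj (by positivity) (by positivity)).1 h
  have hne : 0 < (x.re - y.re) ^ 2 + (x.im - y.im) ^ 2 := by
    have hd : 0 < dist x y := dist_pos.2 hxy
    rw [Complex.dist_eq_re_im] at hd
    exact Real.sqrt_pos.1 hd
  simp only [Complex.sub_re, Complex.sub_im, Complex.re_ofReal_mul, Complex.im_ofReal_mul]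
  nlinarith [mul_pos ht hne]

/-- V2e. Near a point with a nearest site of another color the points of `Gset a` lie in one component. -/
theorem voronoi_adj (X : Set ℂ) (hfin : ∀ r, (X ∩ closedBall 0 r).Finite) (hne : X.Nonempty)
    (h4 : ∀ p r, (X ∩ sphere p r).encard ≤ 3) (c : ℂ → Fin 6) (a : Fin 6) (p : ℂ) :
    ∃ r > 0, ∃ s : Set ℂ, IsPreconnected s ∧ s ⊆ Gset X c a ∧ ∀ z ∈ Gset X c a, dist z p < r → z ∈ s := by
  obtain ⟨r, hr, hnear⟩ := adj_nearest_near X hfin hne p
  refine ⟨r, hr, Gset X c a ∩ ball p r, ?_, inter_subset_left, fun z hz hd => ⟨hz, hd⟩⟩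
  -- a sufficient condition
  have hsuff : ∀ z ∈ ball p r, (∀ y, Nearest X p y → c y ≠ a → ∃ x ∈ X, dist z x < dist z y) →
      z ∈ Gset X c a ∩ ball p r := by
    intro z hz h
    refine ⟨fun w hw => ?_, hz⟩
    by_contra hca
    obtain ⟨x, hx, hlt⟩ := h w (hnear z hz w hw) hca
    exact absurd (hw.2 x hx) (not_le.2 hlt)
  -- a necessary condition
  have hnec : ∀ z ∈ Gset X c a ∩ ball p r, ∃ x, Nearest X p x ∧ c x = a ∧
      ∀ y, Nearest X p y → c y ≠ a → dist z x < dist z y := by
    rintro z ⟨hz, hzr⟩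
    obtain ⟨x, hx⟩ := adj_exists_nearest X hfin hne z
    refine ⟨x, hnear z hzr x hx, hz x hx, fun y hy hya => ?_⟩
    refine lt_of_le_of_ne (hx.2 y hy.1) fun heq => hya (hz y ⟨hy.1, fun x' hx' => ?_⟩)
    rw [← heq]
    exact hx.2 x' hx'
  have hball : IsPreconnected (ball p r) := (convex_ball p r).isPreconnected
  refine isPreconnected_of_forall_pair fun z hz z' hz' => ?_
  obtain ⟨x, hx, hxa, hxlt⟩ := hnec z hz
  obtain ⟨x', hx', hxa', hxlt'⟩ := hnec z' hz'
  by_cases hxx : x = x'
  · subst hxx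
    refine ⟨ball p r ∩ ⋂ y, ⋂ (_ : Nearest X p y), ⋂ (_ : c y ≠ a), {w | dist w x < dist w y}, ?_, ?_,
      ?_, ?_⟩
    · rintro w ⟨hw, hw'⟩
      refine hsuff w hw fun y hy hya => ⟨x, hx.1, ?_⟩
      simp only [mem_iInter] at hw'
      exact hw' y hy hya
    · refine ⟨hz.2, ?_⟩
      simp only [mem_iInter]
      exact hxlt
    · refine ⟨hz'.2, ?_⟩
      simp only [mem_iInter]
      exact hxlt'
    · refine Convex.isPreconnected ?_
      refine (convex_ball p r).inter ?_
      exact convex_iInter fun y => convex_iInter fun _ => convex_iInter fun _ => adj_convex x y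
  · -- at most one nearest site of another color
    have hsub : ∀ y y', Nearest X p y → c y ≠ a → Nearest X p y' → c y' ≠ a → y = y' := by
      intro y y' hy hya hy' hya'
      by_contra hyy
      have hxy : x ≠ y := fun h => hya (h ▸ hxa)
      have hxy' : x ≠ y' := fun h => hya' (h ▸ hxa)
      have hx'y : x' ≠ y := fun h => hya (h ▸ hxa')
      have hx'y' : x' ≠ y' := fun h => hya' (h ▸ hxa')
      have hdist : ∀ w, Nearest X p w → w ∈ X ∩ sphere p (dist p x) := by
        intro w hw
        refine ⟨hw.1, ?_⟩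
        rw [mem_sphere, dist_comm]
        exact le_antisymm (hw.2 x hx.1) (hx.2 w hw.1)
      have hsubs : ({x, x', y, y'} : Set ℂ) ⊆ X ∩ sphere p (dist p x) := by
        intro w hw
        simp only [mem_insert_iff, mem_singleton_iff] at hw
        rcases hw with rfl | rfl | rfl | rfl
        · exact hdist _ hx
        · exact hdist _ hx'
        · exact hdist _ hy
        · exact hdist _ hy'
      have hcard : ({x, x', y, y'} : Set ℂ).encard = 4 := by
        rw [Set.encard_insert_of_notMem (by simp [hxx, hxy, hxy']),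
          Set.encard_insert_of_notMem (by simp [hx'y, hx'y']), Set.encard_pair hyy]
        norm_num
      have h5 := (Set.encard_le_encard hsubs).trans (h4 p (dist p x))
      rw [hcard] at h5
      norm_num at h5
    by_cases hex : ∃ y, Nearest X p y ∧ c y ≠ a
    · obtain ⟨y, hy, hya⟩ := hex
      have hxy : x ≠ y := fun h => hya (h ▸ hxa)
      have hx'y : x' ≠ y := fun h => hya (h ▸ hxa')
      have hdx : dist p x = dist p y := le_antisymm (hx.2 y hy.1) (hy.2 x hx.1)
      have hdx' : dist p x' = dist p y := le_antisymm (hx'.2 y hy.1) (hy.2 x' hx'.1)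
      -- the common point
      set ρ := dist y p with hρ
      have hρ0 : 0 ≤ ρ := dist_nonneg
      set t : ℝ := r / (2 * (ρ + 1)) with ht
      have ht0 : 0 < t := by positivity
      set w0 : ℂ := p - t * (y - p) with hw0
      have hw0b : w0 ∈ ball p r := by
        rw [mem_ball, dist_eq_norm, hw0]
        have : p - t * (y - p) - p = -(t * (y - p)) := by ring
        rw [this, norm_neg, norm_mul, ← dist_eq_norm, ← hρ, Complex.norm_real, Real.norm_eq_abs,
          abs_of_pos ht0, ht, div_mul_eq_mul_div, div_lt_iff₀ (by positivity)]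
        nlinarith
      have hsub2 : ∀ x, Nearest X p x → c x = a →
          ball p r ∩ {w | dist w x < dist w y} ⊆ Gset X c a ∩ ball p r := by
        rintro x hx hxa w ⟨hw, hw'⟩
        refine hsuff w hw fun y' hy' hya' => ⟨x, hx.1, ?_⟩
        rw [hsub y' y hy' hya' hy hya]
        exact hw'
      refine ⟨(ball p r ∩ {w | dist w x < dist w y}) ∪ (ball p r ∩ {w | dist w x' < dist w y}),
        union_subset (hsub2 x hx hxa) (hsub2 x' hx' hxa'), Or.inl ⟨hz.2, hxlt y hy hya⟩,
        Or.inr ⟨hz'.2, hxlt' y hy hya⟩, ?_⟩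
      refine IsPreconnected.union w0 ⟨hw0b, adj_common p x y hxy hdx t ht0⟩
        ⟨hw0b, adj_common p x' y hx'y hdx' t ht0⟩ ?_ ?_
      · exact ((convex_ball p r).inter (adj_convex x y)).isPreconnected
      · exact ((convex_ball p r).inter (adj_convex x' y)).isPreconnected
    · refine ⟨ball p r, fun w hw => hsuff w hw fun y hy hya => absurd ⟨y, hy, hya⟩ hex, hz.2, hz'.2,
        hball⟩

end Pool.Agent.H923_Poly
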