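import Pool.Agent.H923_Poly.S2Defs

/-! Stage 2, V3a: compactness. -/

open Complex Filter Topology Set Metric

namespace Pool.Agent.H923_Poly

namespace S27

/-- the distances of points of a compact part of a unit-free closed set stay away from one -/
theorem one (B : Set ℂ) (hB : IsClosed B) (hu : UnitFree B) (R : ℝ) :
    ∃ ε > 0, ∀ x ∈ B, ∀ y ∈ B, ‖x‖ ≤ R → ‖y‖ ≤ R → ε ≤ |dist x y - 1| := by
  set K : Set ℂ := B ∩ closedBall 0 R with hK
  have hKc : IsCompact K := (isCompact_closedBall (0 : ℂ) R).inter_left hB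
  rcases (K ×ˢ K).eq_empty_or_nonempty with h | h
  · refine ⟨1, one_pos, fun x hx y hy hxR hyR => ?_⟩
    have : (x, y) ∈ K ×ˢ K := ⟨⟨hx, by simpa using hxR⟩, ⟨hy, by simpa using hyR⟩⟩
    rw [h] at this
    exact this.elim
  · obtain ⟨⟨p, q⟩, ⟨hp, hq⟩, hmin⟩ := (hKc.prod hKc).exists_isMinOn h
      (f := fun z : ℂ × ℂ => |dist z.1 z.2 - 1|) (by fun_prop)
    refine ⟨|dist p q - 1|, abs_pos.2 (sub_ne_zero.2 (hu p hp.1 q hq.1)), fun x hx y hy hxR hyR => ?_⟩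
    exact hmin (a := (x, y)) ⟨⟨hx, by simpa using hxR⟩, ⟨hy, by simpa using hyR⟩⟩

/-- running minimum -/
noncomputable def rm (e : ℕ → ℝ) : ℕ → ℝ
  | 0 => e 0
  | n + 1 => min (rm e n) (e (n + 1))

theorem rm_pos {e : ℕ → ℝ} (h : ∀ n, 0 < e n) (n : ℕ) : 0 < rm e n := by
  induction n with
  | zero => exact h 0
  | succ n ih => exact lt_min ih (h _)

theorem rm_le (e : ℕ → ℝ) (n : ℕ) : rm e n ≤ e n := by
  cases n with
  | zero => exact le_rfl
  | succ n => exact min_le_right _ _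

theorem rm_anti (e : ℕ → ℝ) : Antitone (rm e) := antitone_nat_of_succ_le fun _ => min_le_left _ _

end S27

open S27 in
/-- V3a. Compactness. -/
theorem exists_delta (A : Fin 6 → Set ℂ) (hcl : ∀ a, IsClosed (A a)) (hu : ∀ a, UnitFree (A a)) :
    ∃ δ : ℝ → ℝ, (∀ r, 0 < δ r) ∧ Antitone δ ∧ ∀ a z z' x x', x ∈ A a → x' ∈ A a → dist z x < δ ‖z‖ →
      dist z' x' < δ ‖z'‖ → dist z z' ≠ 1 := by
  have h1 : ∀ n : ℕ, ∃ ε > 0, ∀ a, ∀ x ∈ A a, ∀ y ∈ A a, ‖x‖ ≤ n → ‖y‖ ≤ n → ε ≤ |dist x y - 1| := by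
    intro n
    choose e he0 he using fun a => one (A a) (hcl a) (hu a) n
    obtain ⟨a₀, ha₀⟩ := Finite.exists_min e
    exact ⟨e a₀, he0 a₀, fun a x hx y hy hxn hyn => (ha₀ a).trans (he a x hx y hy hxn hyn)⟩
  choose e he0 he using h1
  refine ⟨fun r => min (rm e ⌈r + 3⌉₊ / 3) (1 / 4), fun r => ?_, ?_, ?_⟩
  · have := rm_pos he0 ⌈r + 3⌉₊
    positivity
  · intro r s hrs
    have h2 : rm e ⌈s + 3⌉₊ ≤ rm e ⌈r + 3⌉₊ := rm_anti e (Nat.ceil_mono (by linarith))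
    exact min_le_min (by linarith) le_rfl
  · intro a z z' x x' hx hx' hzx hzx' hzz
    set r := min ‖z‖ ‖z'‖ with hr
    have hn : |‖z‖ - ‖z'‖| ≤ 1 := by
      have := abs_norm_sub_norm_le z z'
      rwa [← dist_eq_norm, hzz] at this
    rw [abs_le] at hn
    have hz : ‖z‖ ≤ r + 1 := by
      rcases le_total ‖z‖ ‖z'‖ with h | h
      · rw [hr, min_eq_left h]; linarith
      · rw [hr, min_eq_right h]; linarith
    have hz' : ‖z'‖ ≤ r + 1 := by
      rcases le_total ‖z‖ ‖z'‖ with h | h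
      · rw [hr, min_eq_left h]; linarith
      · rw [hr, min_eq_right h]; linarith
    have hanti : ∀ s, r ≤ s → min (rm e ⌈s + 3⌉₊ / 3) (1 / 4) ≤ rm e ⌈r + 3⌉₊ / 3 := by
      intro s hs
      have h2 : rm e ⌈s + 3⌉₊ ≤ rm e ⌈r + 3⌉₊ := rm_anti e (Nat.ceil_mono (by linarith))
      exact (min_le_left _ _).trans (by linarith)
    have e1 : dist z x < rm e ⌈r + 3⌉₊ / 3 := hzx.trans_le (hanti _ (min_le_left _ _))
    have e2 : dist z' x' < rm e ⌈r + 3⌉₊ / 3 := hzx'.trans_le (hanti _ (min_le_right _ _))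
    have f1 : dist z x < 1 / 4 := hzx.trans_le (min_le_right _ _)
    have f2 : dist z' x' < 1 / 4 := hzx'.trans_le (min_le_right _ _)
    have hc : r + 3 ≤ ⌈r + 3⌉₊ := Nat.le_ceil _
    have nx : ‖x‖ ≤ ⌈r + 3⌉₊ := by
      have h2 : ‖x‖ ≤ ‖z‖ + dist z x := by
        rw [dist_comm, dist_eq_norm]
        calc ‖x‖ = ‖z + (x - z)‖ := by ring_nf
          _ ≤ _ := norm_add_le _ _
      linarith
    have nx' : ‖x'‖ ≤ ⌈r + 3⌉₊ := by
      have h2 : ‖x'‖ ≤ ‖z'‖ + dist z' x' := by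
        rw [dist_comm, dist_eq_norm]
        calc ‖x'‖ = ‖z' + (x' - z')‖ := by ring_nf
          _ ≤ _ := norm_add_le _ _
      linarith
    have h3 := (rm_le e ⌈r + 3⌉₊).trans (he ⌈r + 3⌉₊ a x hx x' hx' nx nx')
    have h4 : |dist x x' - 1| ≤ dist z x + dist z' x' := by
      rw [← hzz, abs_le]
      have t1 := dist_triangle4 x z z' x'
      have t2 := dist_triangle4 z x x' z'
      rw [dist_comm x z] at t1
      rw [dist_comm x' z'] at t2
      constructor <;> linarith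
    have h5 := rm_pos he0 ⌈r + 3⌉₊
    linarith

end Pool.Agent.H923_Poly
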