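import Pool.Agent.H923_Poly.V1
import Pool.Agent.H923_Poly.V2a
import Pool.Agent.H923_Poly.V2c
import Pool.Agent.H923_Poly.V2e
import Pool.Agent.H923_Poly.V3a

/-! Module V2 and V3: the Voronoi tile system, no closed cover by six sets. -/

open Complex Filter Topology Set Metric

namespace Pool.Agent.H923_Poly

theorem V2_gset_open (X : Set ℂ) (hfin : ∀ r, (X ∩ closedBall 0 r).Finite) (hne : X.Nonempty) (c : ℂ → Fin 6)
    (a : Fin 6) : IsOpen (Gset X c a) := by
  rw [Metric.isOpen_iff]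
  intro p hp
  obtain ⟨r, hr, h⟩ := nearest_near X hfin hne p
  refine ⟨r, hr, fun z hz x hx => ?_⟩
  exact hp x (h z (mem_ball.1 hz) x hx)

/-- V2. The Voronoi tile system. -/
theorem voronoi_system (X : Set ℂ) (hfin : ∀ r, (X ∩ closedBall 0 r).Finite) (hne : X.Nonempty)
    (h4 : ∀ p r, (X ∩ sphere p r).encard ≤ 3) (c : ℂ → Fin 6)
    (hunit : ∀ z z' x x', Nearest X z x → Nearest X z' x' → c x = c x' → dist z z' ≠ 1) : Nonempty TileSystem := by
  have hopen : ∀ a, IsOpen (Gset X c a) := V2_gset_open X hfin hne c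
  have hcol : ∀ z a x, z ∈ Gset X c a → Nearest X z x → c x = a := fun z a x hz hx => hz x hx
  have hex := exists_nearest X hfin hne
  -- tiles
  have htile : ∀ z a, z ∈ Gset X c a → z ∈ connectedComponentIn (Gset X c a) z :=
    fun z a hz => mem_connectedComponentIn hz
  refine ⟨{
    ι := {T : Set ℂ × Fin 6 // ∃ z ∈ Gset X c T.2, T.1 = connectedComponentIn (Gset X c T.2) z}
    T := fun i => i.1.1
    c := fun i => i.1.2
    isOpen := ?_
    nonempty := ?_
    preconn := ?_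
    disj := ?_
    unit := ?_
    star := ?_
    circ := ?_
    adj := ?_ }⟩
  · rintro ⟨⟨T, a⟩, z, hz, hT⟩
    simp only at hz hT
    subst hT
    exact (hopen a).connectedComponentIn
  · rintro ⟨⟨T, a⟩, z, hz, hT⟩
    simp only at hz hT
    subst hT
    exact ⟨z, htile z a hz⟩
  · rintro ⟨⟨T, a⟩, z, hz, hT⟩
    simp only at hz hT
    subst hT
    exact isPreconnected_connectedComponentIn
  · rintro ⟨⟨T, a⟩, z, hz, hT⟩ ⟨⟨T', a'⟩, z', hz', hT'⟩ x hx hx'
    simp only at hz hT hz' hT' hx hx'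
    subst hT hT'
    have h1 : x ∈ Gset X c a := connectedComponentIn_subset _ _ hx
    have h2 : x ∈ Gset X c a' := connectedComponentIn_subset _ _ hx'
    obtain ⟨x0, hx0⟩ := hex x
    have h3 : a = a' := by rw [← hcol x a x0 h1 hx0, ← hcol x a' x0 h2 hx0]
    subst h3
    have e1 := connectedComponentIn_eq hx
    have e2 := connectedComponentIn_eq hx'
    apply Subtype.ext
    simp only [Prod.mk.injEq, and_true]
    rw [e1, e2]
  · rintro ⟨⟨T, a⟩, z, hz, hT⟩ ⟨⟨T', a'⟩, z', hz', hT'⟩ hcc x hx y hy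
    simp only at hz hT hz' hT' hx hy hcc
    subst hT hT' hcc
    have h1 : x ∈ Gset X c a := connectedComponentIn_subset _ _ hx
    have h2 : y ∈ Gset X c a := connectedComponentIn_subset _ _ hy
    obtain ⟨x0, hx0⟩ := hex x
    obtain ⟨y0, hy0⟩ := hex y
    exact hunit x y x0 y0 hx0 hy0 (by rw [hcol x a x0 h1 hx0, hcol y a y0 h2 hy0])
  · intro p
    obtain ⟨r, hr, U, hU1, hU2, hU3⟩ := voronoi_star X hfin hne h4 p
    refine ⟨r, hr, U, hU1, hU2, fun z hzp hzr hzU => ?_⟩
    have h1 := hU3 z hzp hzr hzU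
    obtain ⟨x0, hx0⟩ := hex z
    have h2 : z ∈ Gset X c (c x0) := fun x hx => by rw [h1 x x0 hx hx0]
    exact ⟨⟨⟨connectedComponentIn (Gset X c (c x0)) z, c x0⟩, z, h2, rfl⟩, htile z _ h2⟩
  · intro v
    refine (voronoi_circ X hfin hne v).subset ?_
    rintro z ⟨hzv, hz⟩
    refine ⟨hzv, ?_⟩
    by_contra hcon
    push Not at hcon
    obtain ⟨x0, hx0⟩ := hex z
    have h2 : z ∈ Gset X c (c x0) := fun x hx => by rw [hcon x x0 hx hx0]
    exact hz ⟨⟨connectedComponentIn (Gset X c (c x0)) z, c x0⟩, z, h2, rfl⟩ (htile z _ h2)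
  · rintro ⟨⟨T, a⟩, z, hz, hT⟩ ⟨⟨T', a'⟩, z', hz', hT'⟩ x hx hx' hij hcc
    simp only at hz hT hz' hT' hx hx' hcc
    subst hT hT' hcc
    apply hij
    obtain ⟨r, hr, s, hs1, hs2, hs3⟩ := voronoi_adj X hfin hne h4 c a x
    obtain ⟨z1, hz1, hz1r⟩ := Metric.mem_closure_iff.1 hx r hr
    obtain ⟨z2, hz2, hz2r⟩ := Metric.mem_closure_iff.1 hx' r hr
    have g1 : z1 ∈ Gset X c a := connectedComponentIn_subset _ _ hz1
    have g2 : z2 ∈ Gset X c a := connectedComponentIn_subset _ _ hz2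
    have m1 : z1 ∈ s := hs3 z1 g1 (by rw [dist_comm]; exact hz1r)
    have m2 : z2 ∈ s := hs3 z2 g2 (by rw [dist_comm]; exact hz2r)
    have hsub := hs1.subset_connectedComponentIn m1 hs2
    have e1 := connectedComponentIn_eq hz1
    have e2 := connectedComponentIn_eq hz2
    have e3 := connectedComponentIn_eq (hsub m2)
    apply Subtype.ext
    simp only [Prod.mk.injEq, and_true]
    rw [e1, e2, e3]

/-- V3. No closed cover by six sets without distance one. -/
theorem no_closed_six (hcontra : TileSystem → False) (A : Fin 6 → Set ℂ) (hcl : ∀ a, IsClosed (A a))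
    (hu : ∀ a, UnitFree (A a)) (hcov : ∀ z, ∃ a, z ∈ A a) : False := by
  obtain ⟨δ, hδ, hanti, hdel⟩ := exists_delta A hcl hu
  obtain ⟨X, hfin, hdense, h4⟩ := exists_sites δ hδ hanti
  have hne : X.Nonempty := by
    obtain ⟨x, hx, _⟩ := hdense 0
    exact ⟨x, hx⟩
  choose c hc using hcov
  have hnear : ∀ z x, Nearest X z x → dist z x < δ ‖z‖ := by
    intro z x hx
    obtain ⟨x', hx', h⟩ := hdense z
    exact lt_of_le_of_lt (hx.2 x' hx') h
  obtain ⟨S⟩ := voronoi_system X hfin hne h4 c (by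
    intro z z' x x' hx hx' hcc
    refine hdel (c x) z z' x x' (hc x) ?_ (hnear z x hx) (hnear z' x' hx')
    rw [hcc]
    exact hc x')
  exact hcontra S

end Pool.Agent.H923_Poly
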