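import Pool.Agent.H923_Poly.S2Defs

/-! V4, seven congruent closed unit-distance-free sets covering the plane (bricks). -/

open Complex Filter Topology Set Metric

namespace Pool.Agent.H923_Poly

namespace V4

/-- the closed brick with index `p` -/
def Bk (p : ℤ × ℤ) : Set ℂ :=
  {z | ((4 / 15) * (3 * p.1 + p.2 : ℝ) ≤ z.re ∧ z.re ≤ (4 / 15) * (3 * p.1 + p.2 + 3 : ℝ)) ∧
    ((11 / 20) * (p.2 : ℝ) ≤ z.im ∧ z.im ≤ (11 / 20) * (p.2 + 1 : ℝ))}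

theorem mem_Bk (p : ℤ × ℤ) (z : ℂ) : z ∈ Bk p ↔
    ((4 / 15) * (3 * p.1 + p.2 : ℝ) ≤ z.re ∧ z.re ≤ (4 / 15) * (3 * p.1 + p.2 + 3 : ℝ)) ∧
    ((11 / 20) * (p.2 : ℝ) ≤ z.im ∧ z.im ≤ (11 / 20) * (p.2 + 1 : ℝ)) := Iff.rfl

theorem closed_Bk (p : ℤ × ℤ) : IsClosed (Bk p) := by
  have h1 : IsClosed {z : ℂ | (4 / 15) * (3 * p.1 + p.2 : ℝ) ≤ z.re} := isClosed_le continuous_const Complex.continuous_re
  have h2 : IsClosed {z : ℂ | z.re ≤ (4 / 15) * (3 * p.1 + p.2 + 3 : ℝ)} := isClosed_le Complex.continuous_re continuous_const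
  have h3 : IsClosed {z : ℂ | (11 / 20) * (p.2 : ℝ) ≤ z.im} := isClosed_le continuous_const Complex.continuous_im
  have h4 : IsClosed {z : ℂ | z.im ≤ (11 / 20) * (p.2 + 1 : ℝ)} := isClosed_le Complex.continuous_im continuous_const
  exact (h1.inter h2).inter (h3.inter h4)

/-- the union of the bricks of one color -/
def Cl (a : ℤ) : Set ℂ := {z | ∃ p : ℤ × ℤ, (p.1 + 5 * p.2 - a) % 7 = 0 ∧ z ∈ Bk p}

theorem locallyFinite_Bk : LocallyFinite Bk := by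
  intro z
  refine ⟨ball z 1, ball_mem_nhds z one_pos, ?_⟩
  obtain ⟨N, hN⟩ := exists_nat_gt (‖z‖ + 1)
  have hfin : ((Icc (-(8 * (N : ℤ) + 20)) (8 * N + 20) ×ˢ Icc (-(8 * (N : ℤ) + 20)) (8 * N + 20) : Set (ℤ × ℤ))).Finite :=
    (finite_Icc _ _).prod (finite_Icc _ _)
  refine hfin.subset ?_
  rintro p ⟨w, hw, hwz⟩
  have h1 : ‖w‖ ≤ N := by
    rw [mem_ball, dist_eq_norm] at hwz
    have : ‖w‖ ≤ ‖w - z‖ + ‖z‖ := by
      simpa using norm_add_le (w - z) z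
    linarith
  have h2 := (Complex.abs_re_le_norm w).trans h1
  have h3 := (Complex.abs_im_le_norm w).trans h1
  rw [abs_le] at h2 h3
  rw [mem_Bk] at hw
  obtain ⟨⟨a1, a2⟩, a3, a4⟩ := hw
  have hN0 : (0 : ℝ) ≤ N := Nat.cast_nonneg N
  have b1 : (p.2 : ℝ) ≤ ((2 * N : ℤ) : ℝ) := by
    push_cast
    linarith
  have b2 : ((-(2 * N) - 1 : ℤ) : ℝ) ≤ (p.2 : ℝ) := by
    push_cast
    linarith
  have b3 : ((3 * p.1 + p.2 : ℤ) : ℝ) ≤ ((4 * N : ℤ) : ℝ) := by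
    push_cast
    linarith
  have b4 : ((-(4 * N) - 3 : ℤ) : ℝ) ≤ ((3 * p.1 + p.2 : ℤ) : ℝ) := by
    push_cast
    linarith
  rw [Int.cast_le] at b1 b2 b3 b4
  refine ⟨⟨?_, ?_⟩, ?_, ?_⟩ <;> omega

theorem closed_Cl (a : ℤ) : IsClosed (Cl a) := by
  have h : Cl a = ⋃ p : {p : ℤ × ℤ // (p.1 + 5 * p.2 - a) % 7 = 0}, Bk p.1 := by
    ext z
    simp only [Cl, mem_ofPred_eq, mem_iUnion, Subtype.exists, exists_prop]
  rw [h]
  exact (locallyFinite_Bk.comp_injective Subtype.val_injective).isClosed_iUnion fun p => closed_Bk p.1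

theorem unitFree_Cl (a : ℤ) : UnitFree (Cl a) := by
  rintro x ⟨p, hp, hx⟩ y ⟨q, hq, hy⟩ hd
  rw [mem_Bk] at hx hy
  obtain ⟨⟨a1, a2⟩, a3, a4⟩ := hx
  obtain ⟨⟨b1, b2⟩, b3, b4⟩ := hy
  have hsq : (x.re - y.re) ^ 2 + (x.im - y.im) ^ 2 = 1 := by
    have h := Complex.sq_norm (x - y)
    rw [← dist_eq_norm, hd, Complex.normSq_apply, Complex.sub_re, Complex.sub_im] at h
    linarith
  have hre : |x.re - y.re| ≤ 1 := by
    rw [abs_le]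
    constructor <;> nlinarith [sq_nonneg (x.im - y.im)]
  have him : |x.im - y.im| ≤ 1 := by
    rw [abs_le]
    constructor <;> nlinarith [sq_nonneg (x.re - y.re)]
  rw [abs_le] at hre him
  have c1 : p.2 - q.2 < 3 := by
    by_contra hc
    have : (3 : ℝ) ≤ ((p.2 - q.2 : ℤ) : ℝ) := by exact_mod_cast not_lt.1 hc
    push_cast at this
    linarith
  have c2 : q.2 - p.2 < 3 := by
    by_contra hc
    have : (3 : ℝ) ≤ ((q.2 - p.2 : ℤ) : ℝ) := by exact_mod_cast not_lt.1 hc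
    push_cast at this
    linarith
  have c3 : 3 * (p.1 - q.1) + (p.2 - q.2) < 7 := by
    by_contra hc
    have : (7 : ℝ) ≤ ((3 * (p.1 - q.1) + (p.2 - q.2) : ℤ) : ℝ) := by exact_mod_cast not_lt.1 hc
    push_cast at this
    linarith
  have c4 : 3 * (q.1 - p.1) + (q.2 - p.2) < 7 := by
    by_contra hc
    have : (7 : ℝ) ≤ ((3 * (q.1 - p.1) + (q.2 - p.2) : ℤ) : ℝ) := by exact_mod_cast not_lt.1 hc
    push_cast at this
    linarith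
  obtain ⟨d1, d2⟩ : p.1 = q.1 ∧ p.2 = q.2 := by omega
  rw [d1, d2] at a1 a2
  rw [d2] at a3 a4
  have e1 : |x.re - y.re| ≤ 4 / 5 := by
    rw [abs_le]
    constructor <;> linarith
  have e2 : |x.im - y.im| ≤ 11 / 20 := by
    rw [abs_le]
    constructor <;> linarith
  have e3 : (x.re - y.re) ^ 2 ≤ (4 / 5) ^ 2 := sq_le_sq' (abs_le.1 e1).1 (abs_le.1 e1).2
  have e4 : (x.im - y.im) ^ 2 ≤ (11 / 20) ^ 2 := sq_le_sq' (abs_le.1 e2).1 (abs_le.1 e2).2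
  norm_num at e3 e4
  linarith

theorem exists_Bk (z : ℂ) : ∃ p, z ∈ Bk p := by
  refine ⟨((⌊z.re * (15 / 4)⌋ - ⌊z.im * (20 / 11)⌋) / 3, ⌊z.im * (20 / 11)⌋), ?_⟩
  set s : ℤ := ⌊z.re * (15 / 4)⌋ with hs
  set t : ℤ := ⌊z.im * (20 / 11)⌋ with ht
  have h1 : (s : ℝ) ≤ z.re * (15 / 4) := Int.floor_le _
  have h2 : z.re * (15 / 4) < s + 1 := Int.lt_floor_add_one _
  have h3 : (t : ℝ) ≤ z.im * (20 / 11) := Int.floor_le _
  have h4 : z.im * (20 / 11) < t + 1 := Int.lt_floor_add_one _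
  have h5 : ((3 * ((s - t) / 3) + t : ℤ) : ℝ) ≤ (s : ℝ) := by
    rw [Int.cast_le]
    omega
  have h6 : (s : ℝ) + 1 ≤ ((3 * ((s - t) / 3) + t + 3 : ℤ) : ℝ) := by
    have : s + 1 ≤ 3 * ((s - t) / 3) + t + 3 := by omega
    exact_mod_cast this
  rw [mem_Bk]
  simp only
  rw [Int.cast_add, Int.cast_mul] at h5
  rw [Int.cast_add, Int.cast_add, Int.cast_mul] at h6
  norm_num at h5 h6
  refine ⟨⟨by linarith, by linarith⟩, by linarith, by linarith⟩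

theorem shift_Bk (p : ℤ × ℤ) (k : ℤ) (z : ℂ) : z ∈ Bk p ↔ z + ((4 / 5 * k : ℝ) : ℂ) ∈ Bk (p.1 + k, p.2) := by
  rw [mem_Bk, mem_Bk]
  simp only [Complex.add_re, Complex.add_im, Complex.ofReal_re, Complex.ofReal_im, add_zero]
  push_cast
  constructor
  · rintro ⟨⟨h1, h2⟩, h3, h4⟩
    refine ⟨⟨by linarith, by linarith⟩, h3, h4⟩
  · rintro ⟨⟨h1, h2⟩, h3, h4⟩
    refine ⟨⟨by linarith, by linarith⟩, h3, h4⟩

theorem shift_Cl (a b : ℤ) (z : ℂ) : z ∈ Cl a ↔ z + ((4 / 5 * ((b - a : ℤ) : ℝ) : ℝ) : ℂ) ∈ Cl b := by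
  constructor
  · rintro ⟨p, hp, hz⟩
    refine ⟨(p.1 + (b - a), p.2), ?_, (shift_Bk p (b - a) z).1 hz⟩
    simp only
    omega
  · rintro ⟨p, hp, hz⟩
    refine ⟨(p.1 - (b - a), p.2), ?_, ?_⟩
    · simp only
      omega
    · rw [shift_Bk _ (b - a)]
      simpa using hz

end V4

open V4 in
/-- V4. Seven congruent closed sets (bricks). -/
theorem exists_seven_congruent : ∃ A : Fin 7 → Set ℂ, (∀ a, IsClosed (A a)) ∧ (∀ a, UnitFree (A a)) ∧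
    (∀ z, ∃ a, z ∈ A a) ∧ ∀ a b, ∃ g : ℂ ≃ᵢ ℂ, g '' A a = A b := by
  refine ⟨fun a => Cl ((a : ℕ) : ℤ), fun a => closed_Cl _, fun a => unitFree_Cl _, ?_, ?_⟩
  · intro z
    obtain ⟨p, hp⟩ := exists_Bk z
    refine ⟨⟨((p.1 + 5 * p.2) % 7).toNat, by omega⟩, p, ?_, hp⟩
    simp only
    omega
  · intro a b
    refine ⟨IsometryEquiv.addRight ((4 / 5 * ((((b : ℕ) : ℤ) - ((a : ℕ) : ℤ) : ℤ) : ℝ) : ℝ) : ℂ), ?_⟩
    ext z
    simp only [mem_image]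
    constructor
    · rintro ⟨w, hw, rfl⟩
      exact (shift_Cl _ _ w).1 hw
    · intro hz
      refine ⟨z - ((4 / 5 * ((((b : ℕ) : ℤ) - ((a : ℕ) : ℤ) : ℤ) : ℝ) : ℝ) : ℂ), ?_, ?_⟩
      · rw [shift_Cl _ ((b : ℕ) : ℤ), sub_add_cancel]
        exact hz
      · exact sub_add_cancel _ _

end Pool.Agent.H923_Poly
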