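import Pool.Agent.H923_Poly.ClosedDefs
import Pool.Agent.H923_Poly.K14
import Pool.Agent.H923_Poly.V2
import Pool.Agent.H923_Poly.V4

/-! The closed chromatic numbers of the plane are seven. -/

namespace Pool.Agent.H923_Poly

theorem no_closed_le_six {k : ℕ} (hk : k ≤ 6) (A : Fin k → Set ℂ) (hc : Covers A)
    (hA : ∀ a, IsClosed (A a) ∧ UnitDistanceFree (A a)) : False := by
  classical
  refine no_closed_six (fun S => S.contradiction)
    (fun b => if h : (b : ℕ) < k then A ⟨b, h⟩ else ∅) ?_ ?_ ?_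
  · intro b
    split_ifs with h
    · exact (hA _).1
    · exact isClosed_empty
  · intro b x hx y hy
    split_ifs at hx hy with h
    · exact (hA _).2 x hx y hy
    · exact absurd hx (Set.notMem_empty x)
  · intro z
    obtain ⟨a, ha⟩ := hc z
    refine ⟨Fin.castLE hk a, ?_⟩
    rw [dif_pos (by simp)]
    exact ha

theorem closedChromaticNumber_eq : closedChromaticNumber = 7 := by
  obtain ⟨A, h1, h2, h3, -⟩ := exists_seven_congruent
  apply le_antisymm
  · exact Nat.sInf_le ⟨A, h3, fun a => ⟨h1 a, h2 a⟩⟩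
  · refine le_csInf ⟨7, A, h3, fun a => ⟨h1 a, h2 a⟩⟩ ?_
    rintro k ⟨B, hB, hB'⟩
    by_contra hk
    exact no_closed_le_six (by omega) B hB hB'

theorem congruentClosedChromaticNumber_eq : congruentClosedChromaticNumber = 7 := by
  obtain ⟨A, h1, h2, h3, h4⟩ := exists_seven_congruent
  apply le_antisymm
  · exact Nat.sInf_le ⟨A, h3, fun a => ⟨h1 a, h2 a⟩, h4⟩
  · refine le_csInf ⟨7, A, h3, fun a => ⟨h1 a, h2 a⟩, h4⟩ ?_
    rintro k ⟨B, hB, hB', -⟩
    by_contra hk
    exact no_closed_le_six (by omega) B hB hB'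

end Pool.Agent.H923_Poly
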