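import Mathlib

/-!
# Tile systems

Abstract form of a polygon coloring of the plane with at most six colors in which every vertex has degree at most three.
-/

open Complex Filter Topology Set Metric

namespace Pool.Agent.H923_Poly

/-- The unit vector in direction `t`. -/
noncomputable def e (t : ℝ) : ℂ := Complex.exp (t * Complex.I)

/-- A tile system: open connected disjoint tiles with colors in `Fin 6`, no two points of equally colored tiles at distance
one, near every point all points off at most three rays lie in tiles, every unit circle has finitely many points outside the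
tiles, and tiles with a common closure point have different colors. -/
structure TileSystem where
  ι : Type
  T : ι → Set ℂ
  c : ι → Fin 6
  isOpen : ∀ i, IsOpen (T i)
  nonempty : ∀ i, (T i).Nonempty
  preconn : ∀ i, IsPreconnected (T i)
  disj : ∀ i j x, x ∈ T i → x ∈ T j → i = j
  unit : ∀ i j, c i = c j → ∀ x ∈ T i, ∀ y ∈ T j, dist x y ≠ 1
  star : ∀ p : ℂ, ∃ r > 0, ∃ U : Finset ℂ, U.card ≤ 3 ∧ (∀ u ∈ U, ‖u‖ = 1) ∧
    ∀ z, z ≠ p → dist z p < r → (∀ u ∈ U, z ≠ p + (dist z p : ℝ) * u) → ∃ i, z ∈ T i
  circ : ∀ v : ℂ, {x | dist x v = 1 ∧ ∀ i, x ∉ T i}.Finite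
  adj : ∀ i j x, x ∈ closure (T i) → x ∈ closure (T j) → i ≠ j → c i ≠ c j

namespace TileSystem

variable (S : TileSystem)

/-- `i` is at `p`: the point `p` is in the closure of the tile `i`. -/
def At (p : ℂ) (i : S.ι) : Prop := p ∈ closure (S.T i)

/-- The tile containing the points of the circle about `v` through `x` just after `x` (counterclockwise). -/
def gp (v x : ℂ) (i : S.ι) : Prop := ∀ᶠ h in 𝓝[>] (0 : ℝ), v + (x - v) * e h ∈ S.T i

/-- The tile containing the points of the circle about `v` through `x` just before `x`. -/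
def gm (v x : ℂ) (i : S.ι) : Prop := ∀ᶠ h in 𝓝[>] (0 : ℝ), v + (x - v) * e (-h) ∈ S.T i

/-- The germ colors of the circle about `v` at its point `x`. -/
def germColors (v x : ℂ) : Set (Fin 6) := {a | ∃ i, (S.gp v x i ∨ S.gm v x i) ∧ S.c i = a}

/-- `v` is a triple point of type `F`: `F` has three elements and tiles of all colors in `F` are at `v`. -/
def TripleOf (v : ℂ) (F : Finset (Fin 6)) : Prop := F.card = 3 ∧ ∀ a ∈ F, ∃ i, S.At v i ∧ S.c i = a

/-- Two tiles are close if all distances between them are less than one. -/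
def Close (i j : S.ι) : Prop := ∀ x ∈ S.T i, ∀ y ∈ S.T j, dist x y < 1

/-- Two tiles are far if all distances between them are greater than one. -/
def Far (i j : S.ι) : Prop := ∀ x ∈ S.T i, ∀ y ∈ S.T j, 1 < dist x y

/-- `f` is a phase for the unit circle about `v` and the three colors `κ 0, κ 1, κ 2`. -/
def IsPhase (v : ℂ) (κ : Fin 3 → Fin 6) (f : ℝ → ℝ) : Prop :=
  Continuous f ∧ ∀ (t : ℝ) (k : Fin 3), κ k ∈ S.germColors v (v + e t) ↔ ∃ n : ℤ, |f t - (3 * n + (k : ℕ))| ≤ 1 / 2

/-- The points of the unit circle about `v` in no tile. -/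
noncomputable def bad (v : ℂ) : Finset ℂ := (S.circ v).toFinset

open Classical in
/-- Signed label change `0 → 1` of the unit circle about `v` at `x`. -/
noncomputable def jump (lab : S.ι → ℤ) (v x : ℂ) : ℤ :=
  (if (∃ i, S.gm v x i ∧ lab i = 0) ∧ (∃ j, S.gp v x j ∧ lab j = 1) then 1 else 0)
  - (if (∃ i, S.gm v x i ∧ lab i = 1) ∧ (∃ j, S.gp v x j ∧ lab j = 0) then 1 else 0)

open Classical in
/-- Labels for colors: `κ 0 ↦ 0`, `κ 1 ↦ 1`, all others `2`. -/
noncomputable def labC (κ : Fin 3 → Fin 6) (i : S.ι) : ℤ := if S.c i = κ 0 then 0 else if S.c i = κ 1 then 1 else 2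

open Classical in
/-- Labels for a tile `A`: `A ↦ 0`, tiles of color `κ 1 ↦ 1`, all others `2`. -/
noncomputable def labA (κ : Fin 3 → Fin 6) (A : S.ι) (i : S.ι) : ℤ := if i = A then 0 else if S.c i = κ 1 then 1 else 2

/-- The net number of passages of the unit circle about `v` from `A` to tiles of color `κ 1`. -/
noncomputable def net (κ : Fin 3 → Fin 6) (v : ℂ) (A : S.ι) : ℤ := ∑ x ∈ S.bad v, S.jump (S.labA κ A) v x

end TileSystem

/-- The window index of a phase. -/
noncomputable def win (x : ℝ) : ℤ := ⌊(x - 1 / 2) / 3⌋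

end Pool.Agent.H923_Poly
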