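import Mathlib

/-!
# Polygon colorings of the plane

The definitions of the final statement.
-/

open Set Metric

namespace Pool.Agent.H923_Poly

/-- An open polygon: a nonempty bounded connected open set `R`, equal to the interior of its closure, whose frontier is a
simple closed polygon with `n ≥ 3` corners `P k` (corners distinct; two different sides meet only in common endpoints). By
the Jordan curve theorem these are exactly the insides of the simple closed polygons. -/
def IsOpenPolygon (R : Set ℂ) : Prop :=
  ∃ (n : ℕ) (P : ZMod n → ℂ), 3 ≤ n ∧ Function.Injective P ∧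
    (∀ k l, k ≠ l → segment ℝ (P k) (P (k + 1)) ∩ segment ℝ (P l) (P (l + 1)) ⊆ {P k, P (k + 1)} ∩ {P l, P (l + 1)}) ∧
    IsOpen R ∧ R.Nonempty ∧ IsPreconnected R ∧ Bornology.IsBounded R ∧ interior (closure R) = R ∧
    frontier R = ⋃ k, segment ℝ (P k) (P (k + 1))

/-- A polygon coloring of the plane with the `k` colors `Fin k`. -/
structure PolygonColoring (k : ℕ) where
  /-- the color of a point -/
  color : ℂ → Fin k
  /-- points at distance one have different colors -/
  color_ne : ∀ x y, dist x y = 1 → color x ≠ color y
  /-- the vertices (points) -/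
  vertices : Set ℂ
  /-- the borders (open segments) -/
  borders : Set (Set ℂ)
  /-- the regions (open polygons) -/
  regions : Set (Set ℂ)
  /-- the plane is partitioned into the vertices, the borders and the regions -/
  partition : Setoid.IsPartition ((fun v => ({v} : Set ℂ)) '' vertices ∪ borders ∪ regions)
  /-- a border is an open segment whose two endpoints are vertices -/
  border_segment : ∀ B ∈ borders, ∃ p ∈ vertices, ∃ q ∈ vertices, p ≠ q ∧ B = openSegment ℝ p q
  /-- a region is an open polygon -/
  region_polygon : ∀ R ∈ regions, IsOpenPolygon R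
  /-- a region is bounded by borders and vertices -/
  region_frontier : ∀ R ∈ regions, frontier R ⊆ vertices ∪ ⋃₀ borders
  /-- the color is constant on each region -/
  color_region : ∀ R ∈ regions, ∀ x ∈ R, ∀ y ∈ R, color x = color y
  /-- two regions whose boundaries contain a common vertex or a common border have different colors -/
  color_adjacent : ∀ R ∈ regions, ∀ R' ∈ regions, R ≠ R' →
    ((∃ v ∈ vertices, v ∈ frontier R ∧ v ∈ frontier R') ∨ (∃ B ∈ borders, B ⊆ frontier R ∧ B ⊆ frontier R')) →
    ∀ x ∈ R, ∀ y ∈ R', color x ≠ color y
  /-- at every vertex two of the borders ending at it make an angle different from `π` -/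
  vertex_angle : ∀ v ∈ vertices, ∃ p q : ℂ, p ≠ v ∧ q ≠ v ∧ p ≠ q ∧ openSegment ℝ v p ∈ borders ∧
    openSegment ℝ v q ∈ borders ∧ EuclideanGeometry.angle p v q ≠ Real.pi
  /-- every disk meets only finitely many vertices, borders and regions -/
  locally_finite : ∀ (x : ℂ) (r : ℝ), (vertices ∩ closedBall x r).Finite ∧
    {B ∈ borders | (B ∩ closedBall x r).Nonempty}.Finite ∧ {R ∈ regions | (R ∩ closedBall x r).Nonempty}.Finite

namespace PolygonColoring

variable {k : ℕ} (P : PolygonColoring k)

/-- The degree of a vertex: the number of borders having it as an endpoint. -/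
noncomputable def degree (v : ℂ) : ℕ∞ := Set.encard {B ∈ P.borders | ∃ q, q ≠ v ∧ B = openSegment ℝ v q}

end PolygonColoring

end Pool.Agent.H923_Poly
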