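import Pool.Agent.H923_Poly.Defs
import Pool.Agent.H923_Poly.Poly

/-!
# A polygon coloring with at most six colors and all degrees at most three gives a tile system
-/

set_option autoImplicit false

open Complex Filter Topology Set Metric

namespace Pool.Agent.H923_Poly

namespace L1

/-! ### Segments -/

theorem mem_openSegment_param {p q z : ℂ} (hz : z ∈ openSegment ℝ p q) :
    ∃ t : ℝ, 0 < t ∧ t < 1 ∧ z = p + t * (q - p) := by
  rw [openSegment_eq_image'] at hz
  obtain ⟨t, ht, rfl⟩ := hz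
  exact ⟨t, ht.1, ht.2, by
    change p + t • (q - p) = p + t * (q - p)
    rw [real_smul]⟩

theorem openSegment_ne_singleton {p q : ℂ} (h : p ≠ q) (v : ℂ) : ({v} : Set ℂ) ≠ openSegment ℝ p q := by
  intro he
  have h1 : p + (1 / 2 : ℝ) • (q - p) ∈ openSegment ℝ p q := by
    rw [openSegment_eq_image']
    exact ⟨1 / 2, ⟨by norm_num, by norm_num⟩, rfl⟩
  have h2 : p + (1 / 3 : ℝ) • (q - p) ∈ openSegment ℝ p q := by
    rw [openSegment_eq_image']
    exact ⟨1 / 3, ⟨by norm_num, by norm_num⟩, rfl⟩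
  rw [← he, mem_singleton_iff] at h1 h2
  have h3 : ((1 / 2 : ℝ) - (1 / 3 : ℝ)) • (q - p) = 0 := by
    rw [sub_smul]
    have h4 := h1.trans h2.symm
    rw [add_right_inj] at h4
    rw [h4, sub_self]
  rw [smul_eq_zero] at h3
  rcases h3 with h3 | h3
  · norm_num at h3
  · exact h (sub_eq_zero.1 h3).symm

/-- The unit vector from `p` to `q`. -/
noncomputable def dir (p q : ℂ) : ℂ := (q - p) / (‖q - p‖ : ℝ)

theorem norm_dir {p q : ℂ} (h : q ≠ p) : ‖dir p q‖ = 1 := by
  unfold dir
  rw [norm_div, Complex.norm_real, norm_norm, div_self]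
  exact norm_ne_zero_iff.2 (sub_ne_zero.2 h)

/-- A point `p + s (q - p)` with `s > 0`. -/
theorem eq_add_dir {p q z : ℂ} (h : q ≠ p) {s : ℝ} (hs : 0 < s) (hz : z = p + s * (q - p)) :
    z = p + (dist z p : ℝ) * dir p q := by
  have h1 : dist z p = s * ‖q - p‖ := by
    rw [dist_eq_norm, hz, add_sub_cancel_left, norm_mul, Complex.norm_real, Real.norm_eq_abs,
      abs_of_pos hs]
  have h2 : ((‖q - p‖ : ℝ) : ℂ) ≠ 0 := by
    rw [Ne, ofReal_eq_zero]
    exact norm_ne_zero_iff.2 (sub_ne_zero.2 h)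
  rw [h1]
  unfold dir
  conv_lhs => rw [hz]
  push_cast
  field_simp

/-- A line meets a circle in finitely many points. -/
theorem finite_line_circle (v p w : ℂ) (hw : w ≠ 0) :
    {x : ℂ | (∃ t : ℝ, x = p + t * w) ∧ dist x v = 1}.Finite := by
  classical
  let Q : Polynomial ℝ := Polynomial.C (normSq w) * Polynomial.X ^ 2 +
    Polynomial.C (2 * ((p - v) * (starRingEnd ℂ) w).re) * Polynomial.X +
    Polynomial.C (normSq (p - v) - 1)
  have hQ : Q ≠ 0 := by
    intro h
    have h1 : Q.coeff 2 = normSq w := by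
      simp only [Q, Polynomial.coeff_add, Polynomial.coeff_C_mul, Polynomial.coeff_X_pow,
        Polynomial.coeff_X, Polynomial.coeff_C]
      norm_num
    rw [h, Polynomial.coeff_zero] at h1
    exact hw (normSq_eq_zero.1 h1.symm)
  refine ((Q.roots.toFinset.finite_toSet).image fun t : ℝ => p + t * w).subset ?_
  rintro x ⟨⟨t, rfl⟩, hx⟩
  refine ⟨t, ?_, rfl⟩
  rw [Finset.mem_coe, Multiset.mem_toFinset, Polynomial.mem_roots hQ, Polynomial.IsRoot.def]
  have h1 : normSq (p + t * w - v) = 1 := by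
    rw [normSq_eq_norm_sq, ← dist_eq_norm, hx, one_pow]
  have h2 : normSq (p + t * w - v) = normSq w * t ^ 2 +
      2 * ((p - v) * (starRingEnd ℂ) w).re * t + normSq (p - v) := by
    simp only [normSq_apply, add_re, add_im, sub_re, sub_im, mul_re, mul_im, ofReal_re, ofReal_im,
      conj_re, conj_im]
    ring
  simp only [Q, Polynomial.eval_add, Polynomial.eval_mul, Polynomial.eval_C, Polynomial.eval_pow,
    Polynomial.eval_X]
  linarith

/-! ### The parts of the partition -/

variable {k : ℕ} (P : PolygonColoring k)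

theorem cover (x : ℂ) :
    x ∈ P.vertices ∨ (∃ B ∈ P.borders, x ∈ B) ∨ ∃ R ∈ P.regions, x ∈ R := by
  obtain ⟨A, ⟨hA, hx⟩, _⟩ := P.partition.2 x
  rcases hA with (⟨v, hv, rfl⟩ | hA) | hA
  · left
    rw [mem_singleton_iff] at hx
    rw [hx]
    exact hv
  · exact Or.inr (Or.inl ⟨A, hA, hx⟩)
  · exact Or.inr (Or.inr ⟨A, hA, hx⟩)

theorem region_eq {R R' : Set ℂ} (hR : R ∈ P.regions) (hR' : R' ∈ P.regions) {x : ℂ} (hx : x ∈ R)
    (hx' : x ∈ R') : R = R' :=
  (P.partition.2 x).unique ⟨Or.inr hR, hx⟩ ⟨Or.inr hR', hx'⟩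

theorem border_eq {B B' : Set ℂ} (hB : B ∈ P.borders) (hB' : B' ∈ P.borders) {x : ℂ} (hx : x ∈ B)
    (hx' : x ∈ B') : B = B' :=
  (P.partition.2 x).unique ⟨Or.inl (Or.inr hB), hx⟩ ⟨Or.inl (Or.inr hB'), hx'⟩

theorem border_region {B R : Set ℂ} (hB : B ∈ P.borders) (hR : R ∈ P.regions) {x : ℂ} (hx : x ∈ B)
    (hx' : x ∈ R) : B = R :=
  (P.partition.2 x).unique ⟨Or.inl (Or.inr hB), hx⟩ ⟨Or.inr hR, hx'⟩

theorem vertex_notMem_border {v : ℂ} (hv : v ∈ P.vertices) {B : Set ℂ} (hB : B ∈ P.borders) :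
    v ∉ B := by
  intro hvB
  have h1 : ({v} : Set ℂ) = B := (P.partition.2 v).unique
    ⟨Or.inl (Or.inl ⟨v, hv, rfl⟩), mem_singleton v⟩ ⟨Or.inl (Or.inr hB), hvB⟩
  obtain ⟨p, _, q, _, hpq, rfl⟩ := P.border_segment B hB
  exact openSegment_ne_singleton hpq v h1

theorem region_isOpen {R : Set ℂ} (hR : R ∈ P.regions) : IsOpen R := by
  obtain ⟨n, Q, _, _, _, h, _⟩ := P.region_polygon R hR
  exact h

theorem region_nonempty {R : Set ℂ} (hR : R ∈ P.regions) : R.Nonempty := by
  obtain ⟨n, Q, _, _, _, _, h, _⟩ := P.region_polygon R hR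
  exact h

theorem region_preconn {R : Set ℂ} (hR : R ∈ P.regions) : IsPreconnected R := by
  obtain ⟨n, Q, _, _, _, _, _, h, _⟩ := P.region_polygon R hR
  exact h

theorem region_regular {R : Set ℂ} (hR : R ∈ P.regions) : interior (closure R) = R := by
  obtain ⟨n, Q, _, _, _, _, _, _, _, h, _⟩ := P.region_polygon R hR
  exact h

theorem region_frontier_preconn {R : Set ℂ} (hR : R ∈ P.regions) :
    IsPreconnected (frontier R) := by
  obtain ⟨n, Q, hn, _, _, _, _, _, _, _, h⟩ := P.region_polygon R hR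
  rw [h]
  have : NeZero n := ⟨by omega⟩
  refine IsPreconnected.iUnion_of_reflTransGen
    (fun k => (convex_segment _ _).isPreconnected) fun i j => ?_
  have key : ∀ m : ℕ, Relation.ReflTransGen (fun i j : ZMod n =>
      (segment ℝ (Q i) (Q (i + 1)) ∩ segment ℝ (Q j) (Q (j + 1))).Nonempty) i (i + m) := by
    intro m
    induction m with
    | zero => rw [Nat.cast_zero, add_zero]
    | succ m ih =>
      refine ih.tail ⟨Q (i + m + 1), right_mem_segment ℝ _ _, ?_⟩
      rw [Nat.cast_succ, ← add_assoc]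
      exact left_mem_segment ℝ _ _
  have h1 := key (j - i).val
  rwa [ZMod.natCast_zmod_val, add_sub_cancel] at h1

/-- Near `p` there are only regions and borders that end at `p` or pass through `p`. -/
theorem near (p : ℂ) : ∃ r > 0, ∀ z, z ≠ p → dist z p < r →
    (∃ B ∈ P.borders, p ∈ closure B ∧ z ∈ B) ∨ ∃ R ∈ P.regions, z ∈ R := by
  obtain ⟨h1, h2, _⟩ := P.locally_finite p 1
  have hC : IsClosed (((P.vertices ∩ closedBall p 1) \ {p}) ∪
      ⋃ B ∈ {B ∈ P.borders | (B ∩ closedBall p 1).Nonempty} \ {B | p ∈ closure B}, closure B) := by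
    refine (h1.subset sdiff_subset).isClosed.union ?_
    exact (h2.subset sdiff_subset).isClosed_biUnion fun B _ => isClosed_closure
  have hp : p ∉ ((P.vertices ∩ closedBall p 1) \ {p}) ∪
      ⋃ B ∈ {B ∈ P.borders | (B ∩ closedBall p 1).Nonempty} \ {B | p ∈ closure B}, closure B := by
    rintro (h | h)
    · exact h.2 rfl
    · simp only [mem_iUnion] at h
      obtain ⟨B, hB, hpB⟩ := h
      exact hB.2 hpB
  obtain ⟨ε, hε, hball⟩ := Metric.isOpen_iff.1 hC.isOpen_compl p hp
  refine ⟨min ε 1, lt_min hε one_pos, fun z hz hzr => ?_⟩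
  have hz1 : z ∈ closedBall p 1 := mem_closedBall.2 (hzr.le.trans (min_le_right _ _))
  have hz2 := hball (mem_ball.2 (hzr.trans_le (min_le_left _ _)))
  rcases cover P z with h | ⟨B, hB, hzB⟩ | h
  · exact absurd (Or.inl ⟨⟨h, hz1⟩, hz⟩) hz2
  · left
    refine ⟨B, hB, ?_, hzB⟩
    by_contra hpB
    refine hz2 (Or.inr ?_)
    simp only [mem_iUnion]
    exact ⟨B, ⟨⟨hB, ⟨z, hzB, hz1⟩⟩, hpB⟩, subset_closure hzB⟩
  · exact Or.inr h

theorem closure_border {p q x : ℂ} (h : x ∈ closure (openSegment ℝ p q)) :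
    x = p ∨ x = q ∨ x ∈ openSegment ℝ p q := by
  rw [closure_openSegment, ← insert_endpoints_openSegment] at h
  exact h

theorem star (hdeg : ∀ v ∈ P.vertices, P.degree v ≤ 3) (p : ℂ) :
    ∃ r > 0, ∃ U : Finset ℂ, U.card ≤ 3 ∧ (∀ u ∈ U, ‖u‖ = 1) ∧
    ∀ z, z ≠ p → dist z p < r → (∀ u ∈ U, z ≠ p + (dist z p : ℝ) * u) →
      ∃ i : P.regions, z ∈ (i : Set ℂ) := by
  classical
  obtain ⟨r, hr, hnear⟩ := near P p
  rcases cover P p with hp | ⟨B₀, hB₀, hpB₀⟩ | ⟨R, hR, hpR⟩
  · -- a vertex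
    have hfin : {B ∈ P.borders | ∃ q, q ≠ p ∧ B = openSegment ℝ p q}.Finite := by
      refine Set.finite_of_encard_le_coe (k := 3) ?_
      exact hdeg p hp
    have hcard : hfin.toFinset.card ≤ 3 := by
      have h1 := hdeg p hp
      unfold PolygonColoring.degree at h1
      rw [hfin.encard_eq_coe_toFinset_card] at h1
      exact_mod_cast h1
    choose! q hq using fun (B : Set ℂ) (hB : B ∈ {B ∈ P.borders | ∃ q, q ≠ p ∧ B = openSegment ℝ p q}) => hB.2
    refine ⟨r, hr, hfin.toFinset.image fun B => dir p (q B),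
      Finset.card_image_le.trans hcard, ?_, ?_⟩
    · intro u hu
      rw [Finset.mem_image] at hu
      obtain ⟨B, hB, rfl⟩ := hu
      rw [Set.Finite.mem_toFinset] at hB
      exact norm_dir (hq B hB).1
    · intro z hz hzr hU
      rcases hnear z hz hzr with ⟨B, hB, hpB, hzB⟩ | ⟨R, hR, hzR⟩
      · exfalso
        have hBF : B ∈ {B ∈ P.borders | ∃ q, q ≠ p ∧ B = openSegment ℝ p q} := by
          refine ⟨hB, ?_⟩
          obtain ⟨a, _, b, _, hab, rfl⟩ := P.border_segment B hB
          rcases closure_border hpB with h | h | h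
          · exact ⟨b, by rw [h]; exact hab.symm, by rw [h]⟩
          · exact ⟨a, by rw [h]; exact hab, by rw [h, openSegment_symm]⟩
          · exact absurd h (vertex_notMem_border P hp hB)
        have h1 := hq B hBF
        rw [h1.2] at hzB
        obtain ⟨t, ht, _, hzt⟩ := mem_openSegment_param hzB
        refine hU (dir p (q B)) (Finset.mem_image.2 ⟨B, (Set.Finite.mem_toFinset _).2 hBF, rfl⟩) ?_
        exact eq_add_dir h1.1 ht hzt
      · exact ⟨⟨R, hR⟩, hzR⟩
  · -- a border point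
    obtain ⟨a, ha, b, hb, hab, hB₀eq⟩ := P.border_segment B₀ hB₀
    refine ⟨r, hr, {dir a b, -dir a b}, (Finset.card_insert_le _ _).trans (by simp), ?_, ?_⟩
    · intro u hu
      rw [Finset.mem_insert, Finset.mem_singleton] at hu
      rcases hu with rfl | rfl
      · exact norm_dir hab.symm
      · rw [norm_neg]; exact norm_dir hab.symm
    · intro z hz hzr hU
      rcases hnear z hz hzr with ⟨B, hB, hpB, hzB⟩ | ⟨R, hR, hzR⟩
      · exfalso
        have hBB : B = B₀ := by
          obtain ⟨a', ha', b', hb', _, hBeq⟩ := P.border_segment B hB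
          rw [hBeq] at hpB
          rcases closure_border hpB with h | h | h
          · rw [h] at hpB₀
            exact absurd hpB₀ (vertex_notMem_border P ha' hB₀)
          · rw [h] at hpB₀
            exact absurd hpB₀ (vertex_notMem_border P hb' hB₀)
          · rw [← hBeq] at h
            exact border_eq P hB hB₀ h hpB₀
        rw [hBB, hB₀eq] at hzB
        rw [hB₀eq] at hpB₀
        obtain ⟨t, _, _, hzt⟩ := mem_openSegment_param hzB
        obtain ⟨s, _, _, hps⟩ := mem_openSegment_param hpB₀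
        have hab' : ((‖b - a‖ : ℝ) : ℂ) ≠ 0 := by
          rw [Ne, ofReal_eq_zero]
          exact norm_ne_zero_iff.2 (sub_ne_zero.2 hab.symm)
        have h1 : z - p = ((t - s : ℝ) : ℂ) * (b - a) := by
          rw [hzt, hps]; push_cast; ring
        have h2 : dist z p = |t - s| * ‖b - a‖ := by
          rw [dist_eq_norm, h1, norm_mul, Complex.norm_real, Real.norm_eq_abs]
        rcases lt_trichotomy t s with h | h | h
        · refine hU (-dir a b) (by simp) ?_
          rw [h2, abs_of_neg (sub_neg.2 h)]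
          have h3 : z = p + (z - p) := by ring
          rw [h1] at h3
          conv_lhs => rw [h3]
          unfold dir
          push_cast
          field_simp
        · apply hz
          rw [hzt, hps, h]
        · refine hU (dir a b) (by simp) ?_
          rw [h2, abs_of_pos (sub_pos.2 h)]
          have h3 : z = p + (z - p) := by ring
          rw [h1] at h3
          conv_lhs => rw [h3]
          unfold dir
          push_cast
          field_simp
      · exact ⟨⟨R, hR⟩, hzR⟩
  · -- a point of a region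
    obtain ⟨ε, hε, hball⟩ := Metric.isOpen_iff.1 (region_isOpen P hR) p hpR
    refine ⟨ε, hε, ∅, by simp, by simp, fun z _ hz _ => ⟨⟨R, hR⟩, hball (mem_ball.2 hz)⟩⟩

theorem dense (hdeg : ∀ v ∈ P.vertices, P.degree v ≤ 3) (p : ℂ) :
    p ∈ closure (⋃ i : P.regions, (i : Set ℂ)) := by
  obtain ⟨r, hr, U, _, _, hU⟩ := star P hdeg p
  -- a direction not in `U`
  obtain ⟨u, hu, huU⟩ : ∃ u : ℂ, ‖u‖ = 1 ∧ u ∉ U := by
    by_contra hcon
    push Not at hcon
    have h1 : (sphere (0 : ℂ) 1).Finite :=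
      U.finite_toSet.subset fun u hu => hcon u (by rwa [mem_sphere_zero_iff_norm] at hu)
    have h2 : (sphere (0 : ℂ) 1).Infinite := by
      have h3 : (range fun t : ℝ => (Complex.exp (t * Complex.I) : ℂ)).Infinite := by
        intro hf
        have h4 : (Ioo (-Real.pi) Real.pi).Finite := by
          refine Set.Finite.of_finite_image (f := fun t : ℝ => Complex.exp (t * Complex.I))
            (hf.subset (image_subset_range _ _)) ?_
          intro s hs t ht hst
          have h5 := congrArg Complex.arg hst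
          simp only at h5
          rwa [Complex.arg_exp_mul_I, Complex.arg_exp_mul_I,
            (toIocMod_eq_self Real.two_pi_pos).2 ⟨hs.1, by linarith [hs.2]⟩,
            (toIocMod_eq_self Real.two_pi_pos).2 ⟨ht.1, by linarith [ht.2]⟩] at h5
        exact (Ioo_infinite (by linarith [Real.pi_pos])) h4
      refine h3.mono ?_
      rintro _ ⟨t, rfl⟩
      rw [mem_sphere_zero_iff_norm]
      exact Complex.norm_exp_ofReal_mul_I t
    exact h2 h1
  rw [Metric.mem_closure_iff]
  intro ε hε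
  have hs : 0 < min ε r / 2 := by positivity
  have hd : dist (p + ((min ε r / 2 : ℝ) : ℂ) * u) p = min ε r / 2 := by
    rw [dist_eq_norm, add_sub_cancel_left, norm_mul, hu, mul_one, Complex.norm_real,
      Real.norm_eq_abs, abs_of_pos hs]
  obtain ⟨i, hi⟩ := hU (p + ((min ε r / 2 : ℝ) : ℂ) * u) (by
      intro h
      rw [h, dist_self] at hd
      linarith) (by rw [hd]; linarith [min_le_right ε r]) (by
      intro u' hu' h
      rw [hd, add_right_inj] at h
      have h0 : ((min ε r / 2 : ℝ) : ℂ) ≠ 0 := ofReal_ne_zero.2 hs.ne'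
      have h1 := mul_left_cancel₀ h0 h
      rw [h1] at huU
      exact huU hu')
  refine ⟨_, mem_iUnion.2 ⟨i, hi⟩, ?_⟩
  rw [dist_comm, hd]
  linarith [min_le_left ε r]

theorem locFin : LocallyFinite fun i : P.regions => (i : Set ℂ) := by
  intro x
  obtain ⟨_, _, h⟩ := P.locally_finite x 1
  refine ⟨closedBall x 1, closedBall_mem_nhds x one_pos, ?_⟩
  refine Set.Finite.of_finite_image (f := fun i : P.regions => (i : Set ℂ)) (h.subset ?_)
    (Subtype.val_injective.injOn)
  rintro _ ⟨i, hi, rfl⟩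
  exact ⟨i.2, hi⟩

theorem frontOther (hdeg : ∀ v ∈ P.vertices, P.degree v ≤ 3) (i : P.regions) {x : ℂ}
    (hx : x ∈ frontier (i : Set ℂ)) : ∃ j : P.regions, j ≠ i ∧ x ∈ closure (j : Set ℂ) := by
  have hnot : x ∉ interior (closure (i : Set ℂ)) := by
    rw [region_regular P i.2]
    intro h
    have h2 : x ∈ (i : Set ℂ) ∩ frontier (i : Set ℂ) := ⟨h, hx⟩
    rw [(region_isOpen P i.2).inter_frontier_eq] at h2
    exact h2
  have h1 : x ∈ closure ((closure (i : Set ℂ))ᶜ) := by
    rw [closure_compl]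
    exact hnot
  have h2 : x ∈ closure (⋃ j : {j : P.regions // j ≠ i}, ((j : P.regions) : Set ℂ)) := by
    rw [_root_.mem_closure_iff] at h1 ⊢
    intro O hO hxO
    obtain ⟨y, hyO, hyi⟩ := h1 O hO hxO
    have h3 := dense P hdeg y
    rw [_root_.mem_closure_iff] at h3
    obtain ⟨z, ⟨hzO, hzi⟩, hz⟩ := h3 (O ∩ (closure (i : Set ℂ))ᶜ)
      (hO.inter isClosed_closure.isOpen_compl) ⟨hyO, hyi⟩
    obtain ⟨j, hj⟩ := mem_iUnion.1 hz
    refine ⟨z, hzO, mem_iUnion.2 ⟨⟨j, ?_⟩, hj⟩⟩
    rintro rfl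
    exact hzi (subset_closure hj)
  have h3 : LocallyFinite fun j : {j : P.regions // j ≠ i} => ((j : P.regions) : Set ℂ) :=
    (locFin P).comp_injective Subtype.val_injective
  rw [h3.closure_iUnion] at h2
  obtain ⟨j, hj⟩ := mem_iUnion.1 h2
  exact ⟨j, j.2, hj⟩

theorem circ (v : ℂ) : {x | dist x v = 1 ∧ ∀ i : P.regions, x ∉ (i : Set ℂ)}.Finite := by
  obtain ⟨h1, h2, _⟩ := P.locally_finite v 1
  have h3 : (⋃ B ∈ {B ∈ P.borders | (B ∩ closedBall v 1).Nonempty},
      {x | x ∈ B ∧ dist x v = 1}).Finite := by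
    refine h2.biUnion fun B hB => ?_
    obtain ⟨a, _, b, _, hab, hBeq⟩ := P.border_segment B hB.1
    refine (finite_line_circle v a (b - a) (sub_ne_zero.2 hab.symm)).subset ?_
    rintro x ⟨hxB, hx⟩
    rw [hBeq] at hxB
    obtain ⟨t, _, _, ht⟩ := mem_openSegment_param hxB
    exact ⟨⟨t, ht⟩, hx⟩
  refine (h1.union h3).subset ?_
  rintro x ⟨hx, hxi⟩
  have hxb : x ∈ closedBall v 1 := mem_closedBall.2 hx.le
  rcases cover P x with h | ⟨B, hB, hxB⟩ | ⟨R, hR, hxR⟩
  · exact Or.inl ⟨h, hxb⟩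
  · right
    simp only [mem_iUnion]
    exact ⟨B, ⟨hB, ⟨x, hxB, hxb⟩⟩, hxB, hx⟩
  · exact absurd hxR (hxi ⟨R, hR⟩)

/-- The side of a line. -/
theorem side_im {x w z : ℂ} (hw : w ≠ 0) {s : ℝ} (hs : 0 < s)
    (hz : ((z - x) * (starRingEnd ℂ) w).im = 0) :
    0 < ((z + s * Complex.I * w - x) * (starRingEnd ℂ) w).im := by
  have h1 : ((z + s * Complex.I * w - x) * (starRingEnd ℂ) w).im =
      ((z - x) * (starRingEnd ℂ) w).im + s * normSq w := by
    simp only [normSq_apply, add_re, add_im, sub_re, sub_im, mul_re, mul_im, ofReal_re, ofReal_im,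
      conj_re, conj_im, I_re, I_im]
    ring
  rw [h1, hz, zero_add]
  exact mul_pos hs (normSq_pos.2 hw)

/-- If a region meets the half disc on one side of a border, then the border near `x` is in the
closure of the region. -/
theorem half {x w : ℂ} {r : ℝ} {B R : Set ℂ} (hw : w ≠ 0) (hR : R ∈ P.regions)
    (hB : ∀ z ∈ B, ((z - x) * (starRingEnd ℂ) w).im = 0)
    (hreg : ∀ z, dist z x < r → z ∉ B → ∃ R ∈ P.regions, z ∈ R)
    {z : ℂ} (hzR : z ∈ R) (hzr : dist z x < r) (hz : 0 < ((z - x) * (starRingEnd ℂ) w).im)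
    {y : ℂ} (hyB : y ∈ B) (hyr : dist y x < r) : y ∈ closure R := by
  let Hf : Set ℂ := ball x r ∩ {z | 0 < ((z - x) * (starRingEnd ℂ) w).im}
  have hconv : Convex ℝ {z : ℂ | 0 < ((z - x) * (starRingEnd ℂ) w).im} := by
    have h1 : {z : ℂ | 0 < ((z - x) * (starRingEnd ℂ) w).im} =
        {z : ℂ | (x * (starRingEnd ℂ) w).im < (Complex.imLm ∘ₗ
          (LinearMap.mulRight ℝ ((starRingEnd ℂ) w))) z} := by
      ext z
      simp only [mem_ofPred_eq, LinearMap.comp_apply, LinearMap.mulRight_apply, imLm_coe, sub_mul,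
        sub_im, sub_pos]
    rw [h1]
    exact convex_halfSpace_gt (LinearMap.isLinear _) _
  have hHf : IsPreconnected Hf := ((convex_ball x r).inter hconv).isPreconnected
  -- the half disc is contained in `R`
  have hsub : Hf ⊆ R := by
    have hO : IsOpen (⋃ R' ∈ P.regions \ {R}, R') :=
      isOpen_biUnion fun R' hR' => region_isOpen P hR'.1
    refine IsPreconnected.subset_left_of_subset_union (region_isOpen P hR) hO ?_ ?_ ?_ hHf
    · rw [disjoint_left]
      intro y hy hy'
      simp only [mem_iUnion] at hy'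
      obtain ⟨R', hR', hyR'⟩ := hy'
      exact hR'.2 (region_eq P hR'.1 hR hyR' hy)
    · intro y hy
      have hyB : y ∉ B := by
        intro h
        have h1 := hy.2
        rw [mem_ofPred_eq, hB y h] at h1
        exact lt_irrefl _ h1
      obtain ⟨R', hR', hyR'⟩ := hreg y hy.1 hyB
      by_cases h : R' = R
      · left; rw [← h]; exact hyR'
      · right
        simp only [mem_iUnion]
        exact ⟨R', ⟨hR', h⟩, hyR'⟩
    · exact ⟨z, ⟨hzr, hz⟩, hzR⟩
  refine closure_mono hsub ?_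
  rw [mem_closure_iff_seq_limit]
  -- points `y + s i w`
  have hlim : Tendsto (fun n : ℕ => y + (((1 : ℝ) / (n + 1) : ℝ) : ℂ) * Complex.I * w) atTop (𝓝 y) := by
    have h1 : Tendsto (fun n : ℕ => ((1 : ℝ) / (n + 1) : ℝ)) atTop (𝓝 0) :=
      tendsto_one_div_add_atTop_nhds_zero_nat
    have h2 : Tendsto (fun s : ℝ => y + (s : ℂ) * Complex.I * w) (𝓝 0) (𝓝 (y + ((0 : ℝ) : ℂ) * Complex.I * w)) := by
      refine Continuous.tendsto ?_ 0
      fun_prop
    have h3 := h2.comp h1
    rw [ofReal_zero, zero_mul, zero_mul, add_zero] at h3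
    exact h3
  have hev : ∀ᶠ n : ℕ in atTop, y + (((1 : ℝ) / (n + 1) : ℝ) : ℂ) * Complex.I * w ∈ ball x r :=
    hlim.eventually (isOpen_ball.mem_nhds hyr)
  obtain ⟨n₀, hn₀⟩ := eventually_atTop.1 hev
  refine ⟨fun n => y + (((1 : ℝ) / ((n + n₀ : ℕ) + 1) : ℝ) : ℂ) * Complex.I * w, fun n => ⟨?_, ?_⟩, ?_⟩
  · exact hn₀ (n + n₀) (by omega)
  · exact side_im hw (by positivity) (hB y hyB)
  · exact hlim.comp (tendsto_add_atTop_nat n₀)

/-- A border with a point in the frontier of a region is contained in the frontier. -/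
theorem border_sub {B R : Set ℂ} (hB : B ∈ P.borders) (hR : R ∈ P.regions) {x₀ : ℂ} (hx₀ : x₀ ∈ B)
    (hx₀R : x₀ ∈ frontier R) : B ⊆ frontier R := by
  obtain ⟨a, ha, b, hb, hab, hBeq⟩ := P.border_segment B hB
  have hBpre : IsPreconnected B := by
    rw [hBeq]; exact (convex_openSegment a b).isPreconnected
  -- no point of `B` is in `R`
  have hBR : ∀ y ∈ B, y ∉ R := by
    intro y hy hyR
    have h1 := border_region P hB hR hy hyR
    rw [h1] at hx₀
    have h2 : x₀ ∈ R ∩ frontier R := ⟨hx₀, hx₀R⟩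
    rw [(region_isOpen P hR).inter_frontier_eq] at h2
    exact h2
  have hloc : ∀ x ∈ B, x ∈ frontier R → ∃ r > 0, B ∩ ball x r ⊆ frontier R := by
    intro x hxB hxR
    obtain ⟨r, hr, hnear⟩ := near P x
    have hline : ∀ z ∈ B, ((z - x) * (starRingEnd ℂ) (b - a)).im = 0 := by
      intro z hz
      rw [hBeq] at hz hxB
      obtain ⟨t, _, _, hzt⟩ := mem_openSegment_param hz
      obtain ⟨s, _, _, hxs⟩ := mem_openSegment_param hxB
      rw [hzt, hxs]
      have h1 : (a + t * (b - a) - (a + s * (b - a))) * (starRingEnd ℂ) (b - a) =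
          (((t - s) * normSq (b - a) : ℝ) : ℂ) := by
        rw [ofReal_mul, normSq_eq_conj_mul_self]
        push_cast
        ring
      rw [h1, ofReal_im]
    have hreg : ∀ z, dist z x < r → z ∉ B → ∃ R ∈ P.regions, z ∈ R := by
      intro z hzr hzB
      rcases eq_or_ne z x with rfl | hzx
      · exact absurd hxB hzB
      rcases hnear z hzx hzr with ⟨B', hB', hxB', hzB'⟩ | h
      · exfalso
        obtain ⟨a', ha', b', hb', _, hBeq'⟩ := P.border_segment B' hB'
        rw [hBeq'] at hxB'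
        rcases closure_border hxB' with h | h | h
        · rw [h] at hxB
          exact vertex_notMem_border P ha' hB hxB
        · rw [h] at hxB
          exact vertex_notMem_border P hb' hB hxB
        · rw [← hBeq'] at h
          rw [border_eq P hB' hB h hxB] at hzB'
          exact hzB hzB'
      · exact h
    have hwne : b - a ≠ 0 := sub_ne_zero.2 hab.symm
    -- a point of `R` near `x` off the line
    obtain ⟨z₁, hz₁R, hz₁r⟩ : ∃ z ∈ R, dist z x < r := by
      have h1 := Metric.mem_closure_iff.1 (frontier_subset_closure hxR) r hr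
      obtain ⟨z, hz, hzr⟩ := h1
      exact ⟨z, hz, by rwa [dist_comm]⟩
    obtain ⟨z, hzR, hzr, hzne⟩ : ∃ z ∈ R, dist z x < r ∧
        ((z - x) * (starRingEnd ℂ) (b - a)).im ≠ 0 := by
      by_cases h0 : ((z₁ - x) * (starRingEnd ℂ) (b - a)).im = 0
      · have hopen : IsOpen (R ∩ ball x r) := (region_isOpen P hR).inter isOpen_ball
        obtain ⟨ε, hε, hball⟩ := Metric.isOpen_iff.1 hopen z₁ ⟨hz₁R, hz₁r⟩
        have hpos : 0 < ε / 2 / ‖b - a‖ := by
          have := norm_pos_iff.2 hwne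
          positivity
        have h1 : z₁ + ((ε / 2 / ‖b - a‖ : ℝ) : ℂ) * Complex.I * (b - a) ∈ R ∩ ball x r := by
          refine hball ?_
          rw [mem_ball, dist_eq_norm, add_sub_cancel_left, norm_mul, norm_mul, Complex.norm_real,
            Complex.norm_I, mul_one, Real.norm_eq_abs, abs_of_pos hpos,
            div_mul_cancel₀ _ (norm_pos_iff.2 hwne).ne']
          linarith
        exact ⟨_, h1.1, h1.2, (side_im hwne hpos h0).ne'⟩
      · exact ⟨z₁, hz₁R, hz₁r, h0⟩
    refine ⟨r, hr, ?_⟩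
    rintro y ⟨hyB, hyr⟩
    have hycl : y ∈ closure R := by
      rcases lt_or_gt_of_ne hzne with h | h
      · refine half P (w := -(b - a)) (neg_ne_zero.2 hwne) hR ?_ hreg hzR hzr ?_ hyB hyr
        · intro z hz
          rw [map_neg, mul_neg, neg_im, hline z hz, neg_zero]
        · rw [map_neg, mul_neg, neg_im]
          exact neg_pos.2 h
      · exact half P hwne hR hline hreg hzR hzr h hyB hyr
    rw [(region_isOpen P hR).frontier_eq]
    exact ⟨hycl, hBR y hyB⟩
  -- connectedness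
  by_contra hnot
  rw [not_subset] at hnot
  obtain ⟨y, hyB, hyR⟩ := hnot
  choose! ρ hρ0 hρ using hloc
  have hO₁ : IsOpen (⋃ x ∈ B ∩ frontier R, ball x (ρ x)) := isOpen_biUnion fun _ _ => isOpen_ball
  have hO₂ : IsOpen (frontier R)ᶜ := isClosed_frontier.isOpen_compl
  obtain ⟨z, hzB, hz1, hz2⟩ := hBpre _ _ hO₁ hO₂ (by
    intro z hz
    by_cases h : z ∈ frontier R
    · left
      simp only [mem_iUnion]
      exact ⟨z, ⟨hz, h⟩, mem_ball_self (hρ0 z hz h)⟩
    · exact Or.inr h) ⟨x₀, hx₀, by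
      simp only [mem_iUnion]
      exact ⟨x₀, ⟨hx₀, hx₀R⟩, mem_ball_self (hρ0 x₀ hx₀ hx₀R)⟩⟩ ⟨y, hyB, hyR⟩
  simp only [mem_iUnion] at hz1
  obtain ⟨x, ⟨hxB, hxR⟩, hzx⟩ := hz1
  exact hz2 (hρ x hxB hxR ⟨hzB, hzx⟩)

theorem frontier_of_common {R R' : Set ℂ} (hR : R ∈ P.regions) (hR' : R' ∈ P.regions) (hne : R ≠ R')
    {x : ℂ} (hx : x ∈ closure R) (hx' : x ∈ closure R') : x ∈ frontier R := by
  rw [(region_isOpen P hR).frontier_eq]
  refine ⟨hx, fun hxR => ?_⟩
  obtain ⟨y, hyR, hyR'⟩ := _root_.mem_closure_iff.1 hx' R (region_isOpen P hR) hxR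
  exact hne (region_eq P hR hR' hyR hyR')

end L1

/-- L1. A polygon coloring with at most six colors and all degrees at most three gives a tile system. -/
theorem PolygonColoring.toTileSystem {k : ℕ} (hk : k ≤ 6) (P : PolygonColoring k)
    (hdeg : ∀ v ∈ P.vertices, P.degree v ≤ 3) : Nonempty TileSystem := by
  classical
  have hne : ∀ i : P.regions, (i : Set ℂ).Nonempty := fun i => L1.region_nonempty P i.2
  let pt : P.regions → ℂ := fun i => (hne i).some
  have hpt : ∀ i : P.regions, pt i ∈ (i : Set ℂ) := fun i => (hne i).some_mem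
  have hcol : ∀ (i : P.regions), ∀ x ∈ (i : Set ℂ), P.color x = P.color (pt i) := fun i x hx =>
    P.color_region i i.2 x hx (pt i) (hpt i)
  exact ⟨{
    ι := P.regions
    T := fun i => (i : Set ℂ)
    c := fun i => Fin.castLE hk (P.color (pt i))
    isOpen := fun i => L1.region_isOpen P i.2
    nonempty := hne
    preconn := fun i => L1.region_preconn P i.2
    disj := fun i j x hi hj => Subtype.ext (L1.region_eq P i.2 j.2 hi hj)
    unit := fun i j hij x hx y hy hd => by
      have h1 := (Fin.castLE_injective hk) hij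
      refine P.color_ne x y hd ?_
      rw [hcol i x hx, hcol j y hy, h1]
    star := L1.star P hdeg
    circ := L1.circ P
    adj := fun i j x hi hj hij hc => by
      have h1 := (Fin.castLE_injective hk) hc
      have hne' : (i : Set ℂ) ≠ (j : Set ℂ) := fun h => hij (Subtype.ext h)
      have hfi := L1.frontier_of_common P i.2 j.2 hne' hi hj
      have hfj := L1.frontier_of_common P j.2 i.2 hne'.symm hj hi
      refine P.color_adjacent i i.2 j j.2 hne' ?_ (pt i) (hpt i) (pt j) (hpt j) h1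
      rcases P.region_frontier i i.2 hfi with h | h
      · exact Or.inl ⟨x, h, hfi, hfj⟩
      · obtain ⟨B, hB, hxB⟩ := h
        exact Or.inr ⟨B, hB, L1.border_sub P hB i.2 hxB hfi, L1.border_sub P hB j.2 hxB hfj⟩ }⟩

end Pool.Agent.H923_Poly
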