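import Pool.Agent.H923_Poly.Poly

/-! L2, the brick coloring with seven colors. -/

open Complex Filter Topology Set Metric

namespace Pool.Agent.H923_Poly

namespace L2

/-- scaled first coordinate -/
noncomputable def sx (z : ℂ) : ℝ := z.re * (15 / 4)

/-- scaled second coordinate -/
noncomputable def sy (z : ℂ) : ℝ := z.im * (20 / 11)

/-- the point with integral scaled coordinates `x, y` -/
noncomputable def pt (x y : ℤ) : ℂ := ⟨(4 / 15) * x, (11 / 20) * y⟩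

theorem sx_pt (x y : ℤ) : sx (pt x y) = x := by
  unfold sx pt
  ring

theorem sy_pt (x y : ℤ) : sy (pt x y) = y := by
  unfold sy pt
  ring

theorem eq_of_floor_ceil {r : ℝ} {m : ℤ} (h1 : ⌊r⌋ = m) (h2 : ⌈r⌉ = m) : r = m := by
  apply le_antisymm
  · rw [← h2]
    exact Int.le_ceil r
  · rw [← h1]
    exact Int.floor_le r

theorem fc (r : ℝ) : ⌊r⌋ ≤ ⌈r⌉ ∧ ⌈r⌉ ≤ ⌊r⌋ + 1 := ⟨Int.floor_le_ceil r, Int.ceil_le_floor_add_one r⟩

theorem eq_pt_iff {z : ℂ} {x y : ℤ} :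
    z = pt x y ↔ ⌊sx z⌋ = x ∧ ⌈sx z⌉ = x ∧ ⌊sy z⌋ = y ∧ ⌈sy z⌉ = y := by
  constructor
  · rintro rfl
    rw [sx_pt, sy_pt]
    simp
  · rintro ⟨h1, h2, h3, h4⟩
    have h5 := eq_of_floor_ceil h1 h2
    have h6 := eq_of_floor_ceil h3 h4
    apply Complex.ext
    · unfold sx at h5
      show z.re = (4 / 15) * x
      linarith
    · unfold sy at h6
      show z.im = (11 / 20) * y
      linarith

theorem pt_inj {x y x' y' : ℤ} (h : pt x y = pt x' y') : x = x' ∧ y = y' := by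
  have h1 := eq_pt_iff.1 h
  rw [sx_pt, sy_pt] at h1
  simp at h1
  exact ⟨h1.1, h1.2⟩

theorem mem_hseg {x0 x1 y : ℤ} (h : x0 < x1) (z : ℂ) : z ∈ openSegment ℝ (pt x0 y) (pt x1 y) ↔
    x0 < ⌈sx z⌉ ∧ ⌊sx z⌋ < x1 ∧ ⌊sy z⌋ = y ∧ ⌈sy z⌉ = y := by
  have h' : (x0 : ℝ) < x1 := by exact_mod_cast h
  rw [Int.lt_ceil, Int.floor_lt]
  constructor
  · rintro ⟨a, b, ha, hb, hab, rfl⟩
    have e1 : sx (a • pt x0 y + b • pt x1 y) = a * x0 + b * x1 := by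
      simp [sx, pt]
      ring
    have e2 : sy (a • pt x0 y + b • pt x1 y) = y := by
      simp [sy, pt]
      linear_combination (y : ℝ) * hab
    rw [e1, e2]
    obtain rfl : a = 1 - b := by linarith
    refine ⟨by nlinarith, by nlinarith, by simp, by simp⟩
  · rintro ⟨h1, h2, h3, h4⟩
    have h5 := eq_of_floor_ceil h3 h4
    refine ⟨(x1 - sx z) / (x1 - x0), (sx z - x0) / (x1 - x0), div_pos (by linarith) (by linarith),
      div_pos (by linarith) (by linarith), ?_, ?_⟩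
    · rw [← add_div]
      rw [div_eq_one_iff_eq (by linarith)]
      ring
    · have hne : (x1 : ℝ) - x0 ≠ 0 := by linarith
      unfold sy at h5
      unfold sx
      apply Complex.ext
      · simp only [pt, Complex.add_re, Complex.smul_re, smul_eq_mul]
        field_simp
        ring
      · simp only [pt, Complex.add_im, Complex.smul_im, smul_eq_mul, ← h5]
        field_simp
        ring

theorem mem_vseg {x y0 y1 : ℤ} (h : y0 < y1) (z : ℂ) : z ∈ openSegment ℝ (pt x y0) (pt x y1) ↔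
    y0 < ⌈sy z⌉ ∧ ⌊sy z⌋ < y1 ∧ ⌊sx z⌋ = x ∧ ⌈sx z⌉ = x := by
  have h' : (y0 : ℝ) < y1 := by exact_mod_cast h
  rw [Int.lt_ceil, Int.floor_lt]
  constructor
  · rintro ⟨a, b, ha, hb, hab, rfl⟩
    have e1 : sy (a • pt x y0 + b • pt x y1) = a * y0 + b * y1 := by
      simp [sy, pt]
      ring
    have e2 : sx (a • pt x y0 + b • pt x y1) = x := by
      simp [sx, pt]
      linear_combination (x : ℝ) * hab
    rw [e1, e2]
    obtain rfl : a = 1 - b := by linarith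
    refine ⟨by nlinarith, by nlinarith, by simp, by simp⟩
  · rintro ⟨h1, h2, h3, h4⟩
    have h5 := eq_of_floor_ceil h3 h4
    refine ⟨(y1 - sy z) / (y1 - y0), (sy z - y0) / (y1 - y0), div_pos (by linarith) (by linarith),
      div_pos (by linarith) (by linarith), ?_, ?_⟩
    · rw [← add_div]
      rw [div_eq_one_iff_eq (by linarith)]
      ring
    · have hne : (y1 : ℝ) - y0 ≠ 0 := by linarith
      unfold sx at h5
      unfold sy
      apply Complex.ext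
      · simp only [pt, Complex.add_re, Complex.smul_re, smul_eq_mul, ← h5]
        field_simp
        ring
      · simp only [pt, Complex.add_im, Complex.smul_im, smul_eq_mul]
        field_simp
        ring

/-- vertices -/
def Vt : Set ℂ := {v | ∃ x y : ℤ, (x - y) % 3 ≠ 1 ∧ v = pt x y}

/-- short horizontal borders -/
noncomputable def H0 (p : ℤ × ℤ) : Set ℂ := openSegment ℝ (pt (3 * p.1 + p.2 - 1) p.2) (pt (3 * p.1 + p.2) p.2)

/-- long horizontal borders -/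
noncomputable def H1 (p : ℤ × ℤ) : Set ℂ := openSegment ℝ (pt (3 * p.1 + p.2) p.2) (pt (3 * p.1 + p.2 + 2) p.2)

/-- vertical borders -/
noncomputable def Vb (p : ℤ × ℤ) : Set ℂ := openSegment ℝ (pt (3 * p.1 + p.2) p.2) (pt (3 * p.1 + p.2) (p.2 + 1))

/-- bricks -/
def Rg (p : ℤ × ℤ) : Set ℂ := {z | 3 * p.1 + p.2 < ⌈sx z⌉ ∧ ⌊sx z⌋ < 3 * p.1 + p.2 + 3 ∧ p.2 < ⌈sy z⌉ ∧ ⌊sy z⌋ < p.2 + 1}

theorem mem_H0 (p : ℤ × ℤ) (z : ℂ) : z ∈ H0 p ↔
    3 * p.1 + p.2 - 1 < ⌈sx z⌉ ∧ ⌊sx z⌋ < 3 * p.1 + p.2 ∧ ⌊sy z⌋ = p.2 ∧ ⌈sy z⌉ = p.2 :=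
  mem_hseg (by omega) z

theorem mem_H1 (p : ℤ × ℤ) (z : ℂ) : z ∈ H1 p ↔
    3 * p.1 + p.2 < ⌈sx z⌉ ∧ ⌊sx z⌋ < 3 * p.1 + p.2 + 2 ∧ ⌊sy z⌋ = p.2 ∧ ⌈sy z⌉ = p.2 :=
  mem_hseg (by omega) z

theorem mem_Vb (p : ℤ × ℤ) (z : ℂ) : z ∈ Vb p ↔
    p.2 < ⌈sy z⌉ ∧ ⌊sy z⌋ < p.2 + 1 ∧ ⌊sx z⌋ = 3 * p.1 + p.2 ∧ ⌈sx z⌉ = 3 * p.1 + p.2 :=
  mem_vseg (by omega) z

theorem mem_Rg (p : ℤ × ℤ) (z : ℂ) : z ∈ Rg p ↔
    3 * p.1 + p.2 < ⌈sx z⌉ ∧ ⌊sx z⌋ < 3 * p.1 + p.2 + 3 ∧ p.2 < ⌈sy z⌉ ∧ ⌊sy z⌋ < p.2 + 1 := Iff.rfl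

/-- all cells -/
def Cells : Set (Set ℂ) := (fun v => ({v} : Set ℂ)) '' Vt ∪ (range H0 ∪ range H1 ∪ range Vb) ∪ range Rg

theorem cells_cases {b : Set ℂ} (hb : b ∈ Cells) :
    (∃ x y : ℤ, (x - y) % 3 ≠ 1 ∧ b = {pt x y}) ∨ (∃ p, b = H0 p) ∨ (∃ p, b = H1 p) ∨ (∃ p, b = Vb p) ∨ ∃ p, b = Rg p := by
  rcases hb with (⟨v, ⟨x, y, h, rfl⟩, rfl⟩ | ((⟨p, rfl⟩ | ⟨p, rfl⟩) | ⟨p, rfl⟩)) | ⟨p, rfl⟩
  · exact Or.inl ⟨x, y, h, rfl⟩
  · exact Or.inr (Or.inl ⟨p, rfl⟩)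
  · exact Or.inr (Or.inr (Or.inl ⟨p, rfl⟩))
  · exact Or.inr (Or.inr (Or.inr (Or.inl ⟨p, rfl⟩)))
  · exact Or.inr (Or.inr (Or.inr (Or.inr ⟨p, rfl⟩)))

theorem cells_unique {b b' : Set ℂ} (hb : b ∈ Cells) (hb' : b' ∈ Cells) {z : ℂ} (hz : z ∈ b) (hz' : z ∈ b') : b = b' := by
  have h1 := fc (sx z)
  have h2 := fc (sy z)
  rcases cells_cases hb with ⟨x, y, h, rfl⟩ | ⟨⟨i, j⟩, rfl⟩ | ⟨⟨i, j⟩, rfl⟩ | ⟨⟨i, j⟩, rfl⟩ | ⟨⟨i, j⟩, rfl⟩ <;>
  rcases cells_cases hb' with ⟨x', y', h', rfl⟩ | ⟨⟨i', j'⟩, rfl⟩ | ⟨⟨i', j'⟩, rfl⟩ | ⟨⟨i', j'⟩, rfl⟩ | ⟨⟨i', j'⟩, rfl⟩ <;>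
  simp only [mem_singleton_iff, eq_pt_iff, mem_H0, mem_H1, mem_Vb, mem_Rg] at hz hz' <;>
  first
    | (exfalso; omega)
    | (obtain ⟨rfl, rfl⟩ : x = x' ∧ y = y' := by omega
       rfl)
    | (obtain ⟨rfl, rfl⟩ : i = i' ∧ j = j' := by omega
       rfl)

theorem cells_exists (z : ℂ) : ∃ b ∈ Cells, z ∈ b := by
  have h1 := fc (sx z)
  have h2 := fc (sy z)
  by_cases hy : ⌊sy z⌋ = ⌈sy z⌉
  · by_cases hx : ⌊sx z⌋ = ⌈sx z⌉ ∧ (⌊sx z⌋ - ⌊sy z⌋) % 3 ≠ 1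
    · refine ⟨{z}, Or.inl (Or.inl ⟨z, ⟨⌊sx z⌋, ⌊sy z⌋, hx.2, ?_⟩, rfl⟩), rfl⟩
      rw [eq_pt_iff]
      omega
    · by_cases hx' : (⌊sx z⌋ - ⌊sy z⌋) % 3 = 2
      · refine ⟨H0 ((⌊sx z⌋ - ⌊sy z⌋ + 1) / 3, ⌊sy z⌋), Or.inl (Or.inr (Or.inl (Or.inl ⟨_, rfl⟩))), ?_⟩
        rw [mem_H0]
        refine ⟨?_, ?_, ?_, ?_⟩ <;> dsimp only <;> omega
      · refine ⟨H1 ((⌊sx z⌋ - ⌊sy z⌋) / 3, ⌊sy z⌋), Or.inl (Or.inr (Or.inl (Or.inr ⟨_, rfl⟩))), ?_⟩
        rw [mem_H1]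
        refine ⟨?_, ?_, ?_, ?_⟩ <;> dsimp only <;> omega
  · by_cases hx : ⌊sx z⌋ = ⌈sx z⌉ ∧ (⌊sx z⌋ - ⌊sy z⌋) % 3 = 0
    · refine ⟨Vb ((⌊sx z⌋ - ⌊sy z⌋) / 3, ⌊sy z⌋), Or.inl (Or.inr (Or.inr ⟨_, rfl⟩)), ?_⟩
      rw [mem_Vb]
      refine ⟨?_, ?_, ?_, ?_⟩ <;> dsimp only <;> omega
    · refine ⟨Rg ((⌊sx z⌋ - ⌊sy z⌋) / 3, ⌊sy z⌋), Or.inr ⟨_, rfl⟩, ?_⟩
      rw [mem_Rg]
      refine ⟨?_, ?_, ?_, ?_⟩ <;> dsimp only <;> omega

theorem Rg_nonempty (p : ℤ × ℤ) : (Rg p).Nonempty := by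
  refine ⟨⟨(4 / 15) * (3 * p.1 + p.2 + 1 : ℤ), (11 / 20) * (p.2 + 1 / 2)⟩, ?_⟩
  rw [mem_Rg, Int.lt_ceil, Int.floor_lt, Int.lt_ceil, Int.floor_lt]
  unfold sx sy
  simp only
  push_cast
  refine ⟨by linarith, by linarith, by linarith, by linarith⟩

theorem openSegment_nonempty (x y : ℂ) : (openSegment ℝ x y).Nonempty :=
  ⟨(1 / 2 : ℝ) • x + (1 / 2 : ℝ) • y, 1 / 2, 1 / 2, by norm_num, by norm_num, by norm_num, rfl⟩

theorem cells_nonempty {b : Set ℂ} (hb : b ∈ Cells) : b.Nonempty := by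
  rcases cells_cases hb with ⟨x, y, h, rfl⟩ | ⟨p, rfl⟩ | ⟨p, rfl⟩ | ⟨p, rfl⟩ | ⟨p, rfl⟩
  · exact singleton_nonempty _
  · exact openSegment_nonempty _ _
  · exact openSegment_nonempty _ _
  · exact openSegment_nonempty _ _
  · exact Rg_nonempty p

theorem cells_partition : Setoid.IsPartition Cells := by
  constructor
  · intro h
    exact (cells_nonempty h).ne_empty rfl
  · intro z
    obtain ⟨b, hb, hz⟩ := cells_exists z
    refine ⟨b, ⟨hb, hz⟩, ?_⟩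
    rintro b' ⟨hb', hz'⟩
    exact cells_unique hb' hb hz' hz

/-- the color -/
noncomputable def col (z : ℂ) : Fin 7 :=
  ⟨((((⌊sx z⌋ - ⌊sy z⌋) / 3) + 5 * ⌊sy z⌋) % 7).toNat, by omega⟩

theorem col_eq_iff (z w : ℂ) : col z = col w ↔
    (((⌊sx z⌋ - ⌊sy z⌋) / 3) + 5 * ⌊sy z⌋) % 7 = (((⌊sx w⌋ - ⌊sy w⌋) / 3) + 5 * ⌊sy w⌋) % 7 := by
  unfold col
  rw [Fin.mk.injEq]
  omega

theorem col_ne (z w : ℂ) (h : dist z w = 1) : col z ≠ col w := by
  intro hc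
  rw [col_eq_iff] at hc
  obtain ⟨i, hi⟩ : ∃ i, i = (⌊sx z⌋ - ⌊sy z⌋) / 3 := ⟨_, rfl⟩
  obtain ⟨i', hi'⟩ : ∃ i, i = (⌊sx w⌋ - ⌊sy w⌋) / 3 := ⟨_, rfl⟩
  obtain ⟨j, hj⟩ : ∃ j, j = ⌊sy z⌋ := ⟨_, rfl⟩
  obtain ⟨j', hj'⟩ : ∃ j, j = ⌊sy w⌋ := ⟨_, rfl⟩
  have h1 : ((3 * i + j : ℤ) : ℝ) ≤ sx z := Int.le_floor.1 (by omega)
  have h2 : sx z < ((3 * i + j + 3 : ℤ) : ℝ) := Int.floor_lt.1 (by omega)
  have h3 : ((3 * i' + j' : ℤ) : ℝ) ≤ sx w := Int.le_floor.1 (by omega)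
  have h4 : sx w < ((3 * i' + j' + 3 : ℤ) : ℝ) := Int.floor_lt.1 (by omega)
  have h5 : (j : ℝ) ≤ sy z := Int.le_floor.1 (by omega)
  have h6 : sy z < ((j + 1 : ℤ) : ℝ) := Int.floor_lt.1 (by omega)
  have h7 : (j' : ℝ) ≤ sy w := Int.le_floor.1 (by omega)
  have h8 : sy w < ((j' + 1 : ℤ) : ℝ) := Int.floor_lt.1 (by omega)
  have hd : (16 / 225) * (sx z - sx w) ^ 2 + (121 / 400) * (sy z - sy w) ^ 2 = 1 := by
    have h9 : dist z w ^ 2 = 1 := by rw [h]; norm_num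
    rw [Complex.dist_eq, ← Complex.normSq_eq_norm_sq, Complex.normSq_apply] at h9
    unfold sx sy
    simp at h9
    linarith
  rw [← hi, ← hi', ← hj, ← hj'] at hc
  have key : (i = i' ∧ j = j') ∨ j' + 3 ≤ j ∨ j + 3 ≤ j' ∨ 3 * i' + j' + 7 ≤ 3 * i + j ∨ 3 * i + j + 7 ≤ 3 * i' + j' := by
    omega
  push_cast at h1 h2 h3 h4 h5 h6 h7 h8
  rcases key with ⟨rfl, rfl⟩ | hk | hk | hk | hk
  · have e1 : |sx z - sx w| ≤ 3 := by
      rw [abs_le]
      constructor <;> linarith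
    have e2 : |sy z - sy w| ≤ 1 := by
      rw [abs_le]
      constructor <;> linarith
    have e3 := sq_le_sq' (by linarith [(abs_le.1 e1).1]) (abs_le.1 e1).2
    have e4 := sq_le_sq' (by linarith [(abs_le.1 e2).1]) (abs_le.1 e2).2
    nlinarith
  · have hk' : (j' : ℝ) + 3 ≤ j := by exact_mod_cast hk
    nlinarith [sq_nonneg (sx z - sx w)]
  · have hk' : (j : ℝ) + 3 ≤ j' := by exact_mod_cast hk
    nlinarith [sq_nonneg (sx z - sx w)]
  · have hk' : 3 * (i' : ℝ) + j' + 7 ≤ 3 * i + j := by exact_mod_cast hk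
    nlinarith [sq_nonneg (sy z - sy w)]
  · have hk' : 3 * (i : ℝ) + j + 7 ≤ 3 * i' + j' := by exact_mod_cast hk
    nlinarith [sq_nonneg (sy z - sy w)]

theorem hcl {x0 x1 y : ℝ} (h : x0 < x1) (z : ℂ) : z ∈ segment ℝ (⟨x0, y⟩ : ℂ) ⟨x1, y⟩ ↔
    x0 ≤ z.re ∧ z.re ≤ x1 ∧ z.im = y := by
  constructor
  · rintro ⟨a, b, ha, hb, hab, rfl⟩
    simp only [Complex.add_re, Complex.smul_re, smul_eq_mul, Complex.add_im, Complex.smul_im]
    obtain rfl : a = 1 - b := by linarith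
    refine ⟨by nlinarith, by nlinarith, by ring⟩
  · rintro ⟨h1, h2, h3⟩
    refine ⟨(x1 - z.re) / (x1 - x0), (z.re - x0) / (x1 - x0), div_nonneg (by linarith) (by linarith),
      div_nonneg (by linarith) (by linarith), ?_, ?_⟩
    · rw [← add_div, div_eq_one_iff_eq (by linarith)]
      ring
    · have hne : x1 - x0 ≠ 0 := by linarith
      apply Complex.ext
      · simp only [Complex.add_re, Complex.smul_re, smul_eq_mul]
        field_simp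
        ring
      · simp only [Complex.add_im, Complex.smul_im, smul_eq_mul, ← h3]
        field_simp
        ring

theorem vcl {x y0 y1 : ℝ} (h : y0 < y1) (z : ℂ) : z ∈ segment ℝ (⟨x, y0⟩ : ℂ) ⟨x, y1⟩ ↔
    y0 ≤ z.im ∧ z.im ≤ y1 ∧ z.re = x := by
  constructor
  · rintro ⟨a, b, ha, hb, hab, rfl⟩
    simp only [Complex.add_re, Complex.smul_re, smul_eq_mul, Complex.add_im, Complex.smul_im]
    obtain rfl : a = 1 - b := by linarith
    refine ⟨by nlinarith, by nlinarith, by ring⟩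
  · rintro ⟨h1, h2, h3⟩
    refine ⟨(y1 - z.im) / (y1 - y0), (z.im - y0) / (y1 - y0), div_nonneg (by linarith) (by linarith),
      div_nonneg (by linarith) (by linarith), ?_, ?_⟩
    · rw [← add_div, div_eq_one_iff_eq (by linarith)]
      ring
    · have hne : y1 - y0 ≠ 0 := by linarith
      apply Complex.ext
      · simp only [Complex.add_re, Complex.smul_re, smul_eq_mul, ← h3]
        field_simp
        ring
      · simp only [Complex.add_im, Complex.smul_im, smul_eq_mul]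
        field_simp
        ring

/-- an open rectangle is an open polygon -/
theorem rect {x0 x1 y0 y1 : ℝ} (hx : x0 < x1) (hy : y0 < y1) :
    IsOpenPolygon (Ioo x0 x1 ×ℂ Ioo y0 y1) := by
  have s0 : ∀ z : ℂ, z ∈ segment ℝ (⟨x0, y0⟩ : ℂ) ⟨x1, y0⟩ ↔ x0 ≤ z.re ∧ z.re ≤ x1 ∧ z.im = y0 := hcl hx
  have s1 : ∀ z : ℂ, z ∈ segment ℝ (⟨x1, y0⟩ : ℂ) ⟨x1, y1⟩ ↔ y0 ≤ z.im ∧ z.im ≤ y1 ∧ z.re = x1 := vcl hy
  have s2 : ∀ z : ℂ, z ∈ segment ℝ (⟨x1, y1⟩ : ℂ) ⟨x0, y1⟩ ↔ x0 ≤ z.re ∧ z.re ≤ x1 ∧ z.im = y1 := by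
    intro z
    rw [segment_symm]
    exact hcl hx z
  have s3 : ∀ z : ℂ, z ∈ segment ℝ (⟨x0, y1⟩ : ℂ) ⟨x0, y0⟩ ↔ y0 ≤ z.im ∧ z.im ≤ y1 ∧ z.re = x0 := by
    intro z
    rw [segment_symm]
    exact vcl hy z
  let P : ZMod 4 → ℂ := ![⟨x0, y0⟩, ⟨x1, y0⟩, ⟨x1, y1⟩, ⟨x0, y1⟩]
  have p0 : P 0 = ⟨x0, y0⟩ := rfl
  have p1 : P 1 = ⟨x1, y0⟩ := rfl
  have p2 : P 2 = ⟨x1, y1⟩ := rfl
  have p3 : P 3 = ⟨x0, y1⟩ := rfl
  have hcases : ∀ k : ZMod 4, k = 0 ∨ k = 1 ∨ k = 2 ∨ k = 3 := by decide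
  have q0 : P (0 + 1) = ⟨x1, y0⟩ := rfl
  have q1 : P (1 + 1) = ⟨x1, y1⟩ := rfl
  have q2 : P (2 + 1) = ⟨x0, y1⟩ := rfl
  have q3 : P (3 + 1) = ⟨x0, y0⟩ := rfl
  refine ⟨4, P, by norm_num, ?_, ?_, ?_, ?_, ?_, ?_, ?_, ?_⟩
  · intro k l hkl
    rcases hcases k with rfl | rfl | rfl | rfl <;> rcases hcases l with rfl | rfl | rfl | rfl <;>
      simp only [p0, p1, p2, p3, Complex.mk.injEq] at hkl <;>
      first
        | rfl
        | (exfalso; linarith [hkl.1, hkl.2])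
  · rintro k l hkl z ⟨hz1, hz2⟩
    rcases hcases k with rfl | rfl | rfl | rfl <;> rcases hcases l with rfl | rfl | rfl | rfl
    · exact absurd rfl hkl
    · have a := (s0 z).1 hz1
      have b := (s1 z).1 hz2
      have h : z = ⟨x1, y0⟩ := Complex.ext b.2.2 a.2.2
      exact ⟨Or.inr h, Or.inl h⟩
    · have a := (s0 z).1 hz1
      have b := (s2 z).1 hz2
      exact absurd (a.2.2.symm.trans b.2.2) hy.ne
    · have a := (s0 z).1 hz1
      have b := (s3 z).1 hz2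
      have h : z = ⟨x0, y0⟩ := Complex.ext b.2.2 a.2.2
      exact ⟨Or.inl h, Or.inr h⟩
    · have a := (s1 z).1 hz1
      have b := (s0 z).1 hz2
      have h : z = ⟨x1, y0⟩ := Complex.ext a.2.2 b.2.2
      exact ⟨Or.inl h, Or.inr h⟩
    · exact absurd rfl hkl
    · have a := (s1 z).1 hz1
      have b := (s2 z).1 hz2
      have h : z = ⟨x1, y1⟩ := Complex.ext a.2.2 b.2.2
      exact ⟨Or.inr h, Or.inl h⟩
    · have a := (s1 z).1 hz1
      have b := (s3 z).1 hz2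
      exact absurd (b.2.2.symm.trans a.2.2) hx.ne
    · have a := (s2 z).1 hz1
      have b := (s0 z).1 hz2
      exact absurd (b.2.2.symm.trans a.2.2) hy.ne
    · have a := (s2 z).1 hz1
      have b := (s1 z).1 hz2
      have h : z = ⟨x1, y1⟩ := Complex.ext b.2.2 a.2.2
      exact ⟨Or.inl h, Or.inr h⟩
    · exact absurd rfl hkl
    · have a := (s2 z).1 hz1
      have b := (s3 z).1 hz2
      have h : z = ⟨x0, y1⟩ := Complex.ext b.2.2 a.2.2
      exact ⟨Or.inr h, Or.inl h⟩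
    · have a := (s3 z).1 hz1
      have b := (s0 z).1 hz2
      have h : z = ⟨x0, y0⟩ := Complex.ext a.2.2 b.2.2
      exact ⟨Or.inr h, Or.inl h⟩
    · have a := (s3 z).1 hz1
      have b := (s1 z).1 hz2
      exact absurd (a.2.2.symm.trans b.2.2) hx.ne
    · have a := (s3 z).1 hz1
      have b := (s2 z).1 hz2
      have h : z = ⟨x0, y1⟩ := Complex.ext a.2.2 b.2.2
      exact ⟨Or.inl h, Or.inr h⟩
    · exact absurd rfl hkl
  · exact isOpen_Ioo.reProdIm isOpen_Ioo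
  · exact ⟨⟨(x0 + x1) / 2, (y0 + y1) / 2⟩, by constructor <;> constructor <;> simp <;> linarith⟩
  · exact (((convex_Ioo x0 x1).linear_preimage Complex.reLm).inter
      ((convex_Ioo y0 y1).linear_preimage Complex.imLm)).isPreconnected
  · exact (isBounded_Ioo x0 x1).reProdIm (isBounded_Ioo y0 y1)
  · rw [closure_reProdIm, interior_reProdIm, closure_Ioo hx.ne, closure_Ioo hy.ne, interior_Icc, interior_Icc]
  · rw [frontier_reProdIm, closure_Ioo hx.ne, closure_Ioo hy.ne, frontier_Ioo hx, frontier_Ioo hy]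
    ext z
    simp only [mem_iUnion]
    constructor
    · rintro (⟨h1, h2 | h2⟩ | ⟨h1 | h1, h2⟩)
      · exact ⟨0, by rw [q0]; exact (s0 z).2 ⟨h1.1, h1.2, h2⟩⟩
      · exact ⟨2, by rw [q2]; exact (s2 z).2 ⟨h1.1, h1.2, h2⟩⟩
      · exact ⟨3, by rw [q3]; exact (s3 z).2 ⟨h2.1, h2.2, h1⟩⟩
      · exact ⟨1, by rw [q1]; exact (s1 z).2 ⟨h2.1, h2.2, h1⟩⟩
    · rintro ⟨k, hk⟩
      rcases hcases k with rfl | rfl | rfl | rfl
      · have := (s0 z).1 hk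
        exact Or.inl ⟨⟨this.1, this.2.1⟩, Or.inl this.2.2⟩
      · have := (s1 z).1 hk
        exact Or.inr ⟨Or.inr this.2.2, ⟨this.1, this.2.1⟩⟩
      · have := (s2 z).1 hk
        exact Or.inl ⟨⟨this.1, this.2.1⟩, Or.inr this.2.2⟩
      · have := (s3 z).1 hk
        exact Or.inr ⟨Or.inl this.2.2, ⟨this.1, this.2.1⟩⟩

theorem Rg_eq (p : ℤ × ℤ) : Rg p = Ioo ((4 / 15) * (3 * p.1 + p.2 : ℝ)) ((4 / 15) * (3 * p.1 + p.2 + 3 : ℝ)) ×ℂ
    Ioo ((11 / 20) * (p.2 : ℝ)) ((11 / 20) * (p.2 + 1 : ℝ)) := by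
  ext z
  rw [mem_Rg, Int.lt_ceil, Int.floor_lt, Int.lt_ceil, Int.floor_lt, mem_reProdIm, mem_Ioo, mem_Ioo]
  unfold sx sy
  push_cast
  constructor
  · rintro ⟨h1, h2, h3, h4⟩
    refine ⟨⟨by linarith, by linarith⟩, by linarith, by linarith⟩
  · rintro ⟨⟨h1, h2⟩, h3, h4⟩
    refine ⟨by linarith, by linarith, by linarith, by linarith⟩

theorem Rg_polygon (p : ℤ × ℤ) : IsOpenPolygon (Rg p) := by
  rw [Rg_eq]
  exact rect (by linarith) (by linarith)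

theorem Rg_open (p : ℤ × ℤ) : IsOpen (Rg p) := by
  rw [Rg_eq]
  exact isOpen_Ioo.reProdIm isOpen_Ioo

theorem Rg_closure (p : ℤ × ℤ) {z : ℂ} (hz : z ∈ closure (Rg p)) :
    3 * p.1 + p.2 ≤ ⌊sx z⌋ ∧ ⌈sx z⌉ ≤ 3 * p.1 + p.2 + 3 ∧ p.2 ≤ ⌊sy z⌋ ∧ ⌈sy z⌉ ≤ p.2 + 1 := by
  rw [Rg_eq, closure_reProdIm, closure_Ioo (by linarith), closure_Ioo (by linarith), mem_reProdIm, mem_Icc, mem_Icc] at hz
  rw [Int.le_floor, Int.ceil_le, Int.le_floor, Int.ceil_le]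
  unfold sx sy
  push_cast
  obtain ⟨⟨h1, h2⟩, h3, h4⟩ := hz
  refine ⟨by linarith, by linarith, by linarith, by linarith⟩

theorem Rg_frontier (p : ℤ × ℤ) : frontier (Rg p) ⊆ Vt ∪ ⋃₀ (range H0 ∪ range H1 ∪ range Vb) := by
  intro z hz
  obtain ⟨b, hb, hzb⟩ := cells_exists z
  rcases hb with (⟨v, hv, rfl⟩ | hb) | ⟨q, rfl⟩
  · rw [mem_singleton_iff] at hzb
    rw [hzb]
    exact Or.inl hv
  · exact Or.inr ⟨b, hb, hzb⟩
  · exfalso
    rw [(Rg_open p).frontier_eq] at hz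
    obtain ⟨w, hw1, hw2⟩ := mem_closure_iff.1 hz.1 (Rg q) (Rg_open q) hzb
    have := cells_unique (Or.inr ⟨q, rfl⟩) (Or.inr ⟨p, rfl⟩) hw1 hw2
    rw [this] at hzb
    exact hz.2 hzb

theorem col_Rg (p : ℤ × ℤ) {z : ℂ} (hz : z ∈ Rg p) : (⌊sx z⌋ - ⌊sy z⌋) / 3 = p.1 ∧ ⌊sy z⌋ = p.2 := by
  rw [mem_Rg] at hz
  have h1 := fc (sx z)
  have h2 := fc (sy z)
  omega

theorem finite_range (F : ℤ × ℤ → Set ℂ) (hF : ∀ p z, z ∈ F p →
    p.2 - 5 ≤ ⌊sy z⌋ ∧ ⌊sy z⌋ ≤ p.2 + 5 ∧ 3 * p.1 + p.2 - 5 ≤ ⌊sx z⌋ ∧ ⌊sx z⌋ ≤ 3 * p.1 + p.2 + 5) (x : ℂ) (r : ℝ) :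
    {B ∈ range F | (B ∩ closedBall x r).Nonempty}.Finite := by
  obtain ⟨N, hN⟩ := exists_nat_gt (‖x‖ + |r|)
  have hb : ∀ z ∈ closedBall x r, |z.re| ≤ N ∧ |z.im| ≤ N := by
    intro z hz
    have h1 : ‖z‖ ≤ N := by
      rw [mem_closedBall, dist_eq_norm] at hz
      have : ‖z‖ ≤ ‖z - x‖ + ‖x‖ := by
        simpa using norm_add_le (z - x) x
      linarith [le_abs_self r]
    exact ⟨(Complex.abs_re_le_norm z).trans h1, (Complex.abs_im_le_norm z).trans h1⟩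
  have hfin : ((Icc (-(8 * (N : ℤ) + 20)) (8 * N + 20) ×ˢ Icc (-(8 * (N : ℤ) + 20)) (8 * N + 20) : Set (ℤ × ℤ))).Finite :=
    (finite_Icc _ _).prod (finite_Icc _ _)
  refine (hfin.image F).subset ?_
  rintro B ⟨⟨p, rfl⟩, z, hz, hz'⟩
  refine ⟨p, ?_, rfl⟩
  obtain ⟨h1, h2, h3, h4⟩ := hF p z hz
  obtain ⟨h5, h6⟩ := hb z hz'
  rw [abs_le] at h5 h6
  have a1 : -(4 * (N : ℤ) + 1) ≤ ⌊sx z⌋ := by
    rw [Int.le_floor]
    unfold sx
    push_cast
    linarith [Nat.cast_nonneg (α := ℝ) N]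
  have a2 : ⌊sx z⌋ ≤ 4 * (N : ℤ) + 1 := by
    rw [← Int.lt_add_one_iff, Int.floor_lt]
    unfold sx
    push_cast
    linarith [Nat.cast_nonneg (α := ℝ) N]
  have a3 : -(4 * (N : ℤ) + 1) ≤ ⌊sy z⌋ := by
    rw [Int.le_floor]
    unfold sy
    push_cast
    linarith [Nat.cast_nonneg (α := ℝ) N]
  have a4 : ⌊sy z⌋ ≤ 4 * (N : ℤ) + 1 := by
    rw [← Int.lt_add_one_iff, Int.floor_lt]
    unfold sy
    push_cast
    linarith [Nat.cast_nonneg (α := ℝ) N]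
  refine ⟨⟨?_, ?_⟩, ?_, ?_⟩ <;> omega

/-- the endpoints of an open segment are determined -/
theorem endpoint_of_eq {v q a b : ℂ} (hq : q ≠ v) (h : openSegment ℝ a b = openSegment ℝ v q) : v = a ∨ v = b := by
  have h1 : v ∈ closure (openSegment ℝ a b) := by
    rw [h, closure_openSegment]
    exact left_mem_segment ℝ v q
  rw [closure_openSegment, ← insert_endpoints_openSegment, h] at h1
  rcases h1 with h1 | h1 | h1
  · exact Or.inl h1
  · exact Or.inr h1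
  · exfalso
    rw [left_mem_openSegment_iff] at h1
    exact hq h1.symm

theorem encard_three (a b c : Set ℂ) : ({a, b, c} : Set (Set ℂ)).encard ≤ 3 := by
  calc ({a, b, c} : Set (Set ℂ)).encard ≤ ({b, c} : Set (Set ℂ)).encard + 1 := encard_insert_le _ _
    _ ≤ (({c} : Set (Set ℂ)).encard + 1) + 1 := by gcongr; exact encard_insert_le _ _
    _ = 3 := by rw [encard_singleton]; norm_num

theorem angle_ne {x y a b : ℤ} (p q : ℂ) (hp : p = pt a y) (hq : q = pt x b) :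
    EuclideanGeometry.angle p (pt x y) q ≠ Real.pi := by
  unfold EuclideanGeometry.angle
  have h : inner ℝ (p -ᵥ pt x y) (q -ᵥ pt x y) = (0 : ℝ) := by
    rw [hp, hq, Complex.inner]
    simp [pt]
  rw [(InnerProductGeometry.inner_eq_zero_iff_angle_eq_pi_div_two _ _).1 h]
  linarith [Real.pi_pos]

theorem border_segment {B : Set ℂ} (hB : B ∈ range H0 ∪ range H1 ∪ range Vb) :
    ∃ p ∈ Vt, ∃ q ∈ Vt, p ≠ q ∧ B = openSegment ℝ p q := by
  rcases hB with (⟨p, rfl⟩ | ⟨p, rfl⟩) | ⟨p, rfl⟩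
  · refine ⟨_, ⟨_, _, ?_, rfl⟩, _, ⟨_, _, ?_, rfl⟩, ?_, rfl⟩
    · omega
    · omega
    · intro h
      have := pt_inj h
      omega
  · refine ⟨_, ⟨_, _, ?_, rfl⟩, _, ⟨_, _, ?_, rfl⟩, ?_, rfl⟩
    · omega
    · omega
    · intro h
      have := pt_inj h
      omega
  · refine ⟨_, ⟨_, _, ?_, rfl⟩, _, ⟨_, _, ?_, rfl⟩, ?_, rfl⟩
    · omega
    · omega
    · intro h
      have := pt_inj h
      omega

theorem adjacent {p p' : ℤ × ℤ} (hne : Rg p ≠ Rg p') {z : ℂ} (h : z ∈ frontier (Rg p)) (h' : z ∈ frontier (Rg p'))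
    {x y : ℂ} (hx : x ∈ Rg p) (hy : y ∈ Rg p') : col x ≠ col y := by
  have h1 := Rg_closure p (frontier_subset_closure h)
  have h2 := Rg_closure p' (frontier_subset_closure h')
  have h3 := col_Rg p hx
  have h4 := col_Rg p' hy
  have h5 := fc (sx z)
  have h6 := fc (sy z)
  intro hc
  rw [col_eq_iff, h3.1, h3.2, h4.1, h4.2] at hc
  apply hne
  have : p = p' := by
    apply Prod.ext <;> omega
  rw [this]

theorem vertex_angle {v : ℂ} (hv : v ∈ Vt) : ∃ p q : ℂ, p ≠ v ∧ q ≠ v ∧ p ≠ q ∧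
    openSegment ℝ v p ∈ range H0 ∪ range H1 ∪ range Vb ∧
    openSegment ℝ v q ∈ range H0 ∪ range H1 ∪ range Vb ∧ EuclideanGeometry.angle p v q ≠ Real.pi := by
  obtain ⟨x, y, h, rfl⟩ := hv
  by_cases h0 : (x - y) % 3 = 0
  · refine ⟨pt (x + 2) y, pt x (y + 1), ?_, ?_, ?_, ?_, ?_, ?_⟩
    · intro h
      have := pt_inj h
      omega
    · intro h
      have := pt_inj h
      omega
    · intro h
      have := pt_inj h
      omega
    · refine Or.inl (Or.inr ⟨((x - y) / 3, y), ?_⟩)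
      unfold H1
      have : 3 * ((x - y) / 3) + y = x := by omega
      simp only [this]
    · refine Or.inr ⟨((x - y) / 3, y), ?_⟩
      unfold Vb
      have : 3 * ((x - y) / 3) + y = x := by omega
      simp only [this]
    · exact angle_ne _ _ rfl rfl
  · refine ⟨pt (x + 1) y, pt x (y - 1), ?_, ?_, ?_, ?_, ?_, ?_⟩
    · intro h
      have := pt_inj h
      omega
    · intro h
      have := pt_inj h
      omega
    · intro h
      have := pt_inj h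
      omega
    · refine Or.inl (Or.inl ⟨((x - y + 1) / 3, y), ?_⟩)
      unfold H0
      have e2 : 3 * ((x - y + 1) / 3) + y = x + 1 := by omega
      simp only [e2]
      ring_nf
    · refine Or.inr ⟨((x - y + 1) / 3, y - 1), ?_⟩
      unfold Vb
      have e2 : 3 * ((x - y + 1) / 3) + (y - 1) = x := by omega
      simp only [e2]
      rw [openSegment_symm]
      ring_nf
    · exact angle_ne _ _ rfl rfl

theorem locally_finite (x : ℂ) (r : ℝ) : (Vt ∩ closedBall x r).Finite ∧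
    {B ∈ range H0 ∪ range H1 ∪ range Vb | (B ∩ closedBall x r).Nonempty}.Finite ∧
    {R ∈ range Rg | (R ∩ closedBall x r).Nonempty}.Finite := by
  refine ⟨?_, ?_, ?_⟩
  · let F : ℤ × ℤ → Set ℂ := fun p => {pt (3 * p.1 + p.2) p.2, pt (3 * p.1 + p.2 - 1) p.2}
    have h1 : {B ∈ range F | (B ∩ closedBall x r).Nonempty}.Finite := by
      apply finite_range
      intro p z hz
      simp only [F, mem_insert_iff, mem_singleton_iff, eq_pt_iff] at hz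
      omega
    have h2 : (⋃₀ {B ∈ range F | (B ∩ closedBall x r).Nonempty}).Finite := by
      apply h1.sUnion
      rintro B ⟨⟨p, rfl⟩, -⟩
      exact (finite_singleton _).insert _
    refine h2.subset ?_
    rintro z ⟨⟨a, b, hab, rfl⟩, hz⟩
    by_cases h0 : (a - b) % 3 = 0
    · have hm : pt a b ∈ F ((a - b) / 3, b) := by
        left
        have : 3 * ((a - b) / 3) + b = a := by omega
        simp only [this]
      exact ⟨F ((a - b) / 3, b), ⟨⟨_, rfl⟩, _, hm, hz⟩, hm⟩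
    · have hm : pt a b ∈ F ((a - b + 1) / 3, b) := by
        right
        have : 3 * ((a - b + 1) / 3) + b - 1 = a := by omega
        simp only [this, mem_singleton_iff]
      exact ⟨F ((a - b + 1) / 3, b), ⟨⟨_, rfl⟩, _, hm, hz⟩, hm⟩
  · have h0 : {B ∈ range H0 | (B ∩ closedBall x r).Nonempty}.Finite := by
      apply finite_range
      intro p z hz
      have h1 := fc (sx z)
      have h2 := fc (sy z)
      rw [mem_H0] at hz
      omega
    have h1 : {B ∈ range H1 | (B ∩ closedBall x r).Nonempty}.Finite := by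
      apply finite_range
      intro p z hz
      have h1 := fc (sx z)
      have h2 := fc (sy z)
      rw [mem_H1] at hz
      omega
    have h2 : {B ∈ range Vb | (B ∩ closedBall x r).Nonempty}.Finite := by
      apply finite_range
      intro p z hz
      have h1 := fc (sx z)
      have h2 := fc (sy z)
      rw [mem_Vb] at hz
      omega
    refine ((h0.union h1).union h2).subset ?_
    rintro B ⟨(hB | hB) | hB, hB'⟩
    · exact Or.inl (Or.inl ⟨hB, hB'⟩)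
    · exact Or.inl (Or.inr ⟨hB, hB'⟩)
    · exact Or.inr ⟨hB, hB'⟩
  · apply finite_range
    intro p z hz
    have h1 := fc (sx z)
    have h2 := fc (sy z)
    rw [mem_Rg] at hz
    omega

theorem degree_le {v : ℂ} (hv : v ∈ Vt) :
    ({B ∈ range H0 ∪ range H1 ∪ range Vb | ∃ q, q ≠ v ∧ B = openSegment ℝ v q}).encard ≤ 3 := by
  obtain ⟨x, y, h, rfl⟩ := hv
  by_cases h0 : (x - y) % 3 = 0
  · refine (encard_le_encard ?_).trans (encard_three (H0 ((x - y) / 3, y)) (H1 ((x - y) / 3, y)) (Vb ((x - y) / 3, y)))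
    rintro B ⟨(⟨⟨i, j⟩, rfl⟩ | ⟨⟨i, j⟩, rfl⟩) | ⟨⟨i, j⟩, rfl⟩, q, hq, hB⟩
    · left
      have : i = (x - y) / 3 ∧ j = y := by
        rcases endpoint_of_eq hq hB with h | h <;> have := pt_inj h <;> simp only at this <;> omega
      rw [this.1, this.2]
    · right; left
      have : i = (x - y) / 3 ∧ j = y := by
        rcases endpoint_of_eq hq hB with h | h <;> have := pt_inj h <;> simp only at this <;> omega
      rw [this.1, this.2]
    · right; right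
      have : i = (x - y) / 3 ∧ j = y := by
        rcases endpoint_of_eq hq hB with h | h <;> have := pt_inj h <;> simp only at this <;> omega
      rw [this.1, this.2]
      rfl
  · refine (encard_le_encard ?_).trans (encard_three (H0 ((x - y + 1) / 3, y)) (H1 ((x - y + 1) / 3 - 1, y))
      (Vb ((x - y + 1) / 3, y - 1)))
    rintro B ⟨(⟨⟨i, j⟩, rfl⟩ | ⟨⟨i, j⟩, rfl⟩) | ⟨⟨i, j⟩, rfl⟩, q, hq, hB⟩
    · left
      have : i = (x - y + 1) / 3 ∧ j = y := by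
        rcases endpoint_of_eq hq hB with h | h <;> have := pt_inj h <;> simp only at this <;> omega
      rw [this.1, this.2]
    · right; left
      have : i = (x - y + 1) / 3 - 1 ∧ j = y := by
        rcases endpoint_of_eq hq hB with h | h <;> have := pt_inj h <;> simp only at this <;> omega
      rw [this.1, this.2]
    · right; right
      have : i = (x - y + 1) / 3 ∧ j = y - 1 := by
        rcases endpoint_of_eq hq hB with h | h <;> have := pt_inj h <;> simp only at this <;> omega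
      rw [this.1, this.2]
      rfl

end L2

open L2 in
/-- L2. A polygon coloring with seven colors and all degrees at most three (bricks). -/
theorem exists_seven : ∃ P : PolygonColoring 7, ∀ v ∈ P.vertices, P.degree v ≤ 3 := by
  refine ⟨{ color := col, color_ne := col_ne, vertices := Vt, borders := range H0 ∪ range H1 ∪ range Vb,
            regions := range Rg, partition := cells_partition, border_segment := fun B hB => border_segment hB,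
            region_polygon := ?_,
            region_frontier := ?_, color_region := ?_, color_adjacent := ?_,
            vertex_angle := fun v hv => vertex_angle hv,
            locally_finite := locally_finite }, fun v hv => degree_le hv⟩
  · rintro R ⟨p, rfl⟩
    exact Rg_polygon p
  · rintro R ⟨p, rfl⟩
    exact Rg_frontier p
  · rintro R ⟨p, rfl⟩ x hx y hy
    rw [col_eq_iff, (col_Rg p hx).1, (col_Rg p hx).2, (col_Rg p hy).1, (col_Rg p hy).2]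
  · rintro R ⟨p, rfl⟩ R' ⟨p', rfl⟩ hne hadj x hx y hy
    rcases hadj with ⟨z, -, hz, hz'⟩ | ⟨B, hB, hz, hz'⟩
    · exact adjacent hne hz hz' hx hy
    · obtain ⟨z, hzB⟩ := cells_nonempty (b := B) (Or.inl (Or.inr hB))
      exact adjacent hne (hz hzB) (hz' hzB) hx hy

end Pool.Agent.H923_Poly
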