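import Pool.Agent.H923_Poly.K14
import Pool.Agent.H923_Poly.L1
import Pool.Agent.H923_Poly.L2

/-! The final theorem. -/

namespace Pool.Agent.H923_Poly

theorem main : IsLeast {k : ℕ | ∃ P : PolygonColoring k, ∀ v ∈ P.vertices, P.degree v ≤ 3} 7 := by
  refine ⟨exists_seven, fun k ⟨P, hP⟩ => ?_⟩
  by_contra hk
  obtain ⟨S⟩ := P.toTileSystem (by simp at hk; omega) hP
  exact S.contradiction

end Pool.Agent.H923_Poly
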