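import Pool.Agent.H923_Poly.Local

/-!
# Part K10 of the project: parity of the winding of the phase
-/

open Complex Filter Topology Set Metric

namespace Pool.Agent.H923_Poly

namespace K10

/-- The residue modulo three. -/
def kk (N : ℤ) : Fin 3 := ⟨(N % 3).toNat, by omega⟩

theorem kk_val (N : ℤ) : ((kk N : Fin 3) : ℕ) = (N % 3).toNat := rfl

theorem kk_eq {N M : ℤ} (h : kk N = kk M) : N % 3 = M % 3 := by
  have h1 := congrArg Fin.val h
  rw [kk_val, kk_val] at h1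
  omega

theorem kk_congr {N M : ℤ} (h : N % 3 = M % 3) : kk N = kk M := by
  apply Fin.ext
  rw [kk_val, kk_val, h]

theorem kk_of (n : ℤ) (k : Fin 3) : kk (3 * n + (k : ℕ)) = k := by
  apply Fin.ext
  rw [kk_val]
  have := k.isLt
  omega

theorem kk_add_one (N m : ℤ) : kk (N + (3 * m + 1)) = kk N + 1 := by
  apply Fin.ext
  rw [Fin.val_add, kk_val, kk_val]
  simp only [Fin.val_one]
  omega

theorem kk_add_two (N m : ℤ) : kk (N + (3 * m + 2)) = kk N + 2 := by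
  apply Fin.ext
  rw [Fin.val_add, kk_val, kk_val]
  simp only [Fin.val_two]
  omega

/-- the window of a number close to an integer -/
theorem win_near {x : ℝ} {N : ℤ} (h : |x - N| < 1 / 2) : win x = (N - 1) / 3 := by
  rw [abs_lt] at h
  unfold win
  rw [Int.floor_eq_iff]
  have h1 : 3 * ((N - 1) / 3) ≤ N - 1 := by omega
  have h2 : N ≤ 3 * ((N - 1) / 3) + 3 := by omega
  have h1' : (3 : ℝ) * (((N - 1) / 3 : ℤ) : ℝ) ≤ N - 1 := by exact_mod_cast h1
  have h2' : (N : ℝ) ≤ 3 * (((N - 1) / 3 : ℤ) : ℝ) + 3 := by exact_mod_cast h2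
  constructor
  · rw [le_div_iff₀ (by norm_num)]
    linarith [h.1]
  · rw [div_lt_iff₀ (by norm_num)]
    linarith [h.2]

theorem kap_surj {F : Finset (Fin 6)} (hc : F.card = 3) {κ : Fin 3 → Fin 6}
    (hκ : Function.Injective κ) (hF : ∀ k, κ k ∉ F) {a : Fin 6} (ha : a ∉ F) : ∃ k, κ k = a := by
  classical
  have h1 : (Finset.univ.image κ) ⊆ Fᶜ := by
    intro b hb
    obtain ⟨k, _, rfl⟩ := Finset.mem_image.1 hb
    exact Finset.mem_compl.2 (hF k)
  have h2 : (Finset.univ.image κ).card = 3 := by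
    rw [Finset.card_image_of_injective _ hκ]; rfl
  have h3 : (Fᶜ : Finset (Fin 6)).card = 3 := by
    rw [Finset.card_compl, hc]; rfl
  have h4 := Finset.eq_of_subset_of_card_le h1 (by omega)
  have h5 : a ∈ Finset.univ.image κ := by
    rw [h4]; exact Finset.mem_compl.2 ha
  obtain ⟨k, _, hk⟩ := Finset.mem_image.1 h5
  exact ⟨k, hk⟩

theorem dist_e (v : ℂ) (t : ℝ) : dist (v + e t) v = 1 := by
  rw [dist_eq_norm, add_sub_cancel_left, norm_e]

section sys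

variable {S : TileSystem} {v : ℂ} {F : Finset (Fin 6)} {κ : Fin 3 → Fin 6} {f : ℝ → ℝ}

/-- the phase at a point of a tile -/
theorem near (hv : S.TripleOf v F) (hκ : Function.Injective κ) (hF : ∀ k, κ k ∉ F)
    (hf : S.IsPhase v κ f) {t : ℝ} {i : S.ι} (hi : v + e t ∈ S.T i) :
    ∃ N : ℤ, S.c i = κ (kk N) ∧ |f t - N| < 1 / 2 := by
  have hgp : S.gp v (v + e t) i := TileSystem.gp_of_mem hi
  have hgm : S.gm v (v + e t) i := TileSystem.gm_of_mem hi
  obtain ⟨k, hk⟩ := kap_surj hv.1 hκ hF (hv.gp_not_mem (dist_e v t) hgp)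
  have hgc : ∀ k', κ k' ∈ S.germColors v (v + e t) ↔ k' = k := by
    intro k'
    constructor
    · rintro ⟨j, hj, hjc⟩
      have hij : j = i := by
        rcases hj with hj | hj
        · exact TileSystem.gp_unique hj hgp
        · exact TileSystem.gm_unique hj hgm
      rw [hij, ← hk] at hjc
      exact (hκ hjc).symm
    · rintro rfl
      exact ⟨i, Or.inl hgp, hk.symm⟩
  obtain ⟨n, hn⟩ := (hf.2 t k).1 ((hgc k).2 rfl)
  refine ⟨3 * n + (k : ℕ), by rw [kk_of, hk], ?_⟩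
  have hn' : |f t - ((3 * n + ((k : ℕ) : ℤ) : ℤ) : ℝ)| ≤ 1 / 2 := by
    push_cast; exact hn
  refine lt_of_le_of_ne hn' fun heq => ?_
  -- a neighbouring integer is as close
  have key : ∀ M : ℤ, |f t - M| ≤ 1 / 2 → kk M = k := by
    intro M hM
    apply (hgc (kk M)).1
    apply (hf.2 t (kk M)).2
    refine ⟨M / 3, ?_⟩
    have e1 : (3 * ((M / 3 : ℤ) : ℝ) + ((kk M : Fin 3) : ℕ)) = M := by
      have : (3 * (M / 3) + ((kk M : ℕ) : ℤ)) = M := by rw [kk_val]; omega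
      exact_mod_cast this
    rw [e1]; exact hM
  generalize 3 * n + ((k : ℕ) : ℤ) = N at *
  have h0 := key N hn'
  rcases (abs_eq (by norm_num : (0 : ℝ) ≤ 1 / 2)).1 heq with h | h
  · have h1 := key (N + 1) (by push_cast; rw [abs_le]; constructor <;> linarith)
    have := kk_eq (h0.trans h1.symm)
    omega
  · have h1 := key (N - 1) (by push_cast; rw [abs_le]; constructor <;> linarith)
    have := kk_eq (h0.trans h1.symm)
    omega

theorem sixty (s : ℝ) : e s - e (s + Real.pi / 3) = e (s - Real.pi / 3) := by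
  have h1 : e (s + Real.pi / 3) = e s * e (Real.pi / 3) := e_add _ _
  have h2 : e (s - Real.pi / 3) = e s * e (-(Real.pi / 3)) := by rw [← e_add]; congr 1
  rw [h1, h2]
  have h3 : (1 : ℂ) - e (Real.pi / 3) = e (-(Real.pi / 3)) := by
    apply Complex.ext
    · rw [Complex.sub_re, e_re, e_re, Real.cos_neg, Real.cos_pi_div_three, Complex.one_re]
      norm_num
    · rw [Complex.sub_im, e_im, e_im, Real.sin_neg, Complex.one_im]
      ring
  rw [← h3]
  ring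

theorem dist_sixty (v : ℂ) (s : ℝ) : dist (v + e s) (v + e (s + Real.pi / 3)) = 1 := by
  rw [dist_eq_norm]
  have : v + e s - (v + e (s + Real.pi / 3)) = e (s - Real.pi / 3) := by
    rw [← sixty]; ring
  rw [this, norm_e]

/-- one step of sixty degrees -/
theorem step1 {m : ℤ}
    (hm : ∀ t, 3 * (m : ℝ) < f (t + Real.pi / 3) - f t ∧ f (t + Real.pi / 3) - f t < 3 * m + 3)
    {s s' : ℝ} (hs : s' = s + Real.pi / 3) {i i' : S.ι} (hi : v + e s ∈ S.T i)
    (hi' : v + e s' ∈ S.T i') {N N' : ℤ} (hc : S.c i = κ (kk N)) (hN : |f s - N| < 1 / 2)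
    (hc' : S.c i' = κ (kk N')) (hN' : |f s' - N'| < 1 / 2) :
    N' = N + (3 * m + 1) ∨ N' = N + (3 * m + 2) := by
  subst hs
  have h1 := hm s
  rw [abs_lt] at hN hN'
  have h2 : ((3 * m - 1 : ℤ) : ℝ) < ((N' - N : ℤ) : ℝ) := by push_cast; linarith [hN.1, hN.2, hN'.1, hN'.2]
  have h3 : ((N' - N : ℤ) : ℝ) < ((3 * m + 4 : ℤ) : ℝ) := by push_cast; linarith [hN.1, hN.2, hN'.1, hN'.2]
  have h2' : 3 * m - 1 < N' - N := by exact_mod_cast h2
  have h3' : N' - N < 3 * m + 4 := by exact_mod_cast h3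
  have h4 : N % 3 ≠ N' % 3 := by
    intro h
    have h5 : S.c i = S.c i' := by rw [hc, hc', kk_congr h]
    exact S.unit i i' h5 _ hi _ hi' (dist_sixty v s)
  omega

theorem steps (hv : S.TripleOf v F) (hκ : Function.Injective κ) (hF : ∀ k, κ k ∉ F)
    (hf : S.IsPhase v κ f) {m : ℤ}
    (hm : ∀ t, 3 * (m : ℝ) < f (t + Real.pi / 3) - f t ∧ f (t + Real.pi / 3) - f t < 3 * m + 3)
    {a : ℝ} {i : ℕ → S.ι} (hi : ∀ j : ℕ, j ≤ 6 → v + e (a + j * (Real.pi / 3)) ∈ S.T (i j))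
    (hne : win (f (a + 2 * Real.pi)) - win (f a) ≠ 6 * m + 3) :
    ∃ N ε : ℤ, (ε = 1 ∨ ε = 2) ∧ |f a - N| < 1 / 2 ∧
      |f (a + 2 * Real.pi) - (N + 18 * m + 6 * ε)| < 1 / 2 ∧
      ∀ j : ℕ, j ≤ 6 → S.c (i j) = κ (kk (N + j * (3 * m + ε))) := by
  have ht : ∀ j : ℕ, a + ((j + 1 : ℕ) : ℝ) * (Real.pi / 3) = a + (j : ℝ) * (Real.pi / 3) + Real.pi / 3 := by
    intro j; push_cast; ring
  have hN : ∀ j : ℕ, j ≤ 6 → ∃ N : ℤ, S.c (i j) = κ (kk N) ∧
      |f (a + j * (Real.pi / 3)) - N| < 1 / 2 := fun j hj => near hv hκ hF hf (hi j hj)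
  obtain ⟨N0, c0, d0⟩ := hN 0 (by norm_num)
  obtain ⟨N1, c1, d1⟩ := hN 1 (by norm_num)
  obtain ⟨N2, c2, d2⟩ := hN 2 (by norm_num)
  obtain ⟨N3, c3, d3⟩ := hN 3 (by norm_num)
  obtain ⟨N4, c4, d4⟩ := hN 4 (by norm_num)
  obtain ⟨N5, c5, d5⟩ := hN 5 (by norm_num)
  obtain ⟨N6, c6, d6⟩ := hN 6 (by norm_num)
  have s0 := step1 (v := v) (κ := κ) hm (ht 0) (hi 0 (by norm_num)) (hi 1 (by norm_num)) c0 d0 c1 d1
  have s1 := step1 (v := v) (κ := κ) hm (ht 1) (hi 1 (by norm_num)) (hi 2 (by norm_num)) c1 d1 c2 d2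
  have s2 := step1 (v := v) (κ := κ) hm (ht 2) (hi 2 (by norm_num)) (hi 3 (by norm_num)) c2 d2 c3 d3
  have s3 := step1 (v := v) (κ := κ) hm (ht 3) (hi 3 (by norm_num)) (hi 4 (by norm_num)) c3 d3 c4 d4
  have s4 := step1 (v := v) (κ := κ) hm (ht 4) (hi 4 (by norm_num)) (hi 5 (by norm_num)) c4 d4 c5 d5
  have s5 := step1 (v := v) (κ := κ) hm (ht 5) (hi 5 (by norm_num)) (hi 6 (by norm_num)) c5 d5 c6 d6
  have ha0 : a + ((0 : ℕ) : ℝ) * (Real.pi / 3) = a := by simp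
  have ha6 : a + ((6 : ℕ) : ℝ) * (Real.pi / 3) = a + 2 * Real.pi := by push_cast; ring
  have h60 : N6 % 3 = N0 % 3 := by
    have h1 := hi 6 (by norm_num)
    have h2 := hi 0 (by norm_num)
    rw [ha6, e_add_two_pi] at h1
    rw [ha0] at h2
    have h3 : i 6 = i 0 := S.disj _ _ _ h1 h2
    rw [h3, c0] at c6
    exact kk_eq (hκ c6.symm)
  rw [ha0] at d0
  rw [ha6] at d6
  have hw0 := win_near d0
  have hw6 := win_near d6
  rw [hw0, hw6] at hne
  have fin : ∀ ε : ℤ, (ε = 1 ∨ ε = 2) → N1 = N0 + (3 * m + ε) → N2 = N1 + (3 * m + ε) →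
      N3 = N2 + (3 * m + ε) → N4 = N3 + (3 * m + ε) → N5 = N4 + (3 * m + ε) →
      N6 = N5 + (3 * m + ε) → ∃ N ε : ℤ, (ε = 1 ∨ ε = 2) ∧ |f a - N| < 1 / 2 ∧
      |f (a + 2 * Real.pi) - (N + 18 * m + 6 * ε)| < 1 / 2 ∧
      ∀ j : ℕ, j ≤ 6 → S.c (i j) = κ (kk (N + j * (3 * m + ε))) := by
    intro ε hε e1 e2 e3 e4 e5 e6
    refine ⟨N0, ε, hε, d0, ?_, ?_⟩
    · have : (N6 : ℝ) = N0 + 18 * m + 6 * ε := by
        have h : N6 = N0 + 18 * m + 6 * ε := by omega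
        exact_mod_cast h
      rw [← this]; exact d6
    · intro j hj
      interval_cases j
      · rw [c0]; congr 2; push_cast; ring
      · rw [c1]; congr 2; push_cast; linarith
      · rw [c2]; congr 2; push_cast; linarith
      · rw [c3]; congr 2; push_cast; linarith
      · rw [c4]; congr 2; push_cast; linarith
      · rw [c5]; congr 2; push_cast; linarith
      · rw [c6]; congr 2; push_cast; linarith
  have hcase : (N1 = N0 + (3 * m + 1) ∧ N2 = N1 + (3 * m + 1) ∧ N3 = N2 + (3 * m + 1) ∧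
      N4 = N3 + (3 * m + 1) ∧ N5 = N4 + (3 * m + 1) ∧ N6 = N5 + (3 * m + 1)) ∨
      (N1 = N0 + (3 * m + 2) ∧ N2 = N1 + (3 * m + 2) ∧ N3 = N2 + (3 * m + 2) ∧
      N4 = N3 + (3 * m + 2) ∧ N5 = N4 + (3 * m + 2) ∧ N6 = N5 + (3 * m + 2)) := by
    have hne' : N6 ≠ N0 + 18 * m + 9 := by
      intro h
      apply hne
      omega
    clear hne hw0 hw6 d0 d1 d2 d3 d4 d5 d6 c0 c1 c2 c3 c4 c5 c6
    omega
  rcases hcase with ⟨e1, e2, e3, e4, e5, e6⟩ | ⟨e1, e2, e3, e4, e5, e6⟩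
  · exact fin 1 (Or.inl rfl) e1 e2 e3 e4 e5 e6
  · exact fin 2 (Or.inr rfl) e1 e2 e3 e4 e5 e6

/-- the germs just after `t` -/
theorem ev_gp {t : ℝ} {g : ℕ → S.ι} (hg : ∀ j : ℕ, j ≤ 6 → S.gp v (v + e (t + j * (Real.pi / 3))) (g j)) :
    ∀ᶠ h in 𝓝[>] (0 : ℝ), ∀ j : ℕ, j ≤ 6 → v + e (t + h + j * (Real.pi / 3)) ∈ S.T (g j) := by
  have h1 : ∀ᶠ h in 𝓝[>] (0 : ℝ), ∀ j ∈ Finset.range 7,
      v + e (t + h + j * (Real.pi / 3)) ∈ S.T (g j) := by
    rw [Filter.eventually_all_finset]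
    intro j hj
    have h2 := hg j (by have := Finset.mem_range.1 hj; omega)
    filter_upwards [h2] with h hh
    have e1 : v + (v + e (t + j * (Real.pi / 3)) - v) * e h =
        v + e (t + h + j * (Real.pi / 3)) := by
      rw [add_sub_cancel_left, ← e_add]
      congr 2
      ring
    rwa [e1] at hh
  filter_upwards [h1] with h hh j hj
  exact hh j (Finset.mem_range.2 (by omega))

/-- the germs just before `t` -/
theorem ev_gm {t : ℝ} {g : ℕ → S.ι} (hg : ∀ j : ℕ, j ≤ 6 → S.gm v (v + e (t + j * (Real.pi / 3))) (g j)) :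
    ∀ᶠ h in 𝓝[>] (0 : ℝ), ∀ j : ℕ, j ≤ 6 → v + e (t - h + j * (Real.pi / 3)) ∈ S.T (g j) := by
  have h1 : ∀ᶠ h in 𝓝[>] (0 : ℝ), ∀ j ∈ Finset.range 7,
      v + e (t - h + j * (Real.pi / 3)) ∈ S.T (g j) := by
    rw [Filter.eventually_all_finset]
    intro j hj
    have h2 := hg j (by have := Finset.mem_range.1 hj; omega)
    filter_upwards [h2] with h hh
    have e1 : v + (v + e (t + j * (Real.pi / 3)) - v) * e (-h) =
        v + e (t - h + j * (Real.pi / 3)) := by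
      rw [add_sub_cancel_left, ← e_add]
      congr 2
      ring
    rwa [e1] at hh
  filter_upwards [h1] with h hh j hj
  exact hh j (Finset.mem_range.2 (by omega))

/-- the sign is the same everywhere -/
theorem const_eps (hv : S.TripleOf v F) (hκ : Function.Injective κ) (hF : ∀ k, κ k ∉ F)
    (hf : S.IsPhase v κ f) {m : ℤ}
    (hm : ∀ t, 3 * (m : ℝ) < f (t + Real.pi / 3) - f t ∧ f (t + Real.pi / 3) - f t < 3 * m + 3)
    (H : ∀ a : ℝ, (∃ i, v + e a ∈ S.T i) → win (f (a + 2 * Real.pi)) - win (f a) ≠ 6 * m + 3) :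
    ∃ ε : ℤ, (ε = 1 ∨ ε = 2) ∧ ∀ (a : ℝ) (i : ℕ → S.ι),
      (∀ j : ℕ, j ≤ 6 → v + e (a + j * (Real.pi / 3)) ∈ S.T (i j)) →
      ∃ N : ℤ, ∀ j : ℕ, j ≤ 6 → S.c (i j) = κ (kk (N + j * (3 * m + ε))) := by
  have H' : ∀ (a : ℝ) (i : ℕ → S.ι), (∀ j : ℕ, j ≤ 6 → v + e (a + j * (Real.pi / 3)) ∈ S.T (i j)) →
      win (f (a + 2 * Real.pi)) - win (f a) ≠ 6 * m + 3 := by
    intro a i hi
    apply H a
    refine ⟨i 0, ?_⟩
    have := hi 0 (by norm_num)
    simpa using this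
  by_cases hE : ∃ (a : ℝ) (i : ℕ → S.ι) (N : ℤ),
      (∀ j : ℕ, j ≤ 6 → v + e (a + j * (Real.pi / 3)) ∈ S.T (i j)) ∧ |f a - N| < 1 / 2 ∧
      |f (a + 2 * Real.pi) - (N + 18 * m + 6 * 1)| < 1 / 2
  · refine ⟨1, Or.inl rfl, ?_⟩
    intro b ib hib
    obtain ⟨Nb, εb, hεb, hb1, hb2, hb3⟩ := steps hv hκ hF hf hm hib (H' b ib hib)
    rcases hεb with rfl | rfl
    · exact ⟨Nb, hb3⟩
    exfalso
    obtain ⟨a, ia, Na, hia, ha1, ha2⟩ := hE
    have hcont : Continuous fun t => f (t + 2 * Real.pi) - f t := by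
      have := hf.1
      fun_prop
    rw [abs_lt] at ha1 ha2 hb1 hb2
    push_cast at hb2
    have hga : f (a + 2 * Real.pi) - f a ≤ 18 * m + 9 := by linarith [ha1.1, ha1.2, ha2.1, ha2.2]
    have hgb : 18 * (m : ℝ) + 9 ≤ f (b + 2 * Real.pi) - f b := by
      linarith [hb1.1, hb1.2, hb2.1, hb2.2]
    obtain ⟨c, hc⟩ := mem_range_of_exists_le_of_exists_ge hcont ⟨a, hga⟩ ⟨b, hgb⟩
    choose g hg using fun j : ℕ => TileSystem.exists_gp (S := S) (dist_e v (c + j * (Real.pi / 3)))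
    have hev := ev_gp (S := S) (v := v) (t := c) (g := g) (fun j _ => hg j)
    have hev2 : ∀ᶠ h in 𝓝[>] (0 : ℝ),
        |f (c + h + 2 * Real.pi) - f (c + h) - (18 * m + 9)| < 1 := by
      have h1 : Tendsto (fun h : ℝ => |f (c + h + 2 * Real.pi) - f (c + h) - (18 * m + 9)|)
          (𝓝[>] 0) (𝓝 0) := by
        have h2 : Continuous fun h : ℝ => |f (c + h + 2 * Real.pi) - f (c + h) - (18 * m + 9)| := by
          have := hf.1
          fun_prop
        have h3 := h2.tendsto 0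
        have h4 : |f (c + 0 + 2 * Real.pi) - f (c + 0) - (18 * m + 9)| = 0 := by
          rw [add_zero]
          have h5 : f (c + 2 * Real.pi) - f c = 18 * m + 9 := hc
          rw [h5, sub_self, abs_zero]
        rw [h4] at h3
        exact h3.mono_left nhdsWithin_le_nhds
      exact h1.eventually (gt_mem_nhds one_pos)
    obtain ⟨h, hh1, hh2⟩ := (hev.and hev2).exists
    obtain ⟨N, ε, hε, k1, k2, k3⟩ := steps hv hκ hF hf hm hh1 (H' _ _ hh1)
    rw [abs_lt] at k1 k2 hh2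
    rcases hε with rfl | rfl
    · push_cast at k2
      linarith [k1.1, k1.2, k2.1, k2.2, hh2.1, hh2.2]
    · push_cast at k2
      linarith [k1.1, k1.2, k2.1, k2.2, hh2.1, hh2.2]
  · refine ⟨2, Or.inr rfl, ?_⟩
    intro b ib hib
    obtain ⟨Nb, εb, hεb, hb1, hb2, hb3⟩ := steps hv hκ hF hf hm hib (H' b ib hib)
    rcases hεb with rfl | rfl
    · exfalso
      apply hE
      exact ⟨b, ib, Nb, hib, hb1, by simpa using hb2⟩
    · exact ⟨Nb, hb3⟩

end sys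

end K10

end Pool.Agent.H923_Poly
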