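import Pool.Agent.H923_Poly.K3
import Pool.Agent.H923_Poly.K1

/-! K5, phases exist. -/

open Complex Filter Topology Set Metric

namespace Pool.Agent.H923_Poly

namespace TileSystem

variable {S : TileSystem}

/-- The parameters at which a color is not a germ color form an open set. -/
theorem isOpen_not_germ (v : ℂ) (a : Fin 6) : IsOpen {t : ℝ | a ∉ S.germColors v (v + e t)} := by
  rw [isOpen_iff_mem_nhds]
  intro t ht
  have ht' : a ∉ S.germColors v (v + e t) := ht
  obtain ⟨i, hi⟩ := exists_gp (S := S) (dist_add_e v t)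
  obtain ⟨j, hj⟩ := exists_gm (S := S) (dist_add_e v t)
  have hci : S.c i ≠ a := fun h => ht' ⟨i, Or.inl hi, h⟩
  have hcj : S.c j ≠ a := fun h => ht' ⟨j, Or.inr hj, h⟩
  have h1 := gp_eventually hi
  have h2 := gm_eventually hj
  rw [eventually_nhdsWithin_iff, Metric.eventually_nhds_iff] at h1 h2
  obtain ⟨r₁, hr₁, h1⟩ := h1
  obtain ⟨r₂, hr₂, h2⟩ := h2
  rw [Metric.mem_nhds_iff]
  refine ⟨min r₁ r₂, lt_min hr₁ hr₂, fun u hu => ?_⟩
  rw [mem_ball, Real.dist_eq, lt_min_iff] at hu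
  rcases lt_trichotomy u t with hlt | rfl | hgt
  · have h3 := h2 (y := t - u) (by rw [Real.dist_eq, sub_zero, abs_sub_comm]; exact hu.2)
      (by rw [mem_Ioi]; linarith)
    have h4 : v + (v + e t - v) * e (-(t - u)) = v + e u := by
      rw [add_sub_cancel_left, ← e_add]; congr 2; ring
    rw [h4] at h3
    rintro ⟨k, hk | hk, rfl⟩
    · exact hcj (by rw [gp_unique hk h3.2.1])
    · exact hcj (by rw [gm_unique hk h3.2.2])
  · exact ht'
  · have h3 := h1 (y := u - t) (by rw [Real.dist_eq, sub_zero]; exact hu.1)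
      (by rw [mem_Ioi]; linarith)
    have h4 : v + (v + e t - v) * e (u - t) = v + e u := by
      rw [add_sub_cancel_left, ← e_add]; congr 2; ring
    rw [h4] at h3
    rintro ⟨k, hk | hk, rfl⟩
    · exact hci (by rw [gp_unique hk h3.2.1])
    · exact hci (by rw [gm_unique hk h3.2.2])

/-- K5. Phases exist. -/
theorem exists_phase {v : ℂ} {F : Finset (Fin 6)} (hv : S.TripleOf v F) (κ : Fin 3 → Fin 6) (hκ : Function.Injective κ)
    (hF : ∀ k, κ k ∉ F) : ∃ f : ℝ → ℝ, S.IsPhase v κ f := by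
  have h1 : ∀ k, IsClosed {z : ℂ | κ k ∈ S.germColors v (v + e z.re)} := by
    intro k
    rw [← isOpen_compl_iff]
    exact (isOpen_not_germ v (κ k)).preimage Complex.continuous_re
  have h2 : ∀ z : ℂ, ∃ k, z ∈ {z : ℂ | κ k ∈ S.germColors v (v + e z.re)} := by
    intro z
    obtain ⟨i, hi⟩ := exists_gp (S := S) (dist_add_e v z.re)
    obtain ⟨k, hk⟩ := exists_kappa hv.1 hκ hF (hv.gp_not_mem (dist_add_e v z.re) hi)
    exact ⟨k, i, Or.inl hi, hk.symm⟩
  have h3 : ∀ z : ℂ, ¬ (z ∈ {z : ℂ | κ 0 ∈ S.germColors v (v + e z.re)} ∧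
      z ∈ {z : ℂ | κ 1 ∈ S.germColors v (v + e z.re)} ∧ z ∈ {z : ℂ | κ 2 ∈ S.germColors v (v + e z.re)}) := by
    rintro z ⟨⟨i, hi, hci⟩, ⟨j, hj, hcj⟩, ⟨l, hl, hcl⟩⟩
    have h01 : i ≠ j := by
      rintro rfl
      exact absurd (hκ (hci.symm.trans hcj)) (by decide)
    have h02 : i ≠ l := by
      rintro rfl
      exact absurd (hκ (hci.symm.trans hcl)) (by decide)
    have h12 : j ≠ l := by
      rintro rfl
      exact absurd (hκ (hcj.symm.trans hcl)) (by decide)
    rcases hi with hi | hi <;> rcases hj with hj | hj <;> rcases hl with hl | hl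
    · exact h01 (gp_unique hi hj)
    · exact h01 (gp_unique hi hj)
    · exact h02 (gp_unique hi hl)
    · exact h12 (gm_unique hj hl)
    · exact h12 (gp_unique hj hl)
    · exact h02 (gm_unique hi hl)
    · exact h01 (gm_unique hi hj)
    · exact h01 (gm_unique hi hj)
  obtain ⟨φ, hφ, hφ'⟩ := exists_phase_plane
    (fun k => {z : ℂ | κ k ∈ S.germColors v (v + e z.re)}) h1 h2 h3
  exact ⟨fun t => φ t, hφ.comp Complex.continuous_ofReal, fun t k => hφ' (t : ℂ) k⟩

end TileSystem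

end Pool.Agent.H923_Poly
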