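import Pool.Agent.H923_Poly.K3
import Pool.Agent.H923_Poly.K5

/-! K9: two triple points of the same type at distance less than two are at distance less than one. -/

open Complex Filter Topology Set Metric

namespace Pool.Agent.H923_Poly

namespace K9

/-- a continuous function on `[1,2]` avoiding the multiples of three stays in one interval -/
theorem stay {h : ℝ → ℝ} (hc : ContinuousOn h (Icc 1 2))
    (hn : ∀ r ∈ Icc (1 : ℝ) 2, ∀ n : ℤ, h r ≠ 3 * n) :
    ∃ m : ℤ, ∀ r ∈ Icc (1 : ℝ) 2, 3 * (m : ℝ) < h r ∧ h r < 3 * m + 3 := by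
  have h1 : (1 : ℝ) ∈ Icc (1 : ℝ) 2 := ⟨le_rfl, by norm_num⟩
  refine ⟨⌊h 1 / 3⌋, fun r hr => ?_⟩
  set m := ⌊h 1 / 3⌋ with hm
  have hm1 : 3 * (m : ℝ) ≤ h 1 := by
    have := Int.floor_le (h 1 / 3)
    linarith
  have hm2 : h 1 < 3 * m + 3 := by
    have := Int.lt_floor_add_one (h 1 / 3)
    linarith
  have hpre : IsPreconnected (Icc (1 : ℝ) 2) := isPreconnected_Icc
  constructor
  · by_contra hcon
    push Not at hcon
    obtain ⟨s, hs, hs'⟩ := hpre.intermediate_value hr h1 hc ⟨hcon, hm1⟩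
    exact hn s hs m hs'
  · by_contra hcon
    push Not at hcon
    obtain ⟨s, hs, hs'⟩ := hpre.intermediate_value h1 hr hc ⟨hm2.le, hcon⟩
    exact hn s hs (m + 1) (by rw [hs']; push_cast; ring)

theorem norm_one_of {z : ℂ} (h : z.re ^ 2 + z.im ^ 2 = 1) : ‖z‖ = 1 := by
  have h1 : ‖z‖ ^ 2 = 1 := by
    rw [Complex.sq_norm, Complex.normSq_apply]
    linarith
  have h2 := norm_nonneg z
  nlinarith

theorem unit_dist {r x : ℝ} (h : Real.cos x = r / 2) : ‖(r : ℂ) - e x‖ = 1 := by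
  apply norm_one_of
  simp only [Complex.sub_re, Complex.ofReal_re, Complex.sub_im, Complex.ofReal_im, e_re, e_im]
  have := Real.sin_sq_add_cos_sq x
  have hr : r = 2 * Real.cos x := by linarith
  rw [hr]
  nlinarith

theorem dist_aux {v y : ℂ} {r ψ θ δ : ℝ} (h : v + (r : ℂ) * e ψ = y + e θ) (hδ : Real.cos δ = r / 2) :
    dist (y + e θ) (v + e (ψ + δ)) = 1 := by
  rw [← h, dist_eq_norm, add_sub_add_left_eq_sub, e_add]
  have : (r : ℂ) * e ψ - e ψ * e δ = e ψ * ((r : ℂ) - e δ) := by ring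
  rw [this, norm_mul, norm_e, one_mul]
  exact unit_dist hδ

theorem geom {v y : ℂ} {d : ℝ} (hd : dist v y = d) (h1 : 1 < d) (h2 : d < 2) :
    ∃ ψ θ δ : ℝ → ℝ, ContinuousOn ψ (Icc 1 2) ∧ ContinuousOn θ (Icc 1 2) ∧ ContinuousOn δ (Icc 1 2) ∧
      δ 2 = 0 ∧ δ 1 = Real.pi / 3 ∧ ∀ r ∈ Icc (1 : ℝ) 2, v + (r : ℂ) * e (ψ r) = y + e (θ r) ∧
        Real.cos (δ r) = r / 2 := by
  have hd0 : (d : ℂ) ≠ 0 := by
    have : d ≠ 0 := by linarith
    exact_mod_cast this
  have hn : ‖(y - v) / (d : ℂ)‖ = 1 := by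
    rw [norm_div, Complex.norm_real, Real.norm_eq_abs, abs_of_pos (by linarith), ← dist_eq_norm,
      dist_comm, hd, div_self (by linarith)]
  obtain ⟨φ, hφ⟩ := exists_e hn
  have hy : y = v + (d : ℂ) * e φ := by
    rw [← hφ]; field_simp; ring
  set ca : ℝ → ℝ := fun r => (r ^ 2 + d ^ 2 - 1) / (2 * r * d) with hca
  set cb : ℝ → ℝ := fun r => (1 + d ^ 2 - r ^ 2) / (2 * d) with hcb
  refine ⟨fun r => φ + Real.arccos (ca r), fun r => φ + (Real.pi - Real.arccos (cb r)),
    fun r => Real.arccos (r / 2), ?_, ?_, ?_, ?_, ?_, ?_⟩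
  · refine continuousOn_const.add (Real.continuous_arccos.comp_continuousOn ?_)
    refine ContinuousOn.div (by fun_prop) (by fun_prop) ?_
    intro r hr
    have : 0 < 2 * r * d := by
      have := hr.1
      positivity
    exact this.ne'
  · refine continuousOn_const.add (continuousOn_const.sub (Real.continuous_arccos.comp_continuousOn ?_))
    refine ContinuousOn.div (by fun_prop) (by fun_prop) ?_
    intro r hr
    have : 0 < 2 * d := by positivity
    exact this.ne'
  · exact Real.continuous_arccos.comp_continuousOn (by fun_prop)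
  · simp
  · have : Real.arccos (1 / 2) = Real.pi / 3 := by
      rw [← Real.cos_pi_div_three]
      exact Real.arccos_cos (by positivity) (by linarith [Real.pi_pos])
    exact this
  · intro r hr
    obtain ⟨hr1, hr2⟩ := hr
    have hr0 : 0 < r := by linarith
    have hd0' : 0 < d := by linarith
    have ha1 : ca r ≤ 1 := by
      rw [hca]
      simp only
      rw [div_le_one (by positivity)]
      nlinarith
    have ha0 : -1 ≤ ca r := by
      have : 0 ≤ ca r := by
        rw [hca]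
        simp only
        apply div_nonneg _ (by positivity)
        nlinarith
      linarith
    have hb1 : cb r ≤ 1 := by
      rw [hcb]
      simp only
      rw [div_le_one (by positivity)]
      nlinarith
    have hb0 : -1 ≤ cb r := by
      rw [hcb]
      simp only
      rw [le_div_iff₀ (by positivity)]
      nlinarith
    have hcα : Real.cos (Real.arccos (ca r)) = ca r := Real.cos_arccos ha0 ha1
    have hcβ : Real.cos (Real.arccos (cb r)) = cb r := Real.cos_arccos hb0 hb1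
    have hsα : 0 ≤ Real.sin (Real.arccos (ca r)) :=
      Real.sin_nonneg_of_nonneg_of_le_pi (Real.arccos_nonneg _) (Real.arccos_le_pi _)
    have hsβ : 0 ≤ Real.sin (Real.arccos (cb r)) :=
      Real.sin_nonneg_of_nonneg_of_le_pi (Real.arccos_nonneg _) (Real.arccos_le_pi _)
    set α := Real.arccos (ca r) with hα
    set β := Real.arccos (cb r) with hβ
    have hre : r * Real.cos α = d - Real.cos β := by
      rw [hcα, hcβ, hca, hcb]
      field_simp
      ring
    have him : r * Real.sin α = Real.sin β := by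
      have e1 : (r * Real.sin α) ^ 2 = (Real.sin β) ^ 2 := by
        have s1 := Real.sin_sq_add_cos_sq α
        have s2 := Real.sin_sq_add_cos_sq β
        have e2 : (r * Real.sin α) ^ 2 = r ^ 2 - (r * Real.cos α) ^ 2 := by
          have : Real.sin α ^ 2 = 1 - Real.cos α ^ 2 := by linarith
          rw [mul_pow, this]; ring
        have e3 : 2 * d * Real.cos β = 1 + d ^ 2 - r ^ 2 := by
          rw [hcβ, hcb]
          field_simp
        rw [e2, hre]
        have : Real.sin β ^ 2 = 1 - Real.cos β ^ 2 := by linarith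
        rw [this]
        nlinarith
      exact (sq_eq_sq₀ (by positivity) hsβ).1 e1
    refine ⟨?_, ?_⟩
    · simp only
      rw [hy, e_add, e_add]
      have key : (r : ℂ) * e α = (d : ℂ) + e (Real.pi - β) := by
        apply Complex.ext
        · rw [Complex.re_ofReal_mul, e_re, Complex.add_re, Complex.ofReal_re, e_re,
            Real.cos_pi_sub, hre]
          ring
        · rw [Complex.im_ofReal_mul, e_im, Complex.add_im, Complex.ofReal_im, e_im,
            Real.sin_pi_sub, him]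
          ring
      have : v + (r : ℂ) * (e φ * e α) = v + e φ * ((r : ℂ) * e α) := by ring
      rw [this, key]
      ring
    · exact Real.cos_arccos (by linarith) (by linarith)

theorem lab_eq {x : ℝ} {n n' : ℤ} {k l : Fin 3} (h : |x - (3 * n + (k : ℕ))| < 1 / 2)
    (h' : |x - (3 * n' + (l : ℕ))| ≤ 1 / 2) : l = k := by
  rw [abs_lt] at h
  rw [abs_le] at h'
  have h1 : ((3 * n + (k : ℕ) : ℤ) : ℝ) < ((3 * n' + (l : ℕ) + 1 : ℤ) : ℝ) := by
    push_cast
    linarith [h.1, h.2, h'.1, h'.2]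
  have h2 : ((3 * n' + (l : ℕ) : ℤ) : ℝ) < ((3 * n + (k : ℕ) + 1 : ℤ) : ℝ) := by
    push_cast
    linarith [h.1, h.2, h'.1, h'.2]
  have h3 : (3 * n + (k : ℕ) : ℤ) < 3 * n' + (l : ℕ) + 1 := by exact_mod_cast h1
  have h4 : (3 * n' + (l : ℕ) : ℤ) < 3 * n + (k : ℕ) + 1 := by exact_mod_cast h2
  apply Fin.ext
  have hk := k.2
  have hl := l.2
  omega

variable {S : TileSystem}

theorem germ_not_mem {v x : ℂ} {F : Finset (Fin 6)} (h : S.TripleOf v F) (hx : dist x v = 1)
    {a : Fin 6} (ha : a ∈ S.germColors v x) : a ∉ F := by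
  obtain ⟨i, hi | hi, rfl⟩ := ha
  · exact h.gp_not_mem hx hi
  · exact h.gm_not_mem hx hi

theorem germ_at {v x : ℂ} {a : Fin 6} (ha : a ∈ S.germColors v x) : ∃ i, S.At x i ∧ S.c i = a := by
  obtain ⟨i, hi | hi, rfl⟩ := ha
  · exact ⟨i, TileSystem.gp_at hi, rfl⟩
  · exact ⟨i, TileSystem.gm_at hi, rfl⟩

/-- if the phase is strictly within `1/2` of `3 n + k` then the germ colors are `{κ k}` -/
theorem germ_single {v : ℂ} {F : Finset (Fin 6)} (hv : S.TripleOf v F) {κ : Fin 3 → Fin 6}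
    (hon : ∀ a, a ∉ F → ∃ k, a = κ k) {f : ℝ → ℝ} (hf : S.IsPhase v κ f) {t : ℝ} {n : ℤ}
    {k : Fin 3} (h : |f t - (3 * n + (k : ℕ))| < 1 / 2) : S.germColors v (v + e t) = {κ k} := by
  have hx : dist (v + e t) v = 1 := by
    rw [dist_eq_norm, add_sub_cancel_left, norm_e]
  ext a
  constructor
  · intro ha
    obtain ⟨l, rfl⟩ := hon a (germ_not_mem hv hx ha)
    obtain ⟨n', hn'⟩ := (hf.2 t l).1 ha
    have := lab_eq h hn'
    rw [this]; rfl
  · intro ha
    rw [mem_singleton_iff] at ha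
    rw [ha]
    exact (hf.2 t k).2 ⟨n, h.le⟩

/-- the key step at the common point of the two circles: for a point at distance one from it the phase does not
meet the interval between the two phases modulo three -/
theorem no_mult {v y : ℂ} {F : Finset (Fin 6)} (hv : S.TripleOf v F) (hy : S.TripleOf y F)
    (hd : dist v y < 2) {κ : Fin 3 → Fin 6} (hκ : Function.Injective κ) (hF : ∀ k, κ k ∉ F)
    (hon : ∀ a, a ∉ F → ∃ k, a = κ k) {f g : ℝ → ℝ} (hf : S.IsPhase v κ f) (hg : S.IsPhase y κ g)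
    {ψ θ : ℝ} (hp : v + e ψ = y + e θ) {n n' : ℤ} {k : Fin 3}
    (hu : |f ψ - (3 * n + (k : ℕ))| ≤ 1 / 2) (hu' : |g θ - (3 * n' + (k : ℕ))| ≤ 1 / 2) {t : ℝ}
    (ht : dist (v + e ψ) (v + e t) = 1) (j : ℤ)
    (hj : f t + 3 * j ∈ uIcc (f ψ) (g θ + 3 * (n - n'))) : False := by
  have dv : ∀ s : ℝ, dist (v + e s) v = 1 := fun s => by
    rw [dist_eq_norm, add_sub_cancel_left, norm_e]
  have dy : dist (v + e ψ) y = 1 := by
    rw [hp, dist_eq_norm, add_sub_cancel_left, norm_e]
  have hd3 : dist v y < 3 := by linarith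
  have hvv : dist v v < 3 := by rw [dist_self]; norm_num
  have k1 := TileSystem.phase_sub_ne hv hv hvv hκ hF hf hf ht
  have k2 := TileSystem.phase_sub_ne hv hy hd3 hκ hF hf hg (s := θ) (t := t) (by rw [← hp]; exact ht)
  have hne1 : f t + 3 * j ≠ f ψ := by
    intro h
    apply k1 (-j)
    push_cast; linarith
  have hne2 : f t + 3 * j ≠ g θ + 3 * (n - n') := by
    intro h
    apply k2 (n - n' - j)
    push_cast; linarith
  rw [abs_le] at hu hu'
  -- strictly inside
  have hin : |f t - (3 * ((n - j : ℤ) : ℝ) + (k : ℕ))| < 1 / 2 := by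
    rw [mem_uIcc] at hj
    push_cast
    rw [abs_lt]
    rcases hj with ⟨a1, a2⟩ | ⟨a1, a2⟩
    · have b1 := lt_of_le_of_ne a1 (Ne.symm hne1)
      have b2 := lt_of_le_of_ne a2 hne2
      constructor <;> linarith [hu.1, hu.2, hu'.1, hu'.2]
    · have b1 := lt_of_le_of_ne a1 (Ne.symm hne2)
      have b2 := lt_of_le_of_ne a2 hne1
      constructor <;> linarith [hu.1, hu.2, hu'.1, hu'.2]
  have hb := germ_single hv hon hf hin
  have st1 := TileSystem.static hv hv hvv (a := v + e ψ) (b := v + e t) (dv ψ) (dv t) ht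
  have st2 := TileSystem.static hv hy hd3 (a := v + e ψ) (b := v + e t) dy (dv t) ht
  rw [hb] at st1 st2
  have u1 : ¬ |f ψ - (3 * n + (k : ℕ))| < 1 / 2 := fun h => st1 (germ_single hv hon hf h)
  have u2 : ¬ |g θ - (3 * n' + (k : ℕ))| < 1 / 2 := by
    intro h
    apply st2
    have := germ_single hy hon hg h
    rw [← hp] at this
    exact this
  -- so the two phases are the two end points
  have hends : (f ψ = 3 * n + (k : ℕ) + 1 / 2 ∧ g θ = 3 * n' + (k : ℕ) - 1 / 2) ∨
      (f ψ = 3 * n + (k : ℕ) - 1 / 2 ∧ g θ = 3 * n' + (k : ℕ) + 1 / 2) := by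
    have c1 : f ψ = 3 * n + (k : ℕ) + 1 / 2 ∨ f ψ = 3 * n + (k : ℕ) - 1 / 2 := by
      rw [not_lt, le_abs] at u1
      rcases u1 with h | h
      · left; linarith [hu.1, hu.2]
      · right; linarith [hu.1, hu.2]
    have c2 : g θ = 3 * n' + (k : ℕ) + 1 / 2 ∨ g θ = 3 * n' + (k : ℕ) - 1 / 2 := by
      rw [not_lt, le_abs] at u2
      rcases u2 with h | h
      · left; linarith [hu'.1, hu'.2]
      · right; linarith [hu'.1, hu'.2]
    have hne : f ψ ≠ g θ + 3 * (n - n') := by
      intro h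
      rw [← h, uIcc_self, mem_singleton_iff] at hj
      exact hne1 hj
    rcases c1 with c1 | c1 <;> rcases c2 with c2 | c2
    · exact absurd (by rw [c1, c2]; ring) hne
    · exact Or.inl ⟨c1, c2⟩
    · exact Or.inr ⟨c1, c2⟩
    · exact absurd (by rw [c1, c2]; ring) hne
  -- all three colors are at the common point
  have htri : S.TripleOf (v + e ψ) Fᶜ := by
    refine ⟨?_, ?_⟩
    · rw [Finset.card_compl, hv.1]; rfl
    · intro a ha
      rw [Finset.mem_compl] at ha
      obtain ⟨l, rfl⟩ := hon a ha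
      obtain ⟨M, hM, n₂, hn₂⟩ : ∃ M : ℤ, (M = 3 * n + (k : ℕ) - 1 ∨ M = 3 * n + (k : ℕ) ∨
          M = 3 * n + (k : ℕ) + 1) ∧ ∃ n₂ : ℤ, M = 3 * n₂ + (l : ℕ) := by
        have hk := k.2
        have hl := l.2
        have h3 : ((k : ℕ) - (l : ℕ) : ℤ) % 3 = 0 ∨ ((k : ℕ) - (l : ℕ) : ℤ) % 3 = 1 ∨
            ((k : ℕ) - (l : ℕ) : ℤ) % 3 = 2 := by omega
        rcases h3 with h | h | h
        · exact ⟨_, Or.inr (Or.inl rfl), (3 * n + (k : ℕ) - (l : ℕ)) / 3, by omega⟩
        · exact ⟨_, Or.inl rfl, (3 * n + (k : ℕ) - 1 - (l : ℕ)) / 3, by omega⟩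
        · exact ⟨_, Or.inr (Or.inr rfl), (3 * n + (k : ℕ) + 1 - (l : ℕ)) / 3, by omega⟩
      have hMr : (M : ℝ) = 3 * n₂ + (l : ℕ) := by rw [hn₂]; push_cast; ring
      -- membership from either circle
      have fromv : |f ψ - M| ≤ 1 / 2 → ∃ i, S.At (v + e ψ) i ∧ S.c i = κ l := by
        intro h
        exact germ_at ((hf.2 ψ l).2 ⟨n₂, by rw [← hMr]; exact h⟩)
      have fromy : |g θ + 3 * (n - n') - M| ≤ 1 / 2 → ∃ i, S.At (v + e ψ) i ∧ S.c i = κ l := by
        intro h
        have h1 : κ l ∈ S.germColors y (y + e θ) := by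
          refine (hg.2 θ l).2 ⟨n₂ - (n - n'), ?_⟩
          push_cast
          rw [hMr] at h
          have e1 : g θ + 3 * ((n : ℝ) - n') - (3 * n₂ + (l : ℕ))
            = g θ - (3 * ((n₂ : ℝ) - (n - n')) + (l : ℕ)) := by ring
          rw [e1] at h
          exact h
        rw [hp]
        exact germ_at h1
      have hMv : (M : ℝ) = 3 * n + (k : ℕ) - 1 ∨ (M : ℝ) = 3 * n + (k : ℕ) ∨
          (M : ℝ) = 3 * n + (k : ℕ) + 1 := by
        rcases hM with h | h | h
        · left; rw [h]; push_cast; ring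
        · right; left; rw [h]; push_cast; ring
        · right; right; rw [h]; push_cast; ring
      rcases hends with ⟨c1, c2⟩ | ⟨c1, c2⟩
      · rcases hMv with h | h | h
        · apply fromy
          rw [c2, h]; rw [abs_le]; constructor <;> linarith
        · apply fromv
          rw [c1, h]; rw [abs_le]; constructor <;> linarith
        · apply fromv
          rw [c1, h]; rw [abs_le]; constructor <;> linarith
      · rcases hMv with h | h | h
        · apply fromv
          rw [c1, h]; rw [abs_le]; constructor <;> linarith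
        · apply fromv
          rw [c1, h]; rw [abs_le]; constructor <;> linarith
        · apply fromy
          rw [c2, h]; rw [abs_le]; constructor <;> linarith
  have := TileSystem.stepB hv htri
  rw [dist_comm, dv ψ] at this
  norm_num at this

/-- K9. Step D. -/
theorem _root_.Pool.Agent.H923_Poly.TileSystem.stepD {v y : ℂ} {F : Finset (Fin 6)} (hv : S.TripleOf v F) (hy : S.TripleOf y F)
    (hd : dist v y < 2) : dist v y < 1 := by
  by_contra hcon
  push Not at hcon
  rcases hcon.eq_or_lt with h1 | h1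
  · -- distance one
    have hx : dist y v = 1 := by rw [dist_comm]; exact h1.symm
    obtain ⟨i, hi⟩ := TileSystem.exists_gp (S := S) hx
    exact hv.gp_not_mem hx hi (hy.mem (TileSystem.gp_at hi))
  -- colors of the complement
  have hcard : (Fᶜ : Finset (Fin 6)).card = 3 := by
    rw [Finset.card_compl, hv.1]; rfl
  set κ : Fin 3 → Fin 6 := fun k => (Fᶜ : Finset (Fin 6)).orderEmbOfFin hcard k with hκdef
  have hκ : Function.Injective κ := ((Fᶜ : Finset (Fin 6)).orderEmbOfFin hcard).injective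
  have hF : ∀ k, κ k ∉ F := by
    intro k
    have := Finset.orderEmbOfFin_mem (Fᶜ : Finset (Fin 6)) hcard k
    rw [Finset.mem_compl] at this
    exact this
  have hon : ∀ a, a ∉ F → ∃ k, a = κ k := by
    intro a ha
    have h2 : a ∈ Set.range ((Fᶜ : Finset (Fin 6)).orderEmbOfFin hcard) := by
      rw [Finset.range_orderEmbOfFin]
      simpa using ha
    obtain ⟨k, hk⟩ := h2
    exact ⟨k, hk.symm⟩
  obtain ⟨f, hf⟩ := TileSystem.exists_phase hv κ hκ hF
  obtain ⟨g, hg⟩ := TileSystem.exists_phase hy κ hκ hF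
  obtain ⟨m, hm⟩ := TileSystem.stepC hv hκ hF hf
  obtain ⟨ψ, θ, δ, cψ, cθ, cδ, hδ2, hδ1, hgeo⟩ := geom rfl h1 hd
  have hd3 : dist v y < 3 := by linarith
  have i1 : (1 : ℝ) ∈ Icc (1 : ℝ) 2 := ⟨le_rfl, by norm_num⟩
  have i2 : (2 : ℝ) ∈ Icc (1 : ℝ) 2 := ⟨by norm_num, le_rfl⟩
  have dplus : ∀ r ∈ Icc (1 : ℝ) 2, dist (y + e (θ r)) (v + e (ψ r + δ r)) = 1 := fun r hr =>
    dist_aux (hgeo r hr).1 (hgeo r hr).2
  have dminus : ∀ r ∈ Icc (1 : ℝ) 2, dist (y + e (θ r)) (v + e (ψ r + -δ r)) = 1 := fun r hr =>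
    dist_aux (hgeo r hr).1 (by rw [Real.cos_neg]; exact (hgeo r hr).2)
  obtain ⟨m₁, hm₁⟩ := stay (h := fun r => f (ψ r + δ r) - g (θ r))
    ((hf.1.comp_continuousOn (cψ.add cδ)).sub (hg.1.comp_continuousOn cθ)) (fun r hr n =>
      TileSystem.phase_sub_ne hv hy hd3 hκ hF hf hg (dplus r hr) n)
  obtain ⟨m₂, hm₂⟩ := stay (h := fun r => g (θ r) - f (ψ r + -δ r))
    ((hg.1.comp_continuousOn cθ).sub (hf.1.comp_continuousOn (cψ.add cδ.neg))) (fun r hr n => by
      intro hcon
      apply TileSystem.phase_sub_ne hv hy hd3 hκ hF hf hg (dminus r hr) (-n)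
      push_cast; linarith)
  -- the value at `r = 2`
  have hsum : m₁ + m₂ = -1 := by
    have e1 := hm₁ 2 i2
    have e2 := hm₂ 2 i2
    simp only [hδ2, neg_zero, add_zero] at e1 e2
    have e3 : ((m₁ + m₂ : ℤ) : ℝ) < ((0 : ℤ) : ℝ) := by push_cast; linarith [e1.1, e2.1]
    have e4 : ((-2 : ℤ) : ℝ) < ((m₁ + m₂ : ℤ) : ℝ) := by push_cast; linarith [e1.2, e2.2]
    have e5 : m₁ + m₂ < 0 := by exact_mod_cast e3
    have e6 : -2 < m₁ + m₂ := by exact_mod_cast e4
    omega
  -- the value at `r = 1`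
  have hp : v + e (ψ 1) = y + e (θ 1) := by
    have := (hgeo 1 i1).1
    simpa using this
  have hpv : dist (v + e (ψ 1)) v = 1 := by rw [dist_eq_norm, add_sub_cancel_left, norm_e]
  have hpy : dist (v + e (ψ 1)) y = 1 := by rw [hp, dist_eq_norm, add_sub_cancel_left, norm_e]
  have hvy : v ≠ y := by
    intro h
    rw [h, dist_self] at h1
    norm_num at h1
  obtain ⟨a, ha1, ha2⟩ : ∃ a, a ∈ S.germColors v (v + e (ψ 1)) ∧ a ∈ S.germColors y (v + e (ψ 1)) := by
    by_contra hno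
    push Not at hno
    obtain ⟨i₁, hi₁⟩ := TileSystem.exists_gp (S := S) hpv
    obtain ⟨i₂, hi₂⟩ := TileSystem.exists_gm (S := S) hpv
    obtain ⟨j₁, hj₁⟩ := TileSystem.exists_gp (S := S) hpy
    obtain ⟨j₂, hj₂⟩ := TileSystem.exists_gm (S := S) hpy
    refine TileSystem.crossing hpv hpy hvy hd {i | S.c i ∈ S.germColors v (v + e (ψ 1))} hi₁ hi₂ hj₁ hj₂
      ⟨i₁, Or.inl hi₁, rfl⟩ ⟨i₂, Or.inr hi₂, rfl⟩ ?_ ?_
    · intro h
      exact hno _ h ⟨j₁, Or.inl hj₁, rfl⟩
    · intro h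
      exact hno _ h ⟨j₂, Or.inr hj₂, rfl⟩
  obtain ⟨k, rfl⟩ := hon a (germ_not_mem hv hpv ha1)
  obtain ⟨n, hn⟩ := (hf.2 (ψ 1) k).1 ha1
  rw [hp] at ha2
  obtain ⟨n', hn'⟩ := (hg.2 (θ 1) k).1 ha2
  have d1 : dist (v + e (ψ 1)) (v + e (ψ 1 + Real.pi / 3)) = 1 := by
    have := dplus 1 i1
    rw [hδ1, ← hp] at this
    exact this
  have d2 : dist (v + e (ψ 1)) (v + e (ψ 1 + -(Real.pi / 3))) = 1 := by
    have := dminus 1 i1
    rw [hδ1, ← hp] at this
    exact this
  have n1 := no_mult hv hy hd hκ hF hon hf hg hp hn hn' d1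
  have n2 := no_mult hv hy hd hκ hF hon hf hg hp hn hn' d2
  have q1 := hm (ψ 1)
  have q2 := hm (ψ 1 + -(Real.pi / 3))
  have e0 : ψ 1 + -(Real.pi / 3) + Real.pi / 3 = ψ 1 := by ring
  rw [e0] at q2
  set u := f (ψ 1) with hu
  set u' := g (θ 1) + 3 * ((n : ℝ) - n') with hu'
  set G₁ := f (ψ 1 + Real.pi / 3) with hG₁
  set G₂ := f (ψ 1 + -(Real.pi / 3)) with hG₂
  have r1 : 3 * (m : ℝ) < G₁ - u' := by
    by_contra hc
    push Not at hc
    apply n1 (-m)
    rw [mem_uIcc]; left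
    push_cast
    constructor <;> linarith [q1.1, q1.2]
  have r2 : G₁ - u' < 3 * (m : ℝ) + 3 := by
    by_contra hc
    push Not at hc
    apply n1 (-m - 1)
    rw [mem_uIcc]; right
    push_cast
    constructor <;> linarith [q1.1, q1.2]
  have r3 : 3 * (m : ℝ) < u' - G₂ := by
    by_contra hc
    push Not at hc
    apply n2 m
    rw [mem_uIcc]; right
    constructor <;> linarith [q2.1, q2.2]
  have r4 : u' - G₂ < 3 * (m : ℝ) + 3 := by
    by_contra hc
    push Not at hc
    apply n2 (m + 1)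
    rw [mem_uIcc]; left
    push_cast
    constructor <;> linarith [q2.1, q2.2]
  have w1 := hm₁ 1 i1
  have w2 := hm₂ 1 i1
  simp only [hδ1] at w1 w2
  rw [← hG₁] at w1
  rw [← hG₂] at w2
  have z1 : m₁ = m + (n - n') := by
    have a1 : ((m₁ : ℤ) : ℝ) < ((m + (n - n') + 1 : ℤ) : ℝ) := by push_cast; linarith [w1.1, w1.2]
    have a2 : ((m + (n - n') : ℤ) : ℝ) < ((m₁ + 1 : ℤ) : ℝ) := by push_cast; linarith [w1.1, w1.2]
    have b1 : m₁ < m + (n - n') + 1 := by exact_mod_cast a1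
    have b2 : m + (n - n') < m₁ + 1 := by exact_mod_cast a2
    omega
  have z2 : m₂ = m - (n - n') := by
    have a1 : ((m₂ : ℤ) : ℝ) < ((m - (n - n') + 1 : ℤ) : ℝ) := by push_cast; linarith [w2.1, w2.2]
    have a2 : ((m - (n - n') : ℤ) : ℝ) < ((m₂ + 1 : ℤ) : ℝ) := by push_cast; linarith [w2.1, w2.2]
    have b1 : m₂ < m - (n - n') + 1 := by exact_mod_cast a1
    have b2 : m - (n - n') < m₂ + 1 := by exact_mod_cast a2
    omega
  omega

end K9

end Pool.Agent.H923_Poly
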