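import Pool.Agent.H923_Poly.Defs

/-! Local facts on tile systems. -/

open Complex Filter Topology Set Metric

namespace Pool.Agent.H923_Poly

theorem norm_e (t : ℝ) : ‖e t‖ = 1 := Complex.norm_exp_ofReal_mul_I t

theorem e_add (s t : ℝ) : e (s + t) = e s * e t := by
  simp [e, add_mul, Complex.exp_add]

theorem e_zero : e 0 = 1 := by simp [e]

theorem e_ne_zero (t : ℝ) : e t ≠ 0 := Complex.exp_ne_zero _

theorem continuous_e : Continuous e := by unfold e; fun_prop

theorem e_re (t : ℝ) : (e t).re = Real.cos t := Complex.exp_ofReal_mul_I_re t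

theorem e_im (t : ℝ) : (e t).im = Real.sin t := Complex.exp_ofReal_mul_I_im t

theorem exists_e {z : ℂ} (h : ‖z‖ = 1) : ∃ t : ℝ, z = e t := by
  refine ⟨Complex.arg z, ?_⟩
  have := Complex.norm_mul_exp_arg_mul_I z
  rw [h] at this
  simpa [e] using this.symm

theorem e_eq_iff (s t : ℝ) : e s = e t ↔ ∃ n : ℤ, s = t + n * (2 * Real.pi) := by
  unfold e
  rw [Complex.exp_eq_exp_iff_exists_int]
  constructor
  · rintro ⟨n, hn⟩
    refine ⟨n, ?_⟩
    have h1 : ((s : ℂ) - (t + n * (2 * Real.pi) : ℝ)) * Complex.I = 0 := by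
      push_cast
      linear_combination hn
    rcases mul_eq_zero.1 h1 with h | h
    · have := sub_eq_zero.1 h
      exact_mod_cast this
    · exact absurd h Complex.I_ne_zero
  · rintro ⟨n, hn⟩
    refine ⟨n, ?_⟩
    rw [hn]
    push_cast
    ring

theorem e_add_two_pi (t : ℝ) : e (t + 2 * Real.pi) = e t := by
  rw [e_eq_iff]
  exact ⟨1, by push_cast; ring⟩

theorem e_neg (t : ℝ) : e (-t) * e t = 1 := by
  rw [← e_add]; simp [e_zero]

/-- `e` is injective on half-open intervals of length `2π`. -/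
theorem e_inj {s t : ℝ} (h : e s = e t) (h1 : |s - t| < 2 * Real.pi) : s = t := by
  obtain ⟨n, hn⟩ := (e_eq_iff s t).1 h
  have hpi := Real.pi_pos
  have : s - t = n * (2 * Real.pi) := by linarith
  rw [this, abs_mul, abs_of_pos (by positivity : (0:ℝ) < 2 * Real.pi)] at h1
  have h2 : |(n : ℝ)| < 1 := by
    by_contra hcon
    push Not at hcon
    nlinarith
  have h3 : n = 0 := by
    have : |n| < 1 := by exact_mod_cast h2
    simpa using this
  rw [h3] at this
  simp at this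
  linarith

theorem e_sub_one (h : ℝ) : e h - 1 = (2 * Real.sin (h / 2) : ℝ) * e (Real.pi / 2 + h / 2) := by
  apply Complex.ext
  · rw [Complex.sub_re, e_re, Complex.re_ofReal_mul, e_re, add_comm, Real.cos_add_pi_div_two, Complex.one_re]
    have h1 := Real.cos_two_mul (h / 2)
    rw [show 2 * (h / 2) = h by ring] at h1
    have h2 := Real.sin_sq_add_cos_sq (h / 2)
    rw [h1]
    linear_combination 2 * h2
  · rw [Complex.sub_im, e_im, Complex.im_ofReal_mul, e_im, add_comm, Real.sin_add_pi_div_two, Complex.one_im]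
    have := Real.sin_two_mul (h / 2)
    rw [show 2 * (h / 2) = h by ring] at this
    linarith

theorem e_pi_div_two_neg (x : ℝ) : e (-(Real.pi / 2) + x) = - e (Real.pi / 2 + x) := by
  apply Complex.ext
  · simp only [Complex.neg_re, e_re]
    rw [add_comm, ← sub_eq_add_neg, Real.cos_sub_pi_div_two, add_comm, Real.cos_add_pi_div_two]
    ring
  · simp only [Complex.neg_im, e_im]
    rw [add_comm, ← sub_eq_add_neg, Real.sin_sub_pi_div_two, add_comm, Real.sin_add_pi_div_two]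

/-- the chord to a nearby point of a unit circle, forward -/
theorem chord_pos (v : ℂ) (a h : ℝ) :
    v + e a * e h = (v + e a) + (2 * Real.sin (h / 2) : ℝ) * e (a + Real.pi / 2 + h / 2) := by
  have := e_sub_one h
  rw [show a + Real.pi / 2 + h / 2 = a + (Real.pi / 2 + h / 2) by ring, e_add a]
  linear_combination (e a) * this

/-- the chord to a nearby point of a unit circle, backward -/
theorem chord_neg (v : ℂ) (a h : ℝ) :
    v + e a * e (-h) = (v + e a) + (2 * Real.sin (h / 2) : ℝ) * e (a - Real.pi / 2 - h / 2) := by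
  have h1 := e_sub_one (-h)
  have h2 := e_pi_div_two_neg (-h / 2)
  rw [show -h / 2 = -(h / 2) by ring, Real.sin_neg] at h1
  rw [show a - Real.pi / 2 - h / 2 = a + (-(Real.pi / 2) + -h / 2) by ring, e_add a, h2,
    show -h / 2 = -(h / 2) by ring]
  push_cast at h1 ⊢
  linear_combination (e a) * h1

theorem isOpen_dir (U : Finset ℂ) : IsOpen {t : ℝ | e t ∉ U} := by
  have : IsClosed {t : ℝ | e t ∈ (U : Set ℂ)} := (U.finite_toSet.isClosed).preimage continuous_e
  exact this.isOpen_compl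

theorem dense_dir (U : Finset ℂ) : Dense {t : ℝ | e t ∉ U} := by
  have : ({t : ℝ | e t ∈ U}).Countable := by
    have h1 : {t : ℝ | e t ∈ U} = ⋃ u ∈ U, {t : ℝ | e t = u} := by
      ext t; simp
    rw [h1]
    refine Set.Countable.biUnion U.countable_toSet fun u _ => ?_
    by_cases h : ∃ t0, e t0 = u
    · obtain ⟨t0, rfl⟩ := h
      refine (Set.countable_range (fun n : ℤ => t0 + n * (2 * Real.pi))).mono ?_
      intro t ht
      obtain ⟨n, hn⟩ := (e_eq_iff t t0).1 ht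
      exact ⟨n, hn.symm⟩
    · have : {t : ℝ | e t = u} = ∅ := by
        ext t
        simp only [mem_ofPred_eq, mem_empty_iff_false, iff_false]
        exact fun ht => h ⟨t, ht⟩
      rw [this]
      exact Set.countable_empty
  exact this.dense_compl ℝ

namespace TileSystem

variable {S : TileSystem}

/-- A preconnected set covered by tiles is in one tile. -/
theorem subset_tile {s : Set ℂ} (hs : IsPreconnected s) (hc : ∀ x ∈ s, ∃ i, x ∈ S.T i) {x : ℂ} (hx : x ∈ s) {i : S.ι}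
    (hi : x ∈ S.T i) : s ⊆ S.T i := by
  have hopen : IsOpen (⋃ j ∈ {j | j ≠ i}, S.T j) := isOpen_biUnion fun j _ => S.isOpen j
  refine hs.subset_left_of_subset_union (S.isOpen i) hopen ?_ ?_ ⟨x, hx, hi⟩
  · rw [Set.disjoint_left]
    intro y hy hy'
    simp only [mem_ofPred_eq, mem_iUnion, exists_prop] at hy'
    obtain ⟨j, hj, hyj⟩ := hy'
    exact hj (S.disj j i y hyj hy)
  · intro y hy
    obtain ⟨j, hj⟩ := hc y hy
    by_cases h : j = i
    · left; rwa [← h]
    · right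
      simp only [mem_ofPred_eq, mem_iUnion, exists_prop]
      exact ⟨j, h, hj⟩

/-- star in polar coordinates -/
theorem star' (S : TileSystem) (p : ℂ) : ∃ r > 0, ∃ U : Finset ℂ, U.card ≤ 3 ∧
    ∀ t s : ℝ, e t ∉ U → 0 < s → s < r → ∃ i, p + s * e t ∈ S.T i := by
  obtain ⟨r, hr, U, hU, hU1, h⟩ := S.star p
  refine ⟨r, hr, U, hU, fun t s ht hs hsr => ?_⟩
  have hd : dist (p + s * e t) p = s := by
    rw [dist_eq_norm, add_sub_cancel_left, norm_mul, norm_e, mul_one]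
    simp [abs_of_pos hs]
  apply h
  · intro hcon
    rw [hcon, dist_self] at hd
    linarith
  · rw [hd]; exact hsr
  · intro u hu hcon
    rw [hd] at hcon
    have : (s : ℂ) * e t = s * u := by linear_combination hcon
    have h2 : e t = u := mul_left_cancel₀ (by exact_mod_cast hs.ne') this
    exact ht (h2 ▸ hu)

/-- the polar form of a point different from `p` -/
theorem polar {p z : ℂ} (h : z ≠ p) : ∃ t : ℝ, z = p + (dist z p : ℝ) * e t := by
  have h0 : (dist z p : ℂ) ≠ 0 := by exact_mod_cast (dist_pos.2 h).ne'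
  have h1 : ‖(z - p) / (dist z p : ℝ)‖ = 1 := by
    rw [norm_div, ← dist_eq_norm]
    simp [h]
  obtain ⟨t, ht⟩ := exists_e h1
  refine ⟨t, ?_⟩
  rw [← ht]
  field_simp
  ring

/-- sector lemma with the data of star -/
theorem sector_aux {p : ℂ} {r : ℝ} {U : Finset ℂ}
    (h : ∀ t s : ℝ, e t ∉ U → 0 < s → s < r → ∃ i, p + s * e t ∈ S.T i) {i : S.ι}
    (hi : (S.T i ∩ ball p r).Nonempty) :
    ∃ a b : ℝ, a < b ∧ ∀ t ∈ Ioo a b, ∀ s ∈ Ioo 0 r, p + s * e t ∈ S.T i := by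
  obtain ⟨z, hz, hzr⟩ := hi
  have ho : IsOpen (S.T i ∩ ball p r) := (S.isOpen i).inter isOpen_ball
  -- a point of the tile different from `p`
  obtain ⟨z', hz', hne⟩ : ∃ z' ∈ S.T i ∩ ball p r, z' ≠ p := by
    have hd : Dense ({p}ᶜ : Set ℂ) := dense_compl_singleton p
    obtain ⟨w, hw, hw'⟩ := hd.inter_open_nonempty _ ho ⟨z, hz, hzr⟩
    exact ⟨w, hw, hw'⟩
  obtain ⟨t₁, ht₁⟩ := polar hne
  set s₀ := dist z' p with hs₀
  have hs₀pos : 0 < s₀ := dist_pos.2 hne
  have hs₀r : s₀ < r := hz'.2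
  have hcont : Continuous fun t : ℝ => p + s₀ * e t := by
    have := continuous_e
    fun_prop
  have hV : IsOpen ((fun t : ℝ => p + s₀ * e t) ⁻¹' (S.T i)) := (S.isOpen i).preimage hcont
  obtain ⟨t₂, ht₂, ht₂'⟩ := (dense_dir U).inter_open_nonempty _ hV ⟨t₁, by
    simp only [mem_preimage]; rw [← ht₁]; exact hz'.1⟩
  obtain ⟨η, hη, hball⟩ := Metric.isOpen_iff.1 (isOpen_dir U) t₂ ht₂'
  refine ⟨t₂ - η, t₂ + η, by linarith, ?_⟩
  intro t ht s hs
  have hsub : (fun x : ℝ × ℝ => p + x.2 * e x.1) '' (Ioo (t₂ - η) (t₂ + η) ×ˢ Ioo 0 r) ⊆ S.T i := by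
    apply subset_tile (x := p + s₀ * e t₂)
    · apply IsPreconnected.image
      · exact isPreconnected_Ioo.prod isPreconnected_Ioo
      · have := continuous_e
        apply Continuous.continuousOn
        fun_prop
    · rintro _ ⟨⟨t', s'⟩, ⟨ht', hs'⟩, rfl⟩
      apply h
      · have : t' ∈ ball t₂ η := by rw [Real.ball_eq_Ioo]; exact ht'
        exact hball this
      · exact hs'.1
      · exact hs'.2
    · refine ⟨(t₂, s₀), ⟨?_, ?_⟩, rfl⟩
      · constructor <;> simp <;> linarith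
      · exact ⟨hs₀pos, hs₀r⟩
    · exact ht₂
  exact hsub ⟨(t, s), ⟨ht, hs⟩, rfl⟩

theorem at_of_sector {p : ℂ} {i : S.ι} {t r : ℝ} (hr : 0 < r) (h : ∀ s ∈ Ioo 0 r, p + s * e t ∈ S.T i) : S.At p i := by
  unfold At
  rw [Metric.mem_closure_iff]
  intro ε hε
  refine ⟨p + (min (ε / 2) (r / 2) : ℝ) * e t, h _ ⟨by positivity, ?_⟩, ?_⟩
  · exact (min_le_right _ _).trans_lt (by linarith)
  · rw [dist_eq_norm, sub_add_cancel_left, norm_neg, norm_mul, norm_e, mul_one, Complex.norm_real, Real.norm_eq_abs,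
      abs_of_pos (by positivity)]
    exact (min_le_left _ _).trans_lt (by linarith)

theorem exists_mem_Ioo {a b : ℝ} (h : a < b) : (a + b) / 2 ∈ Ioo a b := ⟨by linarith, by linarith⟩

/-- Sector lemma. -/
theorem sector {p : ℂ} {i : S.ι} (h : S.At p i) :
    ∃ a b r : ℝ, a < b ∧ 0 < r ∧ ∀ t ∈ Ioo a b, ∀ s ∈ Ioo 0 r, p + s * e t ∈ S.T i := by
  obtain ⟨r, hr, U, -, hU⟩ := S.star' p
  have : (S.T i ∩ ball p r).Nonempty := by
    obtain ⟨z, hz, hz'⟩ := Metric.mem_closure_iff.1 h r hr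
    exact ⟨z, hz, by rw [mem_ball, dist_comm]; exact hz'⟩
  obtain ⟨a, b, hab, h1⟩ := sector_aux hU this
  exact ⟨a, b, r, hab, hr, h1⟩

theorem at_near (p : ℂ) : ∃ r > 0, ∀ q, dist q p < r → ∀ i, S.At q i → S.At p i := by
  obtain ⟨r, hr, U, -, hU⟩ := S.star' p
  refine ⟨r, hr, fun q hq i hi => ?_⟩
  have : (S.T i ∩ ball p r).Nonempty := by
    obtain ⟨z, hz, hz'⟩ := Metric.mem_closure_iff.1 hi (r - dist q p) (by linarith)
    refine ⟨z, hz, ?_⟩
    rw [mem_ball]
    calc dist z p ≤ dist z q + dist q p := dist_triangle _ _ _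
      _ < r := by rw [dist_comm z q]; linarith
  obtain ⟨a, b, hab, h1⟩ := sector_aux hU this
  exact at_of_sector hr (h1 _ (exists_mem_Ioo hab))

theorem exists_at (p : ℂ) : ∃ i, S.At p i := by
  obtain ⟨r, hr, U, -, hU⟩ := S.star' p
  obtain ⟨t, ht⟩ := (dense_dir U).nonempty
  obtain ⟨i, hi⟩ := hU t (r / 2) ht (by linarith) (by linarith)
  have : (S.T i ∩ ball p r).Nonempty := by
    refine ⟨_, hi, ?_⟩
    rw [mem_ball, dist_eq_norm, add_sub_cancel_left, norm_mul, norm_e, mul_one, Complex.norm_real, Real.norm_eq_abs,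
      abs_of_pos (by linarith)]
    linarith
  obtain ⟨a, b, hab, h1⟩ := sector_aux hU this
  exact ⟨i, at_of_sector hr (h1 _ (exists_mem_Ioo hab))⟩

/-- between two points of a small circle in different tiles there is an exceptional direction -/
theorem arc_aux {p : ℂ} {r : ℝ} {U : Finset ℂ}
    (h : ∀ t s : ℝ, e t ∉ U → 0 < s → s < r → ∃ i, p + s * e t ∈ S.T i) {s a b : ℝ} (hs : s ∈ Ioo 0 r) (hab : a < b)
    {i j : S.ι} (hi : p + s * e a ∈ S.T i) (hj : p + s * e b ∈ S.T j) (hij : i ≠ j) : ∃ t ∈ Ioo a b, e t ∈ U := by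
  by_contra hcon
  push Not at hcon
  apply hij
  have hsub : (fun t : ℝ => p + s * e t) '' (Icc a b) ⊆ S.T i := by
    apply subset_tile (x := p + s * e a)
    · apply IsPreconnected.image isPreconnected_Icc
      have := continuous_e
      apply Continuous.continuousOn
      fun_prop
    · rintro _ ⟨t, ht, rfl⟩
      rcases eq_or_lt_of_le ht.1 with h1 | h1
      · exact ⟨i, by simpa [h1] using hi⟩
      rcases eq_or_lt_of_le ht.2 with h2 | h2
      · exact ⟨j, by simpa [h2] using hj⟩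
      exact h t s (hcon t ⟨h1, h2⟩) hs.1 hs.2
    · exact ⟨a, ⟨le_refl _, hab.le⟩, rfl⟩
    · exact hi
  exact S.disj i j _ (hsub ⟨b, ⟨hab.le, le_refl _⟩, rfl⟩) hj

/-- Alternation lemma. -/
theorem alternation (p : ℂ) : ∃ r > 0, ∀ s ∈ Ioo (0 : ℝ) r, ∀ f₁ f₂ f₃ f₄ : ℝ, f₁ < f₂ → f₂ < f₃ → f₃ < f₄ →
    f₄ < f₁ + 2 * Real.pi → ∀ (X : Set S.ι) (i₁ i₂ i₃ i₄ : S.ι), p + s * e f₁ ∈ S.T i₁ → p + s * e f₂ ∈ S.T i₂ →
    p + s * e f₃ ∈ S.T i₃ → p + s * e f₄ ∈ S.T i₄ → i₁ ∈ X → i₂ ∉ X → i₃ ∈ X → i₄ ∉ X → False := by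
  obtain ⟨r, hr, U, hcard, hU⟩ := S.star' p
  refine ⟨r, hr, ?_⟩
  intro s hs f₁ f₂ f₃ f₄ h12 h23 h34 h41 X i₁ i₂ i₃ i₄ m₁ m₂ m₃ m₄ x₁ x₂ x₃ x₄
  obtain ⟨t₁, ht₁, u₁⟩ := arc_aux hU hs h12 m₁ m₂ (by rintro rfl; exact x₂ x₁)
  obtain ⟨t₂, ht₂, u₂⟩ := arc_aux hU hs h23 m₂ m₃ (by rintro rfl; exact x₂ x₃)
  obtain ⟨t₃, ht₃, u₃⟩ := arc_aux hU hs h34 m₃ m₄ (by rintro rfl; exact x₄ x₃)
  obtain ⟨t₄, ht₄, u₄⟩ := arc_aux hU hs h41 m₄ (by rw [e_add_two_pi]; exact m₁) (by rintro rfl; exact x₄ x₁)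
  have key : ∀ {x y : ℝ}, x < y → y < x + 2 * Real.pi → e x ≠ e y := by
    intro x y hxy hyx hcon
    have := e_inj hcon (by rw [abs_lt]; constructor <;> linarith)
    linarith
  have hsub : ({e t₁, e t₂, e t₃, e t₄} : Finset ℂ) ⊆ U := by
    intro z hz
    simp only [Finset.mem_insert, Finset.mem_singleton] at hz
    rcases hz with rfl | rfl | rfl | rfl <;> assumption
  have hc := Finset.card_le_card hsub
  have e12 := key (x := t₁) (y := t₂) (by linarith [ht₁.2, ht₂.1]) (by linarith [ht₁.1, ht₂.2])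
  have e13 := key (x := t₁) (y := t₃) (by linarith [ht₁.2, ht₃.1]) (by linarith [ht₁.1, ht₃.2])
  have e14 := key (x := t₁) (y := t₄) (by linarith [ht₁.2, ht₄.1]) (by linarith [ht₁.1, ht₄.2])
  have e23 := key (x := t₂) (y := t₃) (by linarith [ht₂.2, ht₃.1]) (by linarith [ht₂.1, ht₃.2])
  have e24 := key (x := t₂) (y := t₄) (by linarith [ht₂.2, ht₄.1]) (by linarith [ht₂.1, ht₄.2])
  have e34 := key (x := t₃) (y := t₄) (by linarith [ht₃.2, ht₄.1]) (by linarith [ht₃.1, ht₄.2])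
  rw [Finset.card_insert_of_notMem (by simp [e12, e13, e14]), Finset.card_insert_of_notMem (by simp [e23, e24]),
    Finset.card_insert_of_notMem (by simp [e34]), Finset.card_singleton] at hc
  omega

/-- At most three tiles at a point. -/
theorem at_three {p : ℂ} {i j k l : S.ι} (hi : S.At p i) (hj : S.At p j) (hk : S.At p k) (hl : S.At p l) :
    i = j ∨ i = k ∨ i = l ∨ j = k ∨ j = l ∨ k = l := by
  by_contra hcon
  push Not at hcon
  obtain ⟨hij, hik, hil, hjk, hjl, hkl⟩ := hcon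
  obtain ⟨r, hr, halt⟩ := S.alternation p
  let F : Fin 4 → S.ι := ![i, j, k, l]
  have hF : Function.Injective F := by
    intro a b hab
    fin_cases a <;> fin_cases b <;> simp [F] at hab ⊢ <;> first | exact absurd hab ‹_› | exact absurd hab.symm ‹_›
  have hAt : ∀ m, S.At p (F m) := by
    intro m; fin_cases m <;> simp [F] <;> assumption
  choose a b r' hab hr' hsec using fun m => sector (hAt m)
  -- common small radius
  obtain ⟨s, hs, hsr, hsm⟩ : ∃ s, 0 < s ∧ s < r ∧ ∀ m, s < r' m := by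
    refine ⟨min (r / 2) (min (min (r' 0 / 2) (r' 1 / 2)) (min (r' 2 / 2) (r' 3 / 2))), ?_, ?_, ?_⟩
    · have := hr' 0; have := hr' 1; have := hr' 2; have := hr' 3
      positivity
    · exact (min_le_left _ _).trans_lt (by linarith)
    · intro m
      have h0 := hr' m
      have h1 : min (r / 2) (min (min (r' 0 / 2) (r' 1 / 2)) (min (r' 2 / 2) (r' 3 / 2))) ≤ r' m / 2 := by
        fin_cases m <;> simp
      linarith
  let t : Fin 4 → ℝ := fun m => toIcoMod Real.two_pi_pos 0 ((a m + b m) / 2)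
  have ht : ∀ m, p + s * e (t m) ∈ S.T (F m) := by
    intro m
    have h1 : e (t m) = e ((a m + b m) / 2) := by
      rw [e_eq_iff]
      refine ⟨-toIcoDiv Real.two_pi_pos 0 ((a m + b m) / 2), ?_⟩
      have := toIcoMod_add_toIcoDiv_zsmul Real.two_pi_pos 0 ((a m + b m) / 2)
      rw [zsmul_eq_mul] at this
      simp only [t]
      push_cast
      linarith
    rw [h1]
    exact hsec m _ (exists_mem_Ioo (hab m)) s ⟨hs, hsm m⟩
  have ht0 : ∀ m, 0 ≤ t m ∧ t m < 2 * Real.pi := by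
    intro m
    have := toIcoMod_mem_Ico Real.two_pi_pos 0 ((a m + b m) / 2)
    simpa using this
  have htinj : Function.Injective t := by
    intro m n hmn
    apply hF
    apply S.disj _ _ _ (ht m)
    rw [hmn]
    exact ht n
  let σ := Tuple.sort t
  have hmono : StrictMono (t ∘ σ) := (Tuple.monotone_sort t).strictMono_of_injective (htinj.comp σ.injective)
  have h01 := hmono (show (0 : Fin 4) < 1 by decide)
  have h12 := hmono (show (1 : Fin 4) < 2 by decide)
  have h23 := hmono (show (2 : Fin 4) < 3 by decide)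
  have hne : ∀ x y, x ≠ y → F (σ x) ≠ F (σ y) := fun x y hxy h => hxy (σ.injective (hF h))
  refine halt s ⟨hs, hsr⟩ _ _ _ _ h01 h12 h23 ?_ {F (σ 0), F (σ 2)} _ _ _ _ (ht (σ 0)) (ht (σ 1)) (ht (σ 2)) (ht (σ 3))
    (by simp) ?_ (by simp) ?_
  · simp only [Function.comp]
    linarith [(ht0 (σ 3)).2, (ht0 (σ 0)).1]
  · simp only [mem_insert_iff, mem_singleton_iff, not_or]
    exact ⟨hne _ _ (by decide), hne _ _ (by decide)⟩
  · simp only [mem_insert_iff, mem_singleton_iff, not_or]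
    exact ⟨hne _ _ (by decide), hne _ _ (by decide)⟩

theorem at_of_mem {p : ℂ} {i : S.ι} (h : p ∈ S.T i) : S.At p i := subset_closure h

/-- a point of a tile is at no other tile -/
theorem eq_of_mem_of_at {p : ℂ} {i j : S.ι} (h : p ∈ S.T i) (hj : S.At p j) : i = j := by
  obtain ⟨z, hz, hz'⟩ := mem_closure_iff.1 hj (S.T i) (S.isOpen i) h
  exact S.disj i j z hz hz'


/-- on a unit circle, only finitely many parameters in a bounded interval are bad -/
theorem arc_mem (v : ℂ) {x : ℂ} (hx : dist x v = 1) (σ : ℝ) (hσ : σ = 1 ∨ σ = -1) :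
    ∃ η > 0, ∀ h ∈ Ioo (0 : ℝ) η, ∃ i, v + (x - v) * e (σ * h) ∈ S.T i := by
  have hfin := S.circ v
  have hxv : ‖x - v‖ = 1 := by rw [← dist_eq_norm]; exact hx
  have hxv0 : x - v ≠ 0 := by
    intro h0; rw [h0, norm_zero] at hxv; norm_num at hxv
  have hinj : Set.InjOn (fun h : ℝ => v + (x - v) * e (σ * h)) (Ioo 0 1) := by
    intro a ha b hb hab
    have h1 : (x - v) * e (σ * a) = (x - v) * e (σ * b) := add_left_cancel hab
    have h2 := mul_left_cancel₀ hxv0 h1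
    have hpi := Real.pi_gt_three
    have h3 := e_inj h2 (by
      rcases hσ with rfl | rfl
      · rw [abs_lt]; constructor <;> linarith [ha.1, ha.2, hb.1, hb.2]
      · rw [abs_lt]; constructor <;> linarith [ha.1, ha.2, hb.1, hb.2])
    rcases hσ with rfl | rfl <;> linarith
  have hfin2 : (Ioo (0 : ℝ) 1 ∩ (fun h : ℝ => v + (x - v) * e (σ * h)) ⁻¹' {x | dist x v = 1 ∧ ∀ i, x ∉ S.T i}).Finite := by
    apply Set.Finite.of_finite_image (f := fun h : ℝ => v + (x - v) * e (σ * h))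
    · refine hfin.subset ?_
      rintro _ ⟨h, hh, rfl⟩
      exact hh.2
    · exact hinj.mono inter_subset_left
  have hcl := hfin2.isClosed
  have hop : IsOpen ((Ioo (0 : ℝ) 1 ∩ (fun h : ℝ => v + (x - v) * e (σ * h)) ⁻¹' {x | dist x v = 1 ∧ ∀ i, x ∉ S.T i})ᶜ) :=
    hcl.isOpen_compl
  obtain ⟨η, hη, hball⟩ := Metric.isOpen_iff.1 hop 0 (by
    simp only [mem_compl_iff, mem_inter_iff, mem_Ioo, lt_irrefl, false_and, not_false_eq_true])
  refine ⟨min η 1, by positivity, fun h hh => ?_⟩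
  have h1 : h ∈ ball (0 : ℝ) η := by
    rw [mem_ball, dist_zero_right, Real.norm_eq_abs, abs_of_pos hh.1]
    exact hh.2.trans_le (min_le_left _ _)
  have h2 := hball h1
  by_contra hcon
  push Not at hcon
  apply h2
  refine ⟨⟨hh.1, hh.2.trans_le (min_le_right _ _)⟩, ?_, hcon⟩
  rw [dist_eq_norm, add_sub_cancel_left, norm_mul, norm_e, mul_one, hxv]

theorem exists_germ (v : ℂ) {x : ℂ} (hx : dist x v = 1) (σ : ℝ) (hσ : σ = 1 ∨ σ = -1) :
    ∃ i, ∀ᶠ h in 𝓝[>] (0 : ℝ), v + (x - v) * e (σ * h) ∈ S.T i := by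
  obtain ⟨η, hη, h⟩ := S.arc_mem v hx σ hσ
  obtain ⟨i, hi⟩ := h (η / 2) ⟨by linarith, by linarith⟩
  refine ⟨i, ?_⟩
  have hsub : (fun h : ℝ => v + (x - v) * e (σ * h)) '' (Ioo 0 η) ⊆ S.T i := by
    apply subset_tile (x := v + (x - v) * e (σ * (η / 2)))
    · apply IsPreconnected.image isPreconnected_Ioo
      have := continuous_e
      apply Continuous.continuousOn
      fun_prop
    · rintro _ ⟨t, ht, rfl⟩
      exact h t ht
    · exact ⟨η / 2, ⟨by linarith, by linarith⟩, rfl⟩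
    · exact hi
  filter_upwards [Ioo_mem_nhdsGT hη] with h hh
  exact hsub ⟨h, hh, rfl⟩

theorem exists_gp {v x : ℂ} (h : dist x v = 1) : ∃ i, S.gp v x i := by
  obtain ⟨i, hi⟩ := S.exists_germ v h 1 (Or.inl rfl)
  refine ⟨i, ?_⟩
  simpa [gp] using hi

theorem exists_gm {v x : ℂ} (h : dist x v = 1) : ∃ i, S.gm v x i := by
  obtain ⟨i, hi⟩ := S.exists_germ v h (-1) (Or.inr rfl)
  refine ⟨i, ?_⟩
  simpa [gm] using hi

theorem gp_unique {v x : ℂ} {i j : S.ι} (hi : S.gp v x i) (hj : S.gp v x j) : i = j := by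
  obtain ⟨h, hh⟩ := (Filter.Eventually.and hi hj).exists
  exact S.disj i j _ hh.1 hh.2

theorem gm_unique {v x : ℂ} {i j : S.ι} (hi : S.gm v x i) (hj : S.gm v x j) : i = j := by
  obtain ⟨h, hh⟩ := (Filter.Eventually.and hi hj).exists
  exact S.disj i j _ hh.1 hh.2

theorem tendsto_circle (v x : ℂ) (σ : ℝ) : Tendsto (fun h : ℝ => v + (x - v) * e (σ * h)) (𝓝[>] 0) (𝓝 x) := by
  have hc : Continuous fun h : ℝ => v + (x - v) * e (σ * h) := by
    have := continuous_e
    fun_prop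
  have := hc.tendsto 0
  simp only [mul_zero, e_zero, mul_one, add_sub_cancel] at this
  exact this.mono_left nhdsWithin_le_nhds

theorem gp_at {v x : ℂ} {i : S.ι} (hi : S.gp v x i) : S.At x i := by
  have h := tendsto_circle v x 1
  simp only [one_mul] at h
  exact mem_closure_of_tendsto h hi

theorem gm_at {v x : ℂ} {i : S.ι} (hi : S.gm v x i) : S.At x i := by
  have h := tendsto_circle v x (-1)
  simp only [neg_mul, one_mul] at h
  exact mem_closure_of_tendsto h hi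

theorem gp_of_mem {v x : ℂ} {i : S.ι} (hi : x ∈ S.T i) : S.gp v x i := by
  have h := tendsto_circle v x 1
  simp only [one_mul] at h
  exact h.eventually ((S.isOpen i).mem_nhds hi)

theorem gm_of_mem {v x : ℂ} {i : S.ι} (hi : x ∈ S.T i) : S.gm v x i := by
  have h := tendsto_circle v x (-1)
  simp only [neg_mul, one_mul] at h
  exact h.eventually ((S.isOpen i).mem_nhds hi)

/-- just after a point of the circle all germs are the germ `gp` -/
theorem gp_eventually {v x : ℂ} {i : S.ι} (h : S.gp v x i) :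
    ∀ᶠ h in 𝓝[>] (0 : ℝ), v + (x - v) * e h ∈ S.T i ∧ S.gp v (v + (x - v) * e h) i ∧ S.gm v (v + (x - v) * e h) i := by
  filter_upwards [h] with h hh
  exact ⟨hh, gp_of_mem hh, gm_of_mem hh⟩

/-- just before a point of the circle all germs are the germ `gm` -/
theorem gm_eventually {v x : ℂ} {i : S.ι} (h : S.gm v x i) :
    ∀ᶠ h in 𝓝[>] (0 : ℝ), v + (x - v) * e (-h) ∈ S.T i ∧ S.gp v (v + (x - v) * e (-h)) i ∧
      S.gm v (v + (x - v) * e (-h)) i := by
  filter_upwards [h] with h hh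
  exact ⟨hh, gp_of_mem hh, gm_of_mem hh⟩

theorem tendsto_chord : Tendsto (fun h : ℝ => 2 * Real.sin (h / 2)) (𝓝[>] 0) (𝓝[>] 0) := by
  apply tendsto_nhdsWithin_of_tendsto_nhds_of_eventually_within
  · have hc : Continuous fun h : ℝ => 2 * Real.sin (h / 2) := by fun_prop
    have := hc.tendsto 0
    simp only [zero_div, Real.sin_zero, mul_zero] at this
    exact this.mono_left nhdsWithin_le_nhds
  · filter_upwards [Ioo_mem_nhdsGT (show (0 : ℝ) < 1 by norm_num)] with h hh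
    have : 0 < Real.sin (h / 2) := Real.sin_pos_of_pos_of_lt_pi (by linarith [hh.1]) (by linarith [hh.2, Real.pi_gt_three])
    simp only [mem_Ioi]
    linarith

/-- crossing lemma, core case -/
theorem crossing_core {v y p : ℂ} {a δ : ℝ} (hv : p = v + e a) (hy : p = y + e (a + δ)) (hδ : 0 < δ) (hδ' : δ < Real.pi)
    (X : Set S.ι) {i₁ i₂ j₁ j₂ : S.ι} (h₁ : S.gp v p i₁) (h₂ : S.gm v p i₂) (h₃ : S.gp y p j₁) (h₄ : S.gm y p j₂)
    (k₁ : i₁ ∈ X) (k₂ : i₂ ∈ X) (k₃ : j₁ ∉ X) (k₄ : j₂ ∉ X) : False := by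
  obtain ⟨r, hr, halt⟩ := S.alternation p
  have hsmall : ∀ᶠ h in 𝓝[>] (0 : ℝ), 2 * Real.sin (h / 2) ∈ Ioo 0 r := tendsto_chord.eventually (Ioo_mem_nhdsGT hr)
  have hh' : ∀ᶠ h in 𝓝[>] (0 : ℝ), h ∈ Ioo 0 (Real.pi - δ) := Ioo_mem_nhdsGT (by linarith)
  obtain ⟨h, ⟨⟨⟨⟨⟨m₁, m₂⟩, m₃⟩, m₄⟩, hs⟩, hh⟩⟩ := (((((Filter.Eventually.and h₁ h₂).and h₃).and h₄).and hsmall).and hh').exists
  have e1 : p - v = e a := by rw [hv]; ring
  have e2 : p - y = e (a + δ) := by rw [hy]; ring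
  rw [e1, chord_pos, ← hv] at m₁
  rw [e1, chord_neg, ← hv] at m₂
  rw [e2, chord_pos, ← hy] at m₃
  rw [e2, chord_neg, ← hy] at m₄
  rw [← e_add_two_pi] at m₂ m₄
  have hpi := Real.pi_pos
  refine halt _ hs _ _ _ _ ?_ ?_ ?_ ?_ X i₁ j₁ i₂ j₂ m₁ m₃ m₂ m₄ k₁ k₃ k₂ k₄ <;> linarith [hh.1, hh.2]

/-- Crossing lemma. -/
theorem crossing {v y p : ℂ} (hv : dist p v = 1) (hy : dist p y = 1) (hne : v ≠ y) (hd : dist v y < 2) (X : Set S.ι)
    {i₁ i₂ j₁ j₂ : S.ι} (h₁ : S.gp v p i₁) (h₂ : S.gm v p i₂) (h₃ : S.gp y p j₁) (h₄ : S.gm y p j₂)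
    (k₁ : i₁ ∈ X) (k₂ : i₂ ∈ X) (k₃ : j₁ ∉ X) (k₄ : j₂ ∉ X) : False := by
  obtain ⟨a, ha⟩ := exists_e (z := p - v) (by rw [← dist_eq_norm]; exact hv)
  obtain ⟨b, hb⟩ := exists_e (z := p - y) (by rw [← dist_eq_norm]; exact hy)
  have hpi := Real.pi_pos
  -- reduce `b - a` modulo `2π`
  set δ := toIcoMod Real.two_pi_pos 0 (b - a) with hδ
  have hmem := toIcoMod_mem_Ico Real.two_pi_pos 0 (b - a)
  rw [← hδ] at hmem
  have hd0 := toIcoMod_add_toIcoDiv_zsmul Real.two_pi_pos 0 (b - a)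
  rw [← hδ, zsmul_eq_mul] at hd0
  have heb : e b = e (a + δ) := by
    rw [e_eq_iff]
    exact ⟨toIcoDiv Real.two_pi_pos 0 (b - a), by linarith⟩
  rw [heb] at hb
  have hv' : p = v + e a := by rw [← ha]; ring
  have hy' : p = y + e (a + δ) := by rw [← hb]; ring
  have h0 : δ ≠ 0 := by
    intro h0
    rw [h0, add_zero] at hy'
    exact hne (by linear_combination hy' - hv')
  have h1 : δ ≠ Real.pi := by
    intro h0
    rw [h0, e_add] at hy'
    have : e Real.pi = -1 := by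
      apply Complex.ext <;> simp [e_re, e_im]
    rw [this] at hy'
    have : v - y = -2 * e a := by linear_combination hy' - hv'
    rw [dist_eq_norm, this, norm_mul, norm_e] at hd
    norm_num at hd
  rcases lt_or_gt_of_ne h1 with h | h
  · exact crossing_core hv' hy' (lt_of_le_of_ne hmem.1 (Ne.symm h0)) h X h₁ h₂ h₃ h₄ k₁ k₂ k₃ k₄
  · have hv'' : p = v + e (a + δ + (2 * Real.pi - δ)) := by
      rw [show a + δ + (2 * Real.pi - δ) = a + 2 * Real.pi by ring, e_add_two_pi]; exact hv'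
    exact crossing_core hy' hv'' (by linarith [hmem.2]) (by linarith) Xᶜ h₃ h₄ h₁ h₂ k₃ k₄ (by simpa using k₁)
      (by simpa using k₂)

theorem unit_closure {i j : S.ι} {x q : ℂ} (hx : x ∈ S.T i) (hq : S.At q j) (h : dist x q = 1) : S.c i ≠ S.c j := by
  intro hc
  obtain ⟨ε, hε, hball⟩ := Metric.isOpen_iff.1 (S.isOpen i) x hx
  obtain ⟨q', hq', hd⟩ := Metric.mem_closure_iff.1 hq ε hε
  have h1 : x + (q' - q) ∈ S.T i := by
    apply hball
    rw [mem_ball, dist_eq_norm, add_sub_cancel_left, ← dist_eq_norm, dist_comm]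
    exact hd
  apply S.unit i j hc _ h1 _ hq'
  rw [← h, dist_eq_norm, dist_eq_norm]
  congr 1
  ring

theorem close_or_far {i j : S.ι} (h : S.c i = S.c j) : S.Close i j ∨ S.Far i j := by
  by_contra hcon
  rw [not_or] at hcon
  obtain ⟨h1, h2⟩ := hcon
  unfold Close at h1
  unfold Far at h2
  push Not at h1 h2
  obtain ⟨x, hx, y, hy, hxy⟩ := h1
  obtain ⟨x', hx', y', hy', hxy'⟩ := h2
  have hpre : IsPreconnected ((fun z : ℂ × ℂ => dist z.1 z.2) '' (S.T i ×ˢ S.T j)) := by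
    apply IsPreconnected.image
    · exact (S.preconn i).prod (S.preconn j)
    · exact (continuous_fst.dist continuous_snd).continuousOn
  have : (1 : ℝ) ∈ (fun z : ℂ × ℂ => dist z.1 z.2) '' (S.T i ×ˢ S.T j) :=
    hpre.Icc_subset ⟨(x', y'), ⟨hx', hy'⟩, rfl⟩ ⟨(x, y), ⟨hx, hy⟩, rfl⟩ ⟨hxy', hxy⟩
  obtain ⟨⟨a, b⟩, ⟨ha, hb⟩, hab⟩ := this
  exact S.unit i j h a ha b hb hab

theorem Close.symm {i j : S.ι} (h : S.Close i j) : S.Close j i := fun x hx y hy => by
  rw [dist_comm]; exact h y hy x hx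

theorem Far.symm {i j : S.ι} (h : S.Far i j) : S.Far j i := fun x hx y hy => by
  rw [dist_comm]; exact h y hy x hx

theorem close_self (i : S.ι) : S.Close i i := by
  rcases S.close_or_far (rfl : S.c i = S.c i) with h | h
  · exact h
  · obtain ⟨x, hx⟩ := S.nonempty i
    have := h x hx x hx
    rw [dist_self] at this
    linarith

theorem not_close_and_far {i j : S.ι} (h : S.Close i j) (h' : S.Far i j) : False := by
  obtain ⟨x, hx⟩ := S.nonempty i
  obtain ⟨y, hy⟩ := S.nonempty j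
  linarith [h x hx y hy, h' x hx y hy]

theorem Close.le {i j : S.ι} (h : S.Close i j) {x q : ℂ} (hx : S.At x i) (hq : S.At q j) : dist x q ≤ 1 := by
  have hcl : IsClosed {z : ℂ × ℂ | dist z.1 z.2 ≤ 1} := isClosed_le (continuous_fst.dist continuous_snd) continuous_const
  have hsub : S.T i ×ˢ S.T j ⊆ {z : ℂ × ℂ | dist z.1 z.2 ≤ 1} := by
    rintro ⟨a, b⟩ ⟨ha, hb⟩
    exact (h a ha b hb).le
  have : (x, q) ∈ closure (S.T i ×ˢ S.T j) := by
    rw [closure_prod_eq]
    exact ⟨hx, hq⟩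
  exact hcl.closure_subset_iff.2 hsub this

theorem Far.le {i j : S.ι} (h : S.Far i j) {x q : ℂ} (hx : S.At x i) (hq : S.At q j) : 1 ≤ dist x q := by
  have hcl : IsClosed {z : ℂ × ℂ | 1 ≤ dist z.1 z.2} := isClosed_le continuous_const (continuous_fst.dist continuous_snd)
  have hsub : S.T i ×ˢ S.T j ⊆ {z : ℂ × ℂ | 1 ≤ dist z.1 z.2} := by
    rintro ⟨a, b⟩ ⟨ha, hb⟩
    exact (h a ha b hb).le
  have : (x, q) ∈ closure (S.T i ×ˢ S.T j) := by
    rw [closure_prod_eq]
    exact ⟨hx, hq⟩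
  exact hcl.closure_subset_iff.2 hsub this

theorem Close.lt {i j : S.ι} (h : S.Close i j) (hc : S.c i = S.c j) {x q : ℂ} (hx : x ∈ S.T i) (hq : S.At q j) :
    dist x q < 1 :=
  lt_of_le_of_ne (h.le (at_of_mem hx) hq) fun h1 => unit_closure hx hq h1 hc

theorem Far.lt {i j : S.ι} (h : S.Far i j) (hc : S.c i = S.c j) {x q : ℂ} (hx : x ∈ S.T i) (hq : S.At q j) :
    1 < dist x q :=
  lt_of_le_of_ne (h.le (at_of_mem hx) hq) fun h1 => unit_closure hx hq h1.symm hc

theorem at_dist_le {i : S.ι} {x q : ℂ} (hx : S.At x i) (hq : S.At q i) : dist x q ≤ 1 := (S.close_self i).le hx hq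

theorem TripleOf.mem {v : ℂ} {F : Finset (Fin 6)} (h : S.TripleOf v F) {i : S.ι} (hi : S.At v i) : S.c i ∈ F := by
  obtain ⟨hF, hc⟩ := h
  obtain ⟨a, b, c, hab, hac, hbc, rfl⟩ := Finset.card_eq_three.1 hF
  obtain ⟨ia, ha, rfl⟩ := hc a (by simp)
  obtain ⟨ib, hb, rfl⟩ := hc b (by simp)
  obtain ⟨ic, hc', rfl⟩ := hc c (by simp)
  rcases at_three hi ha hb hc' with h | h | h | h | h | h
  · simp [h]
  · simp [h]
  · simp [h]
  · exact absurd (congrArg S.c h) hab
  · exact absurd (congrArg S.c h) hac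
  · exact absurd (congrArg S.c h) hbc

/-- the germs of a circle through `x` do not have the color of a tile at the centre -/
theorem gp_color_ne {v x : ℂ} (hx : dist x v = 1) {i j : S.ι} (hi : S.gp v x i) (hj : S.At v j) : S.c i ≠ S.c j := by
  obtain ⟨h, hh⟩ := hi.exists
  refine unit_closure hh hj ?_
  rw [dist_eq_norm, add_sub_cancel_left, norm_mul, norm_e, mul_one, ← dist_eq_norm, hx]

theorem gm_color_ne {v x : ℂ} (hx : dist x v = 1) {i j : S.ι} (hi : S.gm v x i) (hj : S.At v j) : S.c i ≠ S.c j := by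
  obtain ⟨h, hh⟩ := hi.exists
  refine unit_closure hh hj ?_
  rw [dist_eq_norm, add_sub_cancel_left, norm_mul, norm_e, mul_one, ← dist_eq_norm, hx]

theorem TripleOf.gp_not_mem {v : ℂ} {F : Finset (Fin 6)} (h : S.TripleOf v F) {x : ℂ} (hx : dist x v = 1) {i : S.ι}
    (hi : S.gp v x i) : S.c i ∉ F := by
  intro hc
  obtain ⟨j, hj, hj'⟩ := h.2 _ hc
  exact gp_color_ne hx hi hj hj'.symm

theorem TripleOf.gm_not_mem {v : ℂ} {F : Finset (Fin 6)} (h : S.TripleOf v F) {x : ℂ} (hx : dist x v = 1) {i : S.ι}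
    (hi : S.gm v x i) : S.c i ∉ F := by
  intro hc
  obtain ⟨j, hj, hj'⟩ := h.2 _ hc
  exact gm_color_ne hx hi hj hj'.symm

end TileSystem

end Pool.Agent.H923_Poly
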