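import Pool.Agent.H923_Poly.Defs

/-! Definitions for closed covers of the plane. -/

open Complex Filter Topology Set Metric

namespace Pool.Agent.H923_Poly

/-- A set without two points at distance one. -/
def UnitFree (A : Set ℂ) : Prop := ∀ x ∈ A, ∀ y ∈ A, dist x y ≠ 1

/-- `x` is a nearest site of `z` among the sites `X`. -/
def Nearest (X : Set ℂ) (z x : ℂ) : Prop := x ∈ X ∧ ∀ x' ∈ X, dist z x ≤ dist z x'

/-- The points all of whose nearest sites have color `a`. -/
def Gset (X : Set ℂ) (c : ℂ → Fin 6) (a : Fin 6) : Set ℂ := {z | ∀ x, Nearest X z x → c x = a}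

end Pool.Agent.H923_Poly
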