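import Pool.Agent.H923_Poly.S2Defs

/-! V1. Sites in the plane: locally finite, dense on a prescribed scale, no four on a circle. -/

open Complex Filter Topology Set Metric

namespace Pool.Agent.H923_Poly

/-- No four points of `F` are on a circle. -/
def GenPos (F : Set ℂ) : Prop := ∀ p r, (F ∩ sphere p r).encard ≤ 3

/-- The points on a circle through three given distinct points form a null set. -/
theorem circ_null (a b c : ℂ) (hab : a ≠ b) (hac : a ≠ c) (hbc : b ≠ c) :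
    MeasureTheory.volume {x : ℂ | ∃ p r, a ∈ sphere p r ∧ b ∈ sphere p r ∧ c ∈ sphere p r ∧ x ∈ sphere p r} = 0 := by
  by_cases h : ∃ (p : ℂ) (r : ℝ), a ∈ sphere p r ∧ b ∈ sphere p r ∧ c ∈ sphere p r
  · obtain ⟨p, r, ha, hb, hc⟩ := h
    refine MeasureTheory.measure_mono_null (t := sphere p r) ?_ (MeasureTheory.Measure.addHaar_sphere _ _ _)
    rintro x ⟨p', r', ha', hb', hc', hx⟩
    have hpp : p' = p := by
      by_contra hne
      rcases EuclideanGeometry.eq_of_dist_eq_of_dist_eq_of_finrank_eq_two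
        Complex.finrank_real_complex hne hab (mem_sphere.1 ha') (mem_sphere.1 hb') (mem_sphere.1 hc')
        (mem_sphere.1 ha) (mem_sphere.1 hb) (mem_sphere.1 hc) with h1 | h1
      · exact hac h1.symm
      · exact hbc h1.symm
    subst hpp
    have hrr : r' = r := by rw [← mem_sphere.1 ha', ← mem_sphere.1 ha]
    rw [hrr] at hx
    exact hx
  · refine MeasureTheory.measure_mono_null (t := ∅) ?_ MeasureTheory.measure_empty
    rintro x ⟨p', r', ha', hb', hc', hx⟩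
    exact h ⟨p', r', ha', hb', hc'⟩

/-- A point of an open set may be added to a finite set in general position. -/
theorem genPos_insert (F : Finset ℂ) (hF : GenPos (F : Set ℂ)) (B : Set ℂ) (hB : IsOpen B) (hne : B.Nonempty) :
    ∃ x ∈ B, GenPos ((insert x F : Finset ℂ) : Set ℂ) := by
  classical
  set bad : Set ℂ := ⋃ t ∈ (F ×ˢ F ×ˢ F : Finset (ℂ × ℂ × ℂ)),
    {x : ℂ | (t.1 ≠ t.2.1 ∧ t.1 ≠ t.2.2 ∧ t.2.1 ≠ t.2.2) ∧
      ∃ p r, t.1 ∈ sphere p r ∧ t.2.1 ∈ sphere p r ∧ t.2.2 ∈ sphere p r ∧ x ∈ sphere p r} with hbad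
  have hnull : MeasureTheory.volume bad = 0 := by
    rw [hbad]
    refine (MeasureTheory.measure_biUnion_null_iff (Finset.countable_toSet _)).2 ?_
    rintro ⟨a, b, c⟩ -
    by_cases h : a ≠ b ∧ a ≠ c ∧ b ≠ c
    · refine MeasureTheory.measure_mono_null ?_ (circ_null a b c h.1 h.2.1 h.2.2)
      rintro x ⟨-, hx⟩
      exact hx
    · refine MeasureTheory.measure_mono_null (t := ∅) ?_ MeasureTheory.measure_empty
      rintro x ⟨hx, -⟩
      exact h hx
  have hex : ∃ x ∈ B, x ∉ bad := by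
    by_contra hcon
    push Not at hcon
    have h1 : MeasureTheory.volume B = 0 := MeasureTheory.measure_mono_null hcon hnull
    exact (hB.measure_pos MeasureTheory.volume hne).ne' h1
  obtain ⟨x, hxB, hx⟩ := hex
  refine ⟨x, hxB, ?_⟩
  intro p r
  by_cases hxs : x ∈ sphere p r
  · have h2 : ((F : Set ℂ) ∩ sphere p r).encard ≤ 2 := by
      by_contra hcon
      have h3 : (3 : ℕ∞) ≤ ((F : Set ℂ) ∩ sphere p r).encard := by
        have : (2 : ℕ∞) < ((F : Set ℂ) ∩ sphere p r).encard := not_le.1 hcon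
        have := Order.add_one_le_of_lt this
        exact le_trans (le_of_eq (by norm_num)) this
      obtain ⟨t, hts, ht⟩ := Set.exists_subset_encard_eq h3
      obtain ⟨a, b, c, hab, hac, hbc, rfl⟩ := Set.encard_eq_three.1 ht
      have ha := hts (show a ∈ ({a, b, c} : Set ℂ) by simp)
      have hb := hts (show b ∈ ({a, b, c} : Set ℂ) by simp)
      have hc := hts (show c ∈ ({a, b, c} : Set ℂ) by simp)
      apply hx
      rw [hbad]
      simp only [Set.mem_iUnion]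
      refine ⟨(a, b, c), ?_, ⟨hab, hac, hbc⟩, p, r, ha.2, hb.2, hc.2, hxs⟩
      simp only [Finset.mem_product]
      exact ⟨Finset.mem_coe.1 ha.1, Finset.mem_coe.1 hb.1, Finset.mem_coe.1 hc.1⟩
    have h4 : ((insert x F : Finset ℂ) : Set ℂ) ∩ sphere p r ⊆ insert x ((F : Set ℂ) ∩ sphere p r) := by
      rintro y ⟨hy1, hy2⟩
      rw [Finset.coe_insert] at hy1
      rcases hy1 with rfl | hy1
      · exact Set.mem_insert _ _
      · exact Set.mem_insert_of_mem _ ⟨hy1, hy2⟩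
    calc _ ≤ (insert x ((F : Set ℂ) ∩ sphere p r)).encard := Set.encard_le_encard h4
      _ ≤ ((F : Set ℂ) ∩ sphere p r).encard + 1 := Set.encard_insert_le _ _
      _ ≤ 2 + 1 := by gcongr
      _ = 3 := by norm_num
  · refine le_trans (Set.encard_le_encard ?_) (hF p r)
    rintro y ⟨hy1, hy2⟩
    rw [Finset.coe_insert] at hy1
    rcases hy1 with rfl | hy1
    · exact absurd hy2 hxs
    · exact ⟨hy1, hy2⟩

/-- Points of finitely many open sets may be added to a finite set in general position. -/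
theorem genPos_steps (F : Finset ℂ) (hF : GenPos (F : Set ℂ)) (C : Finset ℂ) (ρ : ℝ) (hρ : 0 < ρ) :
    ∃ G : Finset ℂ, F ⊆ G ∧ GenPos (G : Set ℂ) ∧ (∀ x ∈ G, x ∈ F ∨ ∃ c ∈ C, dist x c < ρ) ∧
      ∀ c ∈ C, ∃ x ∈ G, dist x c < ρ := by
  classical
  induction C using Finset.induction_on with
  | empty => exact ⟨F, Finset.Subset.refl _, hF, fun x hx => Or.inl hx, by simp⟩
  | insert a s ha ih =>
    obtain ⟨G, hFG, hG, h1, h2⟩ := ih
    obtain ⟨x, hx, hG'⟩ := genPos_insert G hG (ball a ρ) isOpen_ball ⟨a, mem_ball_self hρ⟩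
    refine ⟨insert x G, hFG.trans (Finset.subset_insert _ _), hG', ?_, ?_⟩
    · intro y hy
      rcases Finset.mem_insert.1 hy with rfl | hy
      · exact Or.inr ⟨a, Finset.mem_insert_self _ _, mem_ball.1 hx⟩
      · rcases h1 y hy with h | ⟨c, hc, h⟩
        · exact Or.inl h
        · exact Or.inr ⟨c, Finset.mem_insert_of_mem hc, h⟩
    · intro c hc
      rcases Finset.mem_insert.1 hc with rfl | hc
      · exact ⟨x, Finset.mem_insert_self _ _, mem_ball.1 hx⟩
      · obtain ⟨y, hy, h⟩ := h2 c hc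
        exact ⟨y, Finset.mem_insert_of_mem hy, h⟩

/-- One layer of sites. -/
theorem genPos_layer (F : Finset ℂ) (hF : GenPos (F : Set ℂ)) (n : ℕ) (ρ : ℝ) (hρ : 0 < ρ) :
    ∃ G : Finset ℂ, F ⊆ G ∧ GenPos (G : Set ℂ) ∧ (∀ x ∈ G, x ∈ F ∨ (n : ℝ) - ρ < ‖x‖) ∧
      ∀ z : ℂ, (n : ℝ) ≤ ‖z‖ → ‖z‖ ≤ n + 1 → ∃ x ∈ G, dist z x < 2 * ρ := by
  classical
  have hK : IsCompact ({z : ℂ | (n : ℝ) ≤ ‖z‖ ∧ ‖z‖ ≤ n + 1}) := by
    refine IsCompact.of_isClosed_subset (isCompact_closedBall (0 : ℂ) (n + 1)) ?_ ?_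
    · exact (isClosed_le continuous_const continuous_norm).inter (isClosed_le continuous_norm continuous_const)
    · rintro z ⟨-, hz⟩
      simpa [mem_closedBall, dist_zero_right] using hz
  obtain ⟨t, htK, htf, hcov⟩ := hK.finite_cover_balls hρ
  obtain ⟨G, hFG, hG, h1, h2⟩ := genPos_steps F hF htf.toFinset ρ hρ
  refine ⟨G, hFG, hG, ?_, ?_⟩
  · intro x hx
    rcases h1 x hx with h | ⟨c, hc, h⟩
    · exact Or.inl h
    · right
      have hc' := htK (htf.mem_toFinset.1 hc)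
      have h3 : ‖c‖ ≤ ‖x‖ + dist x c := by
        have := norm_le_norm_add_norm_sub' c x
        rw [dist_eq_norm, norm_sub_rev]
        linarith
      have := hc'.1
      linarith
  · intro z hz1 hz2
    have hz : z ∈ ⋃ x ∈ t, ball x ρ := hcov ⟨hz1, hz2⟩
    simp only [Set.mem_iUnion] at hz
    obtain ⟨c, hc, hzc⟩ := hz
    obtain ⟨x, hx, hxc⟩ := h2 c (htf.mem_toFinset.2 hc)
    refine ⟨x, hx, ?_⟩
    have := dist_triangle_right z x c
    have := mem_ball.1 hzc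
    linarith

/-- V1. Sites. -/
theorem exists_sites (δ : ℝ → ℝ) (hδ : ∀ r, 0 < δ r) (hanti : Antitone δ) :
    ∃ X : Set ℂ, (∀ r, (X ∩ closedBall 0 r).Finite) ∧ (∀ z, ∃ x ∈ X, dist z x < δ ‖z‖) ∧
      ∀ p r, (X ∩ sphere p r).encard ≤ 3 := by
  classical
  have hρ : ∀ n : ℕ, 0 < min (δ (n + 1) / 2) 1 := fun n => lt_min (half_pos (hδ _)) one_pos
  have hstep : ∀ (n : ℕ) (F : {F : Finset ℂ // GenPos (F : Set ℂ)}), ∃ G : {F : Finset ℂ // GenPos (F : Set ℂ)},
      F.1 ⊆ G.1 ∧ (∀ x ∈ G.1, x ∈ F.1 ∨ (n : ℝ) - 1 < ‖x‖) ∧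
      ∀ z : ℂ, (n : ℝ) ≤ ‖z‖ → ‖z‖ ≤ n + 1 → ∃ x ∈ G.1, dist z x < δ ‖z‖ := by
    rintro n ⟨F, hF⟩
    obtain ⟨G, hFG, hG, h1, h2⟩ := genPos_layer F hF n _ (hρ n)
    refine ⟨⟨G, hG⟩, hFG, ?_, ?_⟩
    · intro x hx
      rcases h1 x hx with h | h
      · exact Or.inl h
      · right
        have := min_le_right (δ (n + 1) / 2) 1
        linarith
    · intro z hz1 hz2
      obtain ⟨x, hx, h⟩ := h2 z hz1 hz2
      refine ⟨x, hx, h.trans_le ?_⟩
      have h3 := min_le_left (δ (n + 1) / 2) 1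
      have h4 : δ (n + 1) ≤ δ ‖z‖ := hanti hz2
      linarith
  choose g hg1 hg2 hg3 using hstep
  have hempty : GenPos ((∅ : Finset ℂ) : Set ℂ) := by
    intro p r
    simp
  let Φ : ℕ → {F : Finset ℂ // GenPos (F : Set ℂ)} := fun n => Nat.rec ⟨∅, hempty⟩ (fun n F => g n F) n
  have hΦ0 : (Φ 0).1 = ∅ := rfl
  have hΦs : ∀ n, Φ (n + 1) = g n (Φ n) := fun n => rfl
  have hmono : Monotone fun n => ((Φ n).1 : Set ℂ) := by
    refine monotone_nat_of_le_succ fun n => ?_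
    have := hg1 n (Φ n)
    rw [← hΦs] at this
    exact Finset.coe_subset.2 this
  have hnorm : ∀ N n : ℕ, N ≤ n → ∀ x ∈ (Φ n).1, x ∈ (Φ N).1 ∨ (N : ℝ) - 1 < ‖x‖ := by
    intro N n hNn
    induction n, hNn using Nat.le_induction with
    | base => exact fun x hx => Or.inl hx
    | succ n hNn ih =>
      intro x hx
      rw [hΦs] at hx
      rcases hg2 n (Φ n) x hx with h | h
      · exact ih x h
      · right
        have : (N : ℝ) ≤ n := by exact_mod_cast hNn
        linarith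
  refine ⟨⋃ n, ((Φ n).1 : Set ℂ), ?_, ?_, ?_⟩
  · intro r
    obtain ⟨N, hN⟩ := exists_nat_ge (r + 1)
    refine (Finset.finite_toSet (Φ N).1).subset ?_
    rintro x ⟨hx, hxr⟩
    obtain ⟨n, hn⟩ := Set.mem_iUnion.1 hx
    rcases le_total n N with h | h
    · exact hmono h hn
    · rcases hnorm N n h x hn with h' | h'
      · exact h'
      · rw [mem_closedBall, dist_zero_right] at hxr
        linarith
  · intro z
    have h1 : ((⌊‖z‖⌋₊ : ℕ) : ℝ) ≤ ‖z‖ := Nat.floor_le (norm_nonneg z)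
    have h2 : ‖z‖ ≤ (⌊‖z‖⌋₊ : ℕ) + 1 := (Nat.lt_floor_add_one _).le
    obtain ⟨x, hx, h⟩ := hg3 ⌊‖z‖⌋₊ (Φ ⌊‖z‖⌋₊) z h1 h2
    refine ⟨x, Set.mem_iUnion.2 ⟨⌊‖z‖⌋₊ + 1, ?_⟩, h⟩
    rw [hΦs]
    exact hx
  · intro p r
    by_contra hcon
    have h4 : (4 : ℕ∞) ≤ ((⋃ n, ((Φ n).1 : Set ℂ)) ∩ sphere p r).encard := by
      have := Order.add_one_le_of_lt (not_le.1 hcon)
      exact le_trans (le_of_eq (by norm_num)) this
    obtain ⟨t, hts, ht⟩ := Set.exists_subset_encard_eq h4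
    have htf : t.Finite := Set.finite_of_encard_eq_coe (k := 4) ht
    obtain ⟨N, hN⟩ := (directed_of_isDirected_le hmono).exists_mem_subset_of_finset_subset_biUnion
      (s := htf.toFinset) (by rw [htf.coe_toFinset]; exact fun x hx => (hts hx).1)
    rw [htf.coe_toFinset] at hN
    have h6 : t ⊆ ((Φ N).1 : Set ℂ) ∩ sphere p r := fun x hx => ⟨hN hx, (hts hx).2⟩
    have h5 : t.encard ≤ 3 := le_trans (Set.encard_le_encard h6) ((Φ N).2 p r)
    rw [ht] at h5
    exact absurd h5 (by decide)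

end Pool.Agent.H923_Poly
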